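import Pool.Agent.Helper39.DC.DUAlg

/-!
# DC-02 (project DC): the algebra of `AcR`

`κ` is a commutative ring with `p = 0` in `κ` (`hκ`), `p` prime. Compare DB/AcAlg.lean. Write `D = DU S (b ^ p)`, `y = yy b c`,
`𝔇(f, g) = (D f - y ^ (p-1) g, y f - D g)` (here `y g` means `x ↦ y (g x)`).

* `yy_act`: `y` commutes with `ρ g`. `yy_mem`: `y` preserves stable submodules, and so do its powers.
* `yy_pow`: `y ^ p u = ∑ b i ^ p • (ρ (z i) u - u)`: the `b i • (c i - 1)` commute pairwise, and for commuting endomorphisms of a module killed by `p`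
  the `p`-th power is additive (e.g. work in `Module.End κ U`, where `(p : Module.End κ U) = 0`; `Commute.add_pow_prime_eq` or
  `add_pow_eq...`: `(x + y) ^ p = x ^ p + y ^ p + p * r`), `(c i - 1) ^ p = c i ^ p - 1`, `hc.pow`.
* `𝔇 𝔇 = 0` on equivariant pairs: `D (D f) = ∑ b i ^ p • (f ∘ z i - f) = y ^ p f` for equivariant `f` (`DU_DU`, `yy_pow`), and `D` commutes with `y`
  (`DU_comp`).
* `AcR.trans`, `AcR.inner`: exactly as `Ac.trans`, `Ac.inner` in DB/AcAlg.lean.
-/

set_option autoImplicit false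
set_option linter.unusedVariables false

namespace Pool.Agent.Helper39.DC

open Finset Pool.Agent.Helper27.Mess Pool.Agent.Helper39.DB
open scoped IsMulCommutative

variable {Γ : Type*} [Group Γ] {C : Type*} [AddCommGroup C] [Module (MonoidAlgebra ℤ Γ) C]
  {κ : Type*} [CommRing κ] {U : Type*} [AddCommGroup U] [Module κ U] {G : GrRes Γ C} {d p : ℕ}
  {z : Fin d → Subgroup.center Γ} {ρ : Representation κ Γ U} {c : Fin d → Module.End κ U}
  {b : Fin d → κ} {S : DSys G z}

theorem yy_act (hc : RotV p z ρ c) (b : Fin d → κ) (g : Γ) : Commute (yy b c) (ρ g) := by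
  unfold yy
  exact Commute.sum_left _ _ _ fun i _ =>
    ((hc.act i g).sub_left (Commute.one_left _)).smul_left (b i)

private theorem yy_apply (b : Fin d → κ) (c : Fin d → Module.End κ U) (u : U) :
    yy b c u = ∑ i, b i • (c i u - u) := by
  unfold yy
  rw [LinearMap.sum_apply]
  rfl

theorem yy_mem {V : Submodule κ U} (hV : StbV ρ c V) (b : Fin d → κ) (i : ℕ) {u : U}
    (hu : u ∈ V) : (yy b c ^ i) u ∈ V := by
  induction i with
  | zero => exact hu
  | succ i ih =>
    rw [pow_succ']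
    change yy b c ((yy b c ^ i) u) ∈ V
    rw [yy_apply]
    exact V.sum_mem fun j _ => V.smul_mem _ (V.sub_mem (hV.rot j _ ih) ih)

private theorem natCast_end_zero (hκ : (p : κ) = 0) : ((p : ℕ) : Module.End κ U) = 0 := by
  apply LinearMap.ext
  intro u
  rw [Module.End.natCast_apply, ← Nat.cast_smul_eq_nsmul κ, hκ, zero_smul]
  rfl

private theorem add_pow_end (hp : p.Prime) (hκ : (p : κ) = 0) {x y : Module.End κ U}
    (h : Commute x y) : (x + y) ^ p = x ^ p + y ^ p := by
  obtain ⟨r, hr⟩ := h.exists_add_pow_prime_eq hp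
  rw [hr, natCast_end_zero hκ]
  simp

private theorem sum_pow_end (hp : p.Prime) (hκ : (p : κ) = 0) (e : Fin d → Module.End κ U)
    (h : ∀ i j, Commute (e i) (e j)) (s : Finset (Fin d)) :
    (∑ i ∈ s, e i) ^ p = ∑ i ∈ s, e i ^ p := by
  classical
  induction s using Finset.induction_on with
  | empty =>
    rw [sum_empty, sum_empty, zero_pow hp.ne_zero]
  | insert a s ha ih =>
    rw [sum_insert ha, sum_insert ha, add_pow_end hp hκ, ih]
    exact Commute.sum_right _ _ _ fun j _ => h a j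

theorem yy_pow (hp : p.Prime) (hκ : (p : κ) = 0) (hc : RotV p z ρ c) (b : Fin d → κ) (u : U) :
    (yy b c ^ p) u = ∑ i, b i ^ p • (ρ (z i : Γ) u - u) := by
  unfold yy
  rw [sum_pow_end hp hκ _ _ univ, LinearMap.sum_apply]
  · refine sum_congr rfl fun i _ => ?_
    have h1 : (c i - 1) ^ p = c i ^ p - 1 := by
      have h2 := add_pow_end (x := c i - 1) (y := 1) hp hκ (Commute.one_right _)
      rw [sub_add_cancel, one_pow] at h2
      rw [h2, add_sub_cancel_right]
    rw [smul_pow, h1, hc.pow i]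
    rfl
  · intro i j
    have h1 : Commute (c i - 1) (c j - 1) :=
      ((hc.comm i j).sub_left (Commute.one_left _)).sub_right
        ((Commute.one_right _).sub_left (Commute.one_left _))
    exact (h1.smul_left (b i)).smul_right (b j)

theorem DU_sq (hp : p.Prime) (hκ : (p : κ) = 0) (hc : RotV p z ρ c) (S : DSys G z)
    (b : Fin d → κ) {f : C →+ U} (hf : EqvR ρ f) (x : C) :
    DU S (fun i => b i ^ p) (DU S (fun i => b i ^ p) f) x = (yy b c ^ p) (f x) := by
  rw [DU_DU, yy_pow hp hκ hc]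
  exact sum_congr rfl fun i _ => by rw [hf]

theorem StbV.top : StbV ρ c (⊤ : Submodule κ U) :=
  ⟨fun _ _ _ => Submodule.mem_top, fun _ _ _ => Submodule.mem_top⟩

theorem StbV.bot : StbV ρ c (⊥ : Submodule κ U) := by
  constructor
  · intro g u hu
    rw [Submodule.mem_bot] at hu ⊢
    rw [hu, map_zero]
  · intro i u hu
    rw [Submodule.mem_bot] at hu ⊢
    rw [hu, map_zero]

theorem AcR.refl (V : Submodule κ U) : AcR p S b ρ c V V := by
  intro f g _ _ hf hg _ _
  refine ⟨0, 0, ?_, ?_, ?_, ?_, ?_, ?_⟩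
  · intro g x
    simp
  · intro g x
    simp
  · intro x
    exact V.zero_mem
  · intro x
    exact V.zero_mem
  · intro x
    rw [DU_zero, AddMonoidHom.zero_apply, map_zero, sub_zero, sub_zero]
    exact hf x
  · intro x
    rw [DU_zero, AddMonoidHom.zero_apply, map_zero, sub_zero, sub_zero]
    exact hg x

/-- the first component of the differential -/
private noncomputable def dA (p : ℕ) (S : DSys G z) (b : Fin d → κ) (c : Fin d → Module.End κ U)
    (f g : C →+ U) : C →+ U :=
  DU S (fun i => b i ^ p) f - (yy b c ^ (p - 1)).toAddMonoidHom.comp g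

/-- the second component of the differential -/
private noncomputable def dB (p : ℕ) (S : DSys G z) (b : Fin d → κ) (c : Fin d → Module.End κ U)
    (f g : C →+ U) : C →+ U :=
  (yy b c).toAddMonoidHom.comp f - DU S (fun i => b i ^ p) g

private theorem dA_apply (f g : C →+ U) (x : C) :
    dA p S b c f g x = DU S (fun i => b i ^ p) f x - (yy b c ^ (p - 1)) (g x) := rfl

private theorem dB_apply (f g : C →+ U) (x : C) :
    dB p S b c f g x = yy b c (f x) - DU S (fun i => b i ^ p) g x := rfl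

private theorem end_comm {A B : Module.End κ U} (h : Commute A B) (u : U) : A (B u) = B (A u) :=
  congrArg (fun T : Module.End κ U => T u) h

private theorem dA_eqv (hc : RotV p z ρ c) {f g : C →+ U} (hf : EqvR ρ f) (hg : EqvR ρ g) :
    EqvR ρ (dA p S b c f g) := by
  intro a x
  rw [dA_apply, dA_apply, DU_eqv S _ hf, hg, map_sub,
    end_comm ((yy_act hc b a).pow_left (p - 1))]

private theorem dB_eqv (hc : RotV p z ρ c) {f g : C →+ U} (hf : EqvR ρ f) (hg : EqvR ρ g) :
    EqvR ρ (dB p S b c f g) := by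
  intro a x
  rw [dB_apply, dB_apply, DU_eqv S _ hg, hf, map_sub, end_comm (yy_act hc b a)]

private theorem yy_pow_pred (hp : p.Prime) (u : U) :
    (yy b c ^ (p - 1)) (yy b c u) = (yy b c ^ p) u := by
  have h : yy b c ^ p = yy b c ^ (p - 1) * yy b c := by
    rw [← pow_succ, Nat.sub_add_cancel hp.one_le]
  rw [h]
  rfl

private theorem yy_pow_pred' (hp : p.Prime) (u : U) :
    yy b c ((yy b c ^ (p - 1)) u) = (yy b c ^ p) u := by
  have h : yy b c ^ p = yy b c * yy b c ^ (p - 1) := by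
    rw [← pow_succ', Nat.sub_add_cancel hp.one_le]
  rw [h]
  rfl

private theorem dd1 (hp : p.Prime) (hκ : (p : κ) = 0) (hc : RotV p z ρ c) {f g : C →+ U}
    (hf : EqvR ρ f) (x : C) :
    DU S (fun i => b i ^ p) (dA p S b c f g) x - (yy b c ^ (p - 1)) (dB p S b c f g x) = 0 := by
  unfold dA
  rw [DU_sub, AddMonoidHom.sub_apply, DU_comp, DU_sq hp hκ hc S b hf, dB_apply, map_sub,
    yy_pow_pred hp]
  abel

private theorem dd2 (hp : p.Prime) (hκ : (p : κ) = 0) (hc : RotV p z ρ c) {f g : C →+ U}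
    (hg : EqvR ρ g) (x : C) :
    yy b c (dA p S b c f g x) - DU S (fun i => b i ^ p) (dB p S b c f g) x = 0 := by
  unfold dB
  rw [DU_sub, AddMonoidHom.sub_apply, DU_comp, DU_sq hp hκ hc S b hg, dA_apply, map_sub,
    yy_pow_pred' hp]
  abel

/-- the difference with a differential has the same differential -/
private theorem sub_d1 (hp : p.Prime) (hκ : (p : κ) = 0) (hc : RotV p z ρ c) {f g α β : C →+ U}
    (hα : EqvR ρ α) (x : C) :
    DU S (fun i => b i ^ p) (f - dA p S b c α β) x -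
      (yy b c ^ (p - 1)) ((g - dB p S b c α β) x) =
      DU S (fun i => b i ^ p) f x - (yy b c ^ (p - 1)) (g x) := by
  have h := dd1 (S := S) (b := b) (g := β) hp hκ hc hα x
  rw [DU_sub, AddMonoidHom.sub_apply, AddMonoidHom.sub_apply, map_sub]
  have h2 := sub_eq_zero.1 h
  rw [h2]
  abel

private theorem sub_d2 (hp : p.Prime) (hκ : (p : κ) = 0) (hc : RotV p z ρ c) {f g α β : C →+ U}
    (hβ : EqvR ρ β) (x : C) :
    yy b c ((f - dA p S b c α β) x) - DU S (fun i => b i ^ p) (g - dB p S b c α β) x =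
      yy b c (f x) - DU S (fun i => b i ^ p) g x := by
  have h := dd2 (S := S) (b := b) (f := α) hp hκ hc hβ x
  rw [DU_sub, AddMonoidHom.sub_apply, AddMonoidHom.sub_apply, map_sub]
  have h2 := (sub_eq_zero.1 h).symm
  rw [h2]
  abel

private theorem sub_eqv {f g : C →+ U} (hf : EqvR ρ f) (hg : EqvR ρ g) : EqvR ρ (f - g) := by
  intro a x
  rw [AddMonoidHom.sub_apply, AddMonoidHom.sub_apply, hf, hg, map_sub]

private theorem add_eqv {f g : C →+ U} (hf : EqvR ρ f) (hg : EqvR ρ g) : EqvR ρ (f + g) := by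
  intro a x
  rw [AddMonoidHom.add_apply, AddMonoidHom.add_apply, hf, hg, map_add]

theorem AcR.trans (hp : p.Prime) (hκ : (p : κ) = 0) (hc : RotV p z ρ c) {U2 U1 U0 : Submodule κ U}
    (h0 : U0 ≤ U1) (h1 : U1 ≤ U2) (s2 : StbV ρ c U2) (s1 : StbV ρ c U1) (s0 : StbV ρ c U0)
    (h21 : AcR p S b ρ c U2 U1) (h10 : AcR p S b ρ c U1 U0) : AcR p S b ρ c U2 U0 := by
  intro f g hf hg mf mg df dg
  obtain ⟨α, β, eα, eβ, mα, mβ, r1, r2⟩ :=
    h21 f g hf hg mf mg (fun x => h0 (df x)) (fun x => h0 (dg x))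
  obtain ⟨α', β', eα', eβ', mα', mβ', r1', r2'⟩ :=
    h10 (f - dA p S b c α β) (g - dB p S b c α β) (sub_eqv hf (dA_eqv hc eα eβ))
      (sub_eqv hg (dB_eqv hc eα eβ)) r1 r2
      (fun x => by rw [sub_d1 hp hκ hc eα]; exact df x)
      (fun x => by rw [sub_d2 hp hκ hc eβ]; exact dg x)
  refine ⟨α + α', β + β', add_eqv eα eα', add_eqv eβ eβ',
    fun x => U2.add_mem (mα x) (h1 (mα' x)), fun x => U2.add_mem (mβ x) (h1 (mβ' x)),
    fun x => ?_, fun x => ?_⟩
  · have h := r1' x
    rw [AddMonoidHom.sub_apply, dA_apply] at h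
    rw [DU_add, AddMonoidHom.add_apply, AddMonoidHom.add_apply, map_add]
    have e : f x - (DU S (fun i => b i ^ p) α x + DU S (fun i => b i ^ p) α' x -
        ((yy b c ^ (p - 1)) (β x) + (yy b c ^ (p - 1)) (β' x))) =
        f x - (DU S (fun i => b i ^ p) α x - (yy b c ^ (p - 1)) (β x)) -
          (DU S (fun i => b i ^ p) α' x - (yy b c ^ (p - 1)) (β' x)) := by abel
    rw [e]
    exact h
  · have h := r2' x
    rw [AddMonoidHom.sub_apply, dB_apply] at h
    rw [DU_add, AddMonoidHom.add_apply, AddMonoidHom.add_apply, map_add]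
    have e : g x - (yy b c (α x) + yy b c (α' x) - (DU S (fun i => b i ^ p) β x +
        DU S (fun i => b i ^ p) β' x)) =
        g x - (yy b c (α x) - DU S (fun i => b i ^ p) β x) -
          (yy b c (α' x) - DU S (fun i => b i ^ p) β' x) := by abel
    rw [e]
    exact h

theorem AcR.inner (hp : p.Prime) (hκ : (p : κ) = 0) (hc : RotV p z ρ c) {U2 U1 U0 : Submodule κ U}
    (h0 : U0 ≤ U1) (h1 : U1 ≤ U2) (s2 : StbV ρ c U2) (s1 : StbV ρ c U1) (s0 : StbV ρ c U0)
    (h20 : AcR p S b ρ c U2 U0) (h21 : AcR p S b ρ c U2 U1) : AcR p S b ρ c U1 U0 := by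
  intro f g hf hg mf mg df dg
  obtain ⟨α, β, eα, eβ, mα, mβ, r1, r2⟩ :=
    h20 f g hf hg (fun x => h1 (mf x)) (fun x => h1 (mg x)) df dg
  have d1 : ∀ x, DU S (fun i => b i ^ p) α x - (yy b c ^ (p - 1)) (β x) ∈ U1 := by
    intro x
    have e : DU S (fun i => b i ^ p) α x - (yy b c ^ (p - 1)) (β x) =
        f x - (f x - (DU S (fun i => b i ^ p) α x - (yy b c ^ (p - 1)) (β x))) := by abel
    rw [e]
    exact U1.sub_mem (mf x) (h0 (r1 x))
  have d2 : ∀ x, yy b c (α x) - DU S (fun i => b i ^ p) β x ∈ U1 := by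
    intro x
    have e : yy b c (α x) - DU S (fun i => b i ^ p) β x =
        g x - (g x - (yy b c (α x) - DU S (fun i => b i ^ p) β x)) := by abel
    rw [e]
    exact U1.sub_mem (mg x) (h0 (r2 x))
  obtain ⟨α', β', eα', eβ', mα', mβ', r1', r2'⟩ := h21 α β eα eβ mα mβ d1 d2
  refine ⟨α - dA p S b c α' β', β - dB p S b c α' β', sub_eqv eα (dA_eqv hc eα' eβ'),
    sub_eqv eβ (dB_eqv hc eα' eβ'), r1', r2', fun x => ?_, fun x => ?_⟩
  · rw [sub_d1 hp hκ hc eα']
    exact r1 x
  · rw [sub_d2 hp hκ hc eβ']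
    exact r2 x

end Pool.Agent.Helper39.DC
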