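import Pool.Agent.Helper39.DB.Theta

/-!
# DC-20 (project DC): comparison of two systems by an automorphism

In the proof of `compare` (DB/Theta.lean) `Θ = ∑_{k ≤ L} θ k`, `θ 0 = 1`, `θ k (π i x) = π (i + 2 k) (θ k x)` (`th_exists`, `th_Q`). So `N = Θ - 1 = ∑_{k ≥ 1} θ k` raises the degree by at least `2`, and `N ^ (n + 1) = 0` (degrees are between `0` and `n`): `Θ` is
bijective (`1 + N` with `N` nilpotent is a unit: `IsNilpotent.isUnit_one_add`). Copy the proof of `compare` and add this.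
-/

set_option autoImplicit false

namespace Pool.Agent.Helper39.DC

open Finset Pool.Agent.Helper27.Mess Pool.Agent.Helper39.DB
open scoped IsMulCommutative

variable {Γ : Type*} [Group Γ] {C : Type*} [AddCommGroup C] [Module (MonoidAlgebra ℤ Γ) C]

private theorem cu_pow (G : GrRes Γ C) (N : Module.End (MonoidAlgebra ℤ Γ) C)
    (hN : ∀ (i j : ℤ) (x : C), j < i + 2 → G.π j (N (G.π i x)) = 0) (m : ℕ) :
    ∀ (i j : ℤ) (x : C), j < i + 2 * (m : ℤ) → G.π j ((N ^ m) (G.π i x)) = 0 := by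
  induction m with
  | zero =>
    intro i j x hj
    rw [pow_zero, Module.End.one_apply]
    exact G.π_ne _ _ _ (by
      rintro rfl
      simp at hj)
  | succ m ih =>
    intro i j x hj
    rw [pow_succ, Module.End.mul_apply]
    have e : (N ^ m) (N (G.π i x)) =
        ∑ l ∈ range (G.n + 1), (N ^ m) (G.π (l : ℤ) (N (G.π i x))) := by
      rw [← map_sum, G.π_sum]
    rw [e, map_sum]
    refine sum_eq_zero fun l _ => ?_
    rcases lt_or_ge (l : ℤ) (i + 2) with h | h
    · rw [hN i l x h, map_zero, map_zero]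
    · apply ih
      push_cast at hj
      linarith

private theorem cu_nil (G : GrRes Γ C) (N : Module.End (MonoidAlgebra ℤ Γ) C)
    (hN : ∀ (i j : ℤ) (x : C), j < i + 2 → G.π j (N (G.π i x)) = 0) : N ^ (G.n + 1) = 0 := by
  apply LinearMap.ext
  intro x
  refine th_ext (F := N ^ (G.n + 1)) (F' := 0) G ?_ x
  intro i y
  rw [LinearMap.zero_apply]
  rcases lt_or_ge i 0 with h | h
  · rw [G.π_neg _ _ h, map_zero]
  · rw [← G.π_sum ((N ^ (G.n + 1)) (G.π i y))]
    refine sum_eq_zero fun j hj => ?_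
    rw [mem_range] at hj
    apply cu_pow G N hN
    have : (j : ℤ) < G.n + 1 := by exact_mod_cast hj
    push_cast
    linarith

theorem compareU [Module.Projective (MonoidAlgebra ℤ Γ) C] {G : GrRes Γ C} {z : Γ}
    (S S' : HSys G z) : ∃ Θ : C ≃ₗ[MonoidAlgebra ℤ Γ] C, ∀ x, S'.T (Θ x) = Θ (S.T x) := by
  set L : ℕ := G.n + S.K + S'.K with hL
  obtain ⟨θ, h0, hdeg, -, hrel⟩ := th_exists S S' (2 * L)
  have hθ0 : ∀ k, L < k → ∀ x, θ k x = 0 := by
    intro k hk x
    refine th_ext (F := θ k) (F' := 0) G ?_ x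
    intro i x
    rw [LinearMap.zero_apply]
    rcases lt_or_ge i 0 with h | h
    · rw [G.π_neg _ _ h, map_zero]
    · rw [hdeg, G.π_big]
      have : (L : ℤ) < k := by exact_mod_cast hk
      have h2 : (L : ℤ) = G.n + S.K + S'.K := by
        rw [hL]
        push_cast
        ring
      have h3 : (0 : ℤ) ≤ S.K := Int.natCast_nonneg _
      have h4 : (0 : ℤ) ≤ S'.K := Int.natCast_nonneg _
      have h5 : (0 : ℤ) ≤ G.n := Int.natCast_nonneg _
      linarith
  have hrel' : ∀ k, k ≤ 2 * L → ∀ x, ∑ q ∈ antidiagonal k, S'.h q.1 (θ q.2 x) =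
      ∑ q ∈ antidiagonal k, θ q.1 (S.h q.2 x) := by
    intro k hk x
    have h := LinearMap.congr_fun (hrel k hk) x
    rw [LinearMap.sub_apply, LinearMap.sum_apply, LinearMap.sum_apply, LinearMap.zero_apply] at h
    exact sub_eq_zero.1 h
  have hΘ : ∀ x, (∑ k ∈ range (L + 1), θ k : Module.End (MonoidAlgebra ℤ Γ) C) x =
      ∑ k ∈ range (L + 1), θ k x := by
    intro x
    rw [LinearMap.sum_apply]
  -- bijectivity
  set N : Module.End (MonoidAlgebra ℤ Γ) C := ∑ k ∈ range L, θ (k + 1) with hNd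
  have hN : ∀ (i j : ℤ) (x : C), j < i + 2 → G.π j (N (G.π i x)) = 0 := by
    intro i j x hj
    rw [hNd, LinearMap.sum_apply, map_sum]
    refine sum_eq_zero fun k _ => ?_
    rw [hdeg]
    apply G.π_ne
    have hk : (0 : ℤ) ≤ k := Int.natCast_nonneg _
    push_cast
    intro h
    linarith
  have hnil : IsNilpotent N := ⟨G.n + 1, cu_nil G N hN⟩
  have e0 : (∑ k ∈ range (L + 1), θ k : Module.End (MonoidAlgebra ℤ Γ) C) = 1 + N := by
    rw [sum_range_succ', h0, hNd, add_comm]
  have hbij : Function.Bijective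
      (∑ k ∈ range (L + 1), θ k : Module.End (MonoidAlgebra ℤ Γ) C) := by
    rw [← Module.End.isUnit_iff, e0]
    exact hnil.isUnit_one_add
  refine ⟨LinearEquiv.ofBijective
    (∑ k ∈ range (L + 1), θ k : Module.End (MonoidAlgebra ℤ Γ) C) hbij, fun x => ?_⟩
  rw [LinearEquiv.ofBijective_apply, LinearEquiv.ofBijective_apply,
    S'.T_apply_of_le (L := L) (by omega), S.T_apply_of_le (L := L) (by omega), hΘ, hΘ]
  have e1 : ∑ k ∈ range (L + 1), S'.h k (∑ j ∈ range (L + 1), θ j x) =
      ∑ k ∈ range (L + 1), ∑ j ∈ range (L + 1), S'.h k (θ j x) :=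
    sum_congr rfl fun k _ => map_sum _ _ _
  have e2 : ∑ k ∈ range (L + 1), θ k (∑ j ∈ range (L + 1), S.h j x) =
      ∑ k ∈ range (L + 1), ∑ j ∈ range (L + 1), θ k (S.h j x) :=
    sum_congr rfl fun k _ => map_sum _ _ _
  rw [e1, e2, th_sum L (fun i j => S'.h i (θ j x)), th_sum L (fun i j => θ i (S.h j x))]
  · refine sum_congr rfl fun k hk => ?_
    rw [mem_range] at hk
    exact hrel' k (by omega) x
  · intro i j hij
    change θ i (S.h j x) = 0
    rcases hij with h | h
    · exact hθ0 i h _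
    · rw [S.h_out j (by omega), LinearMap.zero_apply, map_zero]
  · intro i j hij
    change S'.h i (θ j x) = 0
    rcases hij with h | h
    · rw [S'.h_out i (by omega), LinearMap.zero_apply]
    · rw [hθ0 j h, map_zero]

end Pool.Agent.Helper39.DC
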