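import Pool.Agent.Helper39.DB.Param

/-!
# DC-21 (project DC): change of the parameter for arbitrary cocycles

Compare `scale_up` in DB/Param.lean. `S : HSys G z`, `m : ℤ`, `n = G.n`; `D_m f x = ∑_k m ^ k • f (S.h k x)`, `D_1 f = f ∘ S.T` (`HSys.T_apply`). For a function `w : ℕ → ℤ` let `W w f x = ∑ i ∈ range (n + 1), w i • f (π i x)`; it is invariant if `f` is, and
`W w f (y) = w i • f y` if `π i y = y` with `0 ≤ i ≤ n` (and if `y = π i y` with `i > n` or `i < 0` then `y = 0`).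
Let `f` be invariant with `D_m f = 0`. Put `f' = W w f`, `w i = m ^ ((i + 1) / 2)` (natural division). For `x = π j x`, `0 ≤ j ≤ n`: `S.h k x` has degree `j + 2 k - 1` (`h_deg`), and `w (j + 2 k - 1) = m ^ (k + j / 2)` when `j + 2k - 1 ≥ 0`
(`(j + 2 k) / 2 = k + j / 2`), so `f' (S.T x) = m ^ (j / 2) • D_m f x = 0`.
Given an invariant `φ` with `φ (S.T x) = e • f' x`, put `ψ = W w' φ`, `w' i = m ^ (n - i / 2)`. For `x` of degree `j`: in `D_m ψ x = ∑_k m ^ k m ^ (n - (j + 2 k - 1) / 2) • φ (S.h k x)` the exponent is: for `j ≥ 1`, `(j + 2k - 1) / 2 = k + (j - 1) / 2`, so it is `n - (j-1)/2`;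
for `j = 0`, `k ≥ 1`: `(2 k - 1) / 2 = k - 1`, so it is `n + 1` (`k = 0`: `S.h 0 x` has degree `-1`, so it is `0`). So `D_m ψ x = m ^ E • φ (S.T x) = m ^ E e • f' x = m ^ E e m ^ ((j + 1)/2) • f x` with `E = n - (j - 1)/2` resp. `n + 1`, and `E + (j + 1)/2 = n + 1` in all cases.
-/

set_option autoImplicit false

namespace Pool.Agent.Helper39.DC

open Finset Pool.Agent.Helper27.Mess Pool.Agent.Helper39.DB
open scoped IsMulCommutative

variable {Γ : Type*} [Group Γ] {C : Type*} [AddCommGroup C] [Module (MonoidAlgebra ℤ Γ) C]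
  {G : GrRes Γ C}

private noncomputable def wgt (G : GrRes Γ C) {M : Type*} [AddCommGroup M] (w : ℕ → ℤ)
    (f : C →+ M) : C →+ M :=
  AddMonoidHom.mk' (fun x => ∑ i ∈ range (G.n + 1), w i • f (G.π (i : ℤ) x)) (by
    intro a b
    rw [← Finset.sum_add_distrib]
    refine Finset.sum_congr rfl fun i _ => ?_
    rw [map_add, map_add, smul_add])

private theorem wgt_apply (G : GrRes Γ C) {M : Type*} [AddCommGroup M] (w : ℕ → ℤ)
    (f : C →+ M) (x : C) : wgt G w f x = ∑ i ∈ range (G.n + 1), w i • f (G.π (i : ℤ) x) := rfl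

private theorem wgt_ivt (G : GrRes Γ C) {M : Type*} [AddCommGroup M] (w : ℕ → ℤ)
    {f : C →+ M} (hf : Ivt Γ f) : Ivt Γ (wgt G w f) := by
  intro g x
  rw [wgt_apply, wgt_apply]
  refine Finset.sum_congr rfl fun i _ => ?_
  rw [map_act, hf]

private theorem wgt_piece (G : GrRes Γ C) {M : Type*} [AddCommGroup M] (w : ℕ → ℤ)
    (f : C →+ M) {i : ℕ} {y : C} (hy : G.π (i : ℤ) y = y) (hin : i ≤ G.n) :
    wgt G w f y = w i • f y := by
  rw [wgt_apply, Finset.sum_eq_single i]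
  · rw [hy]
  · intro j _ hj
    have hne : (j : ℤ) ≠ (i : ℤ) := by exact_mod_cast hj
    rw [← hy, G.π_ne _ _ _ hne, map_zero, smul_zero]
  · intro h1
    exact absurd (mem_range.2 (by omega)) h1

private theorem ext_pieces (G : GrRes Γ C) {M : Type*} [AddCommGroup M] {A B : C →+ M}
    (h : ∀ (j : ℕ), j ≤ G.n → ∀ x, A (G.π (j : ℤ) x) = B (G.π (j : ℤ) x)) (x : C) : A x = B x := by
  rw [← G.π_sum x, map_sum, map_sum]
  refine Finset.sum_congr rfl fun j hj => ?_
  rw [mem_range] at hj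
  exact h j (by omega) x

/-- The combination `∑_k m ^ k • f (h k x)` as an additive map. -/
private noncomputable def Dm {z : Γ} (S : HSys G z) {M : Type*} [AddCommGroup M] (m : ℤ)
    (f : C →+ M) : C →+ M :=
  AddMonoidHom.mk' (fun x => ∑ k ∈ range (S.K + 1), m ^ k • f (S.h k x)) (by
    intro a b
    rw [← Finset.sum_add_distrib]
    refine Finset.sum_congr rfl fun k _ => ?_
    rw [map_add, map_add, smul_add])

private theorem Dm_apply {z : Γ} (S : HSys G z) {M : Type*} [AddCommGroup M] (m : ℤ)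
    (f : C →+ M) (x : C) : Dm S m f x = ∑ k ∈ range (S.K + 1), m ^ k • f (S.h k x) := rfl

/-- The components of `h k x` for `x` of degree `j`. -/
private theorem deg_cases {z : Γ} (S : HSys G z) (j : ℕ) (x : C) (k : ℕ) :
    S.h k (G.π (j : ℤ) x) = 0 ∨ ∃ i : ℕ, (i : ℤ) = (j : ℤ) + 2 * (k : ℤ) - 1 ∧ i ≤ G.n ∧
      G.π (i : ℤ) (S.h k (G.π (j : ℤ) x)) = S.h k (G.π (j : ℤ) x) := by
  have hdeg : G.π ((j : ℤ) + 2 * (k : ℤ) - 1) (S.h k (G.π (j : ℤ) x)) =
      S.h k (G.π (j : ℤ) x) := by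
    rw [S.h_deg, G.π_self]
  by_cases hneg : (j : ℤ) + 2 * (k : ℤ) - 1 < 0
  · left
    rw [← hdeg, G.π_neg _ _ hneg]
  · by_cases hbig : (G.n : ℤ) < (j : ℤ) + 2 * (k : ℤ) - 1
    · left
      rw [← hdeg, G.π_big _ _ hbig]
    · right
      obtain ⟨i, hi⟩ : ∃ i : ℕ, (i : ℤ) = (j : ℤ) + 2 * (k : ℤ) - 1 :=
        ⟨((j : ℤ) + 2 * (k : ℤ) - 1).toNat, by omega⟩
      refine ⟨i, hi, by omega, ?_⟩
      rw [hi]
      exact hdeg

theorem scaleU {z : Γ} (S : HSys G z) {M : Type*} [AddCommGroup M] (f : C →+ M) (hf : Ivt Γ f)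
    (m : ℤ) (hD : ∀ x, ∑ k ∈ range (S.K + 1), m ^ k • f (S.h k x) = 0) :
    ∃ f' : C →+ M, Ivt Γ f' ∧ (∀ x, f' (S.T x) = 0) ∧
      ∀ (e : ℤ) (φ : C →+ M), Ivt Γ φ → (∀ x, φ (S.T x) = e • f' x) →
        ∃ ψ : C →+ M, Ivt Γ ψ ∧
          ∀ x, ∑ k ∈ range (S.K + 1), m ^ k • ψ (S.h k x) = (m ^ (G.n + 1) * e) • f x := by
  have hf'ivt : Ivt Γ (wgt G (fun i => m ^ ((i + 1) / 2)) f) := wgt_ivt G _ hf
  refine ⟨wgt G (fun i => m ^ ((i + 1) / 2)) f, hf'ivt, ?_, ?_⟩
  · intro x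
    have key : ∀ x, ((wgt G (fun i => m ^ ((i + 1) / 2)) f).comp S.T) x = (0 : C →+ M) x := by
      apply ext_pieces G
      intro j hj x
      change wgt G (fun i => m ^ ((i + 1) / 2)) f (S.T (G.π (j : ℤ) x)) = 0
      rw [S.T_apply, map_sum]
      have hterm : ∀ k ∈ range (S.K + 1), wgt G (fun i => m ^ ((i + 1) / 2)) f
          (S.h k (G.π (j : ℤ) x)) = m ^ (j / 2) • m ^ k • f (S.h k (G.π (j : ℤ) x)) := by
        intro k _
        rcases deg_cases S j x k with h0 | ⟨i, hi, hin, hy⟩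
        · rw [h0, map_zero, map_zero, smul_zero, smul_zero]
        · rw [wgt_piece G _ f hy hin, smul_smul, ← pow_add]
          congr 2
          omega
      rw [Finset.sum_congr rfl hterm, ← Finset.smul_sum, hD, smul_zero]
    exact key x
  · intro e φ hφ hφT
    refine ⟨wgt G (fun i => m ^ (G.n - i / 2)) φ, wgt_ivt G _ hφ, fun x => ?_⟩
    have key : ∀ x, Dm S m (wgt G (fun i => m ^ (G.n - i / 2)) φ) x =
        ((m ^ (G.n + 1) * e) • f) x := by
      apply ext_pieces G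
      intro j hj x
      rw [Dm_apply]
      change _ = (m ^ (G.n + 1) * e) • f (G.π (j : ℤ) x)
      obtain ⟨E, hE0, hE1⟩ : ∃ E : ℕ, (j = 0 → E = G.n + 1) ∧ (1 ≤ j → E = G.n - (j - 1) / 2) := by
        by_cases hj0 : j = 0
        · exact ⟨G.n + 1, fun _ => rfl, fun h1 => by omega⟩
        · exact ⟨G.n - (j - 1) / 2, fun h1 => absurd h1 hj0, fun _ => rfl⟩
      have hterm : ∀ k ∈ range (S.K + 1), m ^ k • wgt G (fun i => m ^ (G.n - i / 2)) φ
          (S.h k (G.π (j : ℤ) x)) = m ^ E • φ (S.h k (G.π (j : ℤ) x)) := by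
        intro k _
        rcases deg_cases S j x k with h0 | ⟨i, hi, hin, hy⟩
        · rw [h0, map_zero, map_zero, smul_zero, smul_zero]
        · rw [wgt_piece G _ φ hy hin, smul_smul, ← pow_add]
          congr 2
          rcases Nat.eq_zero_or_pos j with h0 | h0
          · rw [hE0 h0]
            omega
          · rw [hE1 h0]
            omega
      have hx : G.π (j : ℤ) (G.π (j : ℤ) x) = G.π (j : ℤ) x := G.π_self _ _
      rw [Finset.sum_congr rfl hterm, ← Finset.smul_sum, ← map_sum, ← S.T_apply, hφT,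
        wgt_piece G _ f hx hj, smul_smul, smul_smul]
      congr 1
      have h2 : E + (j + 1) / 2 = G.n + 1 := by
        rcases Nat.eq_zero_or_pos j with h0 | h0
        · rw [hE0 h0]
          omega
        · rw [hE1 h0]
          omega
      rw [← h2, pow_add]
      ring
    exact key x

end Pool.Agent.Helper39.DC
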