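import Pool.Agent.Helper39.DB.Claim
import Pool.Agent.Helper39.DC.CmpU
import Pool.Agent.Helper39.DC.ScaleU

/-!
# DC-22 (project DC): all cocycles are killed by a power of `p`

Compare `claim` in DB/Claim.lean (the case of the augmentation). Induction on `k`, for all groups. `k = 0`: `t = z` contradicts the hypothesis. Step `k → k + 1`: `f` invariant, `f (S.T x) = 0`. If `Rt p z` is empty use `loc_empty` for `f` and multiply by `p ^ E`.
Otherwise let `g ^ p = z`, `H = Subgroup.centralizer {g}`, `g' = ⟨g, _⟩` central in `H`; over `H`: `Res H C`, `resG H G`, `S₁` for `g'` (`exists_hsys`), `S₂` for `z` from `root_sys` (`S₂.K = S₁.K`, `φ (S₂.h k x) = p ^ k • φ (S₁.h k x)` for invariant `φ`), `Θ` from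
`compareU (resS S _) S₂`. `f₁ = f ∘ Θ⁻¹` (an additive map on `Res H C`) is invariant under `H` and `f₁ (S₂.T x) = f (S.T (Θ⁻¹ x)) = 0`, i.e. `∑_k p ^ k • f₁ (S₁.h k x) = 0`. `scaleU` (`m = p`) gives `f'`; by induction for `H`, `g'` (no `p ^ k`-th root of `g'`) there is `φ` with
`φ (S₁.T x) = p ^ (k (n+1)) • f' x`; so `ψ` with `∑_j p ^ j • ψ (S₁.h j x) = p ^ (n+1) p ^ (k(n+1)) • f₁ x`, i.e. `ψ (S₂.T x) = p ^ ((k+1)(n+1)) • f₁ x`, and `φ' = ψ ∘ Θ` has `φ' ((resS S _).T x) = ψ (S₂.T (Θ x)) = p ^ ((k+1)(n+1)) • f x`.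
This is the functional required in `exists_family` for `p ^ ((k+1)(n+1)) • f`; then `loc_family`.
-/

set_option autoImplicit false

namespace Pool.Agent.Helper39.DC

open Finset Pool.Agent.Helper27.Mess Pool.Agent.Helper39.DB
open scoped IsMulCommutative

universe u v w

theorem claimU {p : ℕ} (hp : p.Prime) (k : ℕ) : ∀ (Γ : Type u) [Group Γ] (C : Type v)
    [AddCommGroup C] [Module (MonoidAlgebra ℤ Γ) C] [Module.Projective (MonoidAlgebra ℤ Γ) C]
    (G : GrRes Γ C) (z : Γ) (_ : z ∈ Subgroup.center Γ) (S : HSys G z)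
    (_ : ∀ t : Γ, t ^ p ^ k ≠ z) (s : ℕ) (M : Type w) [AddCommGroup M]
    (_ : ∀ m : M, p ^ s • m = 0) (f : C →+ M) (_ : Ivt Γ f) (_ : ∀ x, f (S.T x) = 0),
    ∃ φ : C →+ M, Ivt Γ φ ∧ ∀ x, φ (S.T x) = p ^ (k * (G.n + 1)) • f x := by
  induction k with
  | zero =>
    intro Γ _ C _ _ _ G z hz S ht s M _ hM f hfI hfT
    exact absurd (by rw [pow_zero, pow_one]) (ht z)
  | succ k ih =>
    intro Γ _ C _ _ _ G z hz S ht s M _ hM f hfI hfT
    have hz' : ∀ g : Γ, g * z = z * g := Subgroup.mem_center_iff.1 hz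
    let E : ℕ := (k + 1) * (G.n + 1)
    let F₀ : C →+ M := p ^ E • f
    have hF : ∀ x, F₀ x = p ^ E • f x := fun x => rfl
    have hFI : Ivt Γ F₀ := by
      intro g x
      rw [hF, hF, hfI]
    have hFT : ∀ x, F₀ (S.T x) = 0 := by
      intro x
      rw [hF, hfT, smul_zero]
    by_cases hE : IsEmpty (Rt p z)
    · exact loc_empty G hp hz' S.curv hE s M hM F₀ hFI hFT
    · have hne : Nonempty (Rt p z) := not_isEmpty_iff.1 hE
      have hloc : ∀ g : Γ, g ^ p = z → ∃ φ : C →+ M,
          (∀ h : Γ, h * g = g * h → ∀ x, φ (act h x) = φ x) ∧ ∀ x, φ (S.T x) = F₀ x := by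
        intro g hg
        let H : Subgroup Γ := Subgroup.centralizer {g}
        have hgH : g ∈ H := Subgroup.mem_centralizer_singleton_iff.2 rfl
        have hzH : z ∈ H := Subgroup.mem_centralizer_singleton_iff.2 (hz' g).symm
        have hgc1 : ∀ h : H, h * (⟨g, hgH⟩ : H) = (⟨g, hgH⟩ : H) * h := fun h =>
          Subtype.ext (Subgroup.mem_centralizer_singleton_iff.1 h.2)
        have hgc : (⟨g, hgH⟩ : H) ∈ Subgroup.center H := Subgroup.mem_center_iff.2 hgc1
        have : Module.Projective (MonoidAlgebra ℤ H) (Res H C) := res_projective H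
        obtain ⟨S₁⟩ := exists_hsys (resG H G) hgc
        obtain ⟨S₂, hK, hS₂⟩ := root_sys p (z := (⟨z, hzH⟩ : H)) hgc1 (Subtype.ext hg) S₁
        obtain ⟨Θ, hΘ⟩ := compareU (resS S hzH) S₂
        -- the functional `f ∘ Θ⁻¹` on `Res H C`
        let fR : Res H C →+ M := f.comp (toRes H).symm.toAddMonoidHom
        have hfR : ∀ x : C, fR (toRes H x) = f x := fun x => rfl
        have hfRI : Ivt H fR := by
          intro h x
          obtain ⟨y, rfl⟩ := (toRes H).surjective x
          rw [act_toRes, hfR, hfR]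
          exact hfI _ _
        let f₁ : Res H C →+ M := fR.comp Θ.symm.toLinearMap.toAddMonoidHom
        have hf₁ : ∀ x, f₁ (Θ x) = fR x := by
          intro x
          change fR (Θ.symm (Θ x)) = fR x
          rw [Θ.symm_apply_apply]
        have hf₁I : Ivt H f₁ := by
          intro h x
          change fR (Θ.symm.toLinearMap (act h x)) = fR (Θ.symm.toLinearMap x)
          rw [map_act, hfRI]
        have hf₁T : ∀ x, f₁ (S₂.T x) = 0 := by
          intro x
          obtain ⟨y, rfl⟩ := Θ.surjective x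
          rw [hΘ, hf₁]
          obtain ⟨w, rfl⟩ := (toRes H).surjective y
          rw [resS_T S hzH, hfR, hfT]
        have hD : ∀ x, ∑ j ∈ range (S₁.K + 1), (p : ℤ) ^ j • f₁ (S₁.h j x) = 0 := by
          intro x
          rw [← hf₁T x, S₂.T_apply, map_sum, hK]
          exact Finset.sum_congr rfl fun j _ => (hS₂ M f₁ hf₁I j x).symm
        obtain ⟨f', hf'I, hf'T, hup⟩ := scaleU S₁ f₁ hf₁I (p : ℤ) hD
        obtain ⟨φ, hφ1, hφ2⟩ := ih H (Res H C) (resG H G) ⟨g, hgH⟩ hgc S₁ (by
          intro t ht'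
          apply ht t.1
          have h1 : (t.1 : Γ) ^ p ^ k = g := congrArg Subtype.val ht'
          rw [pow_succ, pow_mul, h1, hg]) s M hM f' hf'I hf'T
        obtain ⟨ψ, hψ1, hψ2⟩ := hup ((p : ℤ) ^ (k * (G.n + 1))) φ hφ1 (by
          intro x
          rw [hφ2 x]
          change p ^ (k * (G.n + 1)) • f' x = _
          rw [← natCast_zsmul]
          push_cast
          rfl)
        have hψT : ∀ x, ψ (S₂.T x) = p ^ E • f₁ x := by
          intro x
          rw [S₂.T_apply, map_sum, hK]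
          rw [Finset.sum_congr rfl fun j _ => hS₂ M ψ hψ1 j x]
          rw [hψ2 x]
          change ((p : ℤ) ^ (G.n + 1) * (p : ℤ) ^ (k * (G.n + 1))) • f₁ x = _
          rw [← natCast_zsmul]
          push_cast
          rw [← pow_add]
          congr 2
          change G.n + 1 + k * (G.n + 1) = (k + 1) * (G.n + 1)
          ring
        refine ⟨(ψ.comp Θ.toLinearMap.toAddMonoidHom).comp (toRes H).toAddMonoidHom, ?_, ?_⟩
        · intro h hh x
          change ψ (Θ.toLinearMap (toRes H (act h x))) = ψ (Θ.toLinearMap (toRes H x))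
          have h1 := act_toRes H ⟨h, Subgroup.mem_centralizer_singleton_iff.2 hh⟩ x
          rw [← h1, map_act, hψ1]
        · intro x
          change ψ (Θ (toRes H (S.T x))) = F₀ x
          rw [← resS_T S hzH, ← hΘ, hψT, hf₁]
          rfl
      obtain ⟨F, hF1, hF2⟩ := exists_family (T := S.T) hz' S.curv.equiv F₀ hFI hloc
      exact loc_family G hp hz' S.curv hne s M hM F₀ hFI F hF1 hF2

end Pool.Agent.Helper39.DC
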