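import Pool.Agent.Helper39.DC.Final

/-!
# DC-27 (project DC): the converse
-/

set_option autoImplicit false

namespace Pool.Agent.Helper39.DC

open Finset Pool.Agent.Helper27.Mess Pool.Agent.Helper39.DB
open scoped IsMulCommutative

universe u

/-- In a finitely generated torsion-free commutative group only the identity is a `2 ^ k`-th power for
all `k`. -/
theorem eq_one_of_pow {Z : Type*} [CommGroup Z] (hfg : Group.FG Z)
    (htf : ∀ (t : Z) (q : ℕ), 0 < q → t ^ q = 1 → t = 1) (w : Z)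
    (h : ∀ k : ℕ, ∃ s : Z, s ^ 2 ^ k = w) : w = 1 := by
  classical
  have h0 : AddGroup.FG (Additive Z) := GroupFG.iff_add_fg.1 hfg
  have h1 : Module.Finite ℤ (Additive Z) := Module.Finite.iff_addGroup_fg.2 h0
  have h2 : Module.IsTorsionFree ℤ (Additive Z) := by
    rw [Module.isTorsionFree_iff_smul_eq_zero]
    intro n x hx
    by_contra hcon
    push Not at hcon
    obtain ⟨hn, hx0⟩ := hcon
    apply hx0
    have hpos : 0 < n.natAbs := Int.natAbs_pos.2 hn
    have h3 : (n.natAbs : ℤ) • x = 0 := by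
      rcases Int.natAbs_eq n with h | h
      · rw [← h]; exact hx
      · have : (n.natAbs : ℤ) = -n := by omega
        rw [this, neg_smul, hx, neg_zero]
    have h4 : (Additive.toMul x) ^ n.natAbs = 1 := by
      rw [natCast_zsmul] at h3
      exact h3
    exact htf _ _ hpos h4
  have h3 : Module.Free ℤ (Additive Z) := inferInstance
  let b := Module.Free.chooseBasis ℤ (Additive Z)
  have h4 : b.repr (Additive.ofMul w) = 0 := by
    ext i
    have hdvd : ∀ k : ℕ, (2 : ℤ) ^ k ∣ b.repr (Additive.ofMul w) i := by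
      intro k
      obtain ⟨s, hs⟩ := h k
      have h5 : Additive.ofMul w = (2 ^ k : ℕ) • Additive.ofMul s := by
        rw [← ofMul_pow, hs]
      rw [h5, map_nsmul, Finsupp.smul_apply, nsmul_eq_mul]
      push_cast
      exact Dvd.intro _ rfl
    rw [Finsupp.zero_apply]
    by_contra hne
    obtain ⟨k, hk⟩ : ∃ k : ℕ, (b.repr (Additive.ofMul w) i).natAbs < 2 ^ k :=
      ⟨_, Nat.lt_two_pow_self⟩
    have h6 := Int.natAbs_dvd_natAbs.2 (hdvd k)
    have h7 := Nat.le_of_dvd (Int.natAbs_pos.2 hne) h6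
    rw [Int.natAbs_pow] at h7
    have : (2 : ℤ).natAbs = 2 := rfl
    rw [this] at h7
    omega
  have h5 : Additive.ofMul w = 0 := by
    apply b.repr.injective
    rw [h4, map_zero]
  exact h5

theorem center_iff (Γ : Type u) [Group Γ] (hΓ : IsTypeFP Γ) :
    ((Subgroup.center Γ).FG ∧
      ∃ B : ℕ, 0 < B ∧ ∀ t : Γ, (∃ q : ℕ, 0 < q ∧ t ^ q ∈ Subgroup.center Γ) →
        t ^ B ∈ Subgroup.center Γ) ↔
    ∀ z ∈ Subgroup.center Γ, z ≠ 1 → ∃ p k : ℕ, p.Prime ∧ ∀ t : Γ, t ^ p ^ k ≠ z := by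
  classical
  refine ⟨?_, fun h => center_main Γ hΓ h⟩
  rintro ⟨hfg, B, hB, hBt⟩ z hz hz1
  obtain ⟨R⟩ := hΓ
  obtain ⟨C, _, _, hfin, hproj, ⟨G⟩⟩ := exists_grRes Γ R
  have htf : ∀ (t : Γ) (q : ℕ), 0 < q → t ^ q = 1 → t = 1 := fun t q hq ht =>
    torsion_free G t q hq ht
  by_contra hcon
  push Not at hcon
  have h2 := hcon 2
  have h3 : ∀ k : ℕ, ∃ t : Γ, t ^ 2 ^ k = z := fun k => h2 k Nat.prime_two
  have h4 : (⟨z ^ B, (Subgroup.center Γ).pow_mem hz B⟩ : Subgroup.center Γ) = 1 := by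
    refine eq_one_of_pow ?_ ?_ _ ?_
    · exact (Group.fg_iff_subgroup_fg _).2 hfg
    · intro t q hq ht
      apply Subtype.ext
      exact htf t q hq (by
        have := congrArg Subtype.val ht
        simpa using this)
    · intro k
      obtain ⟨t, ht⟩ := h3 k
      have h5 : t ^ B ∈ Subgroup.center Γ := hBt t ⟨2 ^ k, by positivity, by rw [ht]; exact hz⟩
      refine ⟨⟨t ^ B, h5⟩, Subtype.ext ?_⟩
      change (t ^ B) ^ 2 ^ k = z ^ B
      rw [← pow_mul, mul_comm, pow_mul, ht]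
  have h5 : z ^ B = 1 := congrArg Subtype.val h4
  exact hz1 (htf z B hB h5)

end Pool.Agent.Helper39.DC
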