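import Pool.Agent.Helper39.DC.Defs

/-!
# DC-07 (project DC): the rotations and the filtration

Compare DB/MulBas.lean. `rotE p` is the cyclic successor of `Fin p` (`rotE_val`), `nx i w` replaces `w i` by its successor.

* `nx_comm`: the components `i`, `j` are changed independently (`Function.update_comm`; equal for `i = j`).
* `nx_iter`: `(nx i)^[p] w = w` (`rotE p` has order dividing `p`; `rotE_iter`).
* `sgV_act`: `τ g` commutes with `τ (z i)⁻¹`. `sgV_comm`: at the index `w`: both sides are `τ (s) (v (nx i (nx j w)))` with `s` the product of `(z i)⁻¹` (if `w i` is the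
  last element) and `(z j)⁻¹` (if `w j` is last); for `i ≠ j`, `(nx i w) j = w j`. `sgV_iter`: exactly one of the `p` indices `w, nx i w, ..` in the orbit has last
  component `i`.
* `rotV_cV`: `act` by `sgV_act`; `comm` by `sgV_comm`; `pow`: `cV_pow_apply`, `sgV_iter`, `hρ`.
* `inK_act`: `K` is stable under `τ g` and `τ g⁻¹`. `mem_inK_sgV`, `inK_sgV`: the set of `w` with `sgV z τ i v w ∈ K` is the preimage of `inK K v` under
  the permutation `nxE i`; same cardinality.
* `stbV_FilV`: by `card_act`, `card_sgV`. `FilV_top`: the cardinality is at most `p ^ d`, so the condition is empty; `FilV_bot`: `0 ≤ card` always.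
* `card_eq`, `card_pos`.
-/

set_option autoImplicit false

namespace Pool.Agent.Helper39.DC

open Finset Pool.Agent.Helper27.Mess Pool.Agent.Helper39.DB
open scoped IsMulCommutative

variable {Γ : Type*} [Group Γ] {κ : Type*} [CommRing κ] {F : Type*} {A : Type*} [AddCommGroup F]
  [AddCommGroup A] [Module κ A] {d p : ℕ} {z : Fin d → Subgroup.center Γ}
  {τ : Γ →* AddMonoid.End F} {ρ : Representation κ Γ A}

theorem rotE_iter (p : ℕ) (x : Fin p) : (rotE p)^[p] x = x := by
  have key : ∀ n : ℕ, (((rotE p)^[n] x : Fin p) : ℕ) = (x + n) % p := by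
    intro n
    induction n with
    | zero =>
      rw [Nat.add_zero, Nat.mod_eq_of_lt x.2]
      rfl
    | succ n ih =>
      rw [Function.iterate_succ_apply', rotE_val, ih]
      have hp : 0 < p := Nat.lt_of_le_of_lt (Nat.zero_le _) x.2
      have h1 : ((x : ℕ) + (n + 1)) % p = (((x : ℕ) + n) % p + 1) % p := by
        rw [← Nat.add_assoc, Nat.mod_add_mod]
      have h2 : ((x : ℕ) + n) % p < p := Nat.mod_lt _ hp
      rw [h1]
      split_ifs with h
      · rw [Nat.mod_eq_of_lt h]
      · have h3 : ((x : ℕ) + n) % p + 1 = p := by omega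
        rw [h3, Nat.mod_self]
  apply Fin.ext
  rw [key p, Nat.add_mod_right, Nat.mod_eq_of_lt x.2]

theorem nx_comm (i j : Fin d) (w : Ix d p) : nx i (nx j w) = nx j (nx i w) := by
  by_cases h : i = j
  · subst h
    rfl
  · unfold nx
    rw [Function.update_of_ne h, Function.update_of_ne (Ne.symm h), Function.update_comm h]

theorem nx_iter (i : Fin d) (w : Ix d p) : (nx i)^[p] w = w := by
  have key : ∀ n : ℕ, (nx i)^[n] w = Function.update w i ((rotE p)^[n] (w i)) := by
    intro n
    induction n with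
    | zero => exact (Function.update_eq_self i w).symm
    | succ n ih =>
      rw [Function.iterate_succ_apply', ih]
      unfold nx
      rw [Function.update_self, Function.update_idem, Function.iterate_succ_apply']
  rw [key p, rotE_iter, Function.update_eq_self]

theorem nx_ne {i j : Fin d} (h : j ≠ i) (w : Ix d p) : nx i w j = w j := by
  unfold nx
  rw [Function.update_of_ne h]

theorem sgV_act (i : Fin d) (g : Γ) (v : Ix d p → F) :
    sgV z τ i (fun w => τ g (v w)) = fun w => τ g (sgV z τ i v w) := by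
  have hz : (z i : Γ)⁻¹ * g = g * (z i : Γ)⁻¹ := by
    have h := Subgroup.mem_center_iff.1 (inv_mem (z i).2) g
    exact h.symm
  funext w
  unfold sgV
  split_ifs with h
  · rfl
  · show (τ (z i : Γ)⁻¹ * τ g) _ = (τ g * τ (z i : Γ)⁻¹) _
    rw [← map_mul, ← map_mul, hz]

theorem sgV_comm (i j : Fin d) (v : Ix d p → F) :
    sgV z τ i (sgV z τ j v) = sgV z τ j (sgV z τ i v) := by
  by_cases hij : i = j
  · subst hij
    rfl
  · have hz : (z i : Γ)⁻¹ * (z j : Γ)⁻¹ = (z j : Γ)⁻¹ * (z i : Γ)⁻¹ := by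
      have h := Subgroup.mem_center_iff.1 (inv_mem (z i).2) (z j : Γ)⁻¹
      exact h.symm
    funext w
    unfold sgV
    rw [nx_ne hij w, nx_ne (Ne.symm hij) w, nx_comm i j w]
    split_ifs with h1 h2
    · rfl
    · rfl
    · rfl
    · show (τ (z i : Γ)⁻¹ * τ (z j : Γ)⁻¹) _ = (τ (z j : Γ)⁻¹ * τ (z i : Γ)⁻¹) _
      rw [← map_mul, ← map_mul, hz]

theorem sgV_iter (i : Fin d) (v : Ix d p → F) :
    (sgV z τ i)^[p] v = fun w => τ (z i : Γ)⁻¹ (v w) := by
  have key : ∀ n : ℕ, n ≤ p → ∀ w : Ix d p, (sgV z τ i)^[n] v w =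
      if (w i : ℕ) + n < p then v ((nx i)^[n] w) else τ (z i : Γ)⁻¹ (v ((nx i)^[n] w)) := by
    intro n
    induction n with
    | zero =>
      intro _ w
      have h : (w i : ℕ) + 0 < p := (w i).2
      rw [if_pos h]
      rfl
    | succ n ih =>
      intro hn w
      rw [Function.iterate_succ_apply', Function.iterate_succ_apply (nx i) n w]
      have hval : ((nx i w i : Fin p) : ℕ) = if (w i : ℕ) + 1 < p then (w i : ℕ) + 1 else 0 := by
        unfold nx
        rw [Function.update_self, rotE_val]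
      have h1 := ih (by omega) (nx i w)
      by_cases h : (w i : ℕ) + 1 < p
      · rw [if_pos h] at hval
        rw [hval] at h1
        have h2 : sgV z τ i ((sgV z τ i)^[n] v) w = (sgV z τ i)^[n] v (nx i w) := if_pos h
        rw [h2, h1]
        have h3 : (w i : ℕ) + 1 + n = (w i : ℕ) + (n + 1) := by omega
        rw [h3]
      · rw [if_neg h] at hval
        rw [hval] at h1
        have h2 : sgV z τ i ((sgV z τ i)^[n] v) w =
            τ (z i : Γ)⁻¹ ((sgV z τ i)^[n] v (nx i w)) := if_neg h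
        rw [h2, h1, if_pos (show 0 + n < p by omega),
          if_neg (show ¬ (w i : ℕ) + (n + 1) < p by omega)]
  funext w
  rw [key p le_rfl w, if_neg (show ¬ (w i : ℕ) + p < p by omega), nx_iter]

theorem cV_pow_apply (i : Fin d) (n : ℕ) (φ : MV d p F A) (v : Ix d p → F) :
    (cV κ z τ i ^ n) φ v = φ ((sgV z τ i)^[n] v) := by
  induction n generalizing φ with
  | zero => rfl
  | succ n ih =>
    rw [pow_succ]
    change (cV κ z τ i ^ n) (cV κ z τ i φ) v = _
    rw [ih, cV_apply, Function.iterate_succ_apply']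

theorem rotV_cV (hρ : ∀ i, ρ (z i : Γ) = 1) :
    RotV p z (rV (d := d) (p := p) τ ρ) (cV κ z τ) := by
  constructor
  · intro i g
    apply LinearMap.ext
    intro φ
    apply MultilinearMap.ext
    intro v
    change cV κ z τ i (rV τ ρ g φ) v = rV τ ρ g (cV κ z τ i φ) v
    rw [cV_apply, rV_apply, rV_apply, cV_apply, sgV_act]
  · intro i j
    apply LinearMap.ext
    intro φ
    apply MultilinearMap.ext
    intro v
    change cV κ z τ i (cV κ z τ j φ) v = cV κ z τ j (cV κ z τ i φ) v
    rw [cV_apply, cV_apply, cV_apply, cV_apply, sgV_comm]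
  · intro i
    apply LinearMap.ext
    intro φ
    apply MultilinearMap.ext
    intro v
    rw [cV_pow_apply, sgV_iter, rV_apply, hρ i]
    rfl

theorem inK_act {K : AddSubgroup F} (hK : ∀ (g : Γ), ∀ v ∈ K, τ g v ∈ K) (g : Γ)
    (v : Ix d p → F) : inK K (fun w => τ g (v w)) = inK K v := by
  classical
  unfold inK
  ext w
  rw [mem_filter, mem_filter]
  refine and_congr_right fun _ => ?_
  constructor
  · intro h
    have h1 := hK g⁻¹ _ h
    have h2 : τ g⁻¹ (τ g (v w)) = v w := by
      show (τ g⁻¹ * τ g) (v w) = v w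
      rw [← map_mul, inv_mul_cancel, map_one]
      rfl
    rwa [h2] at h1
  · exact hK g _

theorem mem_inK {K : AddSubgroup F} (v : Ix d p → F) (w : Ix d p) : w ∈ inK K v ↔ v w ∈ K := by
  classical
  unfold inK
  rw [mem_filter]
  exact and_iff_right (mem_univ _)

theorem mem_inK_sgV {K : AddSubgroup F} (hK : ∀ (g : Γ), ∀ v ∈ K, τ g v ∈ K) (i : Fin d)
    (v : Ix d p → F) (w : Ix d p) : w ∈ inK K (sgV z τ i v) ↔ nx i w ∈ inK K v := by
  have hinv : ∀ x : F, τ (z i : Γ)⁻¹ x ∈ K ↔ x ∈ K := by
    intro x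
    constructor
    · intro h
      have h1 := hK (z i : Γ) _ h
      have h2 : τ (z i : Γ) (τ (z i : Γ)⁻¹ x) = x := by
        show (τ (z i : Γ) * τ (z i : Γ)⁻¹) x = x
        rw [← map_mul, mul_inv_cancel, map_one]
        rfl
      rwa [h2] at h1
    · exact hK (z i : Γ)⁻¹ _
  rw [mem_inK, mem_inK]
  unfold sgV
  split_ifs with h
  · exact Iff.rfl
  · exact hinv _

theorem card_sgV {K : AddSubgroup F} (hK : ∀ (g : Γ), ∀ v ∈ K, τ g v ∈ K) (i : Fin d)
    (v : Ix d p → F) : (inK K (sgV z τ i v)).card = (inK K v).card := by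
  refine card_bij (fun w _ => nxE i w) ?_ ?_ ?_
  · intro w hw
    exact (mem_inK_sgV hK i v w).1 hw
  · intro w _ w' _ h
    exact (nxE i).injective h
  · intro w hw
    refine ⟨(nxE i).symm w, ?_, (nxE i).apply_symm_apply w⟩
    rw [mem_inK_sgV hK i v]
    change nxE i ((nxE i).symm w) ∈ _
    rw [(nxE i).apply_symm_apply w]
    exact hw

theorem stbV_FilV {K : AddSubgroup F} (hK : ∀ (g : Γ), ∀ v ∈ K, τ g v ∈ K) (j : ℕ) :
    StbV (rV (d := d) (p := p) τ ρ) (cV κ z τ) (FilV d p κ A K j) := by
  constructor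
  · intro g u hu
    rw [mem_FilV] at hu ⊢
    intro v hv
    rw [rV_apply, hu _ (by rw [inK_act hK]; exact hv), map_zero]
  · intro i u hu
    rw [mem_FilV] at hu ⊢
    intro v hv
    rw [cV_apply]
    exact hu _ (by rw [card_sgV hK]; exact hv)

theorem card_le (K : AddSubgroup F) (v : Ix d p → F) : (inK K v).card ≤ p ^ d := by
  refine (card_le_univ _).trans ?_
  rw [Fintype.card_fun, Fintype.card_fin, Fintype.card_fin]

theorem card_eq (K : AddSubgroup F) (v : Ix d p → F) :
    p ^ d ≤ (inK K v).card ↔ ∀ w, v w ∈ K := by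
  constructor
  · intro h w
    have h1 : inK K v = univ := by
      rw [← card_eq_iff_eq_univ, Fintype.card_fun, Fintype.card_fin, Fintype.card_fin]
      exact le_antisymm (card_le K v) h
    have h2 := mem_univ w
    rw [← h1, mem_inK] at h2
    exact h2
  · intro h
    have h1 : inK K v = univ := by
      ext w
      rw [mem_inK]
      exact ⟨fun _ => mem_univ _, fun _ => h w⟩
    rw [h1, card_univ, Fintype.card_fun, Fintype.card_fin, Fintype.card_fin]

theorem card_pos (K : AddSubgroup F) (v : Ix d p → F) : 1 ≤ (inK K v).card ↔ ∃ w, v w ∈ K := by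
  rw [Nat.one_le_iff_ne_zero, ← Nat.pos_iff_ne_zero, Finset.card_pos]
  constructor
  · rintro ⟨w, hw⟩
    exact ⟨w, (mem_inK v w).1 hw⟩
  · rintro ⟨w, hw⟩
    exact ⟨w, (mem_inK v w).2 hw⟩

theorem FilV_mono (K : AddSubgroup F) {i j : ℕ} (h : i ≤ j) :
    FilV d p κ A K i ≤ FilV d p κ A K j := by
  intro φ hφ
  rw [mem_FilV] at hφ ⊢
  exact fun v hv => hφ v (h.trans hv)

theorem FilV_top (K : AddSubgroup F) : FilV d p κ A K (p ^ d + 1) = ⊤ := by
  rw [eq_top_iff]
  intro φ _
  rw [mem_FilV]
  intro v hv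
  have := card_le K v
  omega

theorem FilV_bot (K : AddSubgroup F) : FilV d p κ A K 0 = ⊥ := by
  rw [eq_bot_iff]
  intro φ hφ
  rw [mem_FilV] at hφ
  rw [Submodule.mem_bot]
  apply MultilinearMap.ext
  intro v
  exact hφ v (Nat.zero_le _)

end Pool.Agent.Helper39.DC
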