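import Pool.Agent.Helper39.DC.Defs
import Pool.Agent.Helper39.DB.Orbit

/-!
# DC-06 (project DC): functions on a set with commuting maps of order `p` without common fixed points

* `exists_dm`: the `τ i` generate an action of `E = (Fin d → ZMod p)` (additive) on `Y`: `e • y = (τ 0)^[e 0] (... ((τ (d-1))^[e (d-1)] y))`, `e i` lifted to
  `(e i).val` (a `Multiplicative` group action, or avoid the group: define the relation `y ~ y'` iff `∃ n : Fin d → ℕ, y' = T n y`, `T n = ∏ (τ i)^[n i]`;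
  it is an equivalence relation as `T n (T m y) = T (n + m) y` and `T (p n) y = y`). For every class choose a representative `y₀` (`Quotient.out`). The set
  `H = {l : Fin d → ZMod p | T l y₀ = y₀}` is a subspace (depends only on `l` modulo `p`), `H ≠ ⊤` since some `τ i y₀ ≠ y₀`. So there is a linear
  functional `λ₀ : (Fin d → ZMod p) → ZMod p`, `λ₀ ≠ 0`, `λ₀ = 0` on `H` (`Submodule.exists_le_ker_of_lt_top`). `s = ∑ b j * λ₀ (e_j) ≠ 0` in `κ` by `hb`
  (`l j = (λ₀ (e_j)).val`; if `s = 0` then `p ∣ l j` for all `j`, so `λ₀ = 0`). Put `μ j y = s⁻¹ * λ₀ (e_j)` and `δ (T n y₀) = - s⁻¹ * λ₀ (n)`: well defined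
  because `T n y₀ = T m y₀` gives `n - m ∈ H`. (`ZMod p → κ` by `ZMod.castHom` (`CharP κ p`), a ring homomorphism.)
  `δ (τ j y) = δ y - μ j y`; `∑ b j μ j y = 1`.
* `exists_dm_free`: `Γ` acts on `W = (Ix d p → X)` componentwise, freely (`Ix d p` is nonempty: `p > 0`), `Y = MulAction.orbitRel.Quotient Γ W` (or the quotient by the
  relation `∃ g, x' = g • x`). `sgXV z i` commutes with `Γ` (`z i` central), `sgXV z i (sgXV z j x) = sgXV z j (sgXV z i x)`, `(sgXV z i)^[p] x = (z i)⁻¹ • x`. So the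
  induced maps `τ i` on `Y` commute and `τ i ^[p] = id`. `τ i₀` has no fixed point: if `sgXV z i₀ x = η • x` then `η ^ p • x = (z i₀)⁻¹ • x` (iterate; `sgXV`
  commutes with `η`), so `η ^ p = (z i₀)⁻¹` by freeness and `(η⁻¹) ^ p = z i₀`, against `hroot`. Compose `δ`, `μ` of `exists_dm` with `W → Y`.
-/

set_option autoImplicit false

namespace Pool.Agent.Helper39.DC

open Finset Pool.Agent.Helper27.Mess Pool.Agent.Helper39.DB
open scoped IsMulCommutative

/-- commuting maps of order `p` generate an action of `(ZMod p) ^ d` -/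
theorem exists_act {p : ℕ} (hp : p.Prime) {d : ℕ} {Y : Type*} (τ : Fin d → Y → Y)
    (hcomm : ∀ i j y, τ i (τ j y) = τ j (τ i y)) (hτ : ∀ i y, (τ i)^[p] y = y) :
    ∃ T : (Fin d → ZMod p) → Y → Y, (∀ y, T 0 y = y) ∧ (∀ v w y, T (v + w) y = T v (T w y)) ∧
      ∀ i y, T (Pi.single i 1) y = τ i y := by
  classical
  have hpp : p - 1 + 1 = p := Nat.sub_add_cancel hp.one_le
  obtain ⟨e, he⟩ : ∃ e : Fin d → Equiv.Perm Y, ∀ i y, e i y = τ i y := by
    refine ⟨fun i => ⟨τ i, (τ i)^[p - 1], fun y => ?_, fun y => ?_⟩, fun _ _ => rfl⟩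
    · rw [← Function.iterate_succ_apply, Nat.succ_eq_add_one, hpp, hτ]
    · change τ i ((τ i)^[p - 1] y) = y
      rw [← Function.iterate_succ_apply' (τ i), Nat.succ_eq_add_one, hpp, hτ]
  have hei : ∀ (i : Fin d) (n : ℕ) (y : Y), (e i ^ n) y = (τ i)^[n] y := by
    intro i n y
    induction n with
    | zero => rfl
    | succ n ih => rw [pow_succ', Equiv.Perm.mul_apply, ih, he, Function.iterate_succ_apply']
  have hep : ∀ i, e i ^ p = 1 := by
    intro i
    ext y
    rw [hei, hτ]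
    rfl
  have hec : ∀ i j, Commute (e i) (e j) := by
    intro i j
    ext y
    rw [Equiv.Perm.mul_apply, Equiv.Perm.mul_apply, he, he, he, he, hcomm]
  obtain ⟨φ, hφ⟩ : ∃ φ : Fin d → (ZMod p →+ Additive (Equiv.Perm Y)),
      ∀ (i : Fin d) (n : ℤ), φ i (n : ZMod p) = Additive.ofMul (e i ^ n) := by
    refine ⟨fun i => ZMod.lift p ⟨zmultiplesHom _ (Additive.ofMul (e i)), ?_⟩, fun i n => ?_⟩
    · rw [zmultiplesHom_apply, natCast_zsmul, ← ofMul_pow, hep]
      rfl
    · rw [ZMod.lift_coe]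
      change zmultiplesHom _ (Additive.ofMul (e i)) n = _
      rw [zmultiplesHom_apply, ofMul_zpow]
  have hφc : Pairwise fun i j => ∀ x y, AddCommute (φ i x) (φ j y) := by
    intro i j _ x y
    obtain ⟨n, rfl⟩ := ZMod.intCast_surjective x
    obtain ⟨m, rfl⟩ := ZMod.intCast_surjective y
    rw [hφ, hφ]
    have h : Commute (e i ^ n) (e j ^ m) := ((hec i j).zpow_zpow n m)
    exact congrArg Additive.ofMul h.eq
  obtain ⟨Φ, hΦ⟩ : ∃ Φ : (Fin d → ZMod p) →+ Additive (Equiv.Perm Y),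
      ∀ i, Φ (Pi.single i 1) = Additive.ofMul (e i) := by
    refine ⟨AddMonoidHom.noncommPiCoprod φ hφc, fun i => ?_⟩
    rw [AddMonoidHom.noncommPiCoprod_single]
    have := hφ i 1
    rw [Int.cast_one, zpow_one] at this
    exact this
  refine ⟨fun v y => (Φ v).toMul y, fun y => ?_, fun v w y => ?_, fun i y => ?_⟩
  · change (Φ 0).toMul y = y
    rw [map_zero]
    rfl
  · change (Φ (v + w)).toMul y = _
    rw [map_add]
    rfl
  · change (Φ (Pi.single i 1)).toMul y = τ i y
    rw [hΦ]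
    exact he i y

theorem exists_dm {κ : Type*} [Field κ] {p : ℕ} (hp : p.Prime) [CharP κ p] {d : ℕ} (b : Fin d → κ)
    (hb : Ind p b) {Y : Type*} (τ : Fin d → Y → Y) (hcomm : ∀ i j y, τ i (τ j y) = τ j (τ i y))
    (hτ : ∀ i y, (τ i)^[p] y = y) (hf : ∀ y, ∃ i, τ i y ≠ y) :
    ∃ (δ : Y → κ) (μ : Fin d → Y → κ), (∀ j y, δ (τ j y) = δ y - μ j y) ∧
      (∀ i j y, μ i (τ j y) = μ i y) ∧ ∀ y, ∑ j, b j * μ j y = 1 := by
  classical
  have : Fact p.Prime := ⟨hp⟩
  obtain ⟨T, hT0, hTa, hT1⟩ := exists_act hp τ hcomm hτ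
  have hTn : ∀ v y, T (-v) (T v y) = y := by
    intro v y
    rw [← hTa, neg_add_cancel, hT0]
  obtain ⟨S, hS⟩ : ∃ S : Setoid Y, ∀ x y, S.r x y ↔ ∃ v, T v x = y := by
    refine ⟨{ r := fun x y => ∃ v, T v x = y, iseqv := ⟨fun x => ⟨0, hT0 x⟩, ?_, ?_⟩ },
      fun _ _ => Iff.rfl⟩
    · rintro x y ⟨v, hv⟩
      exact ⟨-v, by rw [← hv, hTn]⟩
    · rintro x y w ⟨v, hv⟩ ⟨v', hv'⟩
      exact ⟨v' + v, by rw [hTa, hv, hv']⟩
  obtain ⟨r, hr1, hr2⟩ : ∃ r : Y → Y, (∀ v y, r (T v y) = r y) ∧ ∀ y, ∃ v, T v (r y) = y := by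
    refine ⟨fun y => (Quotient.mk S y).out, fun v y => ?_, fun y => ?_⟩
    · have : Quotient.mk S (T v y) = Quotient.mk S y := by
        apply Quotient.sound
        exact S.symm ((hS _ _).2 ⟨v, rfl⟩)
      change (Quotient.mk S (T v y)).out = _
      rw [this]
    · have h := Quotient.exact (Quotient.out_eq (Quotient.mk S y))
      exact (hS _ _).1 h
  choose n hn using hr2
  have hl : ∀ y₀ : Y, ∃ l : (Fin d → ZMod p) →ₗ[ZMod p] ZMod p, l ≠ 0 ∧
      ∀ v, T v y₀ = y₀ → l v = 0 := by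
    intro y₀
    let H0 : AddSubgroup (Fin d → ZMod p) :=
      { carrier := {v | T v y₀ = y₀}
        add_mem' := by
          intro v w hv hw
          change T (v + w) y₀ = y₀
          rw [hTa, show T w y₀ = y₀ from hw, show T v y₀ = y₀ from hv]
        zero_mem' := hT0 y₀
        neg_mem' := by
          intro v hv
          change T (-v) y₀ = y₀
          have h1 := hTn v y₀
          rw [show T v y₀ = y₀ from hv] at h1
          exact h1 }
    obtain ⟨l, hl0, hl1⟩ := (AddSubgroup.toZModSubmodule p H0).exists_le_ker_of_lt_top (by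
      rw [lt_top_iff_ne_top]
      intro h
      obtain ⟨i, hi⟩ := hf y₀
      apply hi
      rw [← hT1]
      have : Pi.single i 1 ∈ AddSubgroup.toZModSubmodule p H0 := by
        rw [h]
        exact Submodule.mem_top
      exact this)
    exact ⟨l, hl0, fun v hv => LinearMap.mem_ker.1 (hl1 (show v ∈ AddSubgroup.toZModSubmodule p H0 from hv))⟩
  choose l hl0 hl1 using hl
  obtain ⟨c, hc⟩ : ∃ c : ZMod p →+* κ, ∀ n : ℕ, c (n : ZMod p) = (n : κ) :=
    ⟨ZMod.castHom (dvd_refl p) κ, fun n => map_natCast _ n⟩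
  obtain ⟨s, hs⟩ : ∃ s : Y → κ, ∀ y, s y = ∑ j, b j * c (l y (Pi.single j 1)) :=
    ⟨_, fun _ => rfl⟩
  have hs0 : ∀ y, s y ≠ 0 := by
    intro y h
    apply hl0 y
    rw [hs] at h
    have h1 := hb (fun j => ((l y (Pi.single j 1)).val : ℤ)) (by
      rw [← h]
      apply Finset.sum_congr rfl
      intro j _
      rw [Int.cast_natCast, ← hc, ZMod.natCast_val, ZMod.cast_id, mul_comm])
    apply LinearMap.pi_ext
    intro j x
    have h2 : l y (Pi.single j 1) = 0 := by
      have h3 := Int.natCast_dvd_natCast.1 (h1 j)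
      have h4 := ZMod.val_lt (l y (Pi.single j 1))
      have h5 := Nat.eq_zero_of_dvd_of_lt h3 h4
      exact (ZMod.val_eq_zero _).1 h5
    have h6 : (Pi.single j x : Fin d → ZMod p) = x • (Pi.single j 1 : Fin d → ZMod p) := by
      rw [← Pi.single_smul, smul_eq_mul, mul_one]
    rw [h6, map_smul, h2, smul_zero]
    rfl
  have hr1' : ∀ j y, r (τ j y) = r y := by
    intro j y
    rw [← hT1, hr1]
  have hnj : ∀ j y, l (r y) (n (τ j y)) = l (r y) (n y) + l (r y) (Pi.single j 1) := by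
    intro j y
    have h1 : T (n (τ j y) - (Pi.single j 1 + n y)) (r y) = r y := by
      have h2 : T (n (τ j y)) (r y) = τ j y := by
        have := hn (τ j y)
        rwa [hr1'] at this
      have h3 : T (Pi.single j 1 + n y) (r y) = τ j y := by
        rw [hTa, hn, hT1]
      have h4 := hTn (Pi.single j 1 + n y) (r y)
      rw [h3, ← h2, ← hTa] at h4
      rw [sub_eq_neg_add]
      exact h4
    have h5 := hl1 _ _ h1
    rw [map_sub, map_add, sub_eq_zero] at h5
    rw [h5, add_comm]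
  refine ⟨fun y => -((s (r y))⁻¹ * c (l (r y) (n y))), fun j y => (s (r y))⁻¹ * c (l (r y) (Pi.single j 1)),
    fun j y => ?_, fun i j y => ?_, fun y => ?_⟩
  · simp only [hr1', hnj, map_add]
    ring
  · simp only [hr1']
  · have h1 : ∑ j, b j * ((s (r y))⁻¹ * c (l (r y) (Pi.single j 1))) = (s (r y))⁻¹ * s (r y) := by
      conv_rhs => rw [hs (r y), Finset.mul_sum]
      apply Finset.sum_congr rfl
      intro j _
      rw [hs (r y)]
      ring
    rw [h1, inv_mul_cancel₀ (hs0 _)]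

variable {Γ : Type*} [Group Γ]

/-- the twisted rotation in the direction `i` of tuples of elements of a `Γ`-set -/
def sgXV {d p : ℕ} (z : Fin d → Subgroup.center Γ) (i : Fin d) {X : Type*} [MulAction Γ X]
    (x : Ix d p → X) (w : Ix d p) : X :=
  if (w i : ℕ) + 1 < p then x (nx i w) else (z i : Γ)⁻¹ • x (nx i w)

theorem cen_comm (z : Subgroup.center Γ) (g : Γ) : g * (z : Γ) = z * g :=
  Subgroup.mem_center_iff.1 z.2 g

theorem cen_inv_comm (z : Subgroup.center Γ) (g : Γ) : (z : Γ)⁻¹ * g = g * (z : Γ)⁻¹ := by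
  have h : Commute g (z : Γ) := cen_comm z g
  exact (h.inv_right).symm

theorem sgXV_smul {d p : ℕ} (z : Fin d → Subgroup.center Γ) (i : Fin d) {X : Type*}
    [MulAction Γ X] (g : Γ) (x : Ix d p → X) : sgXV z i (g • x) = g • sgXV z i x := by
  funext w
  rw [Pi.smul_apply]
  unfold sgXV
  by_cases h : (w i : ℕ) + 1 < p
  · rw [if_pos h, if_pos h, Pi.smul_apply]
  · rw [if_neg h, if_neg h, Pi.smul_apply, smul_smul, smul_smul, cen_inv_comm]

theorem vs_nx_ne {d p : ℕ} {i j : Fin d} (h : j ≠ i) (w : Ix d p) : nx i w j = w j := by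
  unfold nx
  rw [Function.update_of_ne h]

theorem vs_nx_comm {d p : ℕ} {i j : Fin d} (h : j ≠ i) (w : Ix d p) :
    nx j (nx i w) = nx i (nx j w) := by
  unfold nx
  rw [Function.update_of_ne h, Function.update_of_ne h.symm, Function.update_comm h]

theorem sgXV_comm {d p : ℕ} (z : Fin d → Subgroup.center Γ) (i j : Fin d) {X : Type*}
    [MulAction Γ X] (x : Ix d p → X) : sgXV z i (sgXV z j x) = sgXV z j (sgXV z i x) := by
  by_cases hij : j = i
  · rw [hij]
  · funext w
    unfold sgXV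
    rw [vs_nx_ne hij, vs_nx_ne (Ne.symm hij), vs_nx_comm hij]
    by_cases h1 : (w i : ℕ) + 1 < p
    · by_cases h2 : (w j : ℕ) + 1 < p
      · simp only [if_pos h1, if_pos h2]
      · simp only [if_pos h1, if_neg h2]
    · by_cases h2 : (w j : ℕ) + 1 < p
      · simp only [if_neg h1, if_pos h2]
      · simp only [if_neg h1, if_neg h2]
        rw [smul_smul, smul_smul, cen_inv_comm]

theorem sgXV_line {d p : ℕ} (z : Fin d → Subgroup.center Γ) (i : Fin d) {X : Type*}
    [MulAction Γ X] (x : Ix d p → X) (w : Ix d p) :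
    (fun j => sgXV z i x (Function.update w i j)) =
      sgX p (z i : Γ) (fun j => x (Function.update w i j)) := by
  funext j
  unfold sgXV sgX nx
  rw [Function.update_self, Function.update_idem]
  by_cases h : (j : ℕ) + 1 < p
  · rw [if_pos h, dif_pos h]
    congr 2
    apply Fin.ext
    rw [rotE_val, if_pos h]
  · rw [if_neg h, dif_neg h]
    congr 3
    apply Fin.ext
    rw [rotE_val, if_neg h]

theorem sgXV_line_iter {d p : ℕ} (z : Fin d → Subgroup.center Γ) (i : Fin d) {X : Type*}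
    [MulAction Γ X] (x : Ix d p → X) (w : Ix d p) (n : ℕ) :
    (fun j => (sgXV z i)^[n] x (Function.update w i j)) =
      (sgX p (z i : Γ))^[n] (fun j => x (Function.update w i j)) := by
  induction n with
  | zero => rfl
  | succ n ih => rw [Function.iterate_succ_apply', Function.iterate_succ_apply', ← ih, sgXV_line]

theorem sgXV_p {d p : ℕ} (z : Fin d → Subgroup.center Γ) (i : Fin d) {X : Type*}
    [MulAction Γ X] (x : Ix d p → X) : (sgXV z i)^[p] x = (z i : Γ)⁻¹ • x := by
  funext w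
  have h := congrFun (sgXV_line_iter z i x w p) (w i)
  rw [sgX_p] at h
  rw [Pi.smul_apply, Function.update_eq_self] at h
  rw [Pi.smul_apply]
  exact h

theorem exists_dm_free {κ : Type*} [Field κ] {p : ℕ} (hp : p.Prime) [CharP κ p] {d : ℕ}
    (b : Fin d → κ) (hb : Ind p b) (z : Fin d → Subgroup.center Γ) (i₀ : Fin d)
    (hroot : ∀ g : Γ, g ^ p ≠ z i₀) {X : Type*} [MulAction Γ X]
    (hfree : ∀ (g : Γ) (x : X), g • x = x → g = 1) :
    ∃ (δ : (Ix d p → X) → κ) (μ : Fin d → (Ix d p → X) → κ),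
      (∀ (g : Γ) (x : Ix d p → X), δ (fun w => g • x w) = δ x) ∧
      (∀ (i : Fin d) (g : Γ) (x : Ix d p → X), μ i (fun w => g • x w) = μ i x) ∧
      (∀ (j : Fin d) (x : Ix d p → X), δ (sgXV z j x) = δ x - μ j x) ∧
      (∀ (i j : Fin d) (x : Ix d p → X), μ i (sgXV z j x) = μ i x) ∧
      ∀ x : Ix d p → X, ∑ j, b j * μ j x = 1 := by
  classical
  have w0 : Ix d p := fun _ => ⟨0, hp.pos⟩
  have hfr : ∀ (g : Γ) (x : Ix d p → X), g • x = x → g = 1 := by
    intro g x h
    exact hfree g (x w0) (congrFun h w0)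
  have hfr2 : ∀ (g h : Γ) (x : Ix d p → X), g • x = h • x → g = h := by
    intro g h x hx
    have : (h⁻¹ * g) • x = x := by
      rw [← smul_smul, hx, inv_smul_smul]
    have h2 := hfr _ _ this
    rwa [inv_mul_eq_one, eq_comm] at h2
  let S : Setoid (Ix d p → X) := MulAction.orbitRel Γ (Ix d p → X)
  have hS : ∀ x y : Ix d p → X, Quotient.mk S x = Quotient.mk S y ↔ ∃ g : Γ, g • y = x := by
    intro x y
    rw [Quotient.eq]
    exact Iff.rfl
  let q : (Ix d p → X) → Quotient S := fun x => Quotient.mk S x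
  have hqg : ∀ (g : Γ) (x : Ix d p → X), q (g • x) = q x := fun g x => (hS _ _).2 ⟨g, rfl⟩
  let τ : Fin d → Quotient S → Quotient S := fun i => Quotient.lift (fun x => q (sgXV z i x)) (by
    intro x y hxy
    obtain ⟨g, hg⟩ := (hS x y).1 (Quotient.sound hxy)
    rw [← hg]
    rw [sgXV_smul, hqg])
  have hτq : ∀ i x, τ i (q x) = q (sgXV z i x) := fun i x => rfl
  have hτi : ∀ (i : Fin d) (n : ℕ) (x : Ix d p → X), (τ i)^[n] (q x) = q ((sgXV z i)^[n] x) := by
    intro i n x
    induction n with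
    | zero => rfl
    | succ n ih => rw [Function.iterate_succ_apply', ih, hτq, Function.iterate_succ_apply']
  obtain ⟨δ, μ, h1, h2, h3⟩ := exists_dm hp b hb τ
    (by
      intro i j y
      obtain ⟨x, rfl⟩ := Quotient.exists_rep y
      change τ i (τ j (q x)) = τ j (τ i (q x))
      rw [hτq, hτq, hτq, hτq, sgXV_comm])
    (by
      intro i y
      obtain ⟨x, rfl⟩ := Quotient.exists_rep y
      change (τ i)^[p] (q x) = q x
      rw [hτi, sgXV_p, hqg])
    (by
      intro y
      refine ⟨i₀, fun h => ?_⟩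
      obtain ⟨x, rfl⟩ := Quotient.exists_rep y
      obtain ⟨η, hη⟩ := (hS _ _).1 h
      have hη' : sgXV z i₀ x = η • x := hη.symm
      have hit : ∀ n, (sgXV z i₀)^[n] x = (η ^ n) • x := by
        intro n
        induction n with
        | zero => rw [pow_zero, one_smul]; rfl
        | succ n ih =>
          rw [Function.iterate_succ_apply', ih, pow_succ, ← smul_smul, ← hη']
          exact sgXV_smul z i₀ _ _
      have hηp : η ^ p = (z i₀ : Γ)⁻¹ := by
        apply hfr2 _ _ x
        rw [← hit, sgXV_p]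
      apply hroot η⁻¹
      rw [inv_pow, hηp, inv_inv])
  refine ⟨fun x => δ (q x), fun i x => μ i (q x), fun g x => ?_, fun i g x => ?_, fun j x => ?_,
    fun i j x => ?_, fun x => ?_⟩
  · exact congrArg δ (hqg g x)
  · exact congrArg (μ i) (hqg g x)
  · exact h1 j (q x)
  · exact h2 i j (q x)
  · exact h3 (q x)

end Pool.Agent.Helper39.DC
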