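import Mathlib

/-!
# DC-03 (project DC): the Weyl algebra in characteristic `p`

`R` a ring with `p = 0`, `p` prime, `D y - y D = t`, `t` commutes with `D` and `y`. Put `h = y D`, so `D y = h + t`; `h` and `t` commute.
* `D ^ n * h = h * D ^ n + n t D ^ n` (induction), so `y ^ n D ^ n = ∏_{i < n} (h - i t)`: `y^{n+1} D^{n+1} = y^n h D^n = y^n D^n (h - n t)`.
* `h y ^ n = y ^ n h + n t y ^ n`, so `D ^ n y ^ n = ∏_{i=1}^{n} (h + i t)`: `D^{n+1} y^{n+1} = D^n (D y) y^n = D^n (h + t) y^n = D^n y^n (h + (n+1) t)`.
* In `(ZMod p)[X]` or `F_p[X, T]`: `∏_{i=1}^{p-1} (X + i T) = X ^ (p-1) - T ^ (p-1)` (for `T = 1` this is `X ^ p - X = ∏ (X - a)` divided by `X`; for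
  general commuting `h`, `t` use the homogeneous form: both sides are the evaluation at `h`, `t` of the same element of the polynomial ring
  `MvPolynomial (Fin 2) (ZMod p)` or prove the identity `∏_{i=1}^{p-1} (X + C (i T))` in `(ZMod p)[T][X]`: `X ^ p - X T ^ (p-1)` has the roots `i T`,
  `i < p`. It may be easier to expand: with `e_j` the elementary symmetric functions of `1, ..., p-1`, `∏ (h + i t) = ∑ e_j h^(p-1-j) t^j`, and the
  `e_j` modulo `p` are read off from the case `T = 1`.) So `D^{p-1} y^{p-1} = h^{p-1} - t^{p-1}`.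
* `y^{p-1} D^{p-1} = ∏_{i=0}^{p-2} (h - i t) = ∏_{i=1}^{p-1} ((h + t) - i t) = (h + t)^{p-1} - t^{p-1}`.
-/

set_option autoImplicit false

namespace Pool.Agent.Helper39.DC

open Polynomial in
private theorem prodId (p : ℕ) [Fact p.Prime] :
    ∏ j ∈ Finset.range (p - 1), ((X : (ZMod p)[X][X]) - C (((j : ℕ) + 1 : (ZMod p)[X]) * X)) =
      X ^ (p - 1) - C ((X : (ZMod p)[X]) ^ (p - 1)) := by
  classical
  have hp : p.Prime := Fact.out
  set n := p - 1 with hn
  have hn0 : n ≠ 0 := by have := hp.two_le; omega
  set P : (ZMod p)[X][X] := X ^ n - C ((X : (ZMod p)[X]) ^ n) with hP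
  have hmon : P.Monic := monic_X_pow_sub_C _ hn0
  have hdeg : P.natDegree = n := natDegree_X_pow_sub_C
  have hcast : ∀ a b : ℕ, a < p → b < p → (a : (ZMod p)[X]) = b → a = b := by
    intro a b ha hb hab
    have h1 : ((a : ZMod p)) = b := by
      have : C (a : ZMod p) = C (b : ZMod p) := by simpa using hab
      exact C_injective this
    have h2 := (ZMod.natCast_eq_natCast_iff' a b p).1 h1
    rwa [Nat.mod_eq_of_lt ha, Nat.mod_eq_of_lt hb] at h2
  have hinj : Set.InjOn (fun j : ℕ => (((j : ℕ) + 1 : (ZMod p)[X]) * X)) (Finset.range n) := by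
    intro a ha b hb hab
    have ha' : a < n := by simpa using ha
    have hb' : b < n := by simpa using hb
    have h1 : ((a : ℕ) + 1 : (ZMod p)[X]) = (b : ℕ) + 1 := mul_right_cancel₀ X_ne_zero hab
    have h2 : (a : (ZMod p)[X]) = b := add_right_cancel h1
    exact hcast a b (by omega) (by omega) h2
  set s : Finset (ZMod p)[X] := (Finset.range n).image (fun j : ℕ => (((j : ℕ) + 1 : (ZMod p)[X]) * X))
    with hs
  have hcard : s.card = n := by
    rw [hs, Finset.card_image_of_injOn hinj, Finset.card_range]
  have hroot : ∀ r ∈ s, r ∈ P.roots := by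
    intro r hr
    rw [hs, Finset.mem_image] at hr
    obtain ⟨j, hj, rfl⟩ := hr
    have hj' : j < n := by simpa using hj
    rw [mem_roots hmon.ne_zero, IsRoot.def, hP]
    have hne : ((j + 1 : ℕ) : ZMod p) ≠ 0 := by
      intro h0
      rw [ZMod.natCast_eq_zero_iff] at h0
      exact absurd (Nat.le_of_dvd (Nat.succ_pos j) h0) (by omega)
    have h1 : ((j + 1 : ℕ) : ZMod p) ^ (p - 1) = 1 := ZMod.pow_card_sub_one_eq_one hne
    have h2 : (((j : ℕ) + 1 : (ZMod p)[X])) ^ n = 1 := by
      have : (((j : ℕ) + 1 : (ZMod p)[X])) = C ((j + 1 : ℕ) : ZMod p) := by simp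
      rw [this, ← C_pow, h1, C_1]
    simp only [eval_sub, eval_pow, eval_X, eval_C, mul_pow, h2, one_mul, sub_self]
  have hle : s.val ≤ P.roots := (Multiset.le_iff_subset s.nodup).2 (fun r hr => hroot r hr)
  have hroots : s.val = P.roots := by
    apply Multiset.eq_of_le_of_card_le hle
    have : Multiset.card P.roots ≤ P.natDegree := card_roots' P
    rw [hdeg] at this
    have h3 : Multiset.card s.val = n := hcard
    omega
  have hfin := prod_multiset_X_sub_C_of_monic_of_roots_card_eq hmon
    (by rw [← hroots, hdeg]; exact hcard)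
  rw [← hroots] at hfin
  rw [← hfin]
  have : (s.val.map (fun a => (X : (ZMod p)[X][X]) - C a)).prod = ∏ a ∈ s, (X - C a) := rfl
  rw [this, hs, Finset.prod_image hinj]

open Polynomial in
private theorem commute_aeval {k R : Type*} [CommRing k] [Ring R] [Algebra k R] {t x : R}
    (h : Commute t x) (a : k[X]) : Commute (aeval t a) x := by
  induction a using Polynomial.induction_on' with
  | add p q hp hq => rw [map_add]; exact hp.add_left hq
  | monomial n a =>
    rw [aeval_monomial]
    exact Commute.mul_left (Algebra.commutes a x) (h.pow_left n)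

theorem weyl1 {R : Type*} [Ring R] {p : ℕ} (hp : p.Prime) (hR : (p : R) = 0) {D y t : R}
    (h : D * y - y * D = t) (h1 : Commute t D) (h2 : Commute t y) :
    (D * y) ^ (p - 1) - y ^ (p - 1) * D ^ (p - 1) = t ^ (p - 1) := by
  classical
  have : Fact p.Prime := ⟨hp⟩
  rcases subsingleton_or_nontrivial R with hS | hS
  · exact Subsingleton.elim _ _
  have : CharP R p := (CharP.charP_iff_prime_eq_zero hp).2 hR
  let _ : Algebra (ZMod p) R := ZMod.algebra R p
  have htx : Commute t (D * y) := h1.mul_right h2
  let f : Polynomial (ZMod p) →+* R := (Polynomial.aeval (R := ZMod p) t).toRingHom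
  have hf : ∀ a, Commute (f a) (D * y) := fun a => commute_aeval htx a
  let φ := Polynomial.eval₂RingHom' f (D * y) hf
  have hφX : φ Polynomial.X = D * y := Polynomial.eval₂_X f (D * y)
  have hφC : ∀ a, φ (Polynomial.C a) = f a := fun a => Polynomial.eval₂_C f (D * y)
  have hfX : f Polynomial.X = t := Polynomial.aeval_X t
  have hDy : D * y = y * D + t := by rw [← h]; abel
  -- `D ^ n * (y D) = (y D) D ^ n + n t D ^ n`
  have hD : ∀ n : ℕ, (y * D) * D ^ n = D ^ n * (y * D - (n : R) * t) := by
    intro n
    induction n with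
    | zero => simp
    | succ n ih =>
      have e1 : (y * D) * D = D * (y * D - t) := by
        have : D * (y * D) = (y * D + t) * D := by rw [← hDy, mul_assoc]
        rw [mul_sub, this, add_mul, h1.eq]
        abel
      have hc : Commute (n : R) D := Nat.cast_commute n D
      calc (y * D) * D ^ (n + 1) = ((y * D) * D ^ n) * D := by rw [pow_succ, ← mul_assoc]
        _ = D ^ n * (y * D - (n : R) * t) * D := by rw [ih]
        _ = D ^ n * ((y * D) * D - (n : R) * t * D) := by rw [mul_assoc, sub_mul]
        _ = D ^ n * (D * (y * D - t) - D * ((n : R) * t)) := by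
            rw [e1]
            congr 2
            exact (hc.mul_left h1).eq
        _ = D ^ (n + 1) * (y * D - ((n + 1 : ℕ) : R) * t) := by
            rw [← mul_sub, ← mul_assoc, ← pow_succ]
            congr 1
            push_cast
            rw [add_mul, one_mul]
            abel
  have key : ∀ n : ℕ, y ^ n * D ^ n = φ (∏ j ∈ Finset.range n,
      ((Polynomial.X : Polynomial (Polynomial (ZMod p))) -
        Polynomial.C (((j : ℕ) + 1 : Polynomial (ZMod p)) * Polynomial.X))) := by
    intro n
    induction n with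
    | zero => simp
    | succ n ih =>
      rw [Finset.prod_range_succ, map_mul, ← ih, map_sub, hφX, hφC, map_mul, hfX, map_add, map_one,
        map_natCast]
      calc y ^ (n + 1) * D ^ (n + 1) = y ^ n * ((y * D) * D ^ n) := by
            rw [pow_succ, pow_succ']
            simp only [mul_assoc]
        _ = y ^ n * D ^ n * (y * D - (n : R) * t) := by rw [hD, mul_assoc]
        _ = y ^ n * D ^ n * (D * y - ((n : R) + 1) * t) := by
            congr 1
            rw [hDy, add_mul, one_mul]
            abel
  have hfin := key (p - 1)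
  rw [prodId p, map_sub, map_pow, hφX, hφC, map_pow, hfX] at hfin
  rw [hfin]
  abel

theorem weyl2 {R : Type*} [Ring R] {p : ℕ} (hp : p.Prime) (hR : (p : R) = 0) {D y t : R}
    (h : D * y - y * D = t) (h1 : Commute t D) (h2 : Commute t y) :
    (y * D) ^ (p - 1) - D ^ (p - 1) * y ^ (p - 1) = t ^ (p - 1) := by
  have h' : y * D - D * y = -t := by rw [← h]; abel
  have h3 := weyl1 hp hR h' h2.neg_left h1.neg_left
  rw [h3]
  rcases hp.eq_two_or_odd' with rfl | hodd
  · have h2t : t + t = 0 := by
      have : (2 : R) * t = 0 := by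
        have h0 : ((2 : ℕ) : R) = 0 := hR
        push_cast at h0
        rw [h0, zero_mul]
      rwa [two_mul] at this
    simp only [show 2 - 1 = 1 from rfl, pow_one]
    exact neg_eq_of_add_eq_zero_left h2t
  · have : Even (p - 1) := by
      obtain ⟨k, hk⟩ := hodd
      exact ⟨k, by omega⟩
    exact this.neg_pow t

end Pool.Agent.Helper39.DC
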