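import Pool.Agent.Helper39.DC.AcRAlg
import Pool.Agent.Helper39.DC.WeylR

/-!
# DC-04 (project DC): the criterion implies acyclicity, absolute form

All conditions of `hW : WeyR b ρ c ⊤ ⊥ δ μ` are equalities (`Submodule.mem_bot`, `sub_eq_zero`). In the ring `Module.End κ U` (`p = 0` in it):
`δ` commutes with `ρ g`; `μ i` commutes with `ρ g`, `c j`, `δ`, `μ j`; `δ c j - c j δ = μ j c j`; `∑ b j μ j = 1`. Put `y = yy b c = ∑ b j (c j - 1)`.
* `u := ∑ b j • (μ j * c j) = δ y - y δ`; `u` commutes with `y`, all `μ i`, all `c j`.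
* `t := u ^ p = ∑ b j ^ p • (μ j ^ p * ρ (z j))` (the summands commute; `p = 0`; `c j ^ p = ρ (z j)`); `1 = (∑ b j μ j) ^ p = ∑ b j ^ p • μ j ^ p`. So
  `t - 1 = ∑ j, m j * (ρ (z j) - 1)` with `m j = b j ^ p • μ j ^ p`. `t` commutes with `δ`, `y`, `c j`, `μ j`, `ρ g`.
* `D' := u ^ (p-1) * δ`: `D' y - y D' = u ^ (p-1) * u = t`, and `t` commutes with `D'`, `y`. By `weyl1`, `weyl2` with `B := (D' * y) ^ (p-2) * D'`,
  `e := - D' ^ (p-1)`: `B y + y ^ (p-1) e = t ^ (p-1)` (`(D' y)^(p-2) D' y = (D' y)^(p-1)`), `y B + e y ^ (p-1) = t ^ (p-1)`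
  (`y (D' y)^(p-2) D' = (y D')^(p-1)`). `B`, `e` commute with all `ρ g`.
* Let `(f, g)` be a cycle of `AcR` (`D f = y ^ (p-1) g`, `y f = D g` pointwise, `D = DU S (b ^ p)`). All endomorphisms above commute with `D` (`DU_comp`).
  `𝔇(B g, - e f) = (D B g + y^(p-1) e f, y B g + D e f) = (B y f + y^(p-1) e f, y B g + e y^(p-1) g) = t^(p-1) (f, g)`.
* For every cycle `(f, g)` and every `j`: `(ρ (z j) - 1)(f, g) = 𝔇(EU j f, - EU j g)`: `D (EU f) + EU (D f) = f ∘ z j - f = (ρ (z j) - 1) f` (`DU_EU`,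
  equivariance), `EU (D f) = EU (y^(p-1) g) = y^(p-1) EU g` (`EU_comp`), so `D (EU f) + y^(p-1) EU g = (ρ (z j) - 1) f`; and
  `y (EU f) + D (EU g) = EU (y f) + D (EU g) = EU (D g) + D (EU g) = (ρ (z j) - 1) g`.
* `(t ^ (p-1) - 1)(f, g) = (t - 1) (f', g')`, `(f', g') = (1 + t + ... + t ^ (p-2)) (f, g)` again a cycle, `= ∑ j m j (ρ (z j) - 1)(f', g')
  = 𝔇 (∑ j m j (EU j f', - EU j g'))`. So `(f, g) = t^(p-1) (f, g) - (t^(p-1) - 1)(f, g)` is a boundary; all maps used are equivariant.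
-/

set_option autoImplicit false

namespace Pool.Agent.Helper39.DC

open Finset Pool.Agent.Helper27.Mess Pool.Agent.Helper39.DB
open scoped IsMulCommutative

variable {Γ : Type*} [Group Γ] {C : Type*} [AddCommGroup C] [Module (MonoidAlgebra ℤ Γ) C]
  {κ : Type*} [CommRing κ] {U : Type*} [AddCommGroup U] [Module κ U] {G : GrRes Γ C} {d p : ℕ}
  {z : Fin d → Subgroup.center Γ} {ρ : Representation κ Γ U} {c : Fin d → Module.End κ U}
  {b : Fin d → κ} {S : DSys G z}

private theorem add_pow_p {R : Type*} [Ring R] {p : ℕ} (hp : p.Prime) (hR : (p : R) = 0)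
    {x y : R} (h : Commute x y) : (x + y) ^ p = x ^ p + y ^ p := by
  obtain ⟨r, hr⟩ := h.exists_add_pow_prime_eq hp
  rw [hr, hR, zero_mul, zero_mul, zero_mul, add_zero]

private theorem sum_pow_p {R : Type*} [Ring R] {ι : Type*} {p : ℕ} (hp : p.Prime)
    (hR : (p : R) = 0) (s : Finset ι) (x : ι → R) (h : ∀ i j, Commute (x i) (x j)) :
    (∑ i ∈ s, x i) ^ p = ∑ i ∈ s, x i ^ p := by
  classical
  induction s using Finset.induction_on with
  | empty => rw [Finset.sum_empty, Finset.sum_empty, zero_pow hp.ne_zero]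
  | insert a s ha ih =>
    rw [Finset.sum_insert ha, Finset.sum_insert ha,
      add_pow_p hp hR (Commute.sum_right _ _ _ fun i _ => h a i), ih]

private theorem mul_pow_mul {R : Type*} [Ring R] (x y : R) (n : ℕ) :
    x * (y * x) ^ n * y = (x * y) ^ (n + 1) := by
  induction n with
  | zero => simp
  | succ n ih =>
    calc x * (y * x) ^ (n + 1) * y = (x * (y * x) ^ n * y) * (x * y) := by
          rw [pow_succ]
          noncomm_ring
      _ = (x * y) ^ (n + 1) * (x * y) := by rw [ih]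
      _ = (x * y) ^ (n + 1 + 1) := (pow_succ _ _).symm

/-- The operators. -/
private theorem ops {κ : Type*} [CommRing κ] {R : Type*} [Ring R] [Algebra κ R] {d p : ℕ}
    (hp : p.Prime) (hR : (p : R) = 0) {b : Fin d → κ} {c μ ζ : Fin d → R} {δ : R} {P : Set R}
    (hcP : ∀ i, ∀ g ∈ P, Commute (c i) g) (hδP : ∀ g ∈ P, Commute δ g)
    (hμP : ∀ i, ∀ g ∈ P, Commute (μ i) g) (hcc : ∀ i j, Commute (c i) (c j))
    (hcp : ∀ i, c i ^ p = ζ i) (hμc : ∀ i j, Commute (μ i) (c j)) (hμδ : ∀ i, Commute (μ i) δ)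
    (hμμ : ∀ i j, Commute (μ i) (μ j)) (hδζ : ∀ i, Commute δ (ζ i))
    (hrel : ∀ j, δ * c j - c j * δ = μ j * c j) (hsum : ∑ j, b j • μ j = 1)
    {Y : R} (hY : Y = ∑ i, b i • (c i - 1)) :
    ∃ (B e t : R) (m : Fin d → R), B * Y + Y ^ (p - 1) * e = t ^ (p - 1) ∧
      Y * B + e * Y ^ (p - 1) = t ^ (p - 1) ∧ t - 1 = ∑ j, m j * (ζ j - 1) ∧ Commute t Y ∧
      (∀ j, Commute (m j) Y) ∧
      ∀ g ∈ P, Commute B g ∧ Commute e g ∧ Commute t g ∧ ∀ j, Commute (m j) g := by
  have hcY : ∀ j, Commute (c j) Y := by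
    intro j
    rw [hY]
    exact Commute.sum_right _ _ _ fun i _ =>
      Commute.smul_right ((hcc j i).sub_right (Commute.one_right _)) _
  have hμY : ∀ j, Commute (μ j) Y := by
    intro j
    rw [hY]
    exact Commute.sum_right _ _ _ fun i _ =>
      Commute.smul_right ((hμc j i).sub_right (Commute.one_right _)) _
  have hYP : ∀ g ∈ P, Commute Y g := by
    intro g hg
    rw [hY]
    exact Commute.sum_left _ _ _ fun i _ =>
      Commute.smul_left ((hcP i g hg).sub_left (Commute.one_left _)) _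
  -- the element `u`
  obtain ⟨u, hu⟩ : ∃ u : R, u = ∑ j, b j • (μ j * c j) := ⟨_, rfl⟩
  have hcom : ∀ x : R, (∀ j, Commute (μ j) x) → (∀ j, Commute (c j) x) → Commute u x := by
    intro x h1 h2
    rw [hu]
    exact Commute.sum_left _ _ _ fun i _ => Commute.smul_left ((h1 i).mul_left (h2 i)) _
  have huY : Commute u Y := hcom Y hμY hcY
  have huμ : ∀ i, Commute u (μ i) := fun i => hcom _ (fun j => hμμ j i) fun j => (hμc i j).symm
  have huc : ∀ i, Commute u (c i) := fun i => hcom _ (fun j => hμc j i) fun j => hcc j i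
  have huP : ∀ g ∈ P, Commute u g := fun g hg =>
    hcom _ (fun j => hμP j g hg) fun j => hcP j g hg
  have huδ : δ * Y - Y * δ = u := by
    rw [hY, hu, Finset.mul_sum, Finset.sum_mul, ← Finset.sum_sub_distrib]
    refine Finset.sum_congr rfl fun j _ => ?_
    rw [← hrel j, mul_smul_comm, smul_mul_assoc, ← smul_sub]
    congr 1
    noncomm_ring
  -- the element `t`
  have ht : u ^ p = ∑ j, b j ^ p • (μ j ^ p * ζ j) := by
    rw [hu, sum_pow_p hp hR]
    · refine Finset.sum_congr rfl fun j _ => ?_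
      rw [smul_pow, (hμc j j).mul_pow, hcp]
    · intro i j
      refine Commute.smul_left (Commute.smul_right ?_ _) _
      exact ((hμμ i j).mul_left (hμc j i).symm).mul_right ((hμc i j).mul_left (hcc i j))
  have h1 : (1 : R) = ∑ j, b j ^ p • μ j ^ p := by
    have h2 : (∑ j, b j • μ j) ^ p = ∑ j, (b j • μ j) ^ p :=
      sum_pow_p hp hR _ _ fun i j => Commute.smul_left (Commute.smul_right (hμμ i j) _) _
    rw [hsum, one_pow] at h2
    rw [h2]
    exact Finset.sum_congr rfl fun j _ => by rw [smul_pow]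
  have htm : u ^ p - 1 = ∑ j, (b j ^ p • μ j ^ p) * (ζ j - 1) := by
    rw [ht]
    nth_rewrite 1 [h1]
    rw [← Finset.sum_sub_distrib]
    refine Finset.sum_congr rfl fun j _ => ?_
    rw [mul_sub, mul_one, smul_mul_assoc]
  have htδ : Commute (u ^ p) δ := by
    rw [ht]
    exact Commute.sum_left _ _ _ fun i _ =>
      Commute.smul_left (((hμδ i).pow_left p).mul_left (hδζ i).symm) _
  have htu : Commute (u ^ p) u := (Commute.refl u).pow_left p
  have htY : Commute (u ^ p) Y := huY.pow_left p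
  -- the element `D`
  obtain ⟨D, hD⟩ : ∃ D : R, D = u ^ (p - 1) * δ := ⟨_, rfl⟩
  have hp1 : p - 1 + 1 = p := Nat.succ_pred_eq_of_pos hp.pos
  have hDY : D * Y - Y * D = u ^ p := by
    have h2 : Y * u ^ (p - 1) = u ^ (p - 1) * Y := (huY.pow_left (p - 1)).symm
    calc D * Y - Y * D = u ^ (p - 1) * (δ * Y) - (Y * u ^ (p - 1)) * δ := by
          rw [hD]
          noncomm_ring
      _ = u ^ (p - 1) * (δ * Y - Y * δ) := by
          rw [h2]
          noncomm_ring
      _ = u ^ p := by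
          rw [huδ, ← pow_succ, hp1]
  have htD : Commute (u ^ p) D := by
    rw [hD]
    exact (htu.pow_right (p - 1)).mul_right htδ
  have hDP : ∀ g ∈ P, Commute D g := by
    intro g hg
    rw [hD]
    exact ((huP g hg).pow_left _).mul_left (hδP g hg)
  have w1 := weyl1 hp hR hDY htD htY
  have w2 := weyl2 hp hR hDY htD htY
  obtain ⟨q, hq⟩ : ∃ q, p = q + 2 := ⟨p - 2, by have := hp.two_le; omega⟩
  have hq1 : p - 1 = q + 1 := by omega
  refine ⟨(D * Y) ^ q * D, -D ^ (p - 1), u ^ p, fun j => b j ^ p • μ j ^ p, ?_, ?_, htm, htY, ?_,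
    ?_⟩
  · rw [mul_neg, ← sub_eq_add_neg, ← w1, mul_assoc, ← pow_succ, hq1]
  · rw [neg_mul, ← sub_eq_add_neg, ← w2, ← mul_assoc, mul_pow_mul, hq1]
  · intro j
    exact Commute.smul_left ((hμY j).pow_left p) _
  · intro g hg
    refine ⟨(((hDP g hg).mul_left (hYP g hg)).pow_left q).mul_left (hDP g hg),
      ((hDP g hg).pow_left _).neg_left, (huP g hg).pow_left p, fun j => ?_⟩
    exact Commute.smul_left ((hμP j g hg).pow_left p) _

/-- Composition. -/
private noncomputable def cp (φ : Module.End κ U) (f : C →+ U) : C →+ U :=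
  (φ : U →ₗ[κ] U).toAddMonoidHom.comp f

private theorem cp_apply (φ : Module.End κ U) (f : C →+ U) (x : C) : cp φ f x = φ (f x) := rfl

private theorem cp_eqv {φ : Module.End κ U} (h : ∀ g, Commute φ (ρ g)) {f : C →+ U}
    (hf : EqvR ρ f) : EqvR ρ (cp φ f) := by
  intro g x
  rw [cp_apply, cp_apply, hf g x]
  exact LinearMap.congr_fun (h g) (f x)

private theorem DU_cp (β : Fin d → κ) (φ : Module.End κ U) (f : C →+ U) (x : C) :
    DU S β (cp φ f) x = φ (DU S β f x) := DU_comp S β φ f x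

private theorem EU_cp (β : Fin d → κ) (j : Fin d) (φ : Module.End κ U) (f : C →+ U) (x : C) :
    EU S β j (cp φ f) x = φ (EU S β j f x) := EU_comp S β j φ f x

private theorem DU_sum {ι : Type*} (β : Fin d → κ) (s : Finset ι) (F : ι → C →+ U) (x : C) :
    DU S β (∑ i ∈ s, F i) x = ∑ i ∈ s, DU S β (F i) x := by
  classical
  induction s using Finset.induction_on with
  | empty =>
    rw [Finset.sum_empty, Finset.sum_empty, DU_zero]
    rfl
  | insert a s ha ih =>
    rw [Finset.sum_insert ha, Finset.sum_insert ha, DU_add, ← ih]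
    rfl

private theorem eqv_add {f g : C →+ U} (hf : EqvR ρ f) (hg : EqvR ρ g) : EqvR ρ (f + g) := by
  intro k x
  change f _ + g _ = ρ k (f x + g x)
  rw [hf, hg, map_add]

private theorem eqv_sub {f g : C →+ U} (hf : EqvR ρ f) (hg : EqvR ρ g) : EqvR ρ (f - g) := by
  intro k x
  change f _ - g _ = ρ k (f x - g x)
  rw [hf, hg, map_sub]

private theorem eqv_sum {ι : Type*} (s : Finset ι) {F : ι → C →+ U}
    (hF : ∀ i ∈ s, EqvR ρ (F i)) : EqvR ρ (∑ i ∈ s, F i) := by
  classical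
  induction s using Finset.induction_on with
  | empty =>
    rw [Finset.sum_empty]
    intro k x
    exact (map_zero (ρ k)).symm
  | insert a s ha ih =>
    rw [Finset.sum_insert ha]
    exact eqv_add (hF a (Finset.mem_insert_self a s))
      (ih fun i hi => hF i (Finset.mem_insert_of_mem hi))

theorem weyAc (hp : p.Prime) (hκ : (p : κ) = 0) (hc : RotV p z ρ c) {δ : Module.End κ U}
    {μ : Fin d → Module.End κ U} (hW : WeyR b ρ c ⊤ ⊥ δ μ) : AcR p S b ρ c ⊤ ⊥ := by
  have hR : ((p : ℕ) : Module.End κ U) = 0 := by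
    have h := congrArg (algebraMap κ (Module.End κ U)) hκ
    rwa [map_natCast, map_zero] at h
  have ex : ∀ {x y : U}, x - y ∈ (⊥ : Submodule κ U) → x = y := fun h =>
    sub_eq_zero.1 ((Submodule.mem_bot κ).1 h)
  have top : ∀ u : U, u ∈ (⊤ : Submodule κ U) := fun u => Submodule.mem_top
  obtain ⟨B, e, t, m, hB, he, ht, htY, hmY, hP⟩ := ops (κ := κ) (R := Module.End κ U) (b := b)
    (c := c) (μ := μ) (ζ := fun i => ρ (z i : Γ)) (δ := δ) (P := Set.range ρ) hp hR
    (by rintro i _ ⟨g, rfl⟩; exact hc.act i g)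
    (by
      rintro _ ⟨g, rfl⟩
      exact LinearMap.ext fun u => (ex (hW.δ_act g u (top u))).symm)
    (by
      rintro i _ ⟨g, rfl⟩
      exact LinearMap.ext fun u => (ex (hW.μ_act i g u (top u))).symm)
    hc.comm hc.pow
    (fun i j => LinearMap.ext fun u => ex (hW.μ_c i j u (top u)))
    (fun i => LinearMap.ext fun u => ex (hW.μ_δ i u (top u)))
    (fun i j => LinearMap.ext fun u => ex (hW.μ_μ i j u (top u)))
    (fun i => LinearMap.ext fun u => (ex (hW.δ_act (z i : Γ) u (top u))).symm)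
    (fun j => LinearMap.ext fun u => ex (hW.rel j u (top u)))
    (by
      refine LinearMap.ext fun u => ?_
      have h := ex (hW.sum u (top u))
      rw [LinearMap.sum_apply]
      exact h)
    (Y := yy b c) rfl
  have hPg : ∀ g, Commute B (ρ g) ∧ Commute e (ρ g) ∧ Commute t (ρ g) ∧
      ∀ j, Commute (m j) (ρ g) := fun g => hP _ ⟨g, rfl⟩
  intro f g hf hg _ _ hcf hcg
  have hcf' : ∀ x, DU S (fun i => b i ^ p) f x = (yy b c ^ (p - 1)) (g x) := fun x => ex (hcf x)
  have hcg' : ∀ x, yy b c (f x) = DU S (fun i => b i ^ p) g x := fun x => ex (hcg x)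
  -- the geometric sum
  obtain ⟨s, hs⟩ : ∃ s : Module.End κ U, s = ∑ i ∈ Finset.range (p - 1), t ^ i := ⟨_, rfl⟩
  have hst : (t - 1) * s = t ^ (p - 1) - 1 := by rw [hs, mul_geom_sum]
  have hsY : Commute s (yy b c) := by
    rw [hs]
    exact Commute.sum_left _ _ _ fun i _ => htY.pow_left i
  have hsP : ∀ g, Commute s (ρ g) := by
    intro g
    rw [hs]
    exact Commute.sum_left _ _ _ fun i _ => (hPg g).2.2.1.pow_left i
  set β : Fin d → κ := fun i => b i ^ p with hβ
  -- the derivative on cycles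
  have hE1 : ∀ (j : Fin d) (x : C), DU S β (EU S β j (cp s f)) x +
      (yy b c ^ (p - 1)) (EU S β j (cp s g) x) = ρ (z j : Γ) (s (f x)) - s (f x) := by
    intro j x
    have h1 := DU_EU S β j (cp s f) x
    have h2 : EU S β j (DU S β (cp s f)) x = (yy b c ^ (p - 1)) (EU S β j (cp s g) x) := by
      have h3 : DU S β (cp s f) = cp (yy b c ^ (p - 1)) (cp s g) := by
        ext x
        rw [DU_cp, hcf' x, cp_apply, cp_apply]
        exact LinearMap.congr_fun (hsY.pow_right (p - 1)) (g x)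
      rw [h3, EU_cp]
    rw [h2] at h1
    rw [h1, cp_apply, cp_apply, hf (z j : Γ) x]
    congr 1
    exact LinearMap.congr_fun (hsP (z j : Γ)) (f x)
  have hE2 : ∀ (j : Fin d) (x : C), yy b c (EU S β j (cp s f) x) +
      DU S β (EU S β j (cp s g)) x = ρ (z j : Γ) (s (g x)) - s (g x) := by
    intro j x
    have h1 := DU_EU S β j (cp s g) x
    have h2 : EU S β j (DU S β (cp s g)) x = yy b c (EU S β j (cp s f) x) := by
      have h3 : DU S β (cp s g) = cp (yy b c) (cp s f) := by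
        ext x
        rw [DU_cp, ← hcg' x, cp_apply, cp_apply]
        exact LinearMap.congr_fun hsY (f x)
      rw [h3, EU_cp]
    rw [h2, cp_apply, cp_apply, hg (z j : Γ) x] at h1
    rw [add_comm, h1]
    congr 1
    exact LinearMap.congr_fun (hsP (z j : Γ)) (g x)
  have hsum : ∀ v : U, ∑ j, m j (ρ (z j : Γ) (s v) - s v) = (t ^ (p - 1)) v - v := by
    intro v
    have h1 : (∑ j, m j * (ρ (z j : Γ) - 1)) * s = t ^ (p - 1) - 1 := by
      rw [← hst, ht]
    have h2 := LinearMap.congr_fun h1 v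
    rw [Finset.sum_mul, LinearMap.sum_apply] at h2
    exact h2
  refine ⟨cp B g - ∑ j, cp (m j) (EU S β j (cp s f)), ∑ j, cp (m j) (EU S β j (cp s g)) - cp e f,
    ?_, ?_, fun x => top _, fun x => top _, fun x => ?_, fun x => ?_⟩
  · exact eqv_sub (cp_eqv (fun k => (hPg k).1) hg) (eqv_sum _ fun j _ =>
      cp_eqv (fun k => (hPg k).2.2.2 j) (EU_eqv S β j (cp_eqv hsP hf)))
  · exact eqv_sub (eqv_sum _ fun j _ =>
      cp_eqv (fun k => (hPg k).2.2.2 j) (EU_eqv S β j (cp_eqv hsP hg)))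
      (cp_eqv (fun k => (hPg k).2.1) hf)
  · rw [Submodule.mem_bot, sub_eq_zero]
    have h1 : DU S β (cp B g - ∑ j, cp (m j) (EU S β j (cp s f))) x =
        B (DU S β g x) - ∑ j, m j (DU S β (EU S β j (cp s f)) x) := by
      rw [DU_sub]
      change DU S β (cp B g) x - DU S β (∑ j, cp (m j) (EU S β j (cp s f))) x = _
      rw [DU_cp, DU_sum]
      congr 1
      exact Finset.sum_congr rfl fun j _ => DU_cp _ _ _ _
    have h2 : (∑ j, cp (m j) (EU S β j (cp s g)) - cp e f : C →+ U) x =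
        ∑ j, m j (EU S β j (cp s g) x) - e (f x) := by
      change (∑ j, cp (m j) (EU S β j (cp s g)) : C →+ U) x - e (f x) = _
      rw [AddMonoidHom.finsetSum_apply]
      rfl
    have h3 : ∀ j, (yy b c ^ (p - 1)) (m j (EU S β j (cp s g) x)) =
        m j ((yy b c ^ (p - 1)) (EU S β j (cp s g) x)) := fun j =>
      (LinearMap.congr_fun ((hmY j).pow_right (p - 1)) _).symm
    have h4 : B (yy b c (f x)) + (yy b c ^ (p - 1)) (e (f x)) = (t ^ (p - 1)) (f x) :=
      LinearMap.congr_fun hB (f x)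
    rw [h1, h2, map_sub, map_sum, Finset.sum_congr rfl fun j _ => h3 j, ← hcg' x]
    have h5 := hsum (f x)
    rw [← Finset.sum_congr rfl fun j _ => congrArg (m j) (hE1 j x)] at h5
    simp only [map_add, Finset.sum_add_distrib] at h5
    rw [← h4] at h5
    rw [← sub_eq_zero] at h5 ⊢
    rw [← h5]
    abel
  · rw [Submodule.mem_bot, sub_eq_zero]
    have h1 : DU S β (∑ j, cp (m j) (EU S β j (cp s g)) - cp e f) x =
        ∑ j, m j (DU S β (EU S β j (cp s g)) x) - e (DU S β f x) := by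
      rw [DU_sub]
      change DU S β (∑ j, cp (m j) (EU S β j (cp s g))) x - DU S β (cp e f) x = _
      rw [DU_cp, DU_sum]
      congr 1
      exact Finset.sum_congr rfl fun j _ => DU_cp _ _ _ _
    have h2 : (cp B g - ∑ j, cp (m j) (EU S β j (cp s f)) : C →+ U) x =
        B (g x) - ∑ j, m j (EU S β j (cp s f) x) := by
      change B (g x) - (∑ j, cp (m j) (EU S β j (cp s f)) : C →+ U) x = _
      rw [AddMonoidHom.finsetSum_apply]
      rfl
    have h3 : ∀ j, yy b c (m j (EU S β j (cp s f) x)) =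
        m j (yy b c (EU S β j (cp s f) x)) := fun j =>
      (LinearMap.congr_fun (hmY j) _).symm
    have h4 : yy b c (B (g x)) + e ((yy b c ^ (p - 1)) (g x)) = (t ^ (p - 1)) (g x) :=
      LinearMap.congr_fun he (g x)
    rw [h1, h2, map_sub, map_sum, Finset.sum_congr rfl fun j _ => h3 j, hcf' x]
    have h5 := hsum (g x)
    rw [← Finset.sum_congr rfl fun j _ => congrArg (m j) (hE2 j x)] at h5
    simp only [map_add, Finset.sum_add_distrib] at h5
    rw [← h4] at h5
    rw [← sub_eq_zero] at h5 ⊢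
    rw [← h5]
    abel

end Pool.Agent.Helper39.DC
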