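import Pool.Agent.Helper39.DC.MulExtV
import Pool.Agent.Helper39.DC.MulBasV
import Pool.Agent.Helper39.DC.VSet
import Pool.Agent.Helper39.DC.WeyAc

/-!
# DC-09 (project DC): the criterion for the multiadditive maps on a projective module

Compare DB/ProjH.lean.
* `wey_free`: `F = X →₀ ℤ[Γ]`, the `Γ`-set `Y = X × Γ` with `g • (x, γ) = (x, g γ)` (a local instance, free), `δ`, `μ` from `exists_dm_free` on `Ix d p → Y`.
  By `mv_exists`, `mv_ext` there are unique linear `Δ`, `M i : MV d p F A → MV d p F A` with `(Δ φ) (bas ∘ y) = δ y • φ (bas ∘ y)`,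
  `(M i φ) (bas ∘ y) = μ i y • φ (bas ∘ y)` (a scalar function `s : (Ix d p → Y) → κ` gives the linear map `scal s`, with `scal s (φ) (bas ∘ y) = s y • φ (bas ∘ y)`;
  `scal s` and `scal s'` commute). `g⁻¹`: `(ρ g (scal s φ)) (bas ∘ y) = ρ g (s (g⁻¹ y) • φ (bas ∘ g⁻¹ y)) = s y • (ρ g φ) (bas ∘ y)`, as `s` is `Γ`-invariant.
  `sgV z τ i (bas ∘ y) = bas ∘ (sgXV z i y)`, so `(cV i (scal s φ)) (bas ∘ y) = s (sgXV z i y) • φ (bas ∘ sgXV z i y)`: `M i` commutes with `cV j`, and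
  `(Δ (cV j φ) - cV j (Δ φ)) (bas ∘ y) = (δ y - δ (sgXV z j y)) • φ (..) = μ j y • (cV j φ) (bas ∘ y) = (M j (cV j φ)) (bas ∘ y)`. `∑ b j • M j = 1`.
  All conditions hold exactly, i.e. modulo `⊥`.
* `wey_proj`: `F` is a retract of the free module `F₁ = F →₀ ℤ[Γ]`: `r : F₁ → F`, `s : F → F₁` linear over the group ring with `r (s v) = v`. With `r* φ = φ ∘ r`,
  `s* φ = φ ∘ s` (linear over `κ`, commuting with the actions and the rotations), `s* (r* φ) = φ`. The criterion does not pass to retracts directly (products),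
  but acyclicity does: `AcR` for `F₁` (`weyAc`) gives `AcR` for `F`: for a cycle `(f, g)` the pair `(r* f, r* g)` is a cycle, `= 𝔇(α, β)`, take `(s* α, s* β)`
  (`DU_comp`).
-/

set_option autoImplicit false

namespace Pool.Agent.Helper39.DC

open Finset Pool.Agent.Helper27.Mess Pool.Agent.Helper39.DB
open scoped IsMulCommutative

variable {Γ : Type*} [Group Γ] {κ : Type*} [Field κ] {A : Type*} [AddCommGroup A] [Module κ A]
  {d p : ℕ} {z : Fin d → Subgroup.center Γ} {ρ : Representation κ Γ A} {b : Fin d → κ}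

private theorem exists_scal (X : Type*) (s : (Ix d p → X × Γ) → κ) :
    ∃ L : Module.End κ (MV d p (X →₀ MonoidAlgebra ℤ Γ) A),
      ∀ (φ : MV d p (X →₀ MonoidAlgebra ℤ Γ) A) (y : Ix d p → X × Γ),
      L φ (fun w => bas Γ (y w)) = s y • φ (fun w => bas Γ (y w)) := by
  have hex : ∀ φ : MV d p (X →₀ MonoidAlgebra ℤ Γ) A,
      ∃ ψ : MV d p (X →₀ MonoidAlgebra ℤ Γ) A,
      ∀ y : Ix d p → X × Γ, ψ (fun w => bas Γ (y w)) = s y • φ (fun w => bas Γ (y w)) :=
    fun φ => mv_exists _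
  choose e0 he0 using hex
  refine ⟨{ toFun := e0, map_add' := ?_, map_smul' := ?_ }, he0⟩
  · intro φ ψ
    apply mv_ext
    intro y
    change e0 (φ + ψ) _ = e0 φ _ + e0 ψ _
    rw [he0, he0, he0]
    exact smul_add _ _ _
  · intro t φ
    apply mv_ext
    intro y
    change e0 (t • φ) _ = t • e0 φ _
    rw [he0, he0]
    change s y • t • φ _ = t • s y • φ _
    exact smul_comm _ _ _

theorem wey_free (hp : p.Prime) [CharP κ p] (hb : Ind p b) (i₀ : Fin d)
    (hroot : ∀ g : Γ, g ^ p ≠ z i₀) (X : Type*) :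
    ∃ (δ : Module.End κ (MV d p (X →₀ MonoidAlgebra ℤ Γ) A))
      (μ : Fin d → Module.End κ (MV d p (X →₀ MonoidAlgebra ℤ Γ) A)),
      WeyR b (rV (d := d) (p := p) (actH Γ (X →₀ MonoidAlgebra ℤ Γ)) ρ)
        (cV κ z (actH Γ (X →₀ MonoidAlgebra ℤ Γ))) ⊤ ⊥ δ μ := by
  classical
  let inst : MulAction Γ (X × Γ) :=
    { smul := fun g y => (y.1, g * y.2)
      one_smul := fun y => Prod.ext rfl (one_mul _)
      mul_smul := fun g h y => Prod.ext rfl (mul_assoc _ _ _) }
  have hsm : ∀ (g : Γ) (y : X × Γ), g • y = (y.1, g * y.2) := fun _ _ => rfl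
  have hfree : ∀ (g : Γ) (y : X × Γ), g • y = y → g = 1 := by
    intro g y h
    have h2 : g * y.2 = y.2 := congrArg Prod.snd h
    exact mul_eq_right.1 h2
  obtain ⟨δ, μ, hδg, hμg, hδs, hμs, hsum⟩ := exists_dm_free hp b hb z i₀ hroot hfree
  obtain ⟨Δ, hΔ⟩ := exists_scal (A := A) X δ
  have hM0 : ∀ i, ∃ L : Module.End κ (MV d p (X →₀ MonoidAlgebra ℤ Γ) A),
      ∀ (φ : MV d p (X →₀ MonoidAlgebra ℤ Γ) A) (y : Ix d p → X × Γ),
      L φ (fun w => bas Γ (y w)) = μ i y • φ (fun w => bas Γ (y w)) :=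
    fun i => exists_scal X (μ i)
  choose M hM using hM0
  have hb' : ∀ (g : Γ) (y : X × Γ), actH Γ (X →₀ MonoidAlgebra ℤ Γ) g (bas Γ y) =
      bas Γ (g • y) := fun g y => act_bas g y
  have hrV : ∀ (g : Γ) (φ : MV d p (X →₀ MonoidAlgebra ℤ Γ) A) (y : Ix d p → X × Γ),
      rV (d := d) (p := p) (actH Γ (X →₀ MonoidAlgebra ℤ Γ)) ρ g φ (fun w => bas Γ (y w)) =
        ρ g (φ (fun w => bas Γ (g⁻¹ • y w))) := by
    intro g φ y
    rw [rV_apply]
    congr 2
    funext w
    exact hb' _ _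
  have hcV : ∀ (i : Fin d) (φ : MV d p (X →₀ MonoidAlgebra ℤ Γ) A) (y : Ix d p → X × Γ),
      cV κ z (actH Γ (X →₀ MonoidAlgebra ℤ Γ)) i φ (fun w => bas Γ (y w)) =
        φ (fun w => bas Γ (sgXV z i y w)) := by
    intro i φ y
    rw [cV_apply]
    congr 1
    funext w
    unfold sgV sgXV
    by_cases h : (w i : ℕ) + 1 < p
    · rw [if_pos h, if_pos h]
    · rw [if_neg h, if_neg h, hb']
  have hact : ∀ (s : (Ix d p → X × Γ) → κ)
      (hs : ∀ (g : Γ) (x : Ix d p → X × Γ), s (fun w => g • x w) = s x)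
      (L : Module.End κ (MV d p (X →₀ MonoidAlgebra ℤ Γ) A))
      (hL : ∀ (φ : MV d p (X →₀ MonoidAlgebra ℤ Γ) A) (y : Ix d p → X × Γ),
        L φ (fun w => bas Γ (y w)) = s y • φ (fun w => bas Γ (y w)))
      (g : Γ) (u : MV d p (X →₀ MonoidAlgebra ℤ Γ) A),
      rV (d := d) (p := p) (actH Γ (X →₀ MonoidAlgebra ℤ Γ)) ρ g (L u) =
        L (rV (d := d) (p := p) (actH Γ (X →₀ MonoidAlgebra ℤ Γ)) ρ g u) := by
    intro s hs L hL g u
    apply mv_ext
    intro y
    rw [hL, hrV, hrV, hL, hs]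
    exact map_smul (ρ g) _ _
  refine ⟨Δ, M, ?_⟩
  refine
    { δ1 := fun _ _ => Submodule.mem_top
      δ0 := ?_
      μ1 := fun _ _ _ => Submodule.mem_top
      μ0 := ?_
      δ_act := ?_
      μ_act := ?_
      μ_c := ?_
      μ_δ := ?_
      μ_μ := ?_
      rel := ?_
      sum := ?_ }
  · intro u hu
    rw [(Submodule.mem_bot κ).1 hu, map_zero]
    exact Submodule.zero_mem _
  · intro i u hu
    rw [(Submodule.mem_bot κ).1 hu, map_zero]
    exact Submodule.zero_mem _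
  · intro g u _
    rw [Submodule.mem_bot, sub_eq_zero]
    exact hact δ hδg Δ hΔ g u
  · intro i g u _
    rw [Submodule.mem_bot, sub_eq_zero]
    exact hact (μ i) (hμg i) (M i) (hM i) g u
  · intro i j u _
    rw [Submodule.mem_bot, sub_eq_zero]
    apply mv_ext
    intro y
    rw [hM, hcV, hcV, hM, hμs]
  · intro i u _
    rw [Submodule.mem_bot, sub_eq_zero]
    apply mv_ext
    intro y
    rw [hM, hΔ, hΔ, hM]
    exact smul_comm _ _ _
  · intro i j u _
    rw [Submodule.mem_bot, sub_eq_zero]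
    apply mv_ext
    intro y
    rw [hM, hM, hM, hM]
    exact smul_comm _ _ _
  · intro j u _
    rw [Submodule.mem_bot, sub_sub, sub_eq_zero]
    apply mv_ext
    intro y
    rw [add_apply, hΔ, hcV, hcV, hΔ, hM, hcV, hδs, ← add_smul]
    congr 1
    ring
  · intro u _
    rw [Submodule.mem_bot, sub_eq_zero]
    apply mv_ext
    intro y
    have h1 : (∑ j, b j • M j u) (fun w => bas Γ (y w)) =
        ∑ j, b j • (M j u) (fun w => bas Γ (y w)) := by
      rw [_root_.sum_apply]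
      rfl
    rw [h1]
    have h2 : ∀ j ∈ (univ : Finset (Fin d)), b j • (M j u) (fun w => bas Γ (y w)) =
        (b j * μ j y) • u (fun w => bas Γ (y w)) := by
      intro j _
      rw [hM, smul_smul]
    rw [Finset.sum_congr rfl h2, ← Finset.sum_smul, hsum, one_smul]

/-- the pull-back of multiadditive maps along a linear map -/
private noncomputable def pb {F F' : Type*} [AddCommGroup F] [AddCommGroup F'] (r : F' →+ F) :
    MV d p F A →ₗ[κ] MV d p F' A where
  toFun φ := φ.compLinearMap (fun _ => AddMonoidHom.toIntLinearMap r)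
  map_add' φ ψ := by
    apply MultilinearMap.ext
    intro v
    rfl
  map_smul' t φ := by
    apply MultilinearMap.ext
    intro v
    rfl

private theorem pb_apply {F F' : Type*} [AddCommGroup F] [AddCommGroup F'] (r : F' →+ F)
    (φ : MV d p F A) (v : Ix d p → F') : pb (κ := κ) r φ v = φ (fun w => r (v w)) := rfl

private theorem pb_act {F F' : Type*} [AddCommGroup F] [AddCommGroup F'] (r : F' →+ F)
    (τ : Γ →* AddMonoid.End F) (τ' : Γ →* AddMonoid.End F')
    (hr : ∀ (g : Γ) (v : F'), r (τ' g v) = τ g (r v)) (g : Γ) (φ : MV d p F A) :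
    pb (κ := κ) r (rV τ ρ g φ) = rV τ' ρ g (pb (κ := κ) r φ) := by
  apply MultilinearMap.ext
  intro v
  rw [pb_apply, rV_apply, rV_apply, pb_apply]
  congr 2
  funext w
  exact (hr _ _).symm

private theorem pb_rot {F F' : Type*} [AddCommGroup F] [AddCommGroup F'] (r : F' →+ F)
    (τ : Γ →* AddMonoid.End F) (τ' : Γ →* AddMonoid.End F')
    (hr : ∀ (g : Γ) (v : F'), r (τ' g v) = τ g (r v)) (i : Fin d) (φ : MV d p F A) :
    pb (κ := κ) r (cV κ z τ i φ) = cV κ z τ' i (pb (κ := κ) r φ) := by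
  apply MultilinearMap.ext
  intro v
  rw [pb_apply, cV_apply, cV_apply, pb_apply]
  congr 1
  funext w
  unfold sgV
  by_cases h : (w i : ℕ) + 1 < p
  · rw [if_pos h, if_pos h]
  · rw [if_neg h, if_neg h, hr]

private theorem pb_yy {F F' : Type*} [AddCommGroup F] [AddCommGroup F'] (r : F' →+ F)
    (τ : Γ →* AddMonoid.End F) (τ' : Γ →* AddMonoid.End F')
    (hr : ∀ (g : Γ) (v : F'), r (τ' g v) = τ g (r v)) (n : ℕ) (φ : MV d p F A) :
    pb (κ := κ) r ((yy b (cV κ z τ) ^ n) φ) = (yy b (cV κ z τ') ^ n) (pb (κ := κ) r φ) := by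
  induction n generalizing φ with
  | zero => rfl
  | succ n ih =>
    rw [pow_succ, pow_succ, Module.End.mul_apply, Module.End.mul_apply, ih]
    congr 1
    unfold yy
    rw [LinearMap.sum_apply, LinearMap.sum_apply, map_sum]
    refine Finset.sum_congr rfl (fun i _ => ?_)
    rw [LinearMap.smul_apply, LinearMap.smul_apply, map_smul, LinearMap.sub_apply,
      LinearMap.sub_apply, map_sub, pb_rot r τ τ' hr]
    rfl

theorem qv_proj (hp : p.Prime) [CharP κ p] (hb : Ind p b) (i₀ : Fin d)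
    (hroot : ∀ g : Γ, g ^ p ≠ z i₀) (hρ : ∀ i, ρ (z i : Γ) = 1) {C : Type*} [AddCommGroup C]
    [Module (MonoidAlgebra ℤ Γ) C] {G : GrRes Γ C} (S : DSys G z) (F : Type*) [AddCommGroup F]
    [Module (MonoidAlgebra ℤ Γ) F] [Module.Projective (MonoidAlgebra ℤ Γ) F] :
    QV p S b (actH Γ F) ρ := by
  classical
  obtain ⟨s, hs⟩ := (Module.projective_def (R := MonoidAlgebra ℤ Γ) (P := F)).1 inferInstance
  obtain ⟨δ, μ, hW⟩ := wey_free (A := A) (ρ := ρ) hp hb i₀ hroot F
  have hAc := weyAc (S := S) hp (CharP.cast_eq_zero κ p) (rotV_cV hρ) hW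
  let r : (F →₀ MonoidAlgebra ℤ Γ) →ₗ[MonoidAlgebra ℤ Γ] F :=
    Finsupp.linearCombination (MonoidAlgebra ℤ Γ) id
  have hrs : ∀ v, r (s v) = v := hs
  have hra : ∀ (g : Γ) v, r.toAddMonoidHom (actH Γ (F →₀ MonoidAlgebra ℤ Γ) g v) =
      actH Γ F g (r.toAddMonoidHom v) := fun g v => map_act r g v
  have hsa : ∀ (g : Γ) v, s.toAddMonoidHom (actH Γ F g v) =
      actH Γ (F →₀ MonoidAlgebra ℤ Γ) g (s.toAddMonoidHom v) := fun g v => map_act s g v
  set rs : MV d p F A →ₗ[κ] MV d p (F →₀ MonoidAlgebra ℤ Γ) A := pb r.toAddMonoidHom with hrsd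
  set ss : MV d p (F →₀ MonoidAlgebra ℤ Γ) A →ₗ[κ] MV d p F A := pb s.toAddMonoidHom with hssd
  have hsr : ∀ φ, ss (rs φ) = φ := by
    intro φ
    apply MultilinearMap.ext
    intro v
    rw [hssd, hrsd, pb_apply, pb_apply]
    congr 1
    funext i
    exact hrs _
  intro f g hf hg _ _ h1 h2
  obtain ⟨α, β, hα, hβ, -, -, k1, k2⟩ := hAc (rs.toAddMonoidHom.comp f) (rs.toAddMonoidHom.comp g)
    (fun γ x => by
      change rs (f (act γ x)) = rV _ ρ γ (rs (f x))
      rw [hf, hrsd, pb_act _ _ _ hra])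
    (fun γ x => by
      change rs (g (act γ x)) = rV _ ρ γ (rs (g x))
      rw [hg, hrsd, pb_act _ _ _ hra])
    (fun _ => Submodule.mem_top) (fun _ => Submodule.mem_top)
    (fun x => by
      have h := h1 x
      rw [Submodule.mem_bot, sub_eq_zero] at h ⊢
      rw [DU_comp, h]
      change rs ((yy b (cV κ z (actH Γ F)) ^ (p - 1)) (g x)) = _ 
      rw [hrsd, pb_yy _ _ _ hra]
      rfl)
    (fun x => by
      have h := h2 x
      rw [Submodule.mem_bot, sub_eq_zero] at h ⊢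
      rw [DU_comp, ← h]
      have h3 := pb_yy (κ := κ) (b := b) (z := z) r.toAddMonoidHom _ _ hra 1 (f x)
      rw [pow_one, pow_one] at h3
      exact h3.symm)
  refine ⟨ss.toAddMonoidHom.comp α, ss.toAddMonoidHom.comp β, ?_, ?_,
    fun _ => Submodule.mem_top, fun _ => Submodule.mem_top, ?_, ?_⟩
  · intro γ x
    change ss (α (act γ x)) = rV _ ρ γ (ss (α x))
    rw [hα, hssd, pb_act _ _ _ hsa]
  · intro γ x
    change ss (β (act γ x)) = rV _ ρ γ (ss (β x))
    rw [hβ, hssd, pb_act _ _ _ hsa]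
  · intro x
    have h := k1 x
    rw [Submodule.mem_bot, sub_eq_zero] at h ⊢
    have h3 : f x = ss (rs (f x)) := (hsr _).symm
    have h4 : rs (f x) = _ := h
    rw [h3, h4, map_sub, DU_comp]
    congr 1
    rw [hssd, pb_yy _ _ _ hsa]
    rfl
  · intro x
    have h := k2 x
    rw [Submodule.mem_bot, sub_eq_zero] at h ⊢
    have h3 : g x = ss (rs (g x)) := (hsr _).symm
    have h4 : rs (g x) = _ := h
    rw [h3, h4, map_sub, DU_comp]
    congr 1
    have h5 := pb_yy (κ := κ) (b := b) (z := z) s.toAddMonoidHom _ _ hsa 1 (α x)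
    rw [pow_one, pow_one] at h5
    exact h5

end Pool.Agent.Helper39.DC
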