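import Pool.Agent.Helper39.DC.StepV
import Pool.Agent.Helper39.DC.ProjV
import Pool.Agent.Helper39.DB.ResP

/-!
# DC-12 (project DC): the core theorem

Word for word as DB/Core.lean (`QQ_int`, `core`), with `QV_step` and `qv_proj` in place of `QQ_step` and `hig_proj`.
* `QV_int`: `QV` for the kernels `Z i` for `i = n + 1, n, ..., 0` and then for `ℤ` with the trivial action (`τ'' = 1`).
* `coreV`: for `a : A` let `m a : MV d p ℤ A`, `m a v = (∏ w, v w) • a` (the index type `Ix d p` is nonempty, `p > 0`); `m` is linear over `κ`, an isomorphism with inverse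
  `φ ↦ φ (fun _ => 1)`, `rV g (m a) = m (ρ g a)`, `cV i φ = φ` for all `φ : MV d p ℤ A` (for `τ = 1`, `sgV i v` is a permutation of `v`, and `φ v = (∏ v w) • φ 1`). So `yy b (cV ..) = 0`,
  and `y ^ (p - 1) = 0` as `p ≥ 2`. For `f` with `DU f = 0` apply `QV` to `(m ∘ f, 0)`: we get `α`, `β` with `m (f x) = DU α x - 0`. Take `g x = α x (fun _ => 1)` (`DU_comp`).
-/

set_option autoImplicit false

namespace Pool.Agent.Helper39.DC

open Finset Pool.Agent.Helper27.Mess Pool.Agent.Helper39.DB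
open scoped IsMulCommutative

universe u v w x

variable {Γ : Type u} [Group Γ] {C : Type v} [AddCommGroup C] [Module (MonoidAlgebra ℤ Γ) C]
  {κ : Type x} [Field κ] {A : Type w} [AddCommGroup A] [Module κ A] {d p : ℕ}
  {z : Fin d → Subgroup.center Γ} {ρ : Representation κ Γ A} {b : Fin d → κ} {G : GrRes Γ C}

section aux

variable (G)

/-- The kernel of the differential in degree `i`. -/
private def Zi (i : ℤ) : AddSubgroup C where
  carrier := {x | G.π i x = x ∧ G.d x = 0 ∧ G.ε x = 0}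
  add_mem' := by
    rintro x y ⟨h1, h2, h3⟩ ⟨k1, k2, k3⟩
    exact ⟨by rw [map_add, h1, k1], by rw [map_add, h2, k2, add_zero],
      by rw [map_add, h3, k3, add_zero]⟩
  zero_mem' := ⟨map_zero _, map_zero _, map_zero _⟩
  neg_mem' := by
    rintro x ⟨h1, h2, h3⟩
    exact ⟨by rw [map_neg, h1], by rw [map_neg, h2, neg_zero], by rw [map_neg, h3, neg_zero]⟩

private theorem act_Zi (i : ℤ) (g : Γ) {x : C} (hx : x ∈ Zi G i) : act g x ∈ Zi G i := by
  obtain ⟨h1, h2, h3⟩ := hx
  exact ⟨by rw [map_act, h1], by rw [map_act, h2, act_zero], by rw [G.ε_act, h3]⟩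

private noncomputable def τZ (i : ℤ) : Γ →* AddMonoid.End (Zi G i) where
  toFun g :=
    { toFun := fun x => ⟨act g (x : C), act_Zi G i g x.2⟩
      map_zero' := Subtype.ext (act_zero g)
      map_add' := fun x y => Subtype.ext (act_add g (x : C) (y : C)) }
  map_one' := by
    apply AddMonoidHom.ext
    intro x
    exact Subtype.ext (act_one (x : C))
  map_mul' g k := by
    apply AddMonoidHom.ext
    intro x
    exact Subtype.ext (act_mul g k (x : C))

/-- The part of degree `i`. -/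
private noncomputable def Fi (i : ℤ) : Submodule (MonoidAlgebra ℤ Γ) C := LinearMap.range (G.π i)

private theorem mem_Fi {i : ℤ} {x : C} : x ∈ Fi G i ↔ G.π i x = x := by
  unfold Fi
  rw [LinearMap.mem_range]
  constructor
  · rintro ⟨y, rfl⟩
    exact G.π_self i y
  · intro h
    exact ⟨x, h⟩

private theorem proj_Fi [Module.Projective (MonoidAlgebra ℤ Γ) C] (i : ℤ) :
    Module.Projective (MonoidAlgebra ℤ Γ) (Fi G i) := by
  refine Module.Projective.of_split (Fi G i).subtype
    ((G.π i).codRestrict (Fi G i) (fun x => ⟨x, rfl⟩)) ?_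
  apply LinearMap.ext
  intro x
  apply Subtype.ext
  exact (mem_Fi G).1 x.2

private noncomputable def ιZ (i : ℤ) : Zi G i →+ Fi G i where
  toFun x := ⟨(x : C), (mem_Fi G).2 x.2.1⟩
  map_zero' := rfl
  map_add' _ _ := rfl

private theorem subs_MV {F : Type*} [AddCommGroup F] [Subsingleton F] (hp : 0 < p) :
    Subsingleton (MV d p F A) := by
  constructor
  intro φ ψ
  apply MultilinearMap.ext
  intro v
  rw [φ.map_coord_zero (fun _ => ⟨0, hp⟩) (Subsingleton.elim _ _),
    ψ.map_coord_zero (fun _ => ⟨0, hp⟩) (Subsingleton.elim _ _)]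

private theorem QV_big (hp : p.Prime) (S : DSys G z) (i : ℤ) (hi : (G.n : ℤ) < i) :
    QV p S b (τZ G i) ρ := by
  have hs : Subsingleton (Zi G i) := by
    constructor
    intro x y
    apply Subtype.ext
    rw [← x.2.1, ← y.2.1, G.π_big i _ hi, G.π_big i _ hi]
  have hM : Subsingleton (MV d p (Zi G i) A) := subs_MV hp.pos
  intro a b _ _ _ _ _ _
  refine ⟨0, 0, ?_, ?_, fun x => Submodule.mem_top, fun x => Submodule.mem_top, ?_, ?_⟩
  · intro g x
    exact Subsingleton.elim _ _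
  · intro g x
    exact Subsingleton.elim _ _
  · intro x
    exact (Submodule.mem_bot κ).2 (Subsingleton.elim _ _)
  · intro x
    exact (Submodule.mem_bot κ).2 (Subsingleton.elim _ _)

private noncomputable def qZ (i : ℤ) : Fi G (i + 1) →+ Zi G i where
  toFun x := ⟨G.d (x : C), by
    refine ⟨?_, G.d_d _, G.ε_d _⟩
    have h := G.d_π (i + 1) (x : C)
    rw [(mem_Fi G).1 x.2, add_sub_cancel_right] at h
    exact h.symm⟩
  map_zero' := Subtype.ext (map_zero G.d)
  map_add' x y := Subtype.ext (map_add G.d (x : C) (y : C))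

private noncomputable def sZ (s : C →+ C) (i : ℤ) : Zi G i →+ Fi G (i + 1) where
  toFun y := ⟨G.π (i + 1) (s (y : C)), (mem_Fi G).2 (G.π_self _ _)⟩
  map_zero' := Subtype.ext (by
    change G.π (i + 1) (s 0) = 0
    rw [map_zero, map_zero])
  map_add' x y := Subtype.ext (by
    change G.π (i + 1) (s ((x : C) + (y : C))) = G.π (i + 1) (s x) + G.π (i + 1) (s y)
    rw [map_add, map_add])

private theorem QV_down [Module.Projective (MonoidAlgebra ℤ Γ) C] (hp : p.Prime) [CharP κ p]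
    (S : DSys G z) (hb : Ind p b) (hρ : ∀ i, ρ (z i : Γ) = 1) (i₀ : Fin d)
    (hroot : ∀ g : Γ, g ^ p ≠ z i₀) (m : ℕ) (h : QV p S b (τZ G ((m : ℤ) + 1)) ρ) :
    QV p S b (τZ G (m : ℤ)) ρ := by
  obtain ⟨s, hs⟩ := exists_contr G
  haveI := proj_Fi G ((m : ℤ) + 1)
  refine QV_step hp S hb hρ (τZ G ((m : ℤ) + 1)) (actH Γ (Fi G ((m : ℤ) + 1)))
    (τZ G (m : ℤ)) (ιZ G ((m : ℤ) + 1)) (qZ G (m : ℤ)) (sZ G s (m : ℤ)) ?_ ?_ ?_ ?_ ?_
    (qv_proj hp hb i₀ hroot hρ S _) h
  · intro x y hxy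
    exact Subtype.ext (congrArg (fun w : Fi G ((m : ℤ) + 1) => (w : C)) hxy)
  · intro g x
    rfl
  · intro g v
    apply Subtype.ext
    exact map_act G.d g (v : C)
  · intro y
    apply Subtype.ext
    change G.d (G.π ((m : ℤ) + 1) (s (y : C))) = (y : C)
    rw [G.d_π, hs _ y.2.2.1 y.2.2.2, add_sub_cancel_right]
    exact y.2.1
  · intro v
    constructor
    · intro hv
      have h1 : G.d (v : C) = 0 := congrArg Subtype.val hv
      have h2 : G.ε (v : C) = 0 := by
        rw [← (mem_Fi G).1 v.2]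
        exact G.ε_π_ne _ (by omega) _
      exact ⟨⟨(v : C), (mem_Fi G).1 v.2, h1, h2⟩, rfl⟩
    · rintro ⟨x, rfl⟩
      exact Subtype.ext x.2.2.1

private theorem QV_all [Module.Projective (MonoidAlgebra ℤ Γ) C] (hp : p.Prime) [CharP κ p]
    (S : DSys G z) (hb : Ind p b) (hρ : ∀ i, ρ (z i : Γ) = 1) (i₀ : Fin d)
    (hroot : ∀ g : Γ, g ^ p ≠ z i₀) (k : ℕ) :
    ∀ m : ℕ, m + k = G.n + 1 → QV p S b (τZ G (m : ℤ)) ρ := by
  induction k with
  | zero =>
    intro m hm
    exact QV_big G hp S (m : ℤ) (by omega)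
  | succ k ih =>
    intro m hm
    refine QV_down G hp S hb hρ i₀ hroot m ?_
    have h := ih (m + 1) (by omega)
    rw [Nat.cast_add, Nat.cast_one] at h
    exact h

end aux

theorem QV_int [Module.Projective (MonoidAlgebra ℤ Γ) C] (hp : p.Prime) [CharP κ p]
    (S : DSys G z) (hb : Ind p b) (hρ : ∀ i, ρ (z i : Γ) = 1) (i₀ : Fin d)
    (hroot : ∀ g : Γ, g ^ p ≠ z i₀) : QV p S b (1 : Γ →* AddMonoid.End ℤ) ρ := by
  haveI := proj_Fi G 0
  have h0 : QV p S b (τZ G ((0 : ℕ) : ℤ)) ρ :=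
    QV_all G hp S hb hρ i₀ hroot (G.n + 1) 0 (by omega)
  rw [Nat.cast_zero] at h0
  obtain ⟨y, hy⟩ := G.ε_surj 1
  let y₀ : Fi G 0 := ⟨G.π 0 y, (mem_Fi G).2 (G.π_self 0 y)⟩
  have hy₀ : G.ε (y₀ : C) = 1 := by
    change G.ε (G.π 0 y) = 1
    rw [G.ε_π, hy]
  refine QV_step hp S hb hρ (τZ G 0) (actH Γ (Fi G 0)) (1 : Γ →* AddMonoid.End ℤ) (ιZ G 0)
    (G.ε.comp (Fi G 0).toAddSubgroup.subtype) (zmultiplesHom (Fi G 0) y₀) ?_ ?_ ?_ ?_ ?_
    (qv_proj hp hb i₀ hroot hρ S _) h0
  · intro x y hxy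
    exact Subtype.ext (congrArg (fun w : Fi G 0 => (w : C)) hxy)
  · intro g x
    rfl
  · intro g v
    exact G.ε_act g (v : C)
  · intro m
    change G.ε ((m • y₀ : Fi G 0) : C) = m
    have h1 : ((m • y₀ : Fi G 0) : C) = m • (y₀ : C) := rfl
    rw [h1, map_zsmul, hy₀]
    simp
  · intro v
    constructor
    · intro hv
      have h1 : G.d (v : C) = 0 := by
        rw [← (mem_Fi G).1 v.2, G.d_π]
        exact G.π_neg _ _ (by norm_num)
      exact ⟨⟨(v : C), (mem_Fi G).1 v.2, h1, hv⟩, rfl⟩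
    · rintro ⟨x, rfl⟩
      exact x.2.2.2

theorem coreV [Module.Projective (MonoidAlgebra ℤ Γ) C] (hp : p.Prime) [CharP κ p]
    (S : DSys G z) (hb : Ind p b) (hρ : ∀ i, ρ (z i : Γ) = 1) (i₀ : Fin d)
    (hroot : ∀ g : Γ, g ^ p ≠ z i₀) (f : C →+ A) (hf : EqvR ρ f)
    (hD : DU S (fun i => b i ^ p) f = 0) :
    ∃ g : C →+ A, EqvR ρ g ∧ DU S (fun i => b i ^ p) g = f := by
  let mA : A →ₗ[κ] MV d p ℤ A :=
    { toFun := fun a => MultilinearMap.mkPiRing ℤ (Ix d p) a
      map_add' := by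
        intro a b
        apply MultilinearMap.ext_ring
        rw [_root_.add_apply, MultilinearMap.mkPiRing_apply, MultilinearMap.mkPiRing_apply,
          MultilinearMap.mkPiRing_apply, smul_add]
      map_smul' := by
        intro s a
        apply MultilinearMap.ext_ring
        change MultilinearMap.mkPiRing ℤ (Ix d p) (s • a) (fun _ => 1) =
          s • MultilinearMap.mkPiRing ℤ (Ix d p) a (fun _ => 1)
        rw [MultilinearMap.mkPiRing_apply, MultilinearMap.mkPiRing_apply, prod_const_one,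
          one_smul, one_smul] }
  let ev : MV d p ℤ A →ₗ[κ] A :=
    { toFun := fun φ => φ (fun _ => 1)
      map_add' := fun _ _ => rfl
      map_smul' := fun _ _ => rfl }
  have hev : ∀ a, ev (mA a) = a := by
    intro a
    change MultilinearMap.mkPiRing ℤ (Ix d p) a (fun _ => 1) = a
    rw [MultilinearMap.mkPiRing_apply, prod_const_one, one_smul]
  have hext : ∀ φ ψ : MV d p ℤ A, ev φ = ev ψ → φ = ψ := fun φ ψ h => MultilinearMap.ext_ring h
  have hevr : ∀ (g : Γ) (φ : MV d p ℤ A),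
      ev (rV (d := d) (p := p) (1 : Γ →* AddMonoid.End ℤ) ρ g φ) = ρ g (ev φ) := fun g φ => rfl
  have hc : ∀ i : Fin d, cV κ z (1 : Γ →* AddMonoid.End ℤ) i = (1 : Module.End κ (MV d p ℤ A)) := by
    intro i
    apply LinearMap.ext
    intro φ
    apply hext
    change cV κ z (1 : Γ →* AddMonoid.End ℤ) i φ (fun _ => 1) = φ (fun _ => 1)
    rw [cV_apply]
    congr 1
    funext w
    unfold sgV
    split_ifs
    · rfl
    · rfl
  have hy : yy b (cV κ z (1 : Γ →* AddMonoid.End ℤ)) = (0 : Module.End κ (MV d p ℤ A)) := by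
    unfold yy
    apply sum_eq_zero
    intro i _
    rw [hc i, sub_self, smul_zero]
  have hy' : yy b (cV κ z (1 : Γ →* AddMonoid.End ℤ)) ^ (p - 1) =
      (0 : Module.End κ (MV d p ℤ A)) := by
    rw [hy, zero_pow]
    have := hp.two_le
    omega
  obtain ⟨α, β, hα, -, -, -, h1, -⟩ := QV_int hp S hb hρ i₀ hroot (mA.toAddMonoidHom.comp f) 0
    (by
      intro g x
      apply hext
      rw [hevr]
      change ev (mA (f (act g x))) = ρ g (ev (mA (f x)))
      rw [hev, hev, hf])
    (by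
      intro g x
      rw [AddMonoidHom.zero_apply, AddMonoidHom.zero_apply, map_zero])
    (fun x => Submodule.mem_top) (fun x => Submodule.mem_top)
    (by
      intro x
      rw [Submodule.mem_bot, hy', DU_comp, hD]
      rw [AddMonoidHom.zero_apply, map_zero, AddMonoidHom.zero_apply, map_zero, sub_zero])
    (by
      intro x
      rw [Submodule.mem_bot, hy, LinearMap.zero_apply, DU_zero, AddMonoidHom.zero_apply, sub_zero])
  refine ⟨ev.toAddMonoidHom.comp α, ?_, ?_⟩
  · intro g x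
    change ev (α (act g x)) = ρ g (ev (α x))
    rw [hα, hevr]
  · apply AddMonoidHom.ext
    intro x
    rw [DU_comp]
    have h2 := h1 x
    rw [Submodule.mem_bot, hy', LinearMap.zero_apply, sub_zero, sub_eq_zero] at h2
    rw [← h2]
    exact hev (f x)

end Pool.Agent.Helper39.DC
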