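import Pool.Agent.Helper39.DC.Defs
import Pool.Agent.Helper27.Mess.Basic

/-!
# DC-01 (project DC): the differential `DU` and its derivative `EU`

* `DU_add` ... `DU_mem`: from `DU_apply` (`Finset.sum_add_distrib`, `smul_add`, `map_act` for the equivariance, submodules are stable).
* `DU_DU`: the same double sum as in `DSys.double_sum` (Helper27/Mess/Basic.lean; use `DSys.sum_sum_eq`) with values in a module: `DU (DU f) x =
  ∑_{p, q} β ^ (p + q) • f (h p (h q x))` (the map `C → U` is applied last: `DU S β (DU S β f) x = ∑_q β ^ q • DU S β f (h q x) =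
  ∑_q ∑_p β ^ q β ^ p • f (h p (h q x))`), grouped by `m = p + q`, with `S.rel`.
* `DU_EU`: `EU S β j f = ∑_k (k j) β ^ (k - e_j) • f ∘ h k` is the derivative of `DU` with respect to `β j`. In `DU (EU f) + EU (DU f)` the
  coefficient of `f (h p (h q x))` is `β ^ p (q j) β ^ (q - e_j) + (p j) β ^ (p - e_j) β ^ q = ((p + q) j) β ^ (p + q - e_j)`; group by
  `m = p + q` and use `S.rel`: only `m = e_i` contributes, with `(m j) β ^ (m - e_j) = 1` for `i = j` and `0` for `i ≠ j`.
  (`bc j k β` is the coefficient; prove first `bc_add : bc j (p + q) β = mo β p * bc j q β + bc j p β * mo β q`, `mo β k = ∏ β i ^ k i`.)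
-/

set_option autoImplicit false

namespace Pool.Agent.Helper39.DC

open Finset Pool.Agent.Helper27.Mess Pool.Agent.Helper39.DB
open scoped IsMulCommutative

variable {Γ : Type*} [Group Γ] {C : Type*} [AddCommGroup C] [Module (MonoidAlgebra ℤ Γ) C]
  {κ : Type*} [CommRing κ] {U : Type*} [AddCommGroup U] [Module κ U] {G : GrRes Γ C} {d : ℕ}
  {z : Fin d → Subgroup.center Γ} {ρ : Representation κ Γ U}

/-- The double sums. -/
theorem dsum (S : DSys G z) (c : (Fin d →₀ ℕ) → κ) (f : C →+ U) (x : C) :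
    ∑ p ∈ S.I, ∑ q ∈ S.I, c (p + q) • f (S.h p (S.h q x)) =
      ∑ j, c (Finsupp.single j 1) • (f (act (z j : Γ) x) - f x) := by
  classical
  obtain ⟨J₀, hJ₀⟩ := S.sum_sum_eq (fun p q => c (p + q) • f (S.h p (S.h q x)))
    (by
      rintro p q (hp | hq)
      · simp [S.h_out p hp]
      · simp [S.h_out q hq])
  rw [hJ₀ (J₀ ∪ Finset.univ.image (fun j : Fin d => Finsupp.single j 1))
    Finset.subset_union_left]
  have h2 : ∀ m : Fin d →₀ ℕ,
      ∑ p ∈ antidiagonal m, c (p.1 + p.2) • f (S.h p.1 (S.h p.2 x)) =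
      ∑ j, (if m = Finsupp.single j 1 then
        c (Finsupp.single j 1) • (f (act (z j : Γ) x) - f x) else 0) := by
    intro m
    have h3 : ∑ p ∈ antidiagonal m, c (p.1 + p.2) • f (S.h p.1 (S.h p.2 x)) =
        c m • f (∑ p ∈ antidiagonal m, S.h p.1 (S.h p.2 x)) := by
      rw [map_sum, Finset.smul_sum]
      refine Finset.sum_congr rfl fun p hp => ?_
      rw [HasAntidiagonal.mem_antidiagonal] at hp
      rw [hp]
    rw [h3, S.rel, map_sum, Finset.smul_sum]
    refine Finset.sum_congr rfl fun j _ => ?_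
    split_ifs with hm
    · rw [map_sub, hm]
    · rw [map_zero, smul_zero]
  rw [Finset.sum_congr rfl fun m _ => h2 m, Finset.sum_comm]
  refine Finset.sum_congr rfl fun j _ => ?_
  rw [Finset.sum_ite_eq' , if_pos]
  exact Finset.mem_union_right _ (Finset.mem_image_of_mem _ (Finset.mem_univ j))

theorem DU_add (S : DSys G z) (β : Fin d → κ) (f g : C →+ U) :
    DU S β (f + g) = DU S β f + DU S β g := by
  ext x
  rw [AddMonoidHom.add_apply, DU_apply, DU_apply, DU_apply, ← Finset.sum_add_distrib]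
  refine Finset.sum_congr rfl fun k _ => ?_
  rw [AddMonoidHom.add_apply, smul_add]

theorem DU_zero (S : DSys G z) (β : Fin d → κ) : DU S β (0 : C →+ U) = 0 := by
  ext x
  rw [DU_apply, AddMonoidHom.zero_apply]
  refine Finset.sum_eq_zero fun k _ => ?_
  rw [AddMonoidHom.zero_apply, smul_zero]

theorem DU_sub (S : DSys G z) (β : Fin d → κ) (f g : C →+ U) :
    DU S β (f - g) = DU S β f - DU S β g := by
  ext x
  rw [AddMonoidHom.sub_apply, DU_apply, DU_apply, DU_apply, ← Finset.sum_sub_distrib]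
  refine Finset.sum_congr rfl fun k _ => ?_
  rw [AddMonoidHom.sub_apply, smul_sub]

/-- `DU` commutes with linear maps. -/
theorem DU_comp {U' : Type*} [AddCommGroup U'] [Module κ U'] (S : DSys G z) (β : Fin d → κ)
    (φ : U →ₗ[κ] U') (f : C →+ U) (x : C) :
    DU S β (φ.toAddMonoidHom.comp f) x = φ (DU S β f x) := by
  rw [DU_apply, DU_apply, map_sum]
  refine Finset.sum_congr rfl fun k _ => ?_
  rw [map_smul]
  rfl

theorem DU_eqv (S : DSys G z) (β : Fin d → κ) {f : C →+ U} (hf : EqvR ρ f) :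
    EqvR ρ (DU S β f) := by
  intro g x
  rw [DU_apply, DU_apply, map_sum]
  refine Finset.sum_congr rfl fun k _ => ?_
  rw [map_smul, map_act, hf g]

theorem DU_mem (S : DSys G z) (β : Fin d → κ) {V : Submodule κ U} {f : C →+ U}
    (hf : ∀ x, f x ∈ V) (x : C) : DU S β f x ∈ V := by
  rw [DU_apply]
  exact V.sum_mem fun k _ => V.smul_mem _ (hf _)

theorem DU_DU (S : DSys G z) (β : Fin d → κ) (f : C →+ U) (x : C) :
    DU S β (DU S β f) x = ∑ j, β j • (f (act (z j : Γ) x) - f x) := by
  have h1 : DU S β (DU S β f) x =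
      ∑ p ∈ S.I, ∑ q ∈ S.I, (∏ i, β i ^ (p + q) i) • f (S.h p (S.h q x)) := by
    rw [DU_apply]
    have h2 : ∀ q ∈ S.I, (∏ j, β j ^ q j) • DU S β f (S.h q x) =
        ∑ p ∈ S.I, (∏ i, β i ^ (p + q) i) • f (S.h p (S.h q x)) := by
      intro q _
      rw [DU_apply, Finset.smul_sum]
      refine Finset.sum_congr rfl fun p _ => ?_
      rw [smul_smul]
      congr 1
      simp only [Finsupp.add_apply, pow_add, Finset.prod_mul_distrib]
      ring
    rw [Finset.sum_congr rfl h2, Finset.sum_comm]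
  rw [h1, dsum S (fun k => ∏ i, β i ^ k i) f x]
  refine Finset.sum_congr rfl fun j _ => ?_
  congr 1
  rw [Finset.prod_eq_single j]
  · simp
  · intro b _ hb
    rw [Finsupp.single_apply, if_neg (Ne.symm hb), pow_zero]
  · simp

/-- the monomial -/
def mo (β : Fin d → κ) (k : Fin d →₀ ℕ) : κ := ∏ i, β i ^ k i

/-- the derivative of the monomial -/
def bc (j : Fin d) (β : Fin d → κ) (k : Fin d →₀ ℕ) : κ :=
  (k j : κ) * ∏ i, β i ^ (if i = j then k i - 1 else k i)

theorem bc_add (j : Fin d) (β : Fin d → κ) (p q : Fin d →₀ ℕ) :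
    bc j β (p + q) = mo β p * bc j β q + bc j β p * mo β q := by
  classical
  have hP : ∀ k : Fin d →₀ ℕ, mo β k = β j ^ k j * ∏ i ∈ univ.erase j, β i ^ k i := fun k =>
    (Finset.mul_prod_erase univ (fun i => β i ^ k i) (mem_univ j)).symm
  have hB : ∀ k : Fin d →₀ ℕ, bc j β k =
      (k j : κ) * (β j ^ (k j - 1) * ∏ i ∈ univ.erase j, β i ^ k i) := by
    intro k
    unfold bc
    rw [← Finset.mul_prod_erase univ (fun i => β i ^ (if i = j then k i - 1 else k i))
      (mem_univ j), if_pos rfl]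
    congr 2
    refine Finset.prod_congr rfl fun i hi => ?_
    rw [if_neg (Finset.ne_of_mem_erase hi)]
  have hQ : ∏ i ∈ univ.erase j, β i ^ (p + q) i =
      (∏ i ∈ univ.erase j, β i ^ p i) * ∏ i ∈ univ.erase j, β i ^ q i := by
    rw [← Finset.prod_mul_distrib]
    refine Finset.prod_congr rfl fun i _ => ?_
    rw [Finsupp.add_apply, pow_add]
  have hk : ((p j + q j : ℕ) : κ) * β j ^ (p j + q j - 1) =
      β j ^ p j * ((q j : κ) * β j ^ (q j - 1)) + ((p j : κ) * β j ^ (p j - 1)) * β j ^ q j := by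
    rcases hp : p j with _ | a
    · simp
    · rcases hq : q j with _ | b
      · simp
      · have e1 : a + 1 + (b + 1) - 1 = a + b + 1 := by omega
        rw [e1, Nat.add_sub_cancel, Nat.add_sub_cancel]
        push_cast
        ring
  rw [hB, hB, hB, hP, hP, hQ, Finsupp.add_apply, ← mul_assoc, hk]
  ring

theorem bc_single (j i : Fin d) (β : Fin d → κ) :
    bc j β (Finsupp.single i 1) = if i = j then 1 else 0 := by
  classical
  unfold bc
  by_cases hij : i = j
  · subst hij
    rw [if_pos rfl, Finsupp.single_eq_same, Nat.cast_one, one_mul]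
    refine Finset.prod_eq_one fun l _ => ?_
    by_cases hl : l = i
    · rw [if_pos hl, hl, Finsupp.single_eq_same, Nat.sub_self, pow_zero]
    · rw [if_neg hl, Finsupp.single_eq_of_ne hl, pow_zero]
  · rw [if_neg hij, Finsupp.single_eq_of_ne (Ne.symm hij), Nat.cast_zero, zero_mul]

/-- the derivative of `DU` with respect to `β j` -/
noncomputable def EU (S : DSys G z) (β : Fin d → κ) (j : Fin d) (f : C →+ U) : C →+ U :=
  ∑ k ∈ S.I, bc j β k • f.comp (S.h k).toAddMonoidHom

theorem EU_apply (S : DSys G z) (β : Fin d → κ) (j : Fin d) (f : C →+ U) (x : C) :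
    EU S β j f x = ∑ k ∈ S.I, bc j β k • f (S.h k x) := by
  simp [EU, AddMonoidHom.finsetSum_apply]

theorem EU_sub (S : DSys G z) (β : Fin d → κ) (j : Fin d) (f g : C →+ U) :
    EU S β j (f - g) = EU S β j f - EU S β j g := by
  ext x
  rw [AddMonoidHom.sub_apply, EU_apply, EU_apply, EU_apply, ← Finset.sum_sub_distrib]
  refine Finset.sum_congr rfl fun k _ => ?_
  rw [AddMonoidHom.sub_apply, smul_sub]

theorem EU_comp {U' : Type*} [AddCommGroup U'] [Module κ U'] (S : DSys G z) (β : Fin d → κ)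
    (j : Fin d) (φ : U →ₗ[κ] U') (f : C →+ U) (x : C) :
    EU S β j (φ.toAddMonoidHom.comp f) x = φ (EU S β j f x) := by
  rw [EU_apply, EU_apply, map_sum]
  refine Finset.sum_congr rfl fun k _ => ?_
  rw [map_smul]
  rfl

theorem EU_eqv (S : DSys G z) (β : Fin d → κ) (j : Fin d) {f : C →+ U} (hf : EqvR ρ f) :
    EqvR ρ (EU S β j f) := by
  intro g x
  rw [EU_apply, EU_apply, map_sum]
  refine Finset.sum_congr rfl fun k _ => ?_
  rw [map_smul, map_act, hf g]

theorem DU_EU (S : DSys G z) (β : Fin d → κ) (j : Fin d) (f : C →+ U) (x : C) :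
    DU S β (EU S β j f) x + EU S β j (DU S β f) x = f (act (z j : Γ) x) - f x := by
  classical
  have h1 : DU S β (EU S β j f) x + EU S β j (DU S β f) x =
      ∑ p ∈ S.I, ∑ q ∈ S.I, bc j β (p + q) • f (S.h p (S.h q x)) := by
    rw [DU_apply, EU_apply, ← Finset.sum_add_distrib]
    have h2 : ∀ q ∈ S.I, (∏ i, β i ^ q i) • EU S β j f (S.h q x) +
        bc j β q • DU S β f (S.h q x) =
        ∑ p ∈ S.I, bc j β (p + q) • f (S.h p (S.h q x)) := by
      intro q _
      rw [DU_apply, EU_apply, Finset.smul_sum, Finset.smul_sum, ← Finset.sum_add_distrib]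
      refine Finset.sum_congr rfl fun p _ => ?_
      rw [smul_smul, smul_smul, ← add_smul, bc_add]
      congr 1
      unfold mo
      ring
    rw [Finset.sum_congr rfl h2, Finset.sum_comm]
  rw [h1, dsum S (bc j β) f x, Finset.sum_eq_single j]
  · rw [bc_single, if_pos rfl, one_smul]
  · intro i _ hi
    rw [bc_single, if_neg hi, zero_smul]
  · intro h
    exact absurd (mem_univ j) h

end Pool.Agent.Helper39.DC
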