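import Pool.Agent.Helper39.DB.Defs2

/-!
# Project DC (MP_dbae29_al): centres of any rank, definitions

`z : Fin d → center Γ` central elements, `S : DSys G z` a system of higher homotopies; `DU S β f` is the
differential on the additive maps `f : C → U` for a module `U` over a commutative ring `κ` (`β : Fin d → κ`).

For a representation `ρ` of `Γ` on `U` with commuting endomorphisms `c i` (`RotV`: commuting with the
action, `c i ^ p = ρ (z i)`) and `b : Fin d → κ`, `y = yy b c = ∑ b i • (c i - 1)`, the operator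
`(f, g) ↦ (D f - y ^ (p - 1) g, y f - D g)`, `D = DU S (b ^ p)`, on pairs of equivariant maps has square zero in
characteristic `p`; `AcR`: it is acyclic, modulo a stable submodule.

`WeyR`: a criterion for acyclicity.
`MV d p F A`: multiadditive maps in the variables indexed by `Fin d → Fin p`.
-/

set_option autoImplicit false

namespace Pool.Agent.Helper39.DC

open Finset Pool.Agent.Helper27.Mess Pool.Agent.Helper39.DB
open scoped IsMulCommutative

universe u v w

section basic

variable {Γ : Type*} [Group Γ] {C : Type*} [AddCommGroup C] [Module (MonoidAlgebra ℤ Γ) C]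
  {κ : Type*} [CommRing κ] {U : Type*} [AddCommGroup U] [Module κ U]

/-- `f` is equivariant. -/
def EqvR (ρ : Representation κ Γ U) (f : C →+ U) : Prop :=
  ∀ (g : Γ) (x : C), f (act g x) = ρ g (f x)

variable {G : GrRes Γ C} {d : ℕ} {z : Fin d → Subgroup.center Γ}

/-- The differential on the additive maps with values in a module. -/
noncomputable def DU (S : DSys G z) (β : Fin d → κ) (f : C →+ U) : C →+ U :=
  ∑ k ∈ S.I, (∏ j, β j ^ k j) • f.comp (S.h k).toAddMonoidHom

theorem DU_apply (S : DSys G z) (β : Fin d → κ) (f : C →+ U) (x : C) :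
    DU S β f x = ∑ k ∈ S.I, (∏ j, β j ^ k j) • f (S.h k x) := by
  simp [DU, AddMonoidHom.finsetSum_apply]

/-- `c` is a family of commuting endomorphisms commuting with the action, with `p`-th powers the
actions of the `z i`. -/
structure RotV (p : ℕ) (z : Fin d → Subgroup.center Γ) (ρ : Representation κ Γ U)
    (c : Fin d → Module.End κ U) : Prop where
  act : ∀ (i : Fin d) (g : Γ), Commute (c i) (ρ g)
  comm : ∀ i j : Fin d, Commute (c i) (c j)
  pow : ∀ i : Fin d, c i ^ p = ρ (z i : Γ)

/-- The submodule `V` is stable under the action and under the `c i`. -/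
structure StbV (ρ : Representation κ Γ U) (c : Fin d → Module.End κ U) (V : Submodule κ U) :
    Prop where
  act : ∀ (g : Γ), ∀ u ∈ V, ρ g u ∈ V
  rot : ∀ (i : Fin d), ∀ u ∈ V, c i u ∈ V

/-- The element `∑ b i (c i - 1)`. -/
def yy (b : Fin d → κ) (c : Fin d → Module.End κ U) : Module.End κ U := ∑ i, b i • (c i - 1)

/-- Acyclicity of the pairs of equivariant maps with values in `U1` modulo those with values in `U0`. -/
def AcR (p : ℕ) (S : DSys G z) (b : Fin d → κ) (ρ : Representation κ Γ U)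
    (c : Fin d → Module.End κ U) (U1 U0 : Submodule κ U) : Prop :=
  ∀ f g : C →+ U, EqvR ρ f → EqvR ρ g → (∀ x, f x ∈ U1) → (∀ x, g x ∈ U1) →
    (∀ x, DU S (fun i => b i ^ p) f x - (yy b c ^ (p - 1)) (g x) ∈ U0) →
    (∀ x, yy b c (f x) - DU S (fun i => b i ^ p) g x ∈ U0) →
    ∃ α β : C →+ U, EqvR ρ α ∧ EqvR ρ β ∧ (∀ x, α x ∈ U1) ∧ (∀ x, β x ∈ U1) ∧
      (∀ x, f x - (DU S (fun i => b i ^ p) α x - (yy b c ^ (p - 1)) (β x)) ∈ U0) ∧
      (∀ x, g x - (yy b c (α x) - DU S (fun i => b i ^ p) β x) ∈ U0)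

/-- The criterion: `δ c j - c j δ = μ j c j`, `∑ b j μ j = 1`, and everything else commutes, on `U1`
modulo `U0`. -/
structure WeyR (b : Fin d → κ) (ρ : Representation κ Γ U) (c : Fin d → Module.End κ U)
    (U1 U0 : Submodule κ U) (δ : Module.End κ U) (μ : Fin d → Module.End κ U) : Prop where
  δ1 : ∀ u ∈ U1, δ u ∈ U1
  δ0 : ∀ u ∈ U0, δ u ∈ U0
  μ1 : ∀ i, ∀ u ∈ U1, μ i u ∈ U1
  μ0 : ∀ i, ∀ u ∈ U0, μ i u ∈ U0
  δ_act : ∀ (g : Γ), ∀ u ∈ U1, ρ g (δ u) - δ (ρ g u) ∈ U0
  μ_act : ∀ (i : Fin d) (g : Γ), ∀ u ∈ U1, ρ g (μ i u) - μ i (ρ g u) ∈ U0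
  μ_c : ∀ i j : Fin d, ∀ u ∈ U1, μ i (c j u) - c j (μ i u) ∈ U0
  μ_δ : ∀ i : Fin d, ∀ u ∈ U1, μ i (δ u) - δ (μ i u) ∈ U0
  μ_μ : ∀ i j : Fin d, ∀ u ∈ U1, μ i (μ j u) - μ j (μ i u) ∈ U0
  rel : ∀ j : Fin d, ∀ u ∈ U1, δ (c j u) - c j (δ u) - μ j (c j u) ∈ U0
  sum : ∀ u ∈ U1, (∑ j, b j • μ j u) - u ∈ U0

/-- `F_p`-linear independence -/
def Ind (p : ℕ) (b : Fin d → κ) : Prop :=
  ∀ l : Fin d → ℤ, ∑ i, (l i : κ) * b i = 0 → ∀ i, (p : ℤ) ∣ l i

end basic

section multi

variable {Γ : Type*} [Group Γ] (d p : ℕ) {κ : Type*} [CommRing κ] {F : Type v} {A : Type w}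
  [AddCommGroup F] [AddCommGroup A] [Module κ A]

/-- The index set of the variables. -/
abbrev Ix (d p : ℕ) : Type := Fin d → Fin p

/-- Multiadditive maps in the variables indexed by `Ix d p`. -/
abbrev MV (F : Type v) (A : Type w) [AddCommGroup F] [AddCommGroup A] : Type (max v w) :=
  MultilinearMap ℤ (fun _ : Ix d p => F) A

variable {d p}

/-- The successor of the component `i` of an index (cyclically). -/
def nx (i : Fin d) (w : Ix d p) : Ix d p := Function.update w i (rotE p (w i))

/-- `nx i` as a permutation. -/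
def nxE (i : Fin d) : Ix d p ≃ Ix d p where
  toFun := nx i
  invFun w := Function.update w i ((rotE p).symm (w i))
  left_inv w := by
    funext j
    by_cases h : j = i
    · subst h
      simp [nx]
    · simp [nx, Function.update_of_ne h]
  right_inv w := by
    funext j
    by_cases h : j = i
    · subst h
      simp [nx]
    · simp [nx, Function.update_of_ne h]

/-- The twisted rotation in the direction `i`. -/
def sgV (z : Fin d → Subgroup.center Γ) (τ : Γ →* AddMonoid.End F) (i : Fin d) (v : Ix d p → F)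
    (w : Ix d p) : F :=
  if (w i : ℕ) + 1 < p then v (nx i w) else τ (z i : Γ)⁻¹ (v (nx i w))

/-- One element of `Γ` acting on a multiadditive map. -/
noncomputable def rV0 (τ : Γ →* AddMonoid.End F) (ρ : Representation κ Γ A) (g : Γ)
    (φ : MV d p F A) : MV d p F A :=
  (AddMonoidHom.toIntLinearMap (ρ g).toAddMonoidHom).compMultilinearMap
    (φ.compLinearMap (fun _ => AddMonoidHom.toIntLinearMap (τ g⁻¹)))

theorem rV0_apply (τ : Γ →* AddMonoid.End F) (ρ : Representation κ Γ A) (g : Γ)
    (φ : MV d p F A) (v : Ix d p → F) : rV0 τ ρ g φ v = ρ g (φ (fun w => τ g⁻¹ (v w))) := rfl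

/-- The representation on multiadditive maps: `(g φ) (v) = g φ (g⁻¹ v)`. -/
noncomputable def rV (τ : Γ →* AddMonoid.End F) (ρ : Representation κ Γ A) :
    Representation κ Γ (MV d p F A) where
  toFun g :=
    { toFun := rV0 τ ρ g
      map_add' := by
        intro φ ψ
        apply MultilinearMap.ext
        intro v
        rw [rV0_apply]
        exact map_add (ρ g) _ _
      map_smul' := by
        intro s φ
        apply MultilinearMap.ext
        intro v
        rw [rV0_apply]
        exact map_smul (ρ g) _ _ }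
  map_one' := by
    apply LinearMap.ext
    intro φ
    apply MultilinearMap.ext
    intro v
    change ρ 1 (φ (fun w => τ 1⁻¹ (v w))) = φ v
    rw [inv_one, map_one, map_one]
    rfl
  map_mul' g k := by
    apply LinearMap.ext
    intro φ
    apply MultilinearMap.ext
    intro v
    change ρ (g * k) (φ (fun w => τ (g * k)⁻¹ (v w))) =
      ρ g (ρ k (φ (fun w => τ k⁻¹ (τ g⁻¹ (v w)))))
    rw [mul_inv_rev, map_mul, map_mul]
    rfl

@[simp] theorem rV_apply (τ : Γ →* AddMonoid.End F) (ρ : Representation κ Γ A) (g : Γ)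
    (φ : MV d p F A) (v : Ix d p → F) : rV τ ρ g φ v = ρ g (φ (fun w => τ g⁻¹ (v w))) := rfl

/-- The rotation of multiadditive maps. -/
noncomputable def cV0 (z : Fin d → Subgroup.center Γ) (τ : Γ →* AddMonoid.End F) (i : Fin d)
    (φ : MV d p F A) : MV d p F A :=
  (φ.compLinearMap (fun w : Ix d p => if (w i : ℕ) + 1 < p then LinearMap.id
    else AddMonoidHom.toIntLinearMap (τ (z i : Γ)⁻¹))).domDomCongr (nxE i)

theorem cV0_apply (z : Fin d → Subgroup.center Γ) (τ : Γ →* AddMonoid.End F) (i : Fin d)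
    (φ : MV d p F A) (v : Ix d p → F) : cV0 z τ i φ v = φ (sgV z τ i v) := by
  change φ (fun w => (if (w i : ℕ) + 1 < p then LinearMap.id
    else AddMonoidHom.toIntLinearMap (τ (z i : Γ)⁻¹) : F →ₗ[ℤ] F) (v (nxE i w))) =
      φ (sgV z τ i v)
  congr 1
  funext w
  unfold sgV
  by_cases h1 : (w i : ℕ) + 1 < p
  · rw [if_pos h1, if_pos h1]
    rfl
  · rw [if_neg h1, if_neg h1]
    rfl

variable (κ) in
/-- The rotation of multiadditive maps in the direction `i`: `(c i φ) (v) = φ (sgV i v)`. -/
noncomputable def cV (z : Fin d → Subgroup.center Γ) (τ : Γ →* AddMonoid.End F) (i : Fin d) :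
    Module.End κ (MV d p F A) where
  toFun := cV0 z τ i
  map_add' := by
    intro φ ψ
    apply MultilinearMap.ext
    intro v
    rw [cV0_apply]
    change (φ + ψ) _ = cV0 z τ i φ v + cV0 z τ i ψ v
    rw [cV0_apply, cV0_apply]
    rfl
  map_smul' := by
    intro s φ
    apply MultilinearMap.ext
    intro v
    rw [cV0_apply]
    change (s • φ) _ = s • cV0 z τ i φ v
    rw [cV0_apply]
    rfl

@[simp] theorem cV_apply (z : Fin d → Subgroup.center Γ) (τ : Γ →* AddMonoid.End F) (i : Fin d)
    (φ : MV d p F A) (v : Ix d p → F) : cV κ z τ i φ v = φ (sgV z τ i v) := cV0_apply z τ i φ v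

open Classical in
/-- The set of the indices of the components in the subgroup `K`. -/
noncomputable def inK (K : AddSubgroup F) (v : Ix d p → F) : Finset (Ix d p) :=
  univ.filter (fun w => v w ∈ K)

variable (d p κ A) in
/-- The multiadditive maps which vanish if at least `j` arguments are in `K`. -/
def FilV (K : AddSubgroup F) (j : ℕ) : Submodule κ (MV d p F A) where
  carrier := {φ | ∀ v : Ix d p → F, j ≤ (inK K v).card → φ v = 0}
  add_mem' := by
    intro φ ψ h1 h2 v hv
    rw [add_apply, h1 v hv, h2 v hv, add_zero]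
  zero_mem' := fun v _ => rfl
  smul_mem' := by
    intro s φ h1 v hv
    change s • φ v = 0
    rw [h1 v hv, smul_zero]

theorem mem_FilV {K : AddSubgroup F} {j : ℕ} {φ : MV d p F A} :
    φ ∈ FilV d p κ A K j ↔ ∀ v : Ix d p → F, j ≤ (inK K v).card → φ v = 0 := Iff.rfl

/-- The acyclicity statement for the tensor power of the `Γ`-module `F`. -/
def QV {C : Type*} [AddCommGroup C] [Module (MonoidAlgebra ℤ Γ) C] {G : GrRes Γ C}
    {z : Fin d → Subgroup.center Γ} (p : ℕ) (S : DSys G z) (b : Fin d → κ)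
    (τ : Γ →* AddMonoid.End F) (ρ : Representation κ Γ A) : Prop :=
  AcR p S b (rV (d := d) (p := p) τ ρ) (cV κ z τ) ⊤ ⊥

end multi

end Pool.Agent.Helper39.DC
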