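import Pool.Agent.Helper39.DC.Defs
import Pool.Agent.Helper27.Mess.Final

/-!
# Project DC (MP_dbae29_al): exactness at a point

`ExactAt S O β`: the complex of the invariant functionals `C → O` with the differential `S.D β` is exact. `PP Γ C G m`: exactness at all
nonzero points over all number fields, for all independent families of `m` central elements.
-/

set_option autoImplicit false

namespace Pool.Agent.Helper39.DC

open Finset Pool.Agent.Helper27.Mess Pool.Agent.Helper39.DB
open scoped IsMulCommutative

universe u v

variable {Γ : Type u} [Group Γ] {C : Type v} [AddCommGroup C] [Module (MonoidAlgebra ℤ Γ) C]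
  {G : GrRes Γ C}

/-- The complex of the invariant functionals with values in `O` is exact at the point `β`. -/
def ExactAt {m : ℕ} {a : Fin m → Subgroup.center Γ} (S : DSys G a) (O : Type) [CommRing O]
    (β : Fin m → O) : Prop :=
  ∀ f ∈ Inv (⊤ : Subgroup Γ) C O, S.D β f = 0 → ∃ g ∈ Inv (⊤ : Subgroup Γ) C O, S.D β g = f

/-- Exactness at all nonzero points for all independent families of `m` central elements. -/
def PP (G : GrRes Γ C) (m : ℕ) : Prop :=
  ∀ (a : Fin m → Subgroup.center Γ), (∀ n : Fin m → ℤ, pr a n = 1 → n = 0) →
    ∀ (S : DSys G a) (L : Type) [Field L] [NumberField L] (β : Fin m → L), β ≠ 0 →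
      ExactAt S L β

end Pool.Agent.Helper39.DC
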