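import Pool.Agent.Helper39.DC.Induct

/-!
# DC-26 (project DC): the theorem

As `center_fg_of_residual` (Helper27/Mess/Final.lean), with `hex` from `pp`: `C`, `G` from `exists_grRes`, `exists_max_family`, `exists_dSys`, `exists_coboundary`, `center_fg_of_bound`, `root_order_dvd`, `root_lemma`.
(`pr a n = ∏ j, a j ^ n j`.)
-/

set_option autoImplicit false

namespace Pool.Agent.Helper39.DC

open Finset Pool.Agent.Helper27.Mess Pool.Agent.Helper39.DB
open scoped IsMulCommutative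

universe u

theorem center_main (Γ : Type u) [Group Γ] (hΓ : IsTypeFP Γ)
    (hroot : ∀ z ∈ Subgroup.center Γ, z ≠ 1 → ∃ p k : ℕ, p.Prime ∧ ∀ t : Γ, t ^ p ^ k ≠ z) :
    (Subgroup.center Γ).FG ∧
      ∃ B : ℕ, 0 < B ∧ ∀ t : Γ, (∃ q : ℕ, 0 < q ∧ t ^ q ∈ Subgroup.center Γ) →
        t ^ B ∈ Subgroup.center Γ := by
  classical
  obtain ⟨R⟩ := hΓ
  obtain ⟨C, _, _, hfin, hproj, ⟨G⟩⟩ := exists_grRes Γ R
  have htf : ∀ (t : Γ) (q : ℕ), 0 < q → t ^ q = 1 → t = 1 := fun t q hq ht =>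
    torsion_free G t q hq ht
  obtain ⟨r, a, ha, hmax⟩ := exists_max_family G
  obtain ⟨S⟩ := exists_dSys G a
  have hex := fun (L : Type) (_ : Field L) (_ : NumberField L) (β : Fin r → L) (hβ : β ≠ 0) =>
    pp G hroot r a ha S L β hβ
  choose B N hB hω using fun j => exists_coboundary S hex j
  refine center_fg_of_bound htf a ha hmax (∏ j, (B j).natAbs)
    (Finset.prod_pos fun j _ => Int.natAbs_pos.2 (hB j)) ?_
  intro t q hq m htq hmin
  refine root_order_dvd htf a B N ?_ t q hq m htq hmin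
  intro t q m hq htq ht j
  obtain ⟨ω, hωinv, hDω⟩ := hω j m
  exact root_lemma S t (fun k hk h => ht (htf t k hk h)) q hq m htq _ ω hωinv hDω

end Pool.Agent.Helper39.DC
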