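import Pool.Agent.Helper39.DC.Defs

/-!
# DC-15 (project DC): the rational hull of a point

`κ` is a vector space over `F_p = ZMod p` (`ZMod.algebra κ p`). Let `W = span_{F_p} {β j}`, finite dimensional. `1 = β j0 ∈ W` and `β j1 ∈ W` is not in `F_p · 1` (`h1`: the image of `ZMod p` is the image of `ℤ`), so
`1, β j1` are linearly independent; extend the family to a basis `t` of `W` (e.g. `LinearIndepOn.extend`/`Module.Basis.sumExtend`, indexed by `Fin d`, with `t i1 = 1` for some index and `i0 ≠ i1` the index of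
`β j1`). Let `v i j ∈ ℤ` be a lift of the `i`-th coordinate of `β j` in this basis. Then `β j = ∑ i, t i * v i j`; `Ind p t` as `t` is linearly independent over `ZMod p` (`(l : κ) * t = (l : ZMod p) • t`);
`v i0 j0`: the `i0`-coordinate of `1 = t i1` is `0`: choose the lift `0`, e.g. `v i j = (coordinate : ZMod p).val`; and the `i0`-coordinate of `β j1 = t i0` is `1`, so `p ∤ v i0 j1`.
-/

set_option autoImplicit false

namespace Pool.Agent.Helper39.DC

open Finset

theorem hullV {κ : Type*} [Field κ] {p : ℕ} (hp : p.Prime) [CharP κ p] {m : ℕ} (β : Fin m → κ)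
    (j0 j1 : Fin m) (h0 : β j0 = 1) (h1 : ∀ n : ℤ, β j1 ≠ (n : κ)) :
    ∃ (d : ℕ) (v : Fin d → Fin m → ℤ) (t : Fin d → κ) (i0 : Fin d), Ind p t ∧
      (∀ j, β j = ∑ i, t i * ((v i j : ℤ) : κ)) ∧ v i0 j0 = 0 ∧ ∃ j, ¬ (p : ℤ) ∣ v i0 j := by
  classical
  have : Fact p.Prime := ⟨hp⟩
  let : Algebra (ZMod p) κ := ZMod.algebra κ p
  have hsm : ∀ (c : ZMod p) (x : κ), c • x = ((c.val : ℤ) : κ) * x := by
    intro c x
    rw [Algebra.smul_def]
    congr 1
    change (ZMod.castHom (dvd_refl p) κ) c = _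
    rw [ZMod.castHom_apply, Int.cast_natCast, ZMod.natCast_val]
  have hsm' : ∀ (c : ℤ) (x : κ), (c : ZMod p) • x = (c : κ) * x := by
    intro c x
    rw [Algebra.smul_def]
    congr 1
    exact map_intCast (algebraMap (ZMod p) κ) c
  let W : Submodule (ZMod p) κ := Submodule.span (ZMod p) (Set.range β)
  have : Module.Finite (ZMod p) W := FiniteDimensional.span_of_finite (ZMod p) (Set.finite_range β)
  have hβW : ∀ j, β j ∈ W := fun j => Submodule.subset_span ⟨j, rfl⟩
  let bw : Fin m → W := fun j => ⟨β j, hβW j⟩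
  have hind : LinearIndependent (ZMod p) ![bw j0, bw j1] := by
    rw [LinearIndependent.pair_iff]
    intro s u hsu
    have h2 : s • β j0 + u • β j1 = 0 := congrArg Subtype.val hsu
    rw [h0] at h2
    have hu : u = 0 := by
      by_contra hu
      have h3 : β j1 = (-(u⁻¹ * s)) • (1 : κ) := by
        have h4 : u⁻¹ • (s • (1 : κ) + u • β j1) = 0 := by rw [h2, smul_zero]
        rw [smul_add, smul_smul, smul_smul, inv_mul_cancel₀ hu, one_smul] at h4
        rw [neg_smul]
        exact eq_neg_of_add_eq_zero_right h4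
      rw [hsm, mul_one] at h3
      exact h1 _ h3
    rw [hu, zero_smul, add_zero, Algebra.smul_def, mul_one] at h2
    refine ⟨?_, hu⟩
    exact (map_eq_zero (algebraMap (ZMod p) κ)).1 h2
  have hon := hind.linearIndepOn_id
  let b := Module.Basis.extend hon
  have : Finite (hon.extend (Set.subset_univ _)) := Module.Finite.finite_basis b
  have : Fintype (hon.extend (Set.subset_univ _)) := Fintype.ofFinite _
  let e := Fintype.equivFin (hon.extend (Set.subset_univ _))
  have m0 : bw j0 ∈ hon.extend (Set.subset_univ _) := hon.subset_extend _ ⟨0, rfl⟩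
  have m1 : bw j1 ∈ hon.extend (Set.subset_univ _) := hon.subset_extend _ ⟨1, rfl⟩
  have hb0 : b ⟨bw j0, m0⟩ = bw j0 := Module.Basis.extend_apply_self hon _
  have hb1 : b ⟨bw j1, m1⟩ = bw j1 := Module.Basis.extend_apply_self hon _
  have hne : bw j0 ≠ bw j1 := by
    intro h
    have h2 : β j0 = β j1 := congrArg Subtype.val h
    rw [h0] at h2
    apply h1 1
    rw [← h2, Int.cast_one]
  refine ⟨Fintype.card (hon.extend (Set.subset_univ _)),
    fun i j => ((b.repr (bw j) (e.symm i)).val : ℤ), fun i => ((b (e.symm i) : W) : κ),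
    e ⟨bw j1, m1⟩, ?_, ?_, ?_, j1, ?_⟩
  · intro l hl i
    have h2 : ∑ i, (l i : ZMod p) • b (e.symm i) = 0 := by
      apply Subtype.ext
      rw [AddSubmonoidClass.coe_finsetSum]
      refine Eq.trans ?_ hl
      apply Finset.sum_congr rfl
      intro i _
      exact hsm' _ _
    have h3 : ∑ i : hon.extend (Set.subset_univ _), (l (e i) : ZMod p) • b i = 0 := by
      rw [← h2]
      refine Fintype.sum_equiv e _ _ ?_
      intro i
      rw [Equiv.symm_apply_apply]
    have h4 := Fintype.linearIndependent_iff.1 b.linearIndependent _ h3 (e.symm i)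
    rw [Equiv.apply_symm_apply] at h4
    exact (ZMod.intCast_zmod_eq_zero_iff_dvd _ _).1 h4
  · intro j
    have h2 : ∑ i, b.repr (bw j) i • b i = bw j := b.sum_repr (bw j)
    have h3 : ∑ i, b.repr (bw j) i • ((b i : W) : κ) = β j := by
      have h4 := congrArg Subtype.val h2
      rw [AddSubmonoidClass.coe_finsetSum] at h4
      exact h4
    rw [← h3]
    refine Fintype.sum_equiv e _ _ ?_
    intro i
    simp only [Equiv.symm_apply_apply]
    rw [hsm, mul_comm]
  · change ((b.repr (bw j0) (e.symm (e ⟨bw j1, m1⟩))).val : ℤ) = 0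
    rw [Equiv.symm_apply_apply]
    have h2 : b.repr (bw j0) = Finsupp.single ⟨bw j0, m0⟩ 1 :=
      (congrArg b.repr hb0.symm).trans (b.repr_self _)
    rw [h2, Finsupp.single_eq_of_ne, ZMod.val_zero, Nat.cast_zero]
    intro h
    exact hne (congrArg Subtype.val h).symm
  · change ¬ (p : ℤ) ∣ ((b.repr (bw j1) (e.symm (e ⟨bw j1, m1⟩))).val : ℤ)
    rw [Equiv.symm_apply_apply]
    have h2 : b.repr (bw j1) = Finsupp.single ⟨bw j1, m1⟩ 1 :=
      (congrArg b.repr hb1.symm).trans (b.repr_self _)
    have : Fact (1 < p) := ⟨hp.one_lt⟩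
    rw [h2, Finsupp.single_eq_same, ZMod.val_one, Nat.cast_one]
    intro h
    have := Int.natCast_dvd_natCast.1 (by simpa using h : (p : ℤ) ∣ ((1 : ℕ) : ℤ))
    exact hp.one_lt.ne' (Nat.dvd_one.1 this)

end Pool.Agent.Helper39.DC
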