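import Mathlib

/-!
# DC-24 (project DC): a point in a rational hyperplane

`c j0 ≠ 0`. Put `v i = c j0 • e_{s i} - c (s i) • e_{j0}` with `s = j0.succAbove : Fin m → Fin (m + 1)`, `t i = β (s i) / c j0` in `L` (characteristic `0`). The component `s i` of `∑ t i v i` is `t i * c j0 = β (s i)`, the component `j0` is
`- ∑ β (s i) c (s i) / c j0 = β j0` as `∑ j, c j β j = 0` (`Fin.sum_univ_succAbove`). Independence: the component `s i` of `∑ n i v i` is `n i * c j0`.
-/

set_option autoImplicit false

namespace Pool.Agent.Helper39.DC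

open Finset

theorem linQ {L : Type*} [Field L] [CharZero L] {m : ℕ} (β : Fin (m + 1) → L)
    (c : Fin (m + 1) → ℤ) (hc : c ≠ 0) (h : ∑ j, (c j : L) * β j = 0) :
    ∃ (v : Fin m → Fin (m + 1) → ℤ) (t : Fin m → L),
      (∀ n : Fin m → ℤ, (∀ j, ∑ i, n i * v i j = 0) → n = 0) ∧
      ∀ j, β j = ∑ i, t i * ((v i j : ℤ) : L) := by
  classical
  obtain ⟨j0, hj0⟩ : ∃ j0, c j0 ≠ 0 := by
    by_contra hh
    push Not at hh
    exact hc (funext hh)
  have hcL : (c j0 : L) ≠ 0 := by exact_mod_cast hj0
  -- the vectors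
  let v : Fin m → Fin (m + 1) → ℤ := fun i j =>
    (if j = j0.succAbove i then c j0 else 0) - (if j = j0 then c (j0.succAbove i) else 0)
  have hv1 : ∀ i i', v i (j0.succAbove i') = if i' = i then c j0 else 0 := by
    intro i i'
    have h1 : (j0.succAbove i' = j0.succAbove i) ↔ (i' = i) :=
      (Fin.succAbove_right_injective (p := j0)).eq_iff
    have h2 : j0.succAbove i' ≠ j0 := Fin.succAbove_ne j0 i'
    simp only [v, h1, if_neg h2, sub_zero]
  have hv2 : ∀ i, v i j0 = - c (j0.succAbove i) := by
    intro i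
    have h2 : j0 ≠ j0.succAbove i := (Fin.succAbove_ne j0 i).symm
    simp only [v, if_neg h2, if_true, zero_sub]
  refine ⟨v, fun i => β (j0.succAbove i) / (c j0 : L), ?_, ?_⟩
  · intro n hn
    funext i
    have h1 := hn (j0.succAbove i)
    simp_rw [hv1] at h1
    rw [Finset.sum_eq_single i] at h1
    · rw [if_pos rfl] at h1
      exact (mul_eq_zero.1 h1).resolve_right hj0
    · intro b _ hb
      rw [if_neg (Ne.symm hb), mul_zero]
    · intro hh
      exact absurd (Finset.mem_univ i) hh
  · intro j
    rcases Fin.eq_self_or_eq_succAbove j0 j with rfl | ⟨i, rfl⟩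
    · rw [Fin.sum_univ_succAbove _ j] at h
      have h3 : ∑ i, β (j.succAbove i) / (c j : L) * ((v i j : ℤ) : L) =
          -(∑ i, (c (j.succAbove i) : L) * β (j.succAbove i)) / (c j : L) := by
        rw [neg_div, Finset.sum_div, ← Finset.sum_neg_distrib]
        refine Finset.sum_congr rfl (fun i _ => ?_)
        rw [hv2]
        push_cast
        ring
      rw [h3, eq_div_iff hcL]
      linear_combination h
    · rw [Finset.sum_eq_single i]
      · rw [hv1, if_pos rfl, div_mul_cancel₀ _ hcL]
      · intro b _ hb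
        rw [hv1, if_neg (Ne.symm hb), Int.cast_zero, mul_zero]
      · intro hh
        exact absurd (Finset.mem_univ i) hh

end Pool.Agent.Helper39.DC
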