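import Pool.Agent.Helper39.DC.ClaimU
import Pool.Agent.Helper39.DC.Defs2
import Pool.Agent.Helper39.DB.Krull
import Pool.Agent.Helper75.Mess.Scale

/-!
# DC-23 (project DC): exactness for one element

* `krullU`: as `krull` in DB/Krull.lean with `f` in place of `ε`: `R`, `c`, `A` from `exists_basis`, `Mx i l = A (T (c i)) l`, `w i = f (c i)`. For every `s` the vector `p ^ e • w` is in `Mx ℤ^R + p ^ s ℤ^R`; Krull's intersection theorem in `(Fin R → ℤ) ⧸ range Mx` gives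
  `r ∈ (p)` with `(1 - r) p ^ e • w ∈ Mx ℤ^R`.
* `exact_Z`: `f : C → ℤ` invariant with `f (S.T x) = 0`: reduce modulo `p ^ s` (`M = ZMod (p ^ s)`), `claimU`, then `krullU`: there is `N ≠ 0` with `N • f = φ ∘ S.T`.
* `exact_one`: `S : DSys G z`, `z : Fin 1 → ..`; `hsys_of_dsys` gives `S'` with `S.D (fun _ => 1) f x = f (S'.T x)` for `f : C →+ ℤ`. By `exact_scale` (Helper75/Mess/Scale.lean, `c = (β 0)⁻¹`, `β 0 ≠ 0`) it is enough to treat `β = fun _ => 1`. Let `f : C → L` be invariant with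
  `S.D 1 f = 0`. Let `ω : Module.Basis ι ℚ L` (finite); the coordinates `f_i : C → ℚ` are invariant cocycles (`S.D (fun _ => 1)` has the coefficients `1`, so it commutes with additive maps `L → ℚ`). For every `i` there is an integer `e ≠ 0` such that `e f_i (c l)` is an integer for all
  `l`; then `e f_i` has values in `ℤ` (`exists_basis`, `hA1`: `f x = ∑ (A x l) f (c l)`), it is the image of `f' : C → ℤ`, a cocycle, so `N • f' = φ ∘ S'.T`; `f_i = (N e)⁻¹ φ ∘ T`. Sum up.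
-/

set_option autoImplicit false

namespace Pool.Agent.Helper39.DC

open Finset Pool.Agent.Helper27.Mess Pool.Agent.Helper39.DB
open scoped IsMulCommutative

universe u v

theorem krullU {Γ : Type u} [Group Γ] {C : Type v} [AddCommGroup C] [Module (MonoidAlgebra ℤ Γ) C]
    [Module.Finite (MonoidAlgebra ℤ Γ) C] [Module.Projective (MonoidAlgebra ℤ Γ) C]
    (T : C →+ C) (hT : ∀ (g : Γ) (x : C), T (act g x) = act g (T x)) {p : ℕ}
    (hp : p.Prime) (e : ℕ) (f : C →+ ℤ) (hf : Ivt Γ f) (h : ∀ s : ℕ, ∃ φ : C →+ ZMod (p ^ s),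
      Ivt Γ φ ∧ ∀ x, φ (T x) = ((f x : ℤ) : ZMod (p ^ s)) * ((p : ZMod (p ^ s)) ^ e)) :
    ∃ (N : ℤ) (φ : C →+ ℤ), N ≠ 0 ∧ Ivt Γ φ ∧ ∀ x, φ (T x) = N * f x := by
  classical
  obtain ⟨R, c, A, hA, hV⟩ := exists_basis.{u, v, 0} (Γ := Γ) (C := C)
  have hmem : ∀ (O : Type) [CommRing O] (f : C →+ O), Ivt Γ f → f ∈ Inv (⊤ : Subgroup Γ) C O :=
    fun O _ f hf g _ x => hf g x
  set L : (Fin R → ℤ) →ₗ[ℤ] (Fin R → ℤ) :=
    Matrix.mulVecLin (Matrix.of fun i l => A (T (c i)) l) with hL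
  have hLapp : ∀ V i, L V i = ∑ l, A (T (c i)) l * V l := by
    intro V i
    simp [hL, Matrix.mulVec, dotProduct]
  set w : Fin R → ℤ := fun i => f (c i) * (p : ℤ) ^ e with hw
  -- for every `s` the vector `w` is in the range of `L` modulo `p ^ s`
  have hs : ∀ s : ℕ, ∃ V y : Fin R → ℤ, w = L V + (p : ℤ) ^ s • y := by
    intro s
    obtain ⟨φ, hφ, hφT⟩ := h s
    have h1 : ∀ i, ∃ V : ℤ, ((V : ℤ) : ZMod (p ^ s)) = φ (c i) := fun i =>
      ZMod.intCast_surjective (φ (c i))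
    choose V hVV using h1
    have h2 : ∀ i, ((p ^ s : ℕ) : ℤ) ∣ w i - L V i := by
      intro i
      rw [← ZMod.intCast_zmod_eq_zero_iff_dvd _ (p ^ s)]
      have h3 := hA (ZMod (p ^ s)) φ (hmem _ φ hφ) (T (c i))
      rw [hφT] at h3
      rw [hLapp, hw]
      push_cast
      simp_rw [hVV]
      rw [← h3]
      simp
    choose y hy using h2
    refine ⟨V, y, ?_⟩
    funext i
    rw [Pi.add_apply, Pi.smul_apply, smul_eq_mul]
    have := hy i
    push_cast at this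
    linarith
  set Q := (Fin R → ℤ) ⧸ LinearMap.range L with hQ
  set x : Q := Submodule.Quotient.mk w with hx
  set I : Ideal ℤ := Ideal.span {(p : ℤ)} with hI
  have hxmem : x ∈ (⨅ i : ℕ, I ^ i • ⊤ : Submodule ℤ Q) := by
    rw [Submodule.mem_iInf]
    intro s
    obtain ⟨V, y, hVy⟩ := hs s
    have h4 : x = (p : ℤ) ^ s • (Submodule.Quotient.mk y : Q) := by
      rw [hx, hVy, ← Submodule.Quotient.mk_smul, Submodule.Quotient.eq, add_sub_cancel_right]
      exact ⟨V, rfl⟩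
    rw [h4]
    refine Submodule.smul_mem_smul ?_ Submodule.mem_top
    exact Ideal.pow_mem_pow (Ideal.mem_span_singleton_self _) s
  obtain ⟨⟨r, hr⟩, hrx⟩ := (Ideal.mem_iInf_smul_pow_eq_bot_iff I x).1 hxmem
  have hrx' : (r • w : Fin R → ℤ) - w ∈ LinearMap.range L := by
    rw [← Submodule.Quotient.eq, Submodule.Quotient.mk_smul]
    exact hrx
  have hr1 : (1 - r : ℤ) ≠ 0 := by
    intro h0
    rw [hI, Ideal.mem_span_singleton] at hr
    have h1 : r = 1 := by linarith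
    rw [h1] at hr
    exact (Nat.prime_iff_prime_int.1 hp).not_unit (isUnit_of_dvd_one hr)
  have hV0 : ∃ V : Fin R → ℤ, L V = (1 - r) • w := by
    obtain ⟨V, hVV⟩ := hrx'
    refine ⟨-V, ?_⟩
    rw [map_neg, hVV, sub_smul, one_smul]
    abel
  obtain ⟨V, hLV⟩ := hV0
  obtain ⟨φ, hφinv, hφV⟩ := hV ℤ V
  have hφI : Ivt Γ φ := fun g x => hφinv g (Subgroup.mem_top g) x
  have hp0 : (p : ℤ) ≠ 0 := by
    exact_mod_cast hp.ne_zero
  refine ⟨(1 - r) * (p : ℤ) ^ e, φ, mul_ne_zero hr1 (pow_ne_zero _ hp0), hφI, ?_⟩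
  have hφT : φ.comp T ∈ Inv (⊤ : Subgroup Γ) C ℤ := by
    intro g _ x
    rw [AddMonoidHom.comp_apply, AddMonoidHom.comp_apply, hT, hφI]
  intro y
  have h5 := hA ℤ _ hφT y
  have h6 := hA ℤ f (hmem ℤ f hf) y
  have h7 : ∀ i, φ (T (c i)) = f (c i) * ((1 - r) * (p : ℤ) ^ e) := by
    intro i
    have h8 := hA ℤ φ hφinv (T (c i))
    rw [h8]
    have h9 := congrFun hLV i
    rw [hLapp, Pi.smul_apply, smul_eq_mul, hw] at h9
    simp only [Int.cast_id]
    simp_rw [hφV]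
    rw [h9]
    ring
  simp only [AddMonoidHom.comp_apply, Int.cast_id] at h5 h6
  rw [h5, h6, Finset.mul_sum]
  refine Finset.sum_congr rfl fun i _ => ?_
  rw [h7]
  ring

theorem exact_Z {Γ : Type u} [Group Γ] {C : Type v} [AddCommGroup C] [Module (MonoidAlgebra ℤ Γ) C]
    [Module.Finite (MonoidAlgebra ℤ Γ) C] [Module.Projective (MonoidAlgebra ℤ Γ) C]
    (G : GrRes Γ C) {z : Γ} (hz : z ∈ Subgroup.center Γ) (S : HSys G z) {p : ℕ} (hp : p.Prime)
    (k : ℕ) (hroot : ∀ t : Γ, t ^ p ^ k ≠ z) (f : C →+ ℤ) (hf : Ivt Γ f)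
    (hfT : ∀ x, f (S.T x) = 0) :
    ∃ (N : ℤ) (φ : C →+ ℤ), N ≠ 0 ∧ Ivt Γ φ ∧ ∀ x, φ (S.T x) = N * f x := by
  refine krullU S.T S.curv.equiv hp (k * (G.n + 1)) f hf fun s => ?_
  obtain ⟨φ, hφ, hφT⟩ := claimU hp k Γ C G z hz S hroot s (ZMod (p ^ s)) (fun m => by
      rw [nsmul_eq_mul, ZMod.natCast_self, zero_mul])
    ((Int.castAddHom (ZMod (p ^ s))).comp f)
    (fun g x => by rw [AddMonoidHom.comp_apply, AddMonoidHom.comp_apply, hf g x])
    (fun x => by rw [AddMonoidHom.comp_apply, hfT, map_zero])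
  refine ⟨φ, hφ, fun x => ?_⟩
  rw [hφT, AddMonoidHom.comp_apply, Int.coe_castAddHom, nsmul_eq_mul]
  push_cast
  ring

theorem exact_one {Γ : Type u} [Group Γ] {C : Type v} [AddCommGroup C]
    [Module (MonoidAlgebra ℤ Γ) C] [Module.Finite (MonoidAlgebra ℤ Γ) C]
    [Module.Projective (MonoidAlgebra ℤ Γ) C] (G : GrRes Γ C) (z : Fin 1 → Subgroup.center Γ)
    (S : DSys G z) {p : ℕ} (hp : p.Prime) (k : ℕ) (hroot : ∀ t : Γ, t ^ p ^ k ≠ z 0)
    (L : Type) [Field L] [NumberField L] (β : Fin 1 → L) (hβ : β ≠ 0) : ExactAt S L β := by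
  classical
  have hβ0 : β 0 ≠ 0 := by
    intro h
    apply hβ
    funext j
    rw [Subsingleton.elim j 0, h]
    rfl
  have hone : (fun j => (β 0)⁻¹ * β j) = fun _ : Fin 1 => (1 : L) := by
    funext j
    rw [Subsingleton.elim j 0, inv_mul_cancel₀ hβ0]
  refine exact_scale S ⊤ β (β 0)⁻¹ (inv_ne_zero hβ0) ?_
  rw [hone]
  intro f hf hDf
  obtain ⟨S', hS'⟩ := hsys_of_dsys S
  have hone' : ∀ (g : C →+ ℤ) (x : C), ∑ m ∈ S.I, g (S.h m x) = g (S'.T x) := by
    intro g x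
    have h := hS' 1 g x
    rw [DSys.D_apply] at h
    rw [HSys.T_apply, map_sum]
    simpa using h
  have hDf' : ∀ x, ∑ m ∈ S.I, f (S.h m x) = 0 := by
    intro x
    have h := DFunLike.congr_fun hDf x
    rw [DSys.D_apply] at h
    simpa using h
  obtain ⟨R, c, A, hA, hV⟩ := exists_basis.{u, v, 0} (Γ := Γ) (C := C)
  let ω := Module.finBasis ℚ L
  let ι := Fin (Module.finrank ℚ L)
  -- the coordinates
  let F : ι → (C →+ ℚ) := fun i => (ω.coord i).toAddMonoidHom.comp f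
  have hF : ∀ i x, F i x = ω.coord i (f x) := fun i x => rfl
  have hFI : ∀ i, F i ∈ Inv (⊤ : Subgroup Γ) C ℚ := by
    intro i g hg x
    rw [hF, hF, hf g hg x]
  have hFA : ∀ i x, F i x = ∑ l, ((A x l : ℤ) : ℚ) * F i (c l) := fun i x => hA ℚ (F i) (hFI i) x
  -- common denominator
  obtain ⟨e, he0, he⟩ : ∃ e : ℤ, e ≠ 0 ∧ ∀ i l, ∃ m : ℤ, (m : ℚ) = e * F i (c l) := by
    refine ⟨∏ q : ι × Fin R, ((F q.1 (c q.2)).den : ℤ), ?_, ?_⟩
    · rw [Finset.prod_ne_zero_iff]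
      intro q _
      exact_mod_cast (F q.1 (c q.2)).den_ne_zero
    · intro i l
      have hdvd : ((F i (c l)).den : ℤ) ∣ ∏ q : ι × Fin R, ((F q.1 (c q.2)).den : ℤ) :=
        Finset.dvd_prod_of_mem (fun q : ι × Fin R => ((F q.1 (c q.2)).den : ℤ))
          (Finset.mem_univ (i, l))
      obtain ⟨t, ht⟩ := hdvd
      refine ⟨t * (F i (c l)).num, ?_⟩
      rw [ht]
      push_cast
      have h2 : ((F i (c l)).den : ℚ) * F i (c l) = (F i (c l)).num := by
        rw [mul_comm]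
        exact Rat.mul_den_eq_num _
      calc (t : ℚ) * ((F i (c l)).num : ℚ) = t * (((F i (c l)).den : ℚ) * F i (c l)) := by
            rw [h2]
        _ = _ := by ring
  choose m hm using he
  have hex : ∀ i, ∃ (N : ℤ) (φ : C →+ ℤ), N ≠ 0 ∧ Ivt Γ φ ∧
      ∀ x, ((φ (S'.T x) : ℤ) : ℚ) = N * (e * F i x) := by
    intro i
    obtain ⟨f', hf'I, hf'c⟩ := hV ℤ (m i)
    have h1 : ∀ x, ((f' x : ℤ) : ℚ) = e * F i x := by
      intro x
      have h2 := hA ℤ f' hf'I x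
      rw [h2, hFA i x, Finset.mul_sum]
      push_cast
      refine Finset.sum_congr rfl fun l _ => ?_
      rw [hf'c, hm]
      ring
    have h3 : ∀ x, f' (S'.T x) = 0 := by
      intro x
      have h4 : ((f' (S'.T x) : ℤ) : ℚ) = 0 := by
        rw [← hone' f' x]
        push_cast
        simp_rw [h1, hF]
        rw [← Finset.mul_sum, ← map_sum, hDf', map_zero, mul_zero]
      exact_mod_cast h4
    obtain ⟨N, φ, hN, hφ, hφT⟩ := exact_Z G (z 0).2 S' hp k hroot f'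
      (fun g x => hf'I g (Subgroup.mem_top g) x) h3
    refine ⟨N, φ, hN, hφ, fun x => ?_⟩
    rw [hφT]
    push_cast
    rw [h1]
  choose N φ hN hφ hφT using hex
  have he0' : (e : ℚ) ≠ 0 := by exact_mod_cast he0
  have hN' : ∀ i, ((N i : ℤ) : ℚ) ≠ 0 := fun i => by exact_mod_cast hN i
  let g : C →+ L := ∑ i, ((zmultiplesHom L) (((N i : ℚ) * e)⁻¹ • ω i)).comp (φ i)
  have hg : ∀ x, g x = ∑ i, (φ i x) • ((((N i : ℚ) * e)⁻¹) • ω i) := by
    intro x
    rw [AddMonoidHom.finsetSum_apply]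
    exact Finset.sum_congr rfl fun i _ => rfl
  refine ⟨g, ?_, ?_⟩
  · intro γ _ x
    rw [hg, hg]
    exact Finset.sum_congr rfl fun i _ => by rw [hφ i γ x]
  · apply AddMonoidHom.ext
    intro x
    rw [DSys.D_apply]
    simp only [one_pow, Finset.prod_const_one, one_mul]
    simp_rw [hg]
    rw [Finset.sum_comm]
    have h5 : ∀ i, ∑ q ∈ S.I, (φ i (S.h q x)) • ((((N i : ℚ) * e)⁻¹) • ω i) =
        F i x • ω i := by
      intro i
      rw [← Finset.sum_smul, hone' (φ i) x, ← Int.cast_smul_eq_zsmul ℚ, hφT, smul_smul]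
      congr 1
      field_simp [hN' i, he0']
    rw [Finset.sum_congr rfl fun i _ => h5 i]
    exact ω.sum_repr (f x)

end Pool.Agent.Helper39.DC
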