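import Pool.Agent.Helper39.DC.ModP
import Pool.Agent.Helper39.DC.OneV
import Pool.Agent.Helper39.DC.LinQ
import Pool.Agent.Helper27.Mess.Bound

/-!
# DC-25 (project DC): exactness at all points

`hroot` is the hypothesis: every central `z ≠ 1` fails to be a `p ^ k`-th power for some prime `p` and some `k`.
* `step_dep`: `β ∈ L ^ (m+1)`, `β ≠ 0`, `∑ c j β j = 0` with `c ≠ 0` integral: `v`, `t` from `linQ`, `t ≠ 0` (as `β ≠ 0`), the family `z i = pr a (v i)` is independent: `pr z n = pr a (∑ n i v i)` (`pr` is multiplicative). `subV` gives `S'` with `S'.D t = S.D β` on invariant functionals, and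
  `PP G m` gives `ExactAt S' L t`.
* `step_ind`: `m ≥ 1` and the `β j` linearly independent over `ℤ`, so `β 0 ≠ 0`; by `exact_scale` (`c = (β 0)⁻¹`) assume `β 0 = 1`; then `β 1 ∉ ℚ`. The family `a' j = a (Fin.succ j)` is independent; let `S''` be a system for it (`exists_dSys`). By `PP G m` and `exists_coboundary` there are `B j ≠ 0`, `N j`
  with `∀ n, ∃ ω invariant, S''.D n ω = (B j * n j ^ N j) • ε`. Let `P0 = ∑ j, |B j|`. `hno` of `exact_indep` for `j0 = 0`: let `p > P0` be prime, `v 0 = 0`, `p ∤ v j`, `g ^ p = pr a v`; then `j ≠ 0`, `j = Fin.succ j'`, `pr a v = pr a' (v ∘ Fin.succ)`, `g ≠ 1` (else `pr a v = 1`, `v = 0`). By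
  `root_lemma` (see the end of `center_fg_of_residual`, `torsion_free G`) `p ∣ B j' * (v j) ^ N j'`, so `p ∣ B j'`, but `0 < |B j'| < p`: contradiction.
* `pp`: `m = 0`: `β ≠ 0` is impossible. `m + 1`: if `m = 0` use `exact_one` (`z = a 0 ≠ 1` by independence). If `m ≥ 1`: `step_dep` or `step_ind`.
-/

set_option autoImplicit false

namespace Pool.Agent.Helper39.DC

open Finset Pool.Agent.Helper27.Mess Pool.Agent.Helper39.DB
open scoped IsMulCommutative

universe u v

variable {Γ : Type u} [Group Γ] {C : Type v} [AddCommGroup C] [Module (MonoidAlgebra ℤ Γ) C]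

theorem prod_zpow_sum {M ι : Type*} [CommGroup M] (x : M) (s : Finset ι) (f : ι → ℤ) :
    ∏ i ∈ s, x ^ f i = x ^ ∑ i ∈ s, f i := by
  classical
  induction s using Finset.induction_on with
  | empty => simp
  | insert i s hi ih => rw [Finset.prod_insert hi, Finset.sum_insert hi, ih, zpow_add]

theorem pr_pr {r d : ℕ} (a : Fin r → Subgroup.center Γ) (v : Fin d → Fin r → ℤ)
    (n : Fin d → ℤ) :
    pr (fun i => pr a (v i)) n = pr a (fun j => ∑ i, n i * v i j) := by
  have h1 : ∀ i, pr a (v i) ^ n i = ∏ j, a j ^ (n i * v i j) := by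
    intro i
    rw [pr, ← Finset.prod_zpow]
    refine Finset.prod_congr rfl fun j _ => ?_
    rw [mul_comm, zpow_mul]
  calc pr (fun i => pr a (v i)) n = ∏ i, pr a (v i) ^ n i := rfl
    _ = ∏ i, ∏ j, a j ^ (n i * v i j) := Finset.prod_congr rfl fun i _ => h1 i
    _ = ∏ j, ∏ i, a j ^ (n i * v i j) := Finset.prod_comm
    _ = ∏ j, a j ^ (∑ i, n i * v i j) := by
        refine Finset.prod_congr rfl fun j _ => ?_
        exact prod_zpow_sum (a j) univ _
    _ = pr a (fun j => ∑ i, n i * v i j) := rfl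

theorem step_dep (G : GrRes Γ C) (m : ℕ) (hP : PP G m) {a : Fin (m + 1) → Subgroup.center Γ}
    (ha : ∀ n : Fin (m + 1) → ℤ, pr a n = 1 → n = 0) (S : DSys G a) (L : Type) [Field L]
    [NumberField L] (β : Fin (m + 1) → L) (hβ : β ≠ 0) (c : Fin (m + 1) → ℤ) (hc : c ≠ 0)
    (h : ∑ j, (c j : L) * β j = 0) : ExactAt S L β := by
  obtain ⟨v, t, hv, ht⟩ := linQ β c hc h
  have ht0 : t ≠ 0 := by
    rintro rfl
    apply hβ
    funext j
    rw [ht j]
    simp
  obtain ⟨S', hS'⟩ := subV S v
  have hz : ∀ n : Fin m → ℤ, pr (fun i => pr a (v i)) n = 1 → n = 0 := by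
    intro n hn
    apply hv
    have h2 := ha _ ((pr_pr a v n).symm.trans hn)
    intro j
    exact congrFun h2 j
  have hβ' : (fun j => ∑ i, t i * ((v i j : ℤ) : L)) = β := funext fun j => (ht j).symm
  have key : ∀ f ∈ Inv (⊤ : Subgroup Γ) C L, S'.D t f = S.D β f := by
    intro f hf
    rw [hS' L t f hf, hβ']
  intro f hf hDf
  obtain ⟨g, hg, hgf⟩ := hP _ hz S' L t ht0 f hf (by rw [key f hf, hDf])
  exact ⟨g, hg, by rw [← key g hg, hgf]⟩

theorem step_ind [Module.Finite (MonoidAlgebra ℤ Γ) C] [Module.Projective (MonoidAlgebra ℤ Γ) C]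
    (G : GrRes Γ C) (m : ℕ) (hm : 1 ≤ m) (hP : PP G m) {a : Fin (m + 1) → Subgroup.center Γ}
    (ha : ∀ n : Fin (m + 1) → ℤ, pr a n = 1 → n = 0) (S : DSys G a) (L : Type) [Field L]
    [NumberField L] (β : Fin (m + 1) → L)
    (h : ∀ c : Fin (m + 1) → ℤ, ∑ j, (c j : L) * β j = 0 → c = 0) : ExactAt S L β := by
  classical
  have hβ0 : β 0 ≠ 0 := by
    intro h0
    have h1 := h (Pi.single 0 1) (by
      rw [Finset.sum_eq_single 0]
      · rw [h0, mul_zero]
      · intro j _ hj
        rw [Pi.single_eq_of_ne hj, Int.cast_zero, zero_mul]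
      · intro h2
        exact absurd (Finset.mem_univ _) h2)
    have h2 := congrFun h1 0
    rw [Pi.single_eq_same] at h2
    exact one_ne_zero h2
  -- the family without the first element
  let a' : Fin m → Subgroup.center Γ := fun j => a (Fin.succ j)
  have hpr : ∀ v : Fin (m + 1) → ℤ, v 0 = 0 → pr a v = pr a' (fun j => v (Fin.succ j)) := by
    intro v hv
    rw [pr, Fin.prod_univ_succ, hv, zpow_zero, one_mul]
    rfl
  have ha' : ∀ n : Fin m → ℤ, pr a' n = 1 → n = 0 := by
    intro n hn
    have h1 : pr a (Fin.cons 0 n : Fin (m + 1) → ℤ) = 1 := by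
      rw [hpr _ (Fin.cons_zero _ _)]
      simpa using hn
    have h2 := ha _ h1
    funext j
    have h3 := congrFun h2 (Fin.succ j)
    rw [Fin.cons_succ] at h3
    exact h3
  obtain ⟨S''⟩ := exists_dSys G a'
  choose B N hB hω using fun j => exists_coboundary S'' (hP a' ha' S'') j
  -- scale
  refine exact_scale S (⊤ : Subgroup Γ) β (β 0)⁻¹ (inv_ne_zero hβ0) ?_
  change ExactAt S L (fun j => (β 0)⁻¹ * β j)
  let j1 : Fin (m + 1) := Fin.succ ⟨0, hm⟩
  have hj1 : j1 ≠ 0 := Fin.succ_ne_zero _
  refine exact_indep S L (fun j => (β 0)⁻¹ * β j) 0 j1 (inv_mul_cancel₀ hβ0) ?_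
    (∑ j, (B j).natAbs) ?_
  · rintro ⟨q, hq⟩
    have hq' : (β 0)⁻¹ * β j1 = (q : L) := by
      rw [← hq]
      exact eq_ratCast (algebraMap ℚ L) q
    have hden : (q.den : L) ≠ 0 := by
      exact_mod_cast q.den_ne_zero
    have h1 : (q.den : L) * β j1 = (q.num : L) * β 0 := by
      have h2 : β j1 = (q : L) * β 0 := by
        rw [← hq']
        field_simp
      have h3 : (q : L) = (q.num : L) / (q.den : L) := Rat.cast_def q
      rw [h2, h3]
      field_simp
    have h4 := h (Pi.single j1 (q.den : ℤ) + Pi.single 0 (-q.num)) (by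
      have e1 : ∀ j, (((Pi.single j1 (q.den : ℤ) + Pi.single 0 (-q.num) :
          Fin (m + 1) → ℤ) j : ℤ) : L) * β j =
          ((Pi.single j1 (q.den : L) : Fin (m + 1) → L) j) * β j +
          ((Pi.single 0 (-(q.num : L)) : Fin (m + 1) → L) j) * β j := by
        intro j
        rw [← add_mul]
        congr 1
        rw [Pi.add_apply, Int.cast_add]
        congr 1
        · by_cases hj : j = j1
          · subst hj
            rw [Pi.single_eq_same, Pi.single_eq_same]
            simp
          · rw [Pi.single_eq_of_ne hj, Pi.single_eq_of_ne hj, Int.cast_zero]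
        · by_cases hj : j = 0
          · subst hj
            rw [Pi.single_eq_same, Pi.single_eq_same, Int.cast_neg]
          · rw [Pi.single_eq_of_ne hj, Pi.single_eq_of_ne hj, Int.cast_zero]
      rw [Finset.sum_congr rfl fun j _ => e1 j, Finset.sum_add_distrib]
      have e2 : ∑ j, ((Pi.single j1 (q.den : L) : Fin (m + 1) → L) j) * β j =
          (q.den : L) * β j1 := by
        rw [Finset.sum_eq_single j1]
        · rw [Pi.single_eq_same]
        · intro j _ hj
          rw [Pi.single_eq_of_ne hj, zero_mul]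
        · intro h2
          exact absurd (Finset.mem_univ _) h2
      have e3 : ∑ j, ((Pi.single 0 (-(q.num : L)) : Fin (m + 1) → L) j) * β j =
          -(q.num : L) * β 0 := by
        rw [Finset.sum_eq_single 0]
        · rw [Pi.single_eq_same]
        · intro j _ hj
          rw [Pi.single_eq_of_ne hj, zero_mul]
        · intro h2
          exact absurd (Finset.mem_univ _) h2
      rw [e2, e3, h1]
      ring)
    have h5 := congrFun h4 j1
    rw [Pi.add_apply, Pi.single_eq_same, Pi.single_eq_of_ne hj1, add_zero, Pi.zero_apply] at h5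
    exact q.den_ne_zero (by exact_mod_cast h5)
  · intro p hp hP0 v hv0 hv g hg
    obtain ⟨j, hj⟩ := hv
    have hj0 : j ≠ 0 := by
      rintro rfl
      rw [hv0] at hj
      exact hj (dvd_zero _)
    obtain ⟨j', rfl⟩ := Fin.exists_succ_eq.2 hj0
    have hg1 : g ≠ 1 := by
      rintro rfl
      rw [one_pow] at hg
      have h1 : pr a v = 1 := Subtype.ext hg.symm
      have h2 := ha v h1
      rw [h2] at hj
      exact hj (dvd_zero _)
    rw [hpr v hv0] at hg
    obtain ⟨ω, hωinv, hDω⟩ := hω j' (fun j => v (Fin.succ j))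
    have h3 := root_lemma S'' g (fun k hk h => hg1 (torsion_free G g k hk h)) p hp.pos
      (fun j => v (Fin.succ j)) hg _ ω hωinv hDω
    have hpZ : Prime (p : ℤ) := Nat.prime_iff_prime_int.1 hp
    rcases hpZ.dvd_or_dvd h3 with h4 | h4
    · have h5 : p ∣ (B j').natAbs := by
        have := Int.natAbs_dvd_natAbs.2 h4
        simpa using this
      have h6 : p ≤ (B j').natAbs := Nat.le_of_dvd (Int.natAbs_pos.2 (hB j')) h5
      have h7 : (B j').natAbs ≤ ∑ j, (B j).natAbs :=
        Finset.single_le_sum (f := fun j => (B j).natAbs) (fun j _ => Nat.zero_le _)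
          (Finset.mem_univ j')
      omega
    · exact hj (hpZ.dvd_of_dvd_pow h4)

theorem pp [Module.Finite (MonoidAlgebra ℤ Γ) C] [Module.Projective (MonoidAlgebra ℤ Γ) C]
    (G : GrRes Γ C) (hroot : ∀ z ∈ Subgroup.center Γ, z ≠ 1 →
      ∃ p k : ℕ, p.Prime ∧ ∀ t : Γ, t ^ p ^ k ≠ z) (m : ℕ) : PP G m := by
  induction m with
  | zero =>
    intro a ha S L _ _ β hβ
    exact absurd (funext fun j => Fin.elim0 j) hβ
  | succ m ih =>
    intro a ha S L _ _ β hβ
    rcases Nat.eq_zero_or_pos m with hm | hm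
    · subst hm
      have h1 : a 0 ≠ 1 := by
        intro h0
        have h2 := ha (fun _ => 1) (by
          rw [pr]
          refine Finset.prod_eq_one fun j _ => ?_
          have : j = 0 := Fin.ext (by have := j.2; simp only [Fin.val_zero]; omega)
          rw [this, h0, one_zpow])
        have h3 := congrFun h2 0
        exact one_ne_zero h3
      obtain ⟨p, k, hp, hk⟩ := hroot (a 0) (a 0).2 (fun h => h1 (Subtype.ext h))
      exact exact_one G a S hp k hk L β hβ
    · by_cases h : ∃ c : Fin (m + 1) → ℤ, c ≠ 0 ∧ ∑ j, (c j : L) * β j = 0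
      · obtain ⟨c, hc, hs⟩ := h
        exact step_dep G m ih ha S L β hβ c hc hs
      · refine step_ind G m hm ih ha S L β fun c hs => ?_
        by_contra hc
        exact h ⟨c, hc, hs⟩

end Pool.Agent.Helper39.DC
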