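import Pool.Agent.Helper39.DC.NTprim

/-!
# DC-18 (project DC): a discrete valuation ring with a non-rational residue

Let `c ≥ 1` be an integer with `c α ∈ 𝓞 L` and `c β j ∈ 𝓞 L` for all `j` (`exists_integral_multiples ℤ ℚ`). Let `α' = c α`, `K = ℚ(α') ⊆ L` (an `IntermediateField`; it is a number field; a term `K : Type`), `[K : ℚ] ≥ 2` since `α' ∉ ℚ`, `α' ∈ 𝓞 K` is
primitive. By `nt_prim` (with `max P0 c`) there are `p > P0`, `p > c` and a prime ideal `I ∋ p` of `𝓞 K` with `α' - r ∉ I` for all integers `r`. Let `J` be a prime ideal of `𝓞 L` with `J ∩ 𝓞 K = I` (lying over: `Ideal.exists_ideal_over_prime_of_isIntegral`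
or `Ideal.exists_ideal_liesOver_maximal_of_isIntegral`; `𝓞 L` is integral over `𝓞 K`). `J ≠ ⊥` (`p ∈ J`). `R = Localization.AtPrime J` is a discrete valuation ring (`IsLocalization.AtPrime.isDiscreteValuationRing_of_dedekind_domain`)
with field of fractions `L` (`IsFractionRing`; `Localization.AtPrime` as a subring of `L`: an `Algebra R L` by `IsLocalization.lift`, or take `R` to be the localization inside `L`, e.g. `Localization.subalgebra`, or the valuation subring of the place:
any choice of `R` is allowed). Its residue field is `𝓞 L / J` (finite). `c ∉ J` since `p > c`, `p` prime (`c`, `p` coprime): so `α = α' / c` and `β j` are in `R`. If `x - n` is in the maximal ideal of `R` (`x ↦ α`), multiply by `c`: `α' - c n ∈ J`,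
so `α' - c n ∈ I`, a contradiction.
-/

set_option autoImplicit false

namespace Pool.Agent.Helper39.DC

open NumberField

theorem nt_dvr (L : Type) [Field L] [NumberField L] {m : ℕ} (β : Fin m → L) (j1 : Fin m)
    (hβ : β j1 ∉ Set.range (algebraMap ℚ L)) (P0 : ℕ) :
    ∃ (p : ℕ) (R : Type) (_ : CommRing R) (_ : IsDomain R) (_ : IsDiscreteValuationRing R)
      (_ : Algebra R L) (_ : IsFractionRing R L), p.Prime ∧ P0 < p ∧
      Finite (IsLocalRing.ResidueField R) ∧ ((p : ℕ) : IsLocalRing.ResidueField R) = 0 ∧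
      ∃ β' : Fin m → R, (∀ j, algebraMap R L (β' j) = β j) ∧
        ∀ n : ℤ, IsLocalRing.residue R (β' j1) ≠ (n : IsLocalRing.ResidueField R) := by
  classical
  obtain ⟨y, hy0, hy⟩ := exists_integral_multiples ℤ ℚ (Finset.univ.image β)
  have hyβ : ∀ j, IsIntegral ℤ (y • β j) := fun j =>
    hy _ (Finset.mem_image_of_mem _ (Finset.mem_univ j))
  -- the integral multiples
  set γ : Fin m → 𝓞 L := fun j => ⟨y • β j, hyβ j⟩ with hγ
  have hγ' : ∀ j, algebraMap (𝓞 L) L (γ j) = (y : L) * β j := fun j => by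
    have h1 : algebraMap (𝓞 L) L (γ j) = y • β j := rfl
    rw [h1, zsmul_eq_mul]
  have hyL : (y : L) ≠ 0 := by exact_mod_cast hy0
  set α : L := (γ j1 : L) with hα
  have hαy : α = (y : L) * β j1 := hγ' j1
  let K : IntermediateField ℚ L := IntermediateField.adjoin ℚ {α}
  haveI : NumberField K := NumberField.of_intermediateField _
  have hαint : IsIntegral ℤ α := (γ j1).isIntegral_coe
  have hgenint : IsIntegral ℤ (IntermediateField.AdjoinSimple.gen ℚ α : K) := by
    have h1 : algebraMap K L (IntermediateField.AdjoinSimple.gen ℚ α) = α :=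
      IntermediateField.AdjoinSimple.algebraMap_gen ℚ α
    rw [← isIntegral_algebraMap_iff (FaithfulSMul.algebraMap_injective K L), h1]
    exact hαint
  set α' : 𝓞 K := ⟨IntermediateField.AdjoinSimple.gen ℚ α, hgenint⟩ with hα'
  have hαQ : IsIntegral ℚ α := hαint.tower_top
  have htop : IntermediateField.adjoin ℚ {(α' : K)} = ⊤ := by
    have h0 : (α' : K) = IntermediateField.AdjoinSimple.gen ℚ α := rfl
    have h1 : algebraMap K L (α' : K) = α := IntermediateField.AdjoinSimple.algebraMap_gen ℚ α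
    have h2 : minpoly ℚ (α' : K) = minpoly ℚ α := by
      have h3 := minpoly.algebraMap_eq (A := ℚ) (FaithfulSMul.algebraMap_injective K L) (α' : K)
      rw [h1] at h3
      exact h3.symm
    have h4 : Module.finrank ℚ K = (minpoly ℚ α).natDegree :=
      IntermediateField.adjoin.finrank hαQ
    rw [Field.primitive_element_iff_minpoly_natDegree_eq, h2, h4]
  have hrank : 2 ≤ Module.finrank ℚ K := by
    have h1 : 0 < Module.finrank ℚ K := Module.finrank_pos
    have h2 : Module.finrank ℚ K ≠ 1 := by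
      intro h3
      have h4 : α ∈ (⊥ : IntermediateField ℚ L) :=
        IntermediateField.finrank_adjoin_simple_eq_one_iff.1 h3
      rw [IntermediateField.mem_bot] at h4
      obtain ⟨x, hx⟩ := h4
      apply hβ
      refine ⟨x / (y : ℚ), ?_⟩
      rw [map_div₀, hx, hαy, map_intCast]
      field_simp
    omega
  obtain ⟨p, hp, hpP, I, hI, hpI, hr⟩ := nt_prim K α' htop hrank (max P0 y.natAbs)
  have hP0 : P0 < p := lt_of_le_of_lt (le_max_left _ _) hpP
  have hyp : y.natAbs < p := lt_of_le_of_lt (le_max_right _ _) hpP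
  -- lying over
  haveI := hI
  have hker : RingHom.ker (algebraMap (𝓞 K) (𝓞 L)) ≤ I := by
    rw [(RingHom.injective_iff_ker_eq_bot _).1 (FaithfulSMul.algebraMap_injective (𝓞 K) (𝓞 L))]
    exact bot_le
  obtain ⟨J, hJ, hJI⟩ := Ideal.exists_ideal_over_prime_of_isIntegral_of_isDomain
    (S := 𝓞 L) I hker
  haveI := hJ
  have hpJ : (p : 𝓞 L) ∈ J := by
    have h1 : (p : 𝓞 K) ∈ J.comap (algebraMap (𝓞 K) (𝓞 L)) := by rw [hJI]; exact hpI
    rw [Ideal.mem_comap, map_natCast] at h1
    exact h1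
  have hJ0 : J ≠ ⊥ := by
    intro h1
    rw [h1, Ideal.mem_bot] at hpJ
    exact hp.ne_zero (by exact_mod_cast hpJ)
  have hyJ : (y : 𝓞 L) ∉ J := by
    intro h1
    have hcop : IsCoprime y (p : ℤ) := by
      refine ((Nat.prime_iff_prime_int.1 hp).coprime_iff_not_dvd.2 ?_).symm
      intro h2
      have h3 : p ∣ y.natAbs := Int.natCast_dvd.1 h2
      have h4 := Nat.le_of_dvd (Int.natAbs_pos.2 hy0) h3
      omega
    obtain ⟨u, v, huv⟩ := hcop
    apply hJ.ne_top
    rw [Ideal.eq_top_iff_one]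
    have h5 : (1 : 𝓞 L) = (u : 𝓞 L) * (y : 𝓞 L) + (v : 𝓞 L) * (p : 𝓞 L) := by
      have h6 : ((u * y + v * (p : ℤ) : ℤ) : 𝓞 L) = 1 := by rw [huv]; simp
      push_cast at h6
      exact h6.symm
    rw [h5]
    exact J.add_mem (J.mul_mem_left _ h1) (J.mul_mem_left _ hpJ)
  -- the ring
  let R := Localization.AtPrime J
  have hle : J.primeCompl ≤ nonZeroDivisors (𝓞 L) := J.primeCompl_le_nonZeroDivisors
  letI algRL : Algebra R L :=
    IsLocalization.localizationAlgebraOfSubmonoidLe R L J.primeCompl (nonZeroDivisors (𝓞 L)) hle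
  haveI tower : IsScalarTower (𝓞 L) R L :=
    IsLocalization.localization_isScalarTower_of_submonoid_le R L J.primeCompl
      (nonZeroDivisors (𝓞 L)) hle
  haveI dvr : IsDiscreteValuationRing R :=
    IsLocalization.AtPrime.isDiscreteValuationRing_of_dedekind_domain (𝓞 L) hJ0 R
  haveI frac : IsFractionRing R L :=
    IsFractionRing.isFractionRing_of_isDomain_of_isLocalization J.primeCompl R L
  haveI hJmax : J.IsMaximal := hJ.isMaximal hJ0
  haveI hfin : Finite (𝓞 L ⧸ J) := Ideal.finiteQuotientOfFreeOfNeBot J hJ0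
  have hmem : ∀ x : 𝓞 L, algebraMap (𝓞 L) R x ∈ IsLocalRing.maximalIdeal R ↔ x ∈ J := fun x =>
    IsLocalization.AtPrime.to_map_mem_maximal_iff R J x
  refine ⟨p, R, inferInstance, inferInstance, dvr, algRL, frac, hp, hP0, ?_, ?_,
    fun j => IsLocalization.mk' R (γ j) (⟨(y : 𝓞 L), hyJ⟩ : J.primeCompl), ?_, ?_⟩
  · exact Finite.of_equiv _ (IsLocalization.AtPrime.equivQuotMaximalIdeal J R).toEquiv
  · have h1 : ((p : ℕ) : IsLocalRing.ResidueField R) =
        IsLocalRing.residue R (algebraMap (𝓞 L) R (p : 𝓞 L)) := by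
      rw [map_natCast, map_natCast]
    rw [h1, IsLocalRing.residue_eq_zero_iff]
    exact (hmem _).2 hpJ
  · intro j
    have h1 := IsLocalization.mk'_spec R (γ j) (⟨(y : 𝓞 L), hyJ⟩ : J.primeCompl)
    have h2 := congrArg (algebraMap R L) h1
    rw [map_mul, ← IsScalarTower.algebraMap_apply, ← IsScalarTower.algebraMap_apply, hγ' j] at h2
    have h3 : algebraMap (𝓞 L) L ((⟨(y : 𝓞 L), hyJ⟩ : J.primeCompl) : 𝓞 L) = (y : L) := by
      simp
    rw [h3, mul_comm] at h2
    exact mul_left_cancel₀ hyL h2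
  · intro n hn
    have h1 : IsLocalRing.residue R (IsLocalization.mk' R (γ j1)
        (⟨(y : 𝓞 L), hyJ⟩ : J.primeCompl) - (n : R)) = 0 := by
      rw [map_sub, map_intCast, hn, sub_self]
    rw [IsLocalRing.residue_eq_zero_iff] at h1
    have h2 := Ideal.mul_mem_left _ (algebraMap (𝓞 L) R (y : 𝓞 L)) h1
    have h3 := IsLocalization.mk'_spec R (γ j1) (⟨(y : 𝓞 L), hyJ⟩ : J.primeCompl)
    have h4 : algebraMap (𝓞 L) R (y : 𝓞 L) * (IsLocalization.mk' R (γ j1)
        (⟨(y : 𝓞 L), hyJ⟩ : J.primeCompl) - (n : R)) =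
        algebraMap (𝓞 L) R (γ j1 - (y : 𝓞 L) * (n : 𝓞 L)) := by
      rw [mul_sub, mul_comm, h3, map_sub, map_mul, map_intCast (algebraMap (𝓞 L) R) n]
    rw [h4, hmem] at h2
    apply hr (y * n)
    rw [← hJI, Ideal.mem_comap]
    have h5 : algebraMap (𝓞 K) (𝓞 L) (α' - ((y * n : ℤ) : 𝓞 K)) = γ j1 - (y : 𝓞 L) * (n : 𝓞 L) := by
      rw [map_sub, map_intCast]
      push_cast
      congr 1
    rw [h5]
    exact h2

end Pool.Agent.Helper39.DC
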