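import Pool.Agent.Helper39.DC.Defs2
import Pool.Agent.Helper81.Mess.ExistsBasis

/-!
# DC-14 (project DC): from the residue field to the field of fractions

Let `n`, `c : Fin n → C`, `A` be from `exists_basis`: an invariant functional `f : C → O` is determined by the vector `(f (c i))`, every vector occurs (`hA2`), and
`f x = ∑ i, (A x i) * f (c i)`. So `Inv ⊤ C O` is isomorphic to `Fin n → O`, compatibly with ring homomorphisms (`DSys.map_mem`, `DSys.D_map`).
* Over `R` (a discrete valuation ring, uniformizer `π`): let `f` be a cocycle at `β`. Its reduction is a cocycle over the residue field, so it is `S.D β̄ ḡ`; lift the vector of `ḡ` to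
  `R` (`IsLocalRing.residue_surjective`) to get `g` with `f - S.D β g` having all values at the `c i` in `(π)`, so `f - S.D β g = π • f₁`, and `S.D β f₁ = 0` (`π • S.D β f₁ = 0`, `S.D_D`).
  So with `K = ` the `R`-module of the cocycles and `B ≤ K` the coboundaries: `K ≤ B ⊔ (maximal ideal) • K`; `K` is finitely generated (it embeds in `Fin n → R`, `R` is noetherian), so
  `K ≤ B` by Nakayama (`Submodule.le_of_le_smul_of_le_jacobson_bot`).
* Over `L`: for a cocycle `f : C → L` there is `s ∈ R`, `s ≠ 0` with `s f (c i)` in the image of `R` for all `i` (`IsLocalization.exist_integer_multiples_of_finset`), i.e. `s • f` is the image of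
  `f' : C → R`, a cocycle (injectivity); `f' = S.D β g'`; `f = s⁻¹ • S.D β g'`. (Compare the end of Helper27/Mess/Residual.lean.)
-/

set_option autoImplicit false

namespace Pool.Agent.Helper39.DC

open Finset Pool.Agent.Helper27.Mess Pool.Agent.Helper39.DB
open scoped IsMulCommutative

universe u v

variable {Γ : Type u} [Group Γ] {C : Type v} [AddCommGroup C] [Module (MonoidAlgebra ℤ Γ) C]
  {G : GrRes Γ C}

theorem nakV [Module.Finite (MonoidAlgebra ℤ Γ) C] [Module.Projective (MonoidAlgebra ℤ Γ) C]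
    {m : ℕ} {a : Fin m → Subgroup.center Γ} (S : DSys G a) (R : Type) [CommRing R] [IsDomain R]
    [IsDiscreteValuationRing R] (L : Type) [Field L] [Algebra R L] [IsFractionRing R L]
    (β : Fin m → R)
    (h : ExactAt S (IsLocalRing.ResidueField R) (fun j => IsLocalRing.residue R (β j))) :
    ExactAt S L (fun j => algebraMap R L (β j)) := by
  classical
  obtain ⟨n, c, A, hA1, hA2⟩ := exists_basis (Γ := Γ) (C := C)
  set κ := IsLocalRing.ResidueField R with hκ
  set ρ : R →+* κ := IsLocalRing.residue R with hρ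
  set σ : R →+* L := algebraMap R L with hσdef
  have hσ : Function.Injective σ := IsFractionRing.injective R L
  set K : Submodule R (C →+ R) := Inv (⊤ : Subgroup Γ) C R ⊓ LinearMap.ker (S.D β) with hK
  set B : Submodule R (C →+ R) := (Inv (⊤ : Subgroup Γ) C R).map (S.D β) with hB
  have hfin : Module.Finite R K := finite_of_le_Inv (⊤ : Subgroup Γ) R K inf_le_left
  have hKfg : K.FG := Module.Finite.iff_fg.1 hfin
  obtain ⟨ϖ, hϖ⟩ := IsDiscreteValuationRing.exists_irreducible R
  have hmax : IsLocalRing.maximalIdeal R = Ideal.span {ϖ} := hϖ.maximalIdeal_eq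
  have hKB : K ≤ B := by
    refine Submodule.le_of_le_smul_of_le_jacobson_bot (I := IsLocalRing.maximalIdeal R) hKfg
      (IsLocalRing.maximalIdeal_le_jacobson ⊥) ?_
    rintro f ⟨hf, hDf⟩
    have hDf' : S.D β f = 0 := hDf
    -- the reduction
    have h1 : S.D (fun j => ρ (β j)) (ρ.toAddMonoidHom.comp f) = 0 := by
      rw [S.D_map ρ β f, hDf']
      ext x
      simp
    obtain ⟨gb, hgb, hgb2⟩ := h (ρ.toAddMonoidHom.comp f) (DSys.map_mem ρ hf) h1
    have hsur : ∀ i, ∃ y : R, ρ y = gb (c i) := fun i => IsLocalRing.residue_surjective _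
    choose v hv using hsur
    obtain ⟨g, hg, hgv⟩ := hA2 R v
    have hρg : ρ.toAddMonoidHom.comp g = gb := by
      refine Inv_ext_of_basis (hA1 κ) (DSys.map_mem ρ hg) hgb fun i => ?_
      change ρ (g (c i)) = gb (c i)
      rw [hgv, hv]
    set e : C →+ R := f - S.D β g with he
    have heI : e ∈ Inv (⊤ : Subgroup Γ) C R := Submodule.sub_mem _ hf (S.D_mem β hg)
    have heρ : ∀ x, ρ (e x) = 0 := by
      intro x
      have h2 : ρ.toAddMonoidHom.comp (S.D β g) = ρ.toAddMonoidHom.comp f := by
        rw [← S.D_map ρ β g, hρg, hgb2]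
      have h3 := DFunLike.congr_fun h2 x
      have h4 : ρ (S.D β g x) = ρ (f x) := h3
      rw [he, AddMonoidHom.sub_apply, map_sub, h4, sub_self]
    have hdiv : ∀ i, ∃ w : R, e (c i) = ϖ * w := by
      intro i
      have h2 : e (c i) ∈ IsLocalRing.maximalIdeal R := (IsLocalRing.residue_eq_zero_iff _).1 (heρ (c i))
      rw [hmax, Ideal.mem_span_singleton] at h2
      exact h2
    choose w hw using hdiv
    obtain ⟨f₁, hf₁, hf₁w⟩ := hA2 R w
    have hef : e = ϖ • f₁ := by
      refine Inv_ext_of_basis (hA1 R) heI (Submodule.smul_mem _ _ hf₁) fun i => ?_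
      rw [hw, AddMonoidHom.smul_apply, hf₁w, smul_eq_mul]
    have hDe : S.D β e = 0 := by
      rw [he, map_sub, hDf', S.D_D (fun j => Subgroup.mem_top _) β hg, sub_self]
    have hDf₁ : S.D β f₁ = 0 := by
      rw [hef, map_smul] at hDe
      ext x
      have h2 := DFunLike.congr_fun hDe x
      rw [AddMonoidHom.smul_apply, smul_eq_mul, AddMonoidHom.zero_apply] at h2
      exact (mul_eq_zero.1 h2).resolve_left hϖ.ne_zero
    have hfe : f = S.D β g + ϖ • f₁ := by
      rw [← hef, he]
      abel
    rw [hfe]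
    refine Submodule.add_mem_sup ⟨g, hg, rfl⟩ ?_
    refine Submodule.smul_mem_smul ?_ ⟨hf₁, hDf₁⟩
    rw [hmax]
    exact Ideal.mem_span_singleton_self ϖ
  -- over the field of fractions
  intro f hf hDf
  obtain ⟨b, hb⟩ := IsLocalization.exist_integer_multiples_of_finset (nonZeroDivisors R)
    (Finset.univ.image fun i => f (c i))
  have hb0 : (b : R) ≠ 0 := nonZeroDivisors.ne_zero b.2
  have hbL : σ b ≠ 0 := by
    intro h0
    exact hb0 (hσ (by rw [h0, map_zero]))
  have hv : ∀ i, ∃ y : R, σ y = σ b * f (c i) := by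
    intro i
    obtain ⟨y, hy⟩ := hb (f (c i)) (Finset.mem_image_of_mem (fun i => f (c i)) (Finset.mem_univ i))
    refine ⟨y, ?_⟩
    rw [hσdef]
    rw [hy, Algebra.smul_def]
  choose v hv using hv
  obtain ⟨f', hf', hf'v⟩ := hA2 R v
  have hσf : σ.toAddMonoidHom.comp f' = (σ b) • f := by
    refine Inv_ext_of_basis (hA1 L) (DSys.map_mem σ hf') (Submodule.smul_mem _ _ hf) fun i => ?_
    change σ (f' (c i)) = σ b * f (c i)
    rw [hf'v, hv]
  have hDf' : S.D β f' = 0 := by
    have h1 : σ.toAddMonoidHom.comp (S.D β f') = 0 := by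
      rw [← S.D_map σ β f', hσf, map_smul, hDf, smul_zero]
    refine AddMonoidHom.ext fun x => ?_
    have h2 := DFunLike.congr_fun h1 x
    apply hσ
    rw [AddMonoidHom.zero_apply, map_zero]
    exact h2
  obtain ⟨g', hg', hDg'⟩ := hKB ⟨hf', hDf'⟩
  refine ⟨(σ b)⁻¹ • σ.toAddMonoidHom.comp g', Submodule.smul_mem _ _ (DSys.map_mem σ hg'), ?_⟩
  rw [map_smul, S.D_map σ β g', hDg', hσf, smul_smul, inv_mul_cancel₀ hbL, one_smul]

end Pool.Agent.Helper39.DC
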