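import Pool.Agent.Helper39.DC.Defs2
import Pool.Agent.Helper10.Mess.Root

/-!
# DC-13 (project DC): the system for a family of products

Let `Z = Subring.center (MonoidAlgebra ℤ Γ)` (a commutative ring acting on `C` by linear maps; see Helper10/Mess/Root.lean: `DSys.Dc`, `DSys.Dc_Dc`, `exists_quot`, `cU_val`, `augR`, `inv_smul`).
By `exists_quot` (telescoping) there are `w i j : Z` with `augmentation (w i j) = v i j` and `pr a (v i) - 1 = ∑ j, w i j * (a j - 1)` in `Z`.
For `k' : Fin r →₀ ℕ` let `P k' = ∏ j, (∑ i, C (w i j) * X i) ^ k' j ∈ MvPolynomial (Fin d) Z`, homogeneous of degree `|k'|`, `P (k' + k'') = P k' * P k''`. Put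
`S'.h k x = ∑_{k' ∈ S.I} (coeff k (P k')) • S.h k' x`, `S'.I = ` the union of the supports of `P k'`, `k' ∈ S.I`.
* `h_zero`: `coeff 0 (P k') = 0` for `k' ≠ 0` and `P 0 = 1` (if `0 ∉ S.I` then `S.h 0 = 0`, fine).
* `h_deg`: `coeff k (P k') ≠ 0` implies `|k| = |k'|` (homogeneity).
* `rel`: `∑_{p+q=k} h'_p h'_q = ∑_{k', k''} ∑_{p+q=k} coeff p (P k') coeff q (P k'') • h_{k'} h_{k''} = ∑_{k',k''} coeff k (P (k'+k'')) • h_{k'} h_{k''}` (`MvPolynomial.coeff_mul`; elements of `Z` commute with
  the linear maps) `= ∑_K coeff k (P K) • ∑_{k'+k''=K} h_{k'} h_{k''} = ∑_j coeff k (P (e_j)) • (a j - 1)` (`S.sum_sum_eq`, `S.rel`) `= ∑_j coeff k (∑_i C (w i j) X i) • (a j - 1)`, which is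
  `∑_j w i j (a j - 1) = pr a (v i) - 1` if `k = e_i`, and `0` otherwise.
* On invariant functionals `c ∈ Z` acts by its augmentation (`inv_smul` of Helper81/Mess/ExistsBasis.lean or Helper10), so `f (S'.h k x) = ∑_{k'} (coefficient of s^k in ∏_j (∑_i v i j s_i) ^ k' j) * f (h k' x)`, and summing over `k` with
  the weights `t ^ k` gives `∑_{k'} ∏_j (∑_i t i * v i j) ^ k' j * f (h k' x)` (evaluate the polynomial; the coefficients mapped to `O`).
-/

set_option autoImplicit false

namespace Pool.Agent.Helper39.DC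

open Finset Pool.Agent.Helper27.Mess Pool.Agent.Helper39.DB
open scoped IsMulCommutative

universe u v

variable {Γ : Type u} [Group Γ] {C : Type v} [AddCommGroup C] [Module (MonoidAlgebra ℤ Γ) C]
  {G : GrRes Γ C}

section poly

variable {R : Type*} [CommRing R] {r d : ℕ}

/-- the linear forms -/
noncomputable def lf (w : Fin d → Fin r → R) (j : Fin r) : MvPolynomial (Fin d) R :=
  ∑ i, MvPolynomial.C (w i j) * MvPolynomial.X i

/-- their monomials -/
noncomputable def PV (w : Fin d → Fin r → R) (k : Fin r →₀ ℕ) : MvPolynomial (Fin d) R :=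
  ∏ j, lf w j ^ k j

theorem PV_add (w : Fin d → Fin r → R) (k k' : Fin r →₀ ℕ) :
    PV w (k + k') = PV w k * PV w k' := by
  unfold PV
  rw [← Finset.prod_mul_distrib]
  apply Finset.prod_congr rfl
  intro j _
  rw [Finsupp.add_apply, pow_add]

theorem PV_zero (w : Fin d → Fin r → R) : PV w 0 = 1 := by
  unfold PV
  apply Finset.prod_eq_one
  intro j _
  rw [Finsupp.zero_apply, pow_zero]

theorem PV_single (w : Fin d → Fin r → R) (j : Fin r) : PV w (Finsupp.single j 1) = lf w j := by
  classical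
  unfold PV
  rw [Finset.prod_eq_single j]
  · rw [Finsupp.single_eq_same, pow_one]
  · intro b _ hb
    rw [Finsupp.single_apply, if_neg (Ne.symm hb), pow_zero]
  · intro h
    exact absurd (Finset.mem_univ j) h

theorem PV_hom (w : Fin d → Fin r → R) (k : Fin r →₀ ℕ) : (PV w k).IsHomogeneous k.degree := by
  rw [Finsupp.degree_eq_sum]
  refine MvPolynomial.IsHomogeneous.prod _ _ _ fun j _ => ?_
  have h1 : (lf w j).IsHomogeneous 1 := by
    refine MvPolynomial.IsHomogeneous.sum _ _ _ fun i _ => ?_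
    exact MvPolynomial.isHomogeneous_C_mul_X _ _
  have h2 := h1.pow (k j)
  rw [one_mul] at h2
  exact h2

theorem PV_coeff (w : Fin d → Fin r → R) {k : Fin r →₀ ℕ} {m : Fin d →₀ ℕ}
    (h : MvPolynomial.coeff m (PV w k) ≠ 0) : m.degree = k.degree := by
  by_contra hne
  exact h ((PV_hom w k).coeff_eq_zero hne)

theorem lf_coeff (w : Fin d → Fin r → R) (j : Fin r) (m : Fin d →₀ ℕ) :
    MvPolynomial.coeff m (lf w j) = ∑ i, if m = Finsupp.single i 1 then w i j else 0 := by
  classical
  unfold lf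
  rw [MvPolynomial.coeff_sum]
  apply Finset.sum_congr rfl
  intro i _
  rw [MvPolynomial.coeff_C_mul, MvPolynomial.coeff_X]
  by_cases h : m = Finsupp.single i 1
  · rw [if_pos h, if_pos h.symm, mul_one]
  · rw [if_neg h, if_neg (Ne.symm h), mul_zero]

theorem PV_eval {O : Type*} [CommRing O] (φ : R →+* O) (t : Fin d → O) (w : Fin d → Fin r → R)
    (k : Fin r →₀ ℕ) (J : Finset (Fin d →₀ ℕ)) (hJ : (PV w k).support ⊆ J) :
    ∑ m ∈ J, (∏ i, t i ^ m i) * φ (MvPolynomial.coeff m (PV w k)) =
      ∏ j, (∑ i, t i * φ (w i j)) ^ k j := by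
  have h1 : MvPolynomial.eval₂ φ t (PV w k) = ∏ j, (∑ i, t i * φ (w i j)) ^ k j := by
    unfold PV lf
    rw [MvPolynomial.eval₂_prod]
    apply Finset.prod_congr rfl
    intro j _
    rw [MvPolynomial.eval₂_pow, MvPolynomial.eval₂_sum]
    congr 1
    apply Finset.sum_congr rfl
    intro i _
    rw [MvPolynomial.eval₂_mul, MvPolynomial.eval₂_C, MvPolynomial.eval₂_X, mul_comm]
  rw [← h1, MvPolynomial.eval₂_eq']
  symm
  refine Finset.sum_subset_zero_on_sdiff hJ ?_ ?_
  · intro m hm
    have h2 := (Finset.mem_sdiff.1 hm).2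
    rw [MvPolynomial.notMem_support_iff.1 h2, map_zero, mul_zero]
  · intro m _
    rw [mul_comm]

end poly

/-- the values of invariant functionals -/
theorem inv_smulO {O : Type} [CommRing O] {f : C →+ O} (hf : f ∈ Inv (⊤ : Subgroup Γ) C O)
    (s : MonoidAlgebra ℤ Γ) (x : C) : f (s • x) = (augR Γ s : O) * f x := by
  induction s using MonoidAlgebra.induction_linear with
  | zero => simp
  | add s s' hs hs' => rw [add_smul, map_add, hs, hs', map_add, Int.cast_add, add_mul]
  | single γ n =>
    have h1 : (MonoidAlgebra.single γ n : MonoidAlgebra ℤ Γ) = n • MonoidAlgebra.of ℤ Γ γ := by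
      simp
    rw [h1, map_zsmul, augR_of, smul_assoc, map_zsmul, ← act_def, hf γ (Subgroup.mem_top γ)]
    simp

/-- the action of central elements -/
noncomputable def cz (c : Subring.center (MonoidAlgebra ℤ Γ)) : C →ₗ[MonoidAlgebra ℤ Γ] C where
  toFun x := (c : MonoidAlgebra ℤ Γ) • x
  map_add' x y := smul_add _ x y
  map_smul' b x := center_smul_smul c b x

theorem coe_sumZ {ι : Type*} (s : Finset ι) (g : ι → Subring.center (MonoidAlgebra ℤ Γ)) :
    ((∑ i ∈ s, g i : Subring.center (MonoidAlgebra ℤ Γ)) : MonoidAlgebra ℤ Γ) =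
      ∑ i ∈ s, (g i : MonoidAlgebra ℤ Γ) :=
  map_sum (Subring.center (MonoidAlgebra ℤ Γ)).subtype g s

theorem cz_apply (c : Subring.center (MonoidAlgebra ℤ Γ)) (x : C) :
    cz c x = (c : MonoidAlgebra ℤ Γ) • x := rfl

theorem subV {r d : ℕ} {a : Fin r → Subgroup.center Γ} (S : DSys G a) (v : Fin d → Fin r → ℤ) :
    ∃ S' : DSys G (fun i => pr a (v i)), ∀ (O : Type) [CommRing O] (t : Fin d → O),
      ∀ f ∈ Inv (⊤ : Subgroup Γ) C O,
        S'.D t f = S.D (fun j => ∑ i, t i * ((v i j : ℤ) : O)) f := by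
  classical
  have hex : ∀ i : Fin d, ∃ s : Fin r → Subring.center (MonoidAlgebra ℤ Γ),
      (∑ j, (s j : MonoidAlgebra ℤ Γ) * (MonoidAlgebra.of ℤ Γ (a j : Γ) - 1) =
        MonoidAlgebra.of ℤ Γ (pr a (v i) : Γ) - 1) ∧
      ∀ j, augR Γ (s j : MonoidAlgebra ℤ Γ) = v i j := by
    intro i
    obtain ⟨s, hs, hsm⟩ := exists_quot ((augR Γ).comp (Subring.center (MonoidAlgebra ℤ Γ)).subtype)
      (fun j => cU Γ (a j)) (fun j => augR_of Γ _) (v i)
    refine ⟨s, ?_, hsm⟩
    have h1 := congrArg (Subring.center (MonoidAlgebra ℤ Γ)).subtype hs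
    rw [map_sum] at h1
    simp only [map_mul, map_sub, map_one] at h1
    have h2 : (∏ j, cU Γ (a j) ^ v i j) = cU Γ (∏ j, a j ^ v i j) := by
      rw [map_prod]
      exact Finset.prod_congr rfl fun j _ => (map_zpow _ _ _).symm
    rw [h2] at h1
    exact h1
  choose w hw1 hw2 using hex
  let h' : (Fin d →₀ ℕ) → (C →ₗ[MonoidAlgebra ℤ Γ] C) := fun k =>
    ∑ k' ∈ S.I, (cz (MvPolynomial.coeff k (PV w k'))).comp (S.h k')
  have hh : ∀ k x, h' k x = ∑ k' ∈ S.I,
      ((MvPolynomial.coeff k (PV w k') : Subring.center (MonoidAlgebra ℤ Γ)) :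
        MonoidAlgebra ℤ Γ) • S.h k' x := by
    intro k x
    simp only [h', LinearMap.sum_apply]
    rfl
  have hout : ∀ k, k ∉ S.I.biUnion (fun k' => (PV w k').support) → h' k = 0 := by
    intro k hk
    apply LinearMap.ext
    intro x
    rw [hh]
    apply Finset.sum_eq_zero
    intro k' hk'
    have h1 : k ∉ (PV w k').support := fun h => hk (Finset.mem_biUnion.2 ⟨k', hk', h⟩)
    rw [MvPolynomial.notMem_support_iff.1 h1]
    exact zero_smul _ _
  have hzero : h' 0 = G.d := by
    apply LinearMap.ext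
    intro x
    rw [hh, ← S.h_zero]
    by_cases h0 : (0 : Fin r →₀ ℕ) ∈ S.I
    · rw [Finset.sum_eq_single_of_mem _ h0]
      · rw [PV_zero, MvPolynomial.coeff_zero_one]
        exact one_smul _ _
      · intro k' _ hne
        have h1 : MvPolynomial.coeff 0 (PV w k') = 0 := by
          by_contra h2
          have h3 := PV_coeff w h2
          rw [map_zero] at h3
          exact hne ((Finsupp.degree_eq_zero_iff k').1 h3.symm)
        rw [h1]
        exact zero_smul _ _
    · rw [S.h_out 0 h0]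
      apply Finset.sum_eq_zero
      intro k' hk'
      have h1 : MvPolynomial.coeff 0 (PV w k') = 0 := by
        by_contra h2
        have h3 := PV_coeff w h2
        rw [map_zero] at h3
        rw [(Finsupp.degree_eq_zero_iff k').1 h3.symm] at hk'
        exact h0 hk'
      rw [h1]
      exact zero_smul _ _
  have hdeg : ∀ k i x, h' k (G.π i x) = G.π (i + 2 * (k.degree : ℤ) - 1) (h' k x) := by
    intro k i x
    rw [hh, hh, map_sum]
    apply Finset.sum_congr rfl
    intro k' _
    rw [map_smul, S.h_deg]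
    by_cases h1 : MvPolynomial.coeff k (PV w k') = 0
    · rw [h1]
      exact (zero_smul _ _).trans (zero_smul _ _).symm
    · rw [PV_coeff w h1]
  have hrel : ∀ k x, ∑ p ∈ antidiagonal k, h' p.1 (h' p.2 x) =
      ∑ i, if k = Finsupp.single i 1 then act ((pr a (v i) : Subgroup.center Γ) : Γ) x - x
        else 0 := by
    intro k x
    have h1 : ∑ p ∈ antidiagonal k, h' p.1 (h' p.2 x) = ∑ p ∈ S.I, ∑ q ∈ S.I,
        ((MvPolynomial.coeff k (PV w (p + q)) : Subring.center (MonoidAlgebra ℤ Γ)) :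
          MonoidAlgebra ℤ Γ) • S.h p (S.h q x) := by
      have h2 : ∀ m ∈ antidiagonal k, h' m.1 (h' m.2 x) = ∑ p ∈ S.I, ∑ q ∈ S.I,
          (((MvPolynomial.coeff m.1 (PV w p) * MvPolynomial.coeff m.2 (PV w q) :
            Subring.center (MonoidAlgebra ℤ Γ)) : MonoidAlgebra ℤ Γ)) • S.h p (S.h q x) := by
        intro m _
        rw [hh]
        apply Finset.sum_congr rfl
        intro p _
        rw [hh, map_sum, Finset.smul_sum]
        apply Finset.sum_congr rfl
        intro q _
        rw [map_smul, smul_smul]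
        rfl
      rw [Finset.sum_congr rfl h2, Finset.sum_comm]
      apply Finset.sum_congr rfl
      intro p _
      rw [Finset.sum_comm]
      apply Finset.sum_congr rfl
      intro q _
      rw [← Finset.sum_smul, PV_add, MvPolynomial.coeff_mul]
      congr 1
      rw [coe_sumZ]
    rw [h1]
    obtain ⟨J₀, hJ₀⟩ := S.sum_sum_eq (fun p q =>
        ((MvPolynomial.coeff k (PV w (p + q)) : Subring.center (MonoidAlgebra ℤ Γ)) :
          MonoidAlgebra ℤ Γ) • S.h p (S.h q x))
      (by
        rintro p q (hp | hq)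
        · simp [S.h_out p hp]
        · simp [S.h_out q hq])
    rw [hJ₀ (J₀ ∪ Finset.univ.image (fun j : Fin r => Finsupp.single j 1))
      Finset.subset_union_left]
    have h2 : ∀ m : Fin r →₀ ℕ,
        ∑ p ∈ antidiagonal m,
          ((MvPolynomial.coeff k (PV w (p.1 + p.2)) : Subring.center (MonoidAlgebra ℤ Γ)) :
            MonoidAlgebra ℤ Γ) • S.h p.1 (S.h p.2 x) =
        ∑ j, (if m = Finsupp.single j 1 then
          ((MvPolynomial.coeff k (lf w j) : Subring.center (MonoidAlgebra ℤ Γ)) :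
            MonoidAlgebra ℤ Γ) • (act (a j : Γ) x - x) else 0) := by
      intro m
      have h3 : ∑ p ∈ antidiagonal m,
          ((MvPolynomial.coeff k (PV w (p.1 + p.2)) : Subring.center (MonoidAlgebra ℤ Γ)) :
            MonoidAlgebra ℤ Γ) • S.h p.1 (S.h p.2 x) =
          ((MvPolynomial.coeff k (PV w m) : Subring.center (MonoidAlgebra ℤ Γ)) :
            MonoidAlgebra ℤ Γ) • (∑ p ∈ antidiagonal m, S.h p.1 (S.h p.2 x)) := by
        rw [Finset.smul_sum]
        refine Finset.sum_congr rfl fun p hp => ?_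
        rw [HasAntidiagonal.mem_antidiagonal] at hp
        rw [hp]
      rw [h3, S.rel, Finset.smul_sum]
      refine Finset.sum_congr rfl fun j _ => ?_
      split_ifs with hm
      · rw [hm, PV_single]
      · simp
    rw [Finset.sum_congr rfl fun m _ => h2 m, Finset.sum_comm]
    have h4 : ∀ j ∈ (Finset.univ : Finset (Fin r)),
        ∑ m ∈ J₀ ∪ Finset.univ.image (fun j : Fin r => Finsupp.single j 1),
          (if m = Finsupp.single j 1 then
            ((MvPolynomial.coeff k (lf w j) : Subring.center (MonoidAlgebra ℤ Γ)) :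
              MonoidAlgebra ℤ Γ) • (act (a j : Γ) x - x) else 0) =
        ∑ i, if k = Finsupp.single i 1 then
          (w i j : MonoidAlgebra ℤ Γ) • (act (a j : Γ) x - x) else 0 := by
      intro j _
      rw [Finset.sum_ite_eq', if_pos
        (Finset.mem_union_right _ (Finset.mem_image_of_mem _ (Finset.mem_univ j))), lf_coeff]
      have h5 : (((∑ i, if k = Finsupp.single i 1 then w i j else 0 :
          Subring.center (MonoidAlgebra ℤ Γ)) : MonoidAlgebra ℤ Γ)) =
          ∑ i, if k = Finsupp.single i 1 then (w i j : MonoidAlgebra ℤ Γ) else 0 := by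
        refine (map_sum (Subring.center (MonoidAlgebra ℤ Γ)).subtype _ _).trans ?_
        apply Finset.sum_congr rfl
        intro i _
        split_ifs
        · rfl
        · rfl
      rw [h5, Finset.sum_smul]
      apply Finset.sum_congr rfl
      intro i _
      rw [ite_smul, zero_smul]
    rw [Finset.sum_congr rfl h4, Finset.sum_comm]
    apply Finset.sum_congr rfl
    intro i _
    by_cases hk : k = Finsupp.single i 1
    · simp only [if_pos hk]
      have h6 : ∀ j, (w i j : MonoidAlgebra ℤ Γ) • (act (a j : Γ) x - x) =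
          ((w i j : MonoidAlgebra ℤ Γ) * (MonoidAlgebra.of ℤ Γ (a j : Γ) - 1)) • x := by
        intro j
        rw [mul_smul, sub_smul, one_smul, act_def]
      rw [Finset.sum_congr rfl fun j _ => h6 j, ← Finset.sum_smul, hw1, sub_smul, one_smul,
        act_def]
    · simp only [if_neg hk, Finset.sum_const_zero]
  refine ⟨⟨h', S.I.biUnion (fun k' => (PV w k').support), hout, hzero, hdeg, hrel⟩, ?_⟩
  intro O _ t f hf
  apply AddMonoidHom.ext
  intro x
  rw [DSys.D_apply, DSys.D_apply]
  change ∑ k ∈ S.I.biUnion (fun k' => (PV w k').support), (∏ j, t j ^ k j) * f (h' k x) = _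
  let φ : Subring.center (MonoidAlgebra ℤ Γ) →+* O :=
    (Int.castRingHom O).comp ((augR Γ).comp (Subring.center (MonoidAlgebra ℤ Γ)).subtype)
  have hφ : ∀ c : Subring.center (MonoidAlgebra ℤ Γ), φ c =
      ((augR Γ (c : MonoidAlgebra ℤ Γ) : ℤ) : O) := fun _ => rfl
  have h1 : ∀ k ∈ S.I.biUnion (fun k' => (PV w k').support),
      (∏ j, t j ^ k j) * f (h' k x) = ∑ k' ∈ S.I,
        ((∏ j, t j ^ k j) * φ (MvPolynomial.coeff k (PV w k'))) * f (S.h k' x) := by
    intro k _
    rw [hh, map_sum, Finset.mul_sum]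
    apply Finset.sum_congr rfl
    intro k' _
    rw [inv_smulO hf, ← hφ, mul_assoc]
  rw [Finset.sum_congr rfl h1, Finset.sum_comm]
  apply Finset.sum_congr rfl
  intro k' hk'
  rw [← Finset.sum_mul, PV_eval φ t w k' _
    (Finset.subset_biUnion_of_mem (fun k' => (PV w k').support) hk')]
  congr 1
  apply Finset.prod_congr rfl
  intro j _
  congr 1
  apply Finset.sum_congr rfl
  intro i _
  rw [hφ, hw2]

end Pool.Agent.Helper39.DC
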