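import Pool.Agent.Helper39.DC.CoreV
import Pool.Agent.Helper39.DC.SubV
import Pool.Agent.Helper39.DC.NakV
import Pool.Agent.Helper39.DC.HullV
import Pool.Agent.Helper39.DC.NTdvr

/-!
# DC-19 (project DC): exactness at a point with a non-rational ratio of coordinates

* `DU_eq_D`: for `κ`-valued functionals `DU S β f = S.D β f` (`smul = mul`), and `Ivt`/`Inv ⊤ C κ` is `EqvR 1`.
* `coreF`: `κ` a finite field of characteristic `p`, `t : Fin d → κ` with `Ind p t`, no `p`-th root of `z i₀`: then `ExactAt S κ t`. The Frobenius of `κ` is bijective: `t i = b i ^ p`. `Ind p b`: if `∑ l i b i = 0` then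
  `0 = (∑ l i b i) ^ p = ∑ (l i) ^ p b i ^ p = ∑ l i t i` (`(l : κ) ^ p = l`, Fermat). Apply `coreV` to `A = κ`, `ρ = 1`.
* `exact_indep`: choose `R`, `p > P0`, `β'` by `nt_dvr`; `κ = ResidueField R` has characteristic `p`. By `nakV` it is enough to show `ExactAt S κ β̄`, `β̄ j = residue (β' j)`, `β̄ j0 = 1` (`β' j0 = 1`, injectivity of `R → L`). By `hullV` choose
  `d, v, t, i0`; `subV` for `v`: `S'`, `S'.D t f = S.D β̄ f` for invariant `f` (`β̄ j = ∑ t i * v i j`). By `hno` there is no `p`-th root of `pr a (v i0)`, so `coreF` gives `ExactAt S' κ t`, hence `ExactAt S κ β̄`.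
-/

set_option autoImplicit false

namespace Pool.Agent.Helper39.DC

open Finset Pool.Agent.Helper27.Mess Pool.Agent.Helper39.DB
open scoped IsMulCommutative

universe u v

variable {Γ : Type u} [Group Γ] {C : Type v} [AddCommGroup C] [Module (MonoidAlgebra ℤ Γ) C]
  {G : GrRes Γ C}

theorem DU_eq_D {m : ℕ} {a : Fin m → Subgroup.center Γ} (S : DSys G a) {O : Type*} [CommRing O]
    (β : Fin m → O) (f : C →+ O) : DU S β f = S.D β f := by
  ext x
  rw [DU_apply, DSys.D_apply]
  simp only [smul_eq_mul]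

private theorem eqvR_one {κ : Type*} [CommRing κ] (f : C →+ κ) :
    EqvR (1 : Representation κ Γ κ) f ↔ f ∈ Inv (⊤ : Subgroup Γ) C κ := by
  rw [mem_Inv]
  constructor
  · intro h g _ x
    exact h g x
  · intro h g x
    exact h g (Subgroup.mem_top g) x

theorem coreF [Module.Projective (MonoidAlgebra ℤ Γ) C] {d : ℕ} {z : Fin d → Subgroup.center Γ}
    (S : DSys G z) (κ : Type) [Field κ] [Finite κ] {p : ℕ} (hp : p.Prime) [CharP κ p]
    (t : Fin d → κ) (ht : Ind p t) (i₀ : Fin d) (hroot : ∀ g : Γ, g ^ p ≠ z i₀) :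
    ExactAt S κ t := by
  have : Fact p.Prime := ⟨hp⟩
  have : ExpChar κ p := ExpChar.prime hp
  have hbij : Function.Bijective (frobenius κ p) := by
    refine Finite.injective_iff_bijective.mp ?_
    exact frobenius_inj κ p
  choose b hb using fun i => hbij.surjective (t i)
  have hb' : ∀ i, b i ^ p = t i := fun i => by
    have := hb i
    rwa [frobenius_def] at this
  have hInd : Ind p b := by
    intro l hl
    apply ht l
    have h1 : (∑ i, (l i : κ) * b i) ^ p = ∑ i, ((l i : κ) * b i) ^ p := by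
      have := map_sum (frobenius κ p) (fun i => (l i : κ) * b i) Finset.univ
      simpa only [frobenius_def] using this
    have h2 : ∀ i, ((l i : κ) * b i) ^ p = (l i : κ) * t i := by
      intro i
      rw [mul_pow, hb' i]
      congr 1
      have h3 : frobenius κ p (l i : κ) = (l i : κ) := map_intCast (frobenius κ p) (l i)
      rwa [frobenius_def] at h3
    rw [Finset.sum_congr rfl (fun i _ => (h2 i).symm), ← h1, hl, zero_pow hp.ne_zero]
  intro f hf hD
  have hbt : (fun i => b i ^ p) = t := funext hb'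
  obtain ⟨g, hg, hgf⟩ := coreV (ρ := (1 : Representation κ Γ κ)) hp S hInd (fun i => rfl) i₀ hroot f
    ((eqvR_one f).mpr hf) (by rw [hbt, DU_eq_D, hD])
  refine ⟨g, (eqvR_one g).mp hg, ?_⟩
  rw [← DU_eq_D, ← hbt]
  exact hgf

theorem exact_indep [Module.Finite (MonoidAlgebra ℤ Γ) C] [Module.Projective (MonoidAlgebra ℤ Γ) C]
    {m : ℕ} {a : Fin m → Subgroup.center Γ} (S : DSys G a) (L : Type) [Field L] [NumberField L]
    (β : Fin m → L) (j0 j1 : Fin m) (h0 : β j0 = 1) (h1 : β j1 ∉ Set.range (algebraMap ℚ L))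
    (P0 : ℕ) (hno : ∀ p : ℕ, p.Prime → P0 < p → ∀ v : Fin m → ℤ, v j0 = 0 →
      (∃ j, ¬ (p : ℤ) ∣ v j) → ∀ g : Γ, g ^ p ≠ pr a v) : ExactAt S L β := by
  obtain ⟨p, R, _, _, _, _, _, hp, hP0, hfin, hchar, β', hβ', hnot⟩ := nt_dvr L β j1 h1 P0
  have : Fact p.Prime := ⟨hp⟩
  have : CharP (IsLocalRing.ResidueField R) p := by
    refine (CharP.charP_iff_prime_eq_zero hp).mpr hchar
  have hβ0 : β' j0 = 1 := by
    apply IsFractionRing.injective R L
    rw [hβ' j0, h0, map_one]
  obtain ⟨d, v, t, i0, htI, htv, hv0, hvp⟩ := hullV hp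
    (fun j => IsLocalRing.residue R (β' j)) j0 j1 (by simp only [hβ0, map_one]) hnot
  obtain ⟨S', hS'⟩ := subV S v
  have hE' : ExactAt S' (IsLocalRing.ResidueField R) t :=
    coreF S' (IsLocalRing.ResidueField R) hp t htI i0 (hno p hp hP0 (v i0) hv0 hvp)
  have hβ2 : (fun j => IsLocalRing.residue R (β' j)) =
      (fun j => ∑ i, t i * ((v i j : ℤ) : IsLocalRing.ResidueField R)) := funext htv
  have hE : ExactAt S (IsLocalRing.ResidueField R) (fun j => IsLocalRing.residue R (β' j)) := by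
    intro f hf hD
    rw [hβ2, ← hS' _ t f hf] at hD
    obtain ⟨g, hg, hgf⟩ := hE' f hf hD
    refine ⟨g, hg, ?_⟩
    rw [hβ2, ← hS' _ t g hg]
    exact hgf
  have := nakV S R L β' hE
  have hfun : (fun j => algebraMap R L (β' j)) = β := funext hβ'
  rwa [hfun] at this

end Pool.Agent.Helper39.DC
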