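import Pool.Agent.Helper39.DB.MulExt

/-!
# DC-08 (project DC): multiadditive maps on a free module, any finite set of variables

The same as `mm_ext`, `mm_exists` in DB/MulExt.lean (proved there for the variables `Fin p`; `bas Γ y` are the basis elements of `X →₀ ℤ[Γ]`): generalise the
proofs to a finite index type `ι`, or transport along `ι ≃ Fin (Fintype.card ι)` with `MultilinearMap.domDomCongr`.
-/

set_option autoImplicit false

namespace Pool.Agent.Helper39.DC

open Finset Pool.Agent.Helper27.Mess Pool.Agent.Helper39.DB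
open scoped IsMulCommutative

variable {Γ : Type*} [Group Γ] {A : Type*} [AddCommGroup A] {X : Type*} {ι : Type*} [Fintype ι]

/-- the coordinates of the free module -/
private noncomputable def coV : (X →₀ MonoidAlgebra ℤ Γ) ≃+ (X × Γ →₀ ℤ) :=
  (Finsupp.mapRange.addEquiv (MonoidAlgebra.coeffAddEquiv (R := ℤ) (M := Γ))).trans
    Finsupp.curryAddEquiv.symm

private theorem coV_bas (y : X × Γ) : coV (bas Γ y) = Finsupp.single y 1 := by
  unfold coV bas
  rw [AddEquiv.trans_apply, AddEquiv.symm_apply_eq]
  ext a b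
  simp

/-- the basis of the free module as an abelian group -/
private noncomputable def bv : Module.Basis (X × Γ) ℤ (X →₀ MonoidAlgebra ℤ Γ) :=
  Module.Basis.ofRepr ((coV (Γ := Γ) (X := X)).toIntLinearEquiv)

private theorem bv_apply (y : X × Γ) : bv (Γ := Γ) (X := X) y = bas Γ y := by
  unfold bv
  rw [Module.Basis.coe_ofRepr, LinearEquiv.symm_apply_eq]
  exact (coV_bas y).symm

theorem mv_ext {φ ψ : MultilinearMap ℤ (fun _ : ι => X →₀ MonoidAlgebra ℤ Γ) A}
    (h : ∀ y : ι → X × Γ, φ (fun i => bas Γ (y i)) = ψ (fun i => bas Γ (y i))) : φ = ψ := by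
  refine Module.Basis.ext_multilinear (fun _ => bv (Γ := Γ) (X := X)) (fun y => ?_)
  simp only [bv_apply]
  exact h y

theorem mv_exists (Φ : (ι → X × Γ) → A) :
    ∃ φ : MultilinearMap ℤ (fun _ : ι => X →₀ MonoidAlgebra ℤ Γ) A, ∀ y : ι → X × Γ,
      φ (fun i => bas Γ (y i)) = Φ y := by
  classical
  refine ⟨((Basis.piTensorProduct (fun _ : ι => bv (Γ := Γ) (X := X))).constr ℤ
    Φ).compMultilinearMap (PiTensorProduct.tprod ℤ), fun y => ?_⟩
  rw [LinearMap.compMultilinearMap_apply]
  have h1 : (PiTensorProduct.tprod ℤ (fun i => bas Γ (y i))) =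
      Basis.piTensorProduct (fun _ : ι => bv (Γ := Γ) (X := X)) y := by
    rw [Basis.piTensorProduct_apply]
    simp only [bv_apply]
  rw [h1, Module.Basis.constr_basis]

end Pool.Agent.Helper39.DC
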