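import Mathlib

/-!
# DC-16 (project DC): not almost all primes have two prime ideals of degree one above them

Suppose every prime `p > P0` has two different prime ideals `𝔭 p ≠ 𝔮 p` of `𝓞 K` of norm `p`; let `Mo = (P0 + 1)!` (a multiple of all primes `≤ P0`; `Mo ≥ 1`). For `a, b ≥ 1` with `a ≡ b ≡ 1` modulo `Mo`
all prime factors of `a`, `b` are `> P0`; put `I(a, b) = ∏_{p ∣ a} 𝔭 p ^ v_p(a) * ∏_{p ∣ b} 𝔮 p ^ v_p(b)` (`Nat.factorization`, `Finsupp.prod`). Its absolute norm is `a * b`, and `(a, b)` is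
determined by `I(a, b)`: the multiplicity of `𝔭 p` in it is `v_p(a)` (`UniqueFactorizationMonoid`/`Ideal` factorisation: `𝔭 p`, `𝔮 p` are prime, and they are all different from each other: their norms are the primes `p`).
(An alternative to multiplicities: `normalizedFactors I` is a multiset; count.) So for `N ≥ 1` the number of ideals of norm `≤ N` is at least the number of pairs `(a, b)` with `a b ≤ N`, which is at least
`∑_{b ≡ 1, b ≤ N} #{a ≤ N / b, a ≡ 1} ≥ ∑_{b = 1 + i Mo ≤ N} (N / b) / Mo (real division; #{a ≤ y, a ≡ 1 (Mo)} ≥ y / Mo - for a natural number `y = ⌊N / b⌋ ≥ 1` it is `⌊(y-1)/Mo⌋ + 1 ≥ y / Mo`, and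
`⌊N / b⌋ ≥ N / (2 b)`) `≥ (N / (2 Mo)) ∑_{i} 1 / (1 + i Mo) ≥ (N / (2 Mo ^ 2)) ∑_{1 ≤ i ≤ N / Mo} 1 / i`, so the quotient by `N` tends to infinity (the harmonic series diverges: `Real.tendsto_sum_range_one_div_nat_succ_atTop`).
But it converges by `NumberField.Ideal.tendsto_norm_le_div_atTop₀` (Mathlib, NumberTheory/NumberField/Ideal/Asymptotics.lean): contradiction.
-/

set_option autoImplicit false

namespace Pool.Agent.Helper39.DC

open NumberField

private theorem fac_gt {P0 j p : ℕ} (hp : p ∈ (1 + j * (P0 + 1).factorial).primeFactorsList) :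
    p.Prime ∧ P0 < p := by
  have hp1 : p.Prime := Nat.prime_of_mem_primeFactorsList hp
  refine ⟨hp1, ?_⟩
  by_contra hcon
  have h1 : p ∣ (P0 + 1).factorial := Nat.dvd_factorial hp1.pos (by omega)
  have h2 : p ∣ 1 + j * (P0 + 1).factorial := Nat.dvd_of_mem_primeFactorsList hp
  have h3 : p ∣ 1 := (Nat.dvd_add_left (h1.mul_left j)).1 h2
  exact hp1.one_lt.ne' (Nat.dvd_one.1 h3)

theorem nt_count (K : Type) [Field K] [NumberField K] (P0 : ℕ)
    (h : ∀ p : ℕ, p.Prime → P0 < p → ∃ I J : Ideal (𝓞 K), I.IsPrime ∧ J.IsPrime ∧ I ≠ J ∧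
      Ideal.absNorm I = p ∧ Ideal.absNorm J = p) : False := by
  classical
  choose! I J hI hJ hne hnI hnJ using h
  let Mo : ℕ := (P0 + 1).factorial
  have hMo : 0 < Mo := Nat.factorial_pos _
  -- the multiset of primes attached to a pair
  let ms : ℕ → ℕ → Multiset (Ideal (𝓞 K)) := fun a b =>
    (a.primeFactorsList : Multiset ℕ).map I + (b.primeFactorsList : Multiset ℕ).map J
  let S : Ideal (𝓞 K) → Prop := fun x => x = I (Ideal.absNorm x)
  have hprI : ∀ p : ℕ, p.Prime → P0 < p → Prime (I p) := fun p hp hp0 =>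
    Ideal.prime_of_isPrime (by
      intro h0
      have h1 := hnI p hp hp0
      rw [h0, Ideal.absNorm_bot] at h1
      exact hp.ne_zero h1.symm) (hI p hp hp0)
  have hprJ : ∀ p : ℕ, p.Prime → P0 < p → Prime (J p) := fun p hp hp0 =>
    Ideal.prime_of_isPrime (by
      intro h0
      have h1 := hnJ p hp hp0
      rw [h0, Ideal.absNorm_bot] at h1
      exact hp.ne_zero h1.symm) (hJ p hp hp0)
  have hfac : ∀ i j : ℕ, UniqueFactorizationMonoid.normalizedFactors
      (ms (1 + j * Mo) (1 + i * Mo)).prod = ms (1 + j * Mo) (1 + i * Mo) := by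
    intro i j
    apply UniqueFactorizationMonoid.normalizedFactors_prod_of_prime
    intro x hx
    rw [Multiset.mem_add, Multiset.mem_map, Multiset.mem_map] at hx
    rcases hx with ⟨p, hp, rfl⟩ | ⟨p, hp, rfl⟩
    · obtain ⟨h1, h2⟩ := fac_gt (Multiset.mem_coe.1 hp)
      exact hprI p h1 h2
    · obtain ⟨h1, h2⟩ := fac_gt (Multiset.mem_coe.1 hp)
      exact hprJ p h1 h2
  have hmapI : ∀ j : ℕ, (((1 + j * Mo).primeFactorsList : Multiset ℕ).map I).map Ideal.absNorm =
      ((1 + j * Mo).primeFactorsList : Multiset ℕ) := by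
    intro j
    rw [Multiset.map_map]
    conv_rhs => rw [← Multiset.map_id ((1 + j * Mo).primeFactorsList : Multiset ℕ)]
    apply Multiset.map_congr rfl
    intro p hp
    obtain ⟨h1, h2⟩ := fac_gt (Multiset.mem_coe.1 hp)
    exact hnI p h1 h2
  have hmapJ : ∀ j : ℕ, (((1 + j * Mo).primeFactorsList : Multiset ℕ).map J).map Ideal.absNorm =
      ((1 + j * Mo).primeFactorsList : Multiset ℕ) := by
    intro j
    rw [Multiset.map_map]
    conv_rhs => rw [← Multiset.map_id ((1 + j * Mo).primeFactorsList : Multiset ℕ)]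
    apply Multiset.map_congr rfl
    intro p hp
    obtain ⟨h1, h2⟩ := fac_gt (Multiset.mem_coe.1 hp)
    exact hnJ p h1 h2
  have hprod : ∀ j : ℕ, ((1 + j * Mo).primeFactorsList : Multiset ℕ).prod = 1 + j * Mo := by
    intro j
    rw [Multiset.prod_coe]
    exact Nat.prod_primeFactorsList (by omega)
  have hnorm : ∀ i j : ℕ, Ideal.absNorm (ms (1 + j * Mo) (1 + i * Mo)).prod =
      (1 + j * Mo) * (1 + i * Mo) := by
    intro i j
    change Ideal.absNorm (Multiset.prod (_ + _)) = _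
    rw [Multiset.prod_add, map_mul, map_multiset_prod, map_multiset_prod, hmapI, hmapJ, hprod,
      hprod]
  have hSI : ∀ j : ℕ, (((1 + j * Mo).primeFactorsList : Multiset ℕ).map I).filter S =
      ((1 + j * Mo).primeFactorsList : Multiset ℕ).map I := by
    intro j
    rw [Multiset.filter_eq_self]
    intro x hx
    rw [Multiset.mem_map] at hx
    obtain ⟨p, hp, rfl⟩ := hx
    obtain ⟨h1, h2⟩ := fac_gt (Multiset.mem_coe.1 hp)
    change I p = I (Ideal.absNorm (I p))
    rw [hnI p h1 h2]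
  have hSJ : ∀ j : ℕ, (((1 + j * Mo).primeFactorsList : Multiset ℕ).map J).filter S = 0 := by
    intro j
    rw [Multiset.filter_eq_nil]
    intro x hx hS
    rw [Multiset.mem_map] at hx
    obtain ⟨p, hp, rfl⟩ := hx
    obtain ⟨h1, h2⟩ := fac_gt (Multiset.mem_coe.1 hp)
    change J p = I (Ideal.absNorm (J p)) at hS
    rw [hnJ p h1 h2] at hS
    exact hne p h1 h2 hS.symm
  have hA : ∀ i j : ℕ, (((ms (1 + j * Mo) (1 + i * Mo)).filter S).map Ideal.absNorm).prod =
      1 + j * Mo := by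
    intro i j
    change (((_ + _ : Multiset (Ideal (𝓞 K))).filter S).map Ideal.absNorm).prod = _
    rw [Multiset.filter_add, hSI, hSJ, add_zero, hmapI, hprod]
  have hinj : ∀ i j i' j' : ℕ, (ms (1 + j * Mo) (1 + i * Mo)).prod =
      (ms (1 + j' * Mo) (1 + i' * Mo)).prod → i = i' ∧ j = j' := by
    intro i j i' j' he
    have h1 : ms (1 + j * Mo) (1 + i * Mo) = ms (1 + j' * Mo) (1 + i' * Mo) := by
      rw [← hfac i j, ← hfac i' j', he]
    have h2 : 1 + j * Mo = 1 + j' * Mo := by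
      rw [← hA i j, ← hA i' j', h1]
    have h3 : (1 + j * Mo) * (1 + i * Mo) = (1 + j' * Mo) * (1 + i' * Mo) := by
      rw [← hnorm i j, ← hnorm i' j', h1]
    have h4 : j = j' := by
      have : j * Mo = j' * Mo := by omega
      exact Nat.eq_of_mul_eq_mul_right hMo this
    refine ⟨?_, h4⟩
    rw [h4] at h3
    have h5 : 1 + i * Mo = 1 + i' * Mo := Nat.eq_of_mul_eq_mul_left (by omega) h3
    have : i * Mo = i' * Mo := by omega
    exact Nat.eq_of_mul_eq_mul_right hMo this
  -- the counting function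
  have hlim := NumberField.Ideal.tendsto_norm_le_div_atTop K
  set L : ℝ := (2 ^ InfinitePlace.nrRealPlaces K * (2 * Real.pi) ^ InfinitePlace.nrComplexPlaces K *
    Units.regulator K * classNumber K) / (Units.torsionOrder K * Real.sqrt |discr K|) with hL
  have hMoR : (0 : ℝ) < Mo := by exact_mod_cast hMo
  have key : ∀ m : ℕ, ∑ i ∈ Finset.range m, (1 : ℝ) / ((1 + i * Mo) * Mo) ≤ L := by
    intro m
    have hf : Filter.Tendsto (fun s : ℝ => ∑ i ∈ Finset.range m,
        ((1 : ℝ) / ((1 + i * Mo) * Mo) - (1 / Mo) * s⁻¹)) Filter.atTop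
        (nhds (∑ i ∈ Finset.range m, ((1 : ℝ) / ((1 + i * Mo) * Mo) - (1 / Mo) * 0))) := by
      apply tendsto_finsetSum
      intro i _
      exact tendsto_const_nhds.sub (tendsto_inv_atTop_zero.const_mul _)
    simp only [mul_zero, sub_zero] at hf
    refine le_of_tendsto_of_tendsto hf hlim ?_
    filter_upwards [Filter.eventually_ge_atTop ((1 : ℝ) + m * Mo)] with s hs
    have hmM : (0 : ℝ) ≤ m * Mo := by positivity
    have hs0 : 0 < s := by linarith
    have hfin : Finite {I : Ideal (𝓞 K) // Ideal.absNorm I ≤ s} := by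
      simp_rw [← Nat.le_floor_iff hs0.le]
      exact Ideal.finite_setOfPred_absNorm_le ⌊s⌋₊
    let kk : ℕ → ℕ := fun i => ⌊(s / (1 + i * Mo) - 1) / Mo⌋₊ + 1
    let T : Finset (Σ _ : ℕ, ℕ) := (Finset.range m).sigma (fun i => Finset.range (kk i))
    have hbnd : ∀ i < m, ∀ j < kk i, (((1 + j * Mo) * (1 + i * Mo) : ℕ) : ℝ) ≤ s := by
      intro i hi j hj
      have hb0 : (0 : ℝ) < 1 + i * Mo := by positivity
      have hi' : (i : ℝ) ≤ m := by exact_mod_cast hi.le
      have h1 : (1 : ℝ) ≤ s / (1 + i * Mo) := by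
        rw [le_div_iff₀ hb0, one_mul]
        have : (i : ℝ) * Mo ≤ m * Mo := mul_le_mul_of_nonneg_right hi' hMoR.le
        linarith
      have h2 : (0 : ℝ) ≤ (s / (1 + i * Mo) - 1) / Mo := div_nonneg (by linarith) hMoR.le
      have h3 : (j : ℝ) ≤ (s / (1 + i * Mo) - 1) / Mo := by
        have h4 : j ≤ ⌊(s / (1 + i * Mo) - 1) / Mo⌋₊ := by
          have : j < ⌊(s / (1 + i * Mo) - 1) / Mo⌋₊ + 1 := hj
          omega
        exact (Nat.le_floor_iff h2).1 h4
      rw [le_div_iff₀ hMoR] at h3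
      have h5 : (1 + (j : ℝ) * Mo) ≤ s / (1 + i * Mo) := by linarith
      rw [le_div_iff₀ hb0] at h5
      push_cast
      exact h5
    have hcard : (T.card : ℝ) ≤ Nat.card {I : Ideal (𝓞 K) // Ideal.absNorm I ≤ s} := by
      have h1 : Nat.card T ≤ Nat.card {I : Ideal (𝓞 K) // Ideal.absNorm I ≤ s} := by
        apply Nat.card_le_card_of_injective (fun t : T =>
          (⟨(ms (1 + t.1.2 * Mo) (1 + t.1.1 * Mo)).prod, by
            rw [hnorm]
            obtain ⟨⟨i, j⟩, ht⟩ := t
            rw [Finset.mem_sigma, Finset.mem_range, Finset.mem_range] at ht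
            exact hbnd i ht.1 j ht.2⟩ : {I : Ideal (𝓞 K) // Ideal.absNorm I ≤ s}))
        intro t t' he
        obtain ⟨⟨i, j⟩, ht⟩ := t
        obtain ⟨⟨i', j'⟩, ht'⟩ := t'
        have h2 := hinj i j i' j' (congrArg Subtype.val he)
        obtain ⟨rfl, rfl⟩ := h2
        rfl
      rw [Nat.card_eq_fintype_card, Fintype.card_coe] at h1
      exact_mod_cast h1
    have hTc : (T.card : ℝ) = ∑ i ∈ Finset.range m, (kk i : ℝ) := by
      rw [Finset.card_sigma]
      push_cast
      exact Finset.sum_congr rfl fun i _ => by rw [Finset.card_range]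
    rw [le_div_iff₀ hs0]
    refine le_trans ?_ hcard
    rw [hTc, Finset.sum_mul]
    refine Finset.sum_le_sum fun i hi => ?_
    have hb0 : (0 : ℝ) < 1 + i * Mo := by positivity
    have h1 : (s / (1 + i * Mo) - 1) / Mo ≤ (kk i : ℝ) := by
      have := Nat.lt_floor_add_one ((s / (1 + i * Mo) - 1) / (Mo : ℝ))
      change _ ≤ ((⌊(s / (1 + i * Mo) - 1) / (Mo : ℝ)⌋₊ + 1 : ℕ) : ℝ)
      push_cast
      exact this.le
    refine le_trans (le_of_eq ?_) h1
    field_simp
  -- the harmonic series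
  have hdiv := Real.tendsto_sum_range_one_div_nat_succ_atTop
  obtain ⟨m, hm⟩ := (hdiv.eventually_gt_atTop (L * (Mo * Mo))).exists
  have h1 := key m
  have h2 : ∑ i ∈ Finset.range m, (1 : ℝ) / ((i : ℝ) + 1) * (1 / (Mo * Mo)) ≤
      ∑ i ∈ Finset.range m, (1 : ℝ) / ((1 + i * Mo) * Mo) := by
    refine Finset.sum_le_sum fun i _ => ?_
    rw [← one_div_mul_one_div_rev, one_div_mul_one_div_rev, one_div_mul_one_div_rev]
    apply one_div_le_one_div_of_le (by positivity)
    have h3 : (1 : ℝ) ≤ Mo := by exact_mod_cast hMo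
    have h4 : (1 : ℝ) + i * Mo ≤ (i + 1) * Mo := by nlinarith
    nlinarith
  rw [← Finset.sum_mul] at h2
  have h3 : (∑ i ∈ Finset.range m, (1 : ℝ) / ((i : ℝ) + 1)) * (1 / (Mo * Mo)) ≤ L := h2.trans h1
  rw [mul_one_div, div_le_iff₀ (by positivity)] at h3
  linarith

end Pool.Agent.Helper39.DC
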