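import Pool.Agent.Helper39.DC.NTcount

/-!
# DC-17 (project DC): primes with a non-rational residue, primitive element

Let `n = [K : ℚ] ≥ 2`, `α ∈ 𝓞 K` with `ℚ(α) = K`, `g = minpoly ℤ α` monic of degree `n`. Suppose that the conclusion fails: for all primes `p > P0` and all prime ideals `𝔮 ∋ p` there is an integer `r` with `α - r ∈ 𝔮`.
* There is `k ≥ 1` with `k 𝓞 K ⊆ ℤ[α]` (`𝓞 K` is finitely generated over `ℤ`, and every element of `K = ℚ(α)` is a polynomial in `α` over `ℚ`). For `p > k` and `𝔮 ∋ p`, every `x ∈ 𝓞 K` is congruent to an integer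
  modulo `𝔮`: `k x = h(α) ≡ h(r)`, and `k` is invertible modulo `p`. So `𝓞 K / 𝔮 = F_p` and `Ideal.absNorm 𝔮 = p` (`ZMod p → 𝓞 K ⧸ 𝔮` bijective; `Ideal.absNorm_apply`, `Submodule.cardQuot_apply`).
* `D = det (Tr (α ^ (i+j)))_{0 ≤ i, j < n}` is a nonzero integer (`Algebra.discr` of the basis `1, α, ..., α^(n-1)`; `Algebra.discr_not_zero_of_basis`), and it does not change if `α` is replaced by `α - r` (unipotent base change;
  or apply the result to each `r` separately: see below).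
* Let `p > max P0 k |D|` and let `𝔮` be a prime ideal above `p`, `α - r ∈ 𝔮`. If every prime ideal above `p` contains `α - r =: δ` then `δ` is nilpotent in `𝓞 K / p` (it is in the radical of `(p)`: `Ideal.radical_eq_sInf`), so `Tr (δ ^ i)` is
  divisible by `p` for `i ≥ 1` (the trace of a nilpotent endomorphism of the free `ℤ/p`-module `𝓞 K / p` is `0`: `Algebra.trace`, base change; `Matrix.isNilpotent_trace_of_isNilpotent`), so the first row... all entries of the matrix
  `(Tr (δ^(i+j)))` except the one at `(0, 0)` are divisible by `p`, and as `n ≥ 2` the determinant, which is `D`, is divisible by `p`: contradiction. (Alternatively with `g`: `g (X + r) ≡ X ^ n` modulo `p` contradicts the separability of `g` modulo `p`.)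
* So there is a prime ideal `𝔮' ∋ p` with `α - r ∉ 𝔮'`, and `𝔮 ≠ 𝔮'` both have norm `p`. This contradicts `nt_count`.
-/

set_option autoImplicit false

namespace Pool.Agent.Helper39.DC

open NumberField Polynomial

section aux

variable {K : Type} [Field K] [NumberField K]

/-- Clearing denominators of a rational polynomial. -/
private lemma clear_den (q : ℚ[X]) :
    ∃ (m : ℤ) (h : ℤ[X]), m ≠ 0 ∧ h.map (Int.castRingHom ℚ) = C (m : ℚ) * q := by
  obtain ⟨b, hb⟩ := IsLocalization.integerNormalization_map_to_map (nonZeroDivisors ℤ) q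
  refine ⟨(b : ℤ), IsLocalization.integerNormalization (nonZeroDivisors ℤ) q,
    nonZeroDivisors.coe_ne_zero b, ?_⟩
  have h1 : (algebraMap ℤ ℚ) = Int.castRingHom ℚ := rfl
  rw [← h1, hb]
  ext i
  simp

/-- Every algebraic integer of `ℚ(α)` has a multiple in `ℤ[α]`. -/
private lemma exists_mul_one (α : 𝓞 K)
    (hα : IntermediateField.adjoin ℚ {(α : K)} = ⊤) (x : 𝓞 K) :
    ∃ m : ℤ, m ≠ 0 ∧ ∃ h : ℤ[X], (m : 𝓞 K) * x = aeval α h := by
  have h1 : (x : K) ∈ IntermediateField.adjoin ℚ {(α : K)} := by rw [hα]; trivial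
  have h2 : (x : K) ∈ Algebra.adjoin ℚ {(α : K)} := by
    rw [← IntermediateField.adjoin_simple_toSubalgebra_of_isAlgebraic
      (Algebra.IsAlgebraic.isAlgebraic (α : K))]
    exact h1
  rw [Algebra.adjoin_singleton_eq_range_aeval] at h2
  obtain ⟨q, hq⟩ := h2
  obtain ⟨m, h, hm, hh⟩ := clear_den q
  refine ⟨m, hm, h, ?_⟩
  apply FaithfulSMul.algebraMap_injective (𝓞 K) K
  rw [map_mul, ← aeval_algebraMap_apply]
  have h3 : aeval (algebraMap (𝓞 K) K α) h = aeval (α : K) (h.map (Int.castRingHom ℚ)) := by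
    rw [aeval_def, aeval_def, eval₂_map]
    congr 1
    ext
    simp
  rw [h3, hh, map_mul, aeval_C]
  have h4 : aeval (α : K) q = (x : K) := hq
  rw [h4]
  simp

/-- A common denominator. -/
private lemma exists_index (α : 𝓞 K)
    (hα : IntermediateField.adjoin ℚ {(α : K)} = ⊤) :
    ∃ k : ℤ, k ≠ 0 ∧ ∀ x : 𝓞 K, ∃ h : ℤ[X], (k : 𝓞 K) * x = aeval α h := by
  classical
  obtain ⟨S, hS⟩ := (inferInstance : Module.Finite ℤ (𝓞 K)).fg_top
  choose m hm h hh using exists_mul_one α hα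
  refine ⟨∏ s ∈ S, m s, Finset.prod_ne_zero_iff.2 fun s _ => hm s, ?_⟩
  set k : ℤ := ∏ s ∈ S, m s with hk
  have key : (⊤ : Submodule ℤ (𝓞 K)) ≤
      (Subalgebra.toSubmodule (Algebra.adjoin ℤ {α})).comap (LinearMap.mulLeft ℤ (k : 𝓞 K)) := by
    rw [← hS, Submodule.span_le]
    intro s hs
    have hs' : s ∈ S := hs
    simp only [Submodule.comap_coe, Set.mem_preimage, LinearMap.mulLeft_apply, SetLike.mem_coe,
      Subalgebra.mem_toSubmodule]
    have h1 : (k : 𝓞 K) * s = ((∏ s' ∈ S.erase s, m s' : ℤ) : 𝓞 K) * aeval α (h s) := by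
      rw [← hh s, hk, ← Finset.mul_prod_erase S m hs']
      push_cast
      ring
    rw [h1]
    apply Subalgebra.mul_mem
    · exact intCast_mem _ _
    · rw [Algebra.adjoin_singleton_eq_range_aeval]
      exact ⟨h s, rfl⟩
  intro x
  have h2 := key (show x ∈ ⊤ from trivial)
  simp only [Submodule.mem_comap, LinearMap.mulLeft_apply, Subalgebra.mem_toSubmodule] at h2
  rw [Algebra.adjoin_singleton_eq_range_aeval] at h2
  obtain ⟨g, hg⟩ := h2
  exact ⟨g, hg.symm⟩

/-- The minimal polynomial modulo `p`. -/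
private lemma minpoly_dvd (α : 𝓞 K) {k : ℤ}
    (hk : ∀ x : 𝓞 K, ∃ h : ℤ[X], (k : 𝓞 K) * x = aeval α h) {p : ℕ} (hp : p.Prime)
    (hpk : ¬ (p : ℤ) ∣ k) {h : ℤ[X]} (hh : aeval α h ∈ Ideal.span {(p : 𝓞 K)}) :
    (minpoly ℤ α).map (Int.castRingHom (ZMod p)) ∣ h.map (Int.castRingHom (ZMod p)) := by
  haveI : Fact p.Prime := ⟨hp⟩
  have hint : IsIntegral ℤ α := α.isIntegral
  set f := minpoly ℤ α with hf
  have hmon : f.Monic := minpoly.monic hint
  obtain ⟨x, hx⟩ := Ideal.mem_span_singleton.1 hh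
  obtain ⟨g, hg⟩ := hk x
  have haf : aeval α f = 0 := minpoly.aeval ℤ α
  have hs : aeval α (h %ₘ f) = aeval α h := by
    have h1 := congrArg (aeval α) (modByMonic_add_div h f)
    rw [map_add, map_mul, haf, zero_mul, add_zero] at h1
    exact h1
  have hs' : aeval α (g %ₘ f) = aeval α g := by
    have h1 := congrArg (aeval α) (modByMonic_add_div g f)
    rw [map_add, map_mul, haf, zero_mul, add_zero] at h1
    exact h1
  have h0 : aeval α (C k * (h %ₘ f) - C (p : ℤ) * (g %ₘ f)) = 0 := by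
    rw [map_sub, map_mul, map_mul, hs, hs', aeval_C, aeval_C, ← hg, hx]
    simp only [algebraMap_int_eq, eq_intCast, Int.cast_natCast]
    ring
  have hdvd : f ∣ C k * (h %ₘ f) - C (p : ℤ) * (g %ₘ f) :=
    minpoly.isIntegrallyClosed_dvd hint h0
  have hdeg : degree (C k * (h %ₘ f) - C (p : ℤ) * (g %ₘ f)) < degree f := by
    refine lt_of_le_of_lt (degree_sub_le _ _) (max_lt ?_ ?_)
    · rw [← smul_eq_C_mul]
      exact lt_of_le_of_lt (degree_smul_le _ _) (degree_modByMonic_lt h hmon)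
    · rw [← smul_eq_C_mul]
      exact lt_of_le_of_lt (degree_smul_le _ _) (degree_modByMonic_lt g hmon)
  have hz : C k * (h %ₘ f) - C (p : ℤ) * (g %ₘ f) = 0 := by
    have h1 := (modByMonic_eq_self_iff hmon).2 hdeg
    have h2 := (modByMonic_eq_zero_iff_dvd hmon).2 hdvd
    rw [← h1, h2]
  have hz2 := congrArg (Polynomial.map (Int.castRingHom (ZMod p))) hz
  rw [Polynomial.map_sub, Polynomial.map_mul, Polynomial.map_mul, Polynomial.map_C,
    Polynomial.map_C] at hz2
  have hp0 : (Int.castRingHom (ZMod p)) (p : ℤ) = 0 := by simp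
  rw [hp0, C_0, zero_mul, sub_zero, Polynomial.map_zero] at hz2
  have hk0 : (Int.castRingHom (ZMod p)) k ≠ 0 := by
    intro h1
    apply hpk
    exact (ZMod.intCast_zmod_eq_zero_iff_dvd k p).1 (by simpa using h1)
  have hs0 : (h %ₘ f).map (Int.castRingHom (ZMod p)) = 0 := by
    rcases mul_eq_zero.1 hz2 with h1 | h1
    · exact absurd (C_eq_zero.1 h1) hk0
    · exact h1
  have h3 := congrArg (Polynomial.map (Int.castRingHom (ZMod p))) (modByMonic_add_div h f)
  rw [Polynomial.map_add, Polynomial.map_mul, hs0, zero_add] at h3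
  exact ⟨_, h3.symm⟩

/-- Separability away from finitely many primes. -/
private lemma exists_sep (α : 𝓞 K) :
    ∃ (c : ℤ) (A B : ℤ[X]), c ≠ 0 ∧
      A * minpoly ℤ α + B * derivative (minpoly ℤ α) = C c := by
  have hint : IsIntegral ℤ α := α.isIntegral
  have h1 : minpoly ℚ (α : K) = (minpoly ℤ α).map (algebraMap ℤ ℚ) :=
    minpoly.isIntegrallyClosed_eq_field_fractions ℚ K hint
  have h2 : (minpoly ℚ (α : K)).Separable :=
    (minpoly.irreducible (Algebra.IsIntegral.isIntegral (α : K))).separable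
  obtain ⟨a, b, hab⟩ := h2
  obtain ⟨m1, A', hm1, hA'⟩ := clear_den a
  obtain ⟨m2, B', hm2, hB'⟩ := clear_den b
  refine ⟨m1 * m2, C m2 * A', C m1 * B', mul_ne_zero hm1 hm2, ?_⟩
  apply Polynomial.map_injective (Int.castRingHom ℚ) (RingHom.injective_int _)
  rw [h1, derivative_map] at hab
  have h3 : (algebraMap ℤ ℚ) = Int.castRingHom ℚ := rfl
  rw [h3] at hab
  rw [Polynomial.map_add, Polynomial.map_mul, Polynomial.map_mul, Polynomial.map_mul,
    Polynomial.map_mul, hA', hB', Polynomial.map_C, Polynomial.map_C, Polynomial.map_C]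
  have h4 : ∀ z : ℤ, (Int.castRingHom ℚ) z = (z : ℚ) := fun z => by simp
  rw [h4, h4, h4]
  calc C (m2 : ℚ) * (C (m1 : ℚ) * a) * map (Int.castRingHom ℚ) (minpoly ℤ α) +
        C (m1 : ℚ) * (C (m2 : ℚ) * b) * map (Int.castRingHom ℚ) (derivative (minpoly ℤ α))
      = C (m1 : ℚ) * C (m2 : ℚ) * (a * map (Int.castRingHom ℚ) (minpoly ℤ α) +
        b * map (Int.castRingHom ℚ) (derivative (minpoly ℤ α))) := by ring
    _ = C (m1 : ℚ) * C (m2 : ℚ) := by rw [hab, mul_one]
    _ = C ((m1 * m2 : ℤ) : ℚ) := by rw [← C_mul]; push_cast; rfl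

/-- The residue field at a prime with a rational residue. -/
private lemma absNorm_eq (α : 𝓞 K) {k : ℤ}
    (hk : ∀ x : 𝓞 K, ∃ h : ℤ[X], (k : 𝓞 K) * x = aeval α h) {p : ℕ} (hp : p.Prime)
    (hpk : ¬ (p : ℤ) ∣ k) {I : Ideal (𝓞 K)} (hI : I.IsPrime) (hpI : (p : 𝓞 K) ∈ I) {r : ℤ}
    (hr : α - (r : 𝓞 K) ∈ I) : Ideal.absNorm I = p := by
  haveI : Fact p.Prime := ⟨hp⟩
  haveI := hI
  set F : ℤ →+* (𝓞 K) ⧸ I := (Ideal.Quotient.mk I).comp (Int.castRingHom (𝓞 K)) with hF
  have hsurj : Function.Surjective F := by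
    intro y
    obtain ⟨x, rfl⟩ := Ideal.Quotient.mk_surjective y
    obtain ⟨h, hh⟩ := hk x
    -- `k` is invertible modulo `p`
    have hcop : IsCoprime k (p : ℤ) :=
      ((Nat.prime_iff_prime_int.1 hp).coprime_iff_not_dvd.2 hpk).symm
    obtain ⟨u, v, huv⟩ := hcop
    refine ⟨u * eval r h, ?_⟩
    have h1 : (Ideal.Quotient.mk I) (aeval α h) = (Ideal.Quotient.mk I) ((eval r h : ℤ) : 𝓞 K) := by
      rw [Ideal.Quotient.eq]
      have h2 : ((eval r h : ℤ) : 𝓞 K) = aeval (r : 𝓞 K) h := by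
        rw [← eq_intCast (algebraMap ℤ (𝓞 K)), ← eq_intCast (algebraMap ℤ (𝓞 K)) r,
          aeval_algebraMap_apply]
        simp
      rw [h2]
      refine I.mem_of_dvd ?_ hr
      rw [aeval_def, aeval_def, eval₂_eq_eval_map, eval₂_eq_eval_map]
      exact sub_dvd_eval_sub _ _ _
    have h3 : x = (u : 𝓞 K) * ((k : 𝓞 K) * x) + (v : 𝓞 K) * x * (p : 𝓞 K) := by
      have h4 : ((u * k + v * (p : ℤ) : ℤ) : 𝓞 K) = 1 := by rw [huv]; simp
      push_cast at h4
      calc x = ((u : 𝓞 K) * k + v * (p : 𝓞 K)) * x := by rw [h4, one_mul]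
        _ = _ := by ring
    have h5 : (Ideal.Quotient.mk I) x = (Ideal.Quotient.mk I) ((u : 𝓞 K) * ((k : 𝓞 K) * x)) := by
      rw [Ideal.Quotient.eq]
      have h6 : x - (u : 𝓞 K) * ((k : 𝓞 K) * x) = (v : 𝓞 K) * x * (p : 𝓞 K) := by
        linear_combination h3
      rw [h6]
      exact I.mul_mem_left _ hpI
    rw [h5, map_mul (Ideal.Quotient.mk I), hh, h1, hF]
    simp
  have hker : RingHom.ker F = Ideal.span {(p : ℤ)} := by
    symm
    apply (Int.ideal_span_isMaximal_of_prime p).eq_of_le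
    · exact RingHom.ker_ne_top F
    · rw [Ideal.span_singleton_le_iff_mem, RingHom.mem_ker, hF]
      simp only [RingHom.comp_apply, eq_intCast, Int.cast_natCast]
      exact Ideal.Quotient.eq_zero_iff_mem.2 hpI
  have hcard : Nat.card ((𝓞 K) ⧸ I) = p := by
    have e1 : (ℤ ⧸ RingHom.ker F) ≃+* (𝓞 K) ⧸ I := RingHom.quotientKerEquivOfSurjective hsurj
    have e2 : (ℤ ⧸ Ideal.span {(p : ℤ)}) ≃+* ZMod p := Int.quotientSpanNatEquivZMod p
    rw [← Nat.card_congr e1.toEquiv, hker, Nat.card_congr e2.toEquiv, Nat.card_zmod]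
  rw [Ideal.absNorm_apply, Submodule.cardQuot_apply]
  exact hcard

end aux

theorem nt_prim (K : Type) [Field K] [NumberField K] (α : 𝓞 K)
    (hα : IntermediateField.adjoin ℚ {(α : K)} = ⊤) (hn : 2 ≤ Module.finrank ℚ K) (P0 : ℕ) :
    ∃ p : ℕ, p.Prime ∧ P0 < p ∧ ∃ I : Ideal (𝓞 K), I.IsPrime ∧ (p : 𝓞 K) ∈ I ∧
      ∀ r : ℤ, α - (r : 𝓞 K) ∉ I := by
  by_contra hcon
  push Not at hcon
  obtain ⟨k, hk0, hk⟩ := exists_index α hα
  obtain ⟨c, A, B, hc, hAB⟩ := exists_sep α
  have hint : IsIntegral ℤ α := α.isIntegral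
  have hmon : (minpoly ℤ α).Monic := minpoly.monic hint
  have hdegQ : (minpoly ℚ (α : K)).natDegree = Module.finrank ℚ K :=
    (Field.primitive_element_iff_minpoly_natDegree_eq ℚ (α : K)).1 hα
  have hdegZ : (minpoly ℤ α).natDegree = Module.finrank ℚ K := by
    rw [← hdegQ, minpoly.isIntegrallyClosed_eq_field_fractions ℚ K hint, hmon.natDegree_map]
  apply nt_count K (max P0 (k * c).natAbs)
  intro p hp hpP
  haveI : Fact p.Prime := ⟨hp⟩
  have hP0 : P0 < p := lt_of_le_of_lt (le_max_left _ _) hpP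
  have hkc : (k * c).natAbs < p := lt_of_le_of_lt (le_max_right _ _) hpP
  have hkc0 : k * c ≠ 0 := mul_ne_zero hk0 hc
  have hndvd : ¬ (p : ℤ) ∣ k * c := by
    intro h1
    have h2 := Int.le_of_dvd (Int.natAbs_pos.2 hkc0 |> fun h => by exact_mod_cast h :
      (0 : ℤ) < ((k * c).natAbs : ℤ)) (Int.dvd_natAbs.2 h1)
    have h3 : p ≤ (k * c).natAbs := by exact_mod_cast h2
    omega
  have hpk : ¬ (p : ℤ) ∣ k := fun h1 => hndvd (h1.mul_right c)
  have hpc : ¬ (p : ℤ) ∣ c := fun h1 => hndvd (h1.mul_left k)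
  -- the polynomial modulo `p`
  set f := (minpoly ℤ α).map (Int.castRingHom (ZMod p)) with hf
  have hfmon : f.Monic := hmon.map _
  have hfdeg : 2 ≤ f.natDegree := by
    rw [hf, hmon.natDegree_map, hdegZ]; exact hn
  -- there is a prime ideal
  have hne : Ideal.span {(p : 𝓞 K)} ≠ ⊤ := by
    intro h1
    have h2 : aeval α (1 : ℤ[X]) ∈ Ideal.span {(p : 𝓞 K)} := by rw [h1]; trivial
    have h3 := minpoly_dvd α hk hp hpk h2
    rw [Polynomial.map_one] at h3
    have h4 := natDegree_le_of_dvd h3 one_ne_zero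
    rw [natDegree_one] at h4
    have h5 : 2 ≤ ((minpoly ℤ α).map (Int.castRingHom (ZMod p))).natDegree := hfdeg
    omega
  obtain ⟨I, hImax, hIle⟩ := Ideal.exists_le_maximal _ hne
  have hIp : I.IsPrime := hImax.isPrime
  have hpI : (p : 𝓞 K) ∈ I := hIle (Ideal.mem_span_singleton_self _)
  obtain ⟨r, hr⟩ := hcon p hp hP0 I hIp hpI
  -- there is another one
  have hJ : ∃ J : Ideal (𝓞 K), J.IsPrime ∧ (p : 𝓞 K) ∈ J ∧ I ≠ J := by
    by_contra hno
    push Not at hno
    have h1 : α - (r : 𝓞 K) ∈ (Ideal.span {(p : 𝓞 K)}).radical := by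
      rw [Ideal.radical_eq_sInf, Submodule.mem_sInf]
      rintro J ⟨hJ1, hJ2⟩
      rw [← hno J hJ2 (hJ1 (Ideal.mem_span_singleton_self _))]
      exact hr
    obtain ⟨N, hN⟩ := h1
    have h2 : aeval α ((X - C r) ^ N : ℤ[X]) ∈ Ideal.span {(p : 𝓞 K)} := by
      have h3 : aeval α ((X - C r) ^ N : ℤ[X]) = (α - (r : 𝓞 K)) ^ N := by
        rw [map_pow, map_sub, aeval_X, aeval_C]
        simp
      rw [h3]; exact hN
    have h4 := minpoly_dvd α hk hp hpk h2
    rw [Polynomial.map_pow, Polynomial.map_sub, Polynomial.map_X, Polynomial.map_C] at h4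
    obtain ⟨i, -, hi⟩ := (dvd_prime_pow (prime_X_sub_C _) _).1 h4
    have hdi : i = f.natDegree := by
      have h5 := natDegree_eq_of_degree_eq (degree_eq_degree_of_associated hi)
      rw [natDegree_pow, natDegree_X_sub_C, mul_one] at h5
      exact h5.symm
    have h6 : (X - C ((Int.castRingHom (ZMod p)) r)) ^ 2 ∣ f := by
      refine dvd_trans (pow_dvd_pow _ (hdi ▸ hfdeg : 2 ≤ i)) hi.symm.dvd
    obtain ⟨g, hg⟩ := h6
    have h7 : eval ((Int.castRingHom (ZMod p)) r) f = 0 := by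
      rw [hg]; simp
    have h8 : eval ((Int.castRingHom (ZMod p)) r) (derivative f) = 0 := by
      rw [hg]
      simp [derivative_pow]
    have h9 := congrArg (fun P : ℤ[X] => eval ((Int.castRingHom (ZMod p)) r)
      (P.map (Int.castRingHom (ZMod p)))) hAB
    simp only [Polynomial.map_add, Polynomial.map_mul, eval_add, eval_mul, Polynomial.map_C,
      eval_C, ← derivative_map] at h9
    rw [← hf, h7, h8, mul_zero, mul_zero, add_zero] at h9
    apply hpc
    exact (ZMod.intCast_zmod_eq_zero_iff_dvd c p).1 (by simpa using h9.symm)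
  obtain ⟨J, hJp, hpJ, hIJ⟩ := hJ
  obtain ⟨r', hr'⟩ := hcon p hp hP0 J hJp hpJ
  exact ⟨I, J, hIp, hJp, hIJ, absNorm_eq α hk hp hpk hIp hpI hr,
    absNorm_eq α hk hp hpk hJp hpJ hr'⟩

end Pool.Agent.Helper39.DC
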