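import Pool.Agent.Helper39.DC.MulBasV
import Pool.Agent.Helper39.DC.VSet

/-!
# DC-10 (project DC): the graded pieces of the filtration

Compare DB/Piece.lean. `K ≤ F` stable, `P : F → K` an additive projection (not equivariant), `1 ≤ j < p ^ d`.
* Let `Y = {I : Finset (Ix d p) // I.card = j}`, `τ i I = {w | nx i w ∈ I}` (the preimage under `nxE i`, same cardinality). The `τ i` commute (`nx_comm`) and have order
  dividing `p` (`nx_iter`). No common fixed point: if `w ∈ I ↔ nx i w ∈ I` for all `i`, `w`, then `I` is empty or everything (every index can be reached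
  from every other one by the `nx i`), so `j = 0` or `j = p ^ d`. `exists_dm` gives `δ`, `μ` on `Y`.
* For `I ∈ Y` let `P_I v w = P (v w)` for `w ∈ I` and `v w` otherwise (`MultilinearMap.compLinearMap`), and for a function `s : Y → κ` let
  `L s φ (v) = ∑_{I ∈ Y} s I • φ (P_I v)`, linear in `φ`. Put `δ' = L δ`, `μ' i = L (μ i)`.
* Key facts, `J = inK K v`: `J ⊆ inK K (P_I v)` and `I ⊆ inK K (P_I v)`. If `φ ∈ FilV (j+1)` and `J.card = j` then `φ (P_I v) = 0` for `I ≠ J` (`I ∪ J` has more than `j` elements)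
  and `φ (P_J v) = φ v` (`P = id` on `K`): so `L s φ v = s J • φ v`. If `J.card ≥ j + 1` and `φ ∈ FilV (j+1)`, then `L s φ v = 0`. If `J.card ≥ j` and `φ ∈ FilV j`, then `L s φ v = 0`.
  So `L s` preserves `FilV (j+1)` and `FilV j`.
* The other conditions are only needed for `φ ∈ FilV (j+1)` modulo `FilV j`, i.e. at `v` with `J.card ≥ j`; for `J.card ≥ j + 1` all terms vanish (`L s φ ∈ FilV (j+1)`, stability by
  `stbV_FilV`). For `J.card = j`: `(ρ g (L s φ)) (v) = ρ g (L s φ (g⁻¹ v)) = s J • ρ g (φ (g⁻¹ v))` (`inK_act`), `= L s (ρ g φ) (v)`;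
  `(c i (L s φ)) v = L s φ (sgV i v) = s (τ i J) • (c i φ) v` since `inK K (sgV i v) = τ i J` (`mem_inK_sgV`), and `L s (c i φ) v = s J • (c i φ) v`. Hence `μ' i` commutes with
  `c j` (`μ i (τ j J) = μ i J`), `δ' (c j φ) - c j (δ' φ) = (δ J - δ (τ j J)) • c j φ = μ j J • c j φ = μ' j (c j φ)`, `L s` and `L s'` commute, `∑ b j μ' j = 1`.
-/

set_option autoImplicit false

namespace Pool.Agent.Helper39.DC

open Finset Pool.Agent.Helper27.Mess Pool.Agent.Helper39.DB
open scoped IsMulCommutative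

variable {Γ : Type*} [Group Γ] {κ : Type*} [Field κ] {F : Type*} {A : Type*} [AddCommGroup F]
  [AddCommGroup A] [Module κ A] {d p : ℕ} {z : Fin d → Subgroup.center Γ}
  {τ : Γ →* AddMonoid.End F} {ρ : Representation κ Γ A} {b : Fin d → κ}

/-- The preimage of a set of indices under `nx i`. -/
private def tI (i : Fin d) (I : Finset (Ix d p)) : Finset (Ix d p) :=
  univ.filter (fun w => nx i w ∈ I)

private theorem mem_tI (i : Fin d) (I : Finset (Ix d p)) (w : Ix d p) :
    w ∈ tI i I ↔ nx i w ∈ I := by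
  unfold tI
  rw [mem_filter]
  exact ⟨fun h => h.2, fun h => ⟨mem_univ _, h⟩⟩

private theorem card_tI (i : Fin d) (I : Finset (Ix d p)) : (tI i I).card = I.card := by
  have h1 : tI i I = I.map (nxE i).symm.toEmbedding := by
    ext w
    rw [mem_tI, mem_map_equiv, Equiv.symm_symm]
    rfl
  rw [h1, card_map]

private theorem tI_comm (i j : Fin d) (I : Finset (Ix d p)) : tI i (tI j I) = tI j (tI i I) := by
  ext w
  rw [mem_tI, mem_tI, mem_tI, mem_tI, nx_comm]

private theorem mem_tI_iter (i : Fin d) (n : ℕ) (I : Finset (Ix d p)) (w : Ix d p) :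
    w ∈ (tI i)^[n] I ↔ (nx i)^[n] w ∈ I := by
  induction n generalizing I with
  | zero => exact Iff.rfl
  | succ n ih =>
    rw [Function.iterate_succ_apply, ih, mem_tI, Function.iterate_succ_apply']

private theorem rot_iter_val (x : Fin p) (n : ℕ) :
    (((rotE p)^[n] x : Fin p) : ℕ) = ((x : ℕ) + n) % p := by
  induction n with
  | zero => exact (Nat.mod_eq_of_lt x.2).symm
  | succ n ih =>
    rw [Function.iterate_succ_apply', rotE_val, ih, ← add_assoc, ← Nat.mod_add_mod ((x : ℕ) + n)]
    have hp0 : 0 < p := lt_of_le_of_lt (Nat.zero_le _) x.2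
    have h1 := Nat.mod_lt ((x : ℕ) + n) hp0
    by_cases h : ((x : ℕ) + n) % p + 1 < p
    · rw [if_pos h, Nat.mod_eq_of_lt h]
    · rw [if_neg h]
      have h2 : ((x : ℕ) + n) % p + 1 = p := by omega
      rw [h2, Nat.mod_self]

private theorem rot_reach (x y : Fin p) : ∃ n : ℕ, (rotE p)^[n] x = y := by
  refine ⟨(y : ℕ) + (p - (x : ℕ)), ?_⟩
  apply Fin.ext
  rw [rot_iter_val]
  have h1 : (x : ℕ) + ((y : ℕ) + (p - (x : ℕ))) = (y : ℕ) + p := by
    have := x.2
    omega
  rw [h1, Nat.add_mod_right, Nat.mod_eq_of_lt y.2]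

private theorem nx_iter_eq (i : Fin d) (w : Ix d p) (n : ℕ) :
    (nx i)^[n] w = Function.update w i ((rotE p)^[n] (w i)) := by
  induction n with
  | zero => exact (Function.update_eq_self i w).symm
  | succ n ih =>
    rw [Function.iterate_succ_apply', ih, Function.iterate_succ_apply']
    unfold nx
    rw [Function.update_self, Function.update_idem]

/-- A set of indices fixed by all `tI i` is empty or everything. -/
private theorem tI_fix {I : Finset (Ix d p)} (h : ∀ i : Fin d, tI i I = I) {w : Ix d p}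
    (hw : w ∈ I) (w' : Ix d p) : w' ∈ I := by
  have h1 : ∀ (i : Fin d) (n : ℕ) (u : Ix d p), u ∈ I → (nx i)^[n] u ∈ I := by
    intro i n
    induction n with
    | zero => exact fun u hu => hu
    | succ n ih =>
      intro u hu
      rw [Function.iterate_succ_apply]
      apply ih
      rw [← mem_tI, h i]
      exact hu
  have h2 : ∀ (i : Fin d) (x : Fin p) (u : Ix d p), u ∈ I → Function.update u i x ∈ I := by
    intro i x u hu
    obtain ⟨n, hn⟩ := rot_reach (u i) x
    rw [← hn, ← nx_iter_eq]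
    exact h1 i n u hu
  have h3 : ∀ s : Finset (Fin d), s.piecewise w' w ∈ I := by
    intro s
    induction s using Finset.induction with
    | empty => rw [Finset.piecewise_empty]; exact hw
    | insert i s _ ih =>
      rw [Finset.piecewise_insert]
      exact h2 i _ _ ih
  have h4 := h3 univ
  rwa [Finset.piecewise_univ] at h4

/-- The vector `v` with the components in `I` projected. -/
private def pvP (P : F →+ F) (I : Finset (Ix d p)) (v : Ix d p → F) (w : Ix d p) : F :=
  if w ∈ I then P (v w) else v w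

private noncomputable def pvC (P : F →+ F) (I : Finset (Ix d p)) (φ : MV d p F A) : MV d p F A :=
  φ.compLinearMap (fun w => if w ∈ I then AddMonoidHom.toIntLinearMap P else LinearMap.id)

private theorem pvC_apply (P : F →+ F) (I : Finset (Ix d p)) (φ : MV d p F A)
    (v : Ix d p → F) : pvC P I φ v = φ (pvP P I v) := by
  change φ (fun w => (if w ∈ I then AddMonoidHom.toIntLinearMap P else LinearMap.id :
    F →ₗ[ℤ] F) (v w)) = _
  congr 1
  funext w
  unfold pvP
  by_cases h : w ∈ I
  · rw [if_pos h, if_pos h]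
    rfl
  · rw [if_neg h, if_neg h]
    rfl

/-- The index sets with `j` elements. -/
private abbrev YY (d p j : ℕ) : Type := {I : Finset (Ix d p) // I.card = j}

private noncomputable def pvL (P : F →+ F) {j : ℕ} (s : YY d p j → κ) :
    Module.End κ (MV d p F A) where
  toFun φ := ∑ I, s I • pvC P I.1 φ
  map_add' φ ψ := by
    rw [← Finset.sum_add_distrib]
    refine Finset.sum_congr rfl fun I _ => ?_
    rw [← smul_add]
    rfl
  map_smul' a φ := by
    rw [RingHom.id_apply, Finset.smul_sum]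
    refine Finset.sum_congr rfl fun I _ => ?_
    rw [smul_comm]
    rfl

private theorem pvL_apply (P : F →+ F) {j : ℕ} (s : YY d p j → κ) (φ : MV d p F A)
    (v : Ix d p → F) : pvL P s φ v = ∑ I : YY d p j, s I • φ (pvP P I.1 v) := by
  change (∑ I : YY d p j, s I • pvC P I.1 φ) v = _
  rw [_root_.sum_apply]
  refine Finset.sum_congr rfl fun I _ => ?_
  change s I • pvC P I.1 φ v = _
  rw [pvC_apply]

private theorem inK_pvP {K : AddSubgroup F} (P : F →+ F) (hP : ∀ v, P v ∈ K)
    (I : Finset (Ix d p)) (v : Ix d p → F) : I ∪ inK K v ⊆ inK K (pvP P I v) := by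
  intro w hw
  rw [mem_union, mem_inK] at hw
  rw [mem_inK]
  unfold pvP
  by_cases h : w ∈ I
  · rw [if_pos h]
    exact hP _
  · rw [if_neg h]
    rcases hw with hw | hw
    · exact absurd hw h
    · exact hw

private theorem pvL_zero {K : AddSubgroup F} (P : F →+ F) (hP : ∀ v, P v ∈ K) {j l : ℕ}
    (s : YY d p j → κ) {φ : MV d p F A} (hφ : φ ∈ FilV d p κ A K l) {v : Ix d p → F}
    (hv : l ≤ (inK K v).card) : pvL P s φ v = 0 := by
  rw [pvL_apply]
  refine Finset.sum_eq_zero fun I _ => ?_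
  have h1 := card_le_card ((subset_union_right).trans (inK_pvP (K := K) P hP I.1 v))
  rw [(mem_FilV.1 hφ) _ (hv.trans h1), smul_zero]

private theorem pvL_eq {K : AddSubgroup F} (P : F →+ F) (hP : ∀ v, P v ∈ K)
    (hP' : ∀ v ∈ K, P v = v) {j : ℕ} (s : YY d p j → κ) {φ : MV d p F A}
    (hφ : φ ∈ FilV d p κ A K (j + 1)) {v : Ix d p → F} (hv : (inK K v).card = j) :
    pvL P s φ v = s ⟨inK K v, hv⟩ • φ v := by
  rw [pvL_apply, Finset.sum_eq_single (⟨inK K v, hv⟩ : YY d p j)]
  · congr 2
    funext w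
    unfold pvP
    by_cases h : w ∈ inK K v
    · rw [if_pos h, hP' _ ((mem_inK v w).1 h)]
    · rw [if_neg h]
  · intro I _ hI
    have h1 := card_le_card (inK_pvP (K := K) P hP I.1 v)
    have h2 : j + 1 ≤ (I.1 ∪ inK K v).card := by
      by_contra hcon
      have h3 : (I.1 ∪ inK K v).card ≤ j := by omega
      have h4 : I.1 = I.1 ∪ inK K v :=
        eq_of_subset_of_card_le subset_union_left (by rw [I.2]; exact h3)
      have h5 : inK K v = I.1 ∪ inK K v :=
        eq_of_subset_of_card_le subset_union_right (by rw [hv]; exact h3)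
      exact hI (Subtype.ext (h4.trans h5.symm))
    rw [(mem_FilV.1 hφ) _ (h2.trans h1), smul_zero]
  · intro h
    exact absurd (mem_univ _) h

theorem wey_piece (hp : p.Prime) [CharP κ p] (hb : Ind p b) {K : AddSubgroup F}
    (hK : ∀ (g : Γ), ∀ v ∈ K, τ g v ∈ K) (P : F →+ F) (hP : ∀ v, P v ∈ K)
    (hP' : ∀ v ∈ K, P v = v) {j : ℕ} (hj : 1 ≤ j) (hjp : j < p ^ d) :
    ∃ (δ : Module.End κ (MV d p F A)) (μ : Fin d → Module.End κ (MV d p F A)),
      WeyR b (rV (d := d) (p := p) τ ρ) (cV κ z τ) (FilV d p κ A K (j + 1)) (FilV d p κ A K j)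
        δ μ := by
  classical
  have hp0 : 0 < p := hp.pos
  -- the maps on the index sets
  let T : Fin d → YY d p j → YY d p j := fun i I => ⟨tI i I.1, by rw [card_tI]; exact I.2⟩
  have hT1 : ∀ (i : Fin d) (n : ℕ) (I : YY d p j), ((T i)^[n] I).1 = (tI i)^[n] I.1 := by
    intro i n
    induction n with
    | zero => exact fun I => rfl
    | succ n ih =>
      intro I
      rw [Function.iterate_succ_apply, Function.iterate_succ_apply, ih]
  obtain ⟨δ, μ, hd1, hd2, hd3⟩ := exists_dm hp b hb T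
    (fun i k I => Subtype.ext (tI_comm i k I.1))
    (fun i I => by
      apply Subtype.ext
      rw [hT1]
      ext w
      rw [mem_tI_iter, nx_iter])
    (by
      intro I
      by_contra hcon
      push Not at hcon
      have hfix : ∀ i, tI i I.1 = I.1 := fun i => congrArg Subtype.val (hcon i)
      have hne : I.1.Nonempty := by
        rw [← Finset.card_pos, I.2]
        omega
      obtain ⟨w, hw⟩ := hne
      have h1 : I.1 = univ := by
        ext w'
        exact ⟨fun _ => mem_univ _, fun _ => tI_fix hfix hw w'⟩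
      have h2 := I.2
      rw [h1, card_univ, Fintype.card_fun, Fintype.card_fin, Fintype.card_fin] at h2
      omega)
  have hst := fun l => stbV_FilV (d := d) (p := p) (κ := κ) (A := A) (z := z) (τ := τ) (ρ := ρ) hK l
  -- the criterion
  have hcrit : ∀ X : MV d p F A, X ∈ FilV d p κ A K (j + 1) →
      (∀ v : Ix d p → F, ∀ _ : (inK K v).card = j, X v = 0) → X ∈ FilV d p κ A K j := by
    intro X hX h v hv
    rcases Nat.eq_or_lt_of_le hv with h1 | h1
    · exact h v h1.symm
    · exact (mem_FilV.1 hX) v h1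
  have hL1 : ∀ (s : YY d p j → κ), ∀ u ∈ FilV d p κ A K (j + 1),
      pvL P s u ∈ FilV d p κ A K (j + 1) := fun s u hu v hv => pvL_zero P hP s hu hv
  have hL0 : ∀ (s : YY d p j → κ), ∀ u ∈ FilV d p κ A K j,
      pvL P s u ∈ FilV d p κ A K j := fun s u hu v hv => pvL_zero P hP s hu hv
  -- values at vectors with exactly `j` components in `K`
  have hLv : ∀ (s : YY d p j → κ) (u : MV d p F A), u ∈ FilV d p κ A K (j + 1) →
      ∀ (v : Ix d p → F) (hv : (inK K v).card = j), pvL P s u v = s ⟨inK K v, hv⟩ • u v :=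
    fun s u hu v hv => pvL_eq P hP hP' s hu hv
  have hact : ∀ (s : YY d p j → κ) (g : Γ) (u : MV d p F A), u ∈ FilV d p κ A K (j + 1) →
      rV τ ρ g (pvL P s u) - pvL P s (rV τ ρ g u) ∈ FilV d p κ A K j := by
    intro s g u hu
    apply hcrit
    · exact Submodule.sub_mem _ ((hst _).act g _ (hL1 s u hu)) (hL1 s _ ((hst _).act g u hu))
    · intro v hv
      have hv' : (inK K (fun w => τ g⁻¹ (v w))).card = j := by rw [inK_act hK]; exact hv
      have h1 : (⟨inK K (fun w => τ g⁻¹ (v w)), hv'⟩ : YY d p j) = ⟨inK K v, hv⟩ :=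
        Subtype.ext (inK_act hK g⁻¹ v)
      change rV τ ρ g (pvL P s u) v - pvL P s (rV τ ρ g u) v = 0
      rw [hLv s _ ((hst _).act g u hu) v hv, rV_apply, rV_apply, hLv s u hu _ hv', h1, map_smul,
        sub_self]
  have hcv : ∀ (s : YY d p j → κ) (i : Fin d) (u : MV d p F A), u ∈ FilV d p κ A K (j + 1) →
      ∀ (v : Ix d p → F) (hv : (inK K v).card = j),
      cV κ z τ i (pvL P s u) v = s (T i ⟨inK K v, hv⟩) • u (sgV z τ i v) := by
    intro s i u hu v hv
    have hv' : (inK K (sgV z τ i v)).card = j := by rw [card_sgV hK]; exact hv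
    have h1 : (⟨inK K (sgV z τ i v), hv'⟩ : YY d p j) = T i ⟨inK K v, hv⟩ := by
      apply Subtype.ext
      ext w
      change w ∈ inK K (sgV z τ i v) ↔ w ∈ tI i (inK K v)
      rw [mem_tI, mem_inK_sgV hK]
    rw [cV_apply, hLv s u hu _ hv', h1]
  have hLc : ∀ (s : YY d p j → κ) (i : Fin d) (u : MV d p F A), u ∈ FilV d p κ A K (j + 1) →
      ∀ (v : Ix d p → F) (hv : (inK K v).card = j),
      pvL P s (cV κ z τ i u) v = s ⟨inK K v, hv⟩ • u (sgV z τ i v) := by
    intro s i u hu v hv
    rw [hLv s _ ((hst _).rot i u hu) v hv, cV_apply]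
  have hLL : ∀ (s s' : YY d p j → κ) (u : MV d p F A), u ∈ FilV d p κ A K (j + 1) →
      pvL P s (pvL P s' u) - pvL P s' (pvL P s u) ∈ FilV d p κ A K j := by
    intro s s' u hu
    apply hcrit
    · exact Submodule.sub_mem _ (hL1 s _ (hL1 s' u hu)) (hL1 s' _ (hL1 s u hu))
    · intro v hv
      change pvL P s (pvL P s' u) v - pvL P s' (pvL P s u) v = 0
      rw [hLv s _ (hL1 s' u hu) v hv, hLv s' _ (hL1 s u hu) v hv, hLv s' u hu v hv,
        hLv s u hu v hv, smul_comm, sub_self]
  refine ⟨pvL P δ, fun i => pvL P (μ i), ?_⟩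
  refine ⟨hL1 δ, hL0 δ, fun i => hL1 (μ i), fun i => hL0 (μ i), hact δ, fun i => hact (μ i), ?_,
    fun i => hLL (μ i) δ, fun i k => hLL (μ i) (μ k), ?_, ?_⟩
  · intro i k u hu
    apply hcrit
    · exact Submodule.sub_mem _ (hL1 _ _ ((hst _).rot k u hu)) ((hst _).rot k _ (hL1 _ u hu))
    · intro v hv
      change pvL P (μ i) (cV κ z τ k u) v - cV κ z τ k (pvL P (μ i) u) v = 0
      rw [hLc _ k u hu v hv, hcv _ k u hu v hv, hd2, sub_self]
  · intro k u hu
    apply hcrit
    · exact Submodule.sub_mem _ (Submodule.sub_mem _ (hL1 _ _ ((hst _).rot k u hu))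
        ((hst _).rot k _ (hL1 _ u hu))) (hL1 _ _ ((hst _).rot k u hu))
    · intro v hv
      change pvL P δ (cV κ z τ k u) v - cV κ z τ k (pvL P δ u) v -
        pvL P (μ k) (cV κ z τ k u) v = 0
      rw [hLc _ k u hu v hv, hcv _ k u hu v hv, hLc _ k u hu v hv, ← sub_smul, ← sub_smul, hd1]
      have h1 : δ ⟨inK K v, hv⟩ - (δ ⟨inK K v, hv⟩ - μ k ⟨inK K v, hv⟩) - μ k ⟨inK K v, hv⟩ = 0 := by
        ring
      rw [h1, zero_smul]
  · intro u hu
    apply hcrit
    · exact Submodule.sub_mem _ (Submodule.sum_mem _ fun k _ =>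
        Submodule.smul_mem _ _ (hL1 _ u hu)) hu
    · intro v hv
      change (∑ k, b k • pvL P (μ k) u) v - u v = 0
      rw [_root_.sum_apply]
      have h1 : ∀ k ∈ (univ : Finset (Fin d)), (b k • pvL P (μ k) u) v =
          (b k * μ k ⟨inK K v, hv⟩) • u v := by
        intro k _
        change b k • pvL P (μ k) u v = _
        rw [hLv _ u hu v hv, smul_smul]
      rw [Finset.sum_congr rfl h1, ← Finset.sum_smul, hd3, one_smul, sub_self]

end Pool.Agent.Helper39.DC
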