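import Pool.Agent.Helper39.DC.WeyAc
import Pool.Agent.Helper39.DB.LiftR

/-!
# DC-05 (project DC): the criterion implies acyclicity, relative form

Let `V = ↥U1 ⧸ U0.submoduleOf U1` (`U0.comap U1.subtype`), a `κ`-module with the induced `ρ'`, `c'`, `δ'`, `μ'` (restrict to `U1` by
`LinearMap.restrict`, then `Submodule.mapQ`; `δ`, `μ i` preserve `U1` and `U0` by `hW.δ1`, ...). They satisfy `RotV p z ρ' c'` and `WeyR b ρ' c' ⊤ ⊥ δ' μ'`
(the conditions of `hW` modulo `U0`), so `weyAc` gives `AcR p S b ρ' c' ⊤ ⊥`. For `(f, g)` as in `AcR` (values in `U1`, cycle modulo `U0`) the classes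
`f' x = [f x]`, `g' x = [g x]` are an exact cycle (`DU_comp` for the quotient map and the inclusion), so `(f', g') = 𝔇(α', β')`. Lift `α'`, `β'` to
equivariant maps `C → ↥U1` (`lift_surj` of DB/LiftR.lean with `ρ` restricted to `U1` as a homomorphism `Γ →* AddMonoid.End ↥U1`; `C` is projective), and
compose with the inclusion `↥U1 → U`. (Two general lemmas are useful: `EqvR` for a representation is `Eqv` for the underlying action by additive
endomorphisms; `DU` commutes with the inclusion and the projection.)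
-/

set_option autoImplicit false

namespace Pool.Agent.Helper39.DC

open Finset Pool.Agent.Helper27.Mess Pool.Agent.Helper39.DB
open scoped IsMulCommutative

variable {Γ : Type*} [Group Γ] {C : Type*} [AddCommGroup C] [Module (MonoidAlgebra ℤ Γ) C]
  {κ : Type*} [CommRing κ] {U : Type*} [AddCommGroup U] [Module κ U] {G : GrRes Γ C} {d p : ℕ}
  {z : Fin d → Subgroup.center Γ} {ρ : Representation κ Γ U} {c : Fin d → Module.End κ U}
  {b : Fin d → κ} {S : DSys G z}

/-- a representation as an action by additive endomorphisms -/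
private def toE {U : Type*} [AddCommGroup U] [Module κ U] (ρ : Representation κ Γ U) :
    Γ →* AddMonoid.End U where
  toFun g := (ρ g).toAddMonoidHom
  map_one' := by
    apply AddMonoidHom.ext
    intro u
    change ρ 1 u = u
    rw [map_one]
    rfl
  map_mul' g k := by
    apply AddMonoidHom.ext
    intro u
    change ρ (g * k) u = ρ g (ρ k u)
    rw [map_mul]
    rfl

theorem lift_surjV [Module.Projective (MonoidAlgebra ℤ Γ) C] {U' : Type*} [AddCommGroup U']
    [Module κ U'] (ρ : Representation κ Γ U) (ρ' : Representation κ Γ U') (π : U →ₗ[κ] U')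
    (hπ : Function.Surjective π) (hπe : ∀ (g : Γ) (u : U), π (ρ g u) = ρ' g (π u)) (f : C →+ U')
    (hf : EqvR ρ' f) : ∃ F : C →+ U, EqvR ρ F ∧ ∀ x, π (F x) = f x := by
  exact lift_surj (toE ρ) (toE ρ') π.toAddMonoidHom hπ hπe f hf

/-- restriction of an endomorphism to a stable submodule -/
private def rs (T : Module.End κ U) (U1 : Submodule κ U) (h1 : ∀ u ∈ U1, T u ∈ U1) :
    Module.End κ U1 := T.restrict h1

/-- the endomorphism of the quotient -/
private def qt (T : Module.End κ U) (U1 U0 : Submodule κ U) (h1 : ∀ u ∈ U1, T u ∈ U1)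
    (h0 : ∀ u ∈ U0, T u ∈ U0) : Module.End κ (U1 ⧸ U0.submoduleOf U1) :=
  (U0.submoduleOf U1).mapQ (U0.submoduleOf U1) (rs T U1 h1) (fun u hu => h0 (u : U) hu)

private theorem rs_coe (T : Module.End κ U) (U1 : Submodule κ U) (h1 : ∀ u ∈ U1, T u ∈ U1)
    (u : U1) : ((rs T U1 h1 u : U1) : U) = T (u : U) := rfl

private theorem qt_mk (T : Module.End κ U) (U1 U0 : Submodule κ U) (h1 : ∀ u ∈ U1, T u ∈ U1)
    (h0 : ∀ u ∈ U0, T u ∈ U0) (u : U1) :
    qt T U1 U0 h1 h0 ((U0.submoduleOf U1).mkQ u) = (U0.submoduleOf U1).mkQ (rs T U1 h1 u) := rfl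

private theorem mk_eq {U1 U0 : Submodule κ U} {u v : U1} (h : (u : U) - v ∈ U0) :
    (U0.submoduleOf U1).mkQ u = (U0.submoduleOf U1).mkQ v :=
  (Submodule.Quotient.eq _).2 h

private theorem of_mk_eq {U1 U0 : Submodule κ U} {u v : U1}
    (h : (U0.submoduleOf U1).mkQ u = (U0.submoduleOf U1).mkQ v) : (u : U) - v ∈ U0 :=
  (Submodule.Quotient.eq (U0.submoduleOf U1)).1 h

private theorem ind_q {U1 U0 : Submodule κ U} {P : (U1 ⧸ U0.submoduleOf U1) → Prop}
    (h : ∀ u : U1, P ((U0.submoduleOf U1).mkQ u)) (x : U1 ⧸ U0.submoduleOf U1) : P x := by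
  obtain ⟨u, rfl⟩ := (U0.submoduleOf U1).mkQ_surjective x
  exact h u

/-- the representation on a stable submodule -/
private def rsR (ρ : Representation κ Γ U) (U1 : Submodule κ U)
    (h1 : ∀ (g : Γ), ∀ u ∈ U1, ρ g u ∈ U1) : Representation κ Γ U1 where
  toFun g := rs (ρ g) U1 (h1 g)
  map_one' := by
    apply LinearMap.ext
    intro u
    apply Subtype.ext
    change ρ 1 (u : U) = u
    rw [map_one]
    rfl
  map_mul' g k := by
    apply LinearMap.ext
    intro u
    apply Subtype.ext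
    change ρ (g * k) (u : U) = ρ g (ρ k (u : U))
    rw [map_mul]
    rfl

/-- the representation on the quotient of two stable submodules -/
private def qtR (ρ : Representation κ Γ U) (U1 U0 : Submodule κ U)
    (h1 : ∀ (g : Γ), ∀ u ∈ U1, ρ g u ∈ U1) (h0 : ∀ (g : Γ), ∀ u ∈ U0, ρ g u ∈ U0) :
    Representation κ Γ (U1 ⧸ U0.submoduleOf U1) where
  toFun g := qt (ρ g) U1 U0 (h1 g) (h0 g)
  map_one' := by
    apply LinearMap.ext
    refine ind_q fun u => ?_
    change (U0.submoduleOf U1).mkQ (rsR ρ U1 h1 1 u) = (U0.submoduleOf U1).mkQ u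
    rw [map_one]
    rfl
  map_mul' g k := by
    apply LinearMap.ext
    refine ind_q fun u => ?_
    change (U0.submoduleOf U1).mkQ (rsR ρ U1 h1 (g * k) u) =
      (U0.submoduleOf U1).mkQ (rsR ρ U1 h1 g (rsR ρ U1 h1 k u))
    rw [map_mul]
    rfl

private theorem qtR_mk (ρ : Representation κ Γ U) (U1 U0 : Submodule κ U)
    (h1 : ∀ (g : Γ), ∀ u ∈ U1, ρ g u ∈ U1) (h0 : ∀ (g : Γ), ∀ u ∈ U0, ρ g u ∈ U0) (g : Γ)
    (u : U1) : qtR ρ U1 U0 h1 h0 g ((U0.submoduleOf U1).mkQ u) =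
      (U0.submoduleOf U1).mkQ (rs (ρ g) U1 (h1 g) u) := rfl

private theorem qt_pow (T : Module.End κ U) (U1 U0 : Submodule κ U) (h1 : ∀ u ∈ U1, T u ∈ U1)
    (h0 : ∀ u ∈ U0, T u ∈ U0) (n : ℕ) (u : U1) (h : (T ^ n) (u : U) ∈ U1) :
    (qt T U1 U0 h1 h0 ^ n) ((U0.submoduleOf U1).mkQ u) =
      (U0.submoduleOf U1).mkQ ⟨(T ^ n) (u : U), h⟩ := by
  have key : ∀ n : ℕ, ∃ h' : (T ^ n) (u : U) ∈ U1, (qt T U1 U0 h1 h0 ^ n)
      ((U0.submoduleOf U1).mkQ u) = (U0.submoduleOf U1).mkQ ⟨(T ^ n) (u : U), h'⟩ := by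
    intro n
    induction n with
    | zero => exact ⟨u.2, rfl⟩
    | succ n ih =>
      obtain ⟨h', ih⟩ := ih
      have h2 : (T ^ (n + 1)) (u : U) ∈ U1 := by
        rw [pow_succ']
        exact h1 _ h'
      refine ⟨h2, ?_⟩
      rw [pow_succ']
      change qt T U1 U0 h1 h0 ((qt T U1 U0 h1 h0 ^ n) ((U0.submoduleOf U1).mkQ u)) = _
      rw [ih, qt_mk]
      congr 1
      apply Subtype.ext
      rw [rs_coe]
      change T ((T ^ n) (u : U)) = (T ^ (n + 1)) (u : U)
      rw [pow_succ']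
      rfl
  exact (key n).2

/-- the quotient of `yy` -/
private theorem qt_yy (b : Fin d → κ) (c : Fin d → Module.End κ U) (U1 U0 : Submodule κ U)
    (h1 : ∀ i, ∀ u ∈ U1, c i u ∈ U1) (h0 : ∀ i, ∀ u ∈ U0, c i u ∈ U0)
    (k1 : ∀ u ∈ U1, yy b c u ∈ U1) (k0 : ∀ u ∈ U0, yy b c u ∈ U0) :
    yy b (fun i => qt (c i) U1 U0 (h1 i) (h0 i)) = qt (yy b c) U1 U0 k1 k0 := by
  apply LinearMap.ext
  refine ind_q fun u => ?_
  rw [qt_mk]
  have e1 : yy b (fun i => qt (c i) U1 U0 (h1 i) (h0 i)) ((U0.submoduleOf U1).mkQ u) =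
      (U0.submoduleOf U1).mkQ (∑ i, b i • (rs (c i) U1 (h1 i) u - u)) := by
    unfold yy
    rw [LinearMap.sum_apply, map_sum]
    refine sum_congr rfl fun i _ => ?_
    rw [map_smul, map_sub]
    rfl
  rw [e1]
  congr 1
  apply Subtype.ext
  rw [rs_coe]
  unfold yy
  rw [LinearMap.sum_apply, AddSubmonoidClass.coe_finsetSum]
  rfl

theorem relWey [Module.Projective (MonoidAlgebra ℤ Γ) C] (hp : p.Prime) (hκ : (p : κ) = 0)
    (hc : RotV p z ρ c) {U1 U0 : Submodule κ U} (h01 : U0 ≤ U1) (s1 : StbV ρ c U1)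
    (s0 : StbV ρ c U0) {δ : Module.End κ U} {μ : Fin d → Module.End κ U}
    (hW : WeyR b ρ c U1 U0 δ μ) : AcR p S b ρ c U1 U0 := by
  classical
  have yy1 : ∀ u ∈ U1, yy b c u ∈ U1 := fun u hu => by
    have := yy_mem s1 b 1 hu
    rwa [pow_one] at this
  have yy0 : ∀ u ∈ U0, yy b c u ∈ U0 := fun u hu => by
    have := yy_mem s0 b 1 hu
    rwa [pow_one] at this
  set ρ' := qtR ρ U1 U0 s1.act s0.act with hρ'
  set c' : Fin d → Module.End κ (U1 ⧸ U0.submoduleOf U1) :=
    fun i => qt (c i) U1 U0 (s1.rot i) (s0.rot i) with hc'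
  set δ' := qt δ U1 U0 hW.δ1 hW.δ0 with hδ'
  set μ' : Fin d → Module.End κ (U1 ⧸ U0.submoduleOf U1) :=
    fun i => qt (μ i) U1 U0 (hW.μ1 i) (hW.μ0 i) with hμ'
  have hyy : yy b c' = qt (yy b c) U1 U0 yy1 yy0 := qt_yy b c U1 U0 s1.rot s0.rot yy1 yy0
  have R : RotV p z ρ' c' := by
    constructor
    · intro i g
      apply LinearMap.ext
      refine ind_q fun u => ?_
      refine mk_eq (u := rs (c i) U1 (s1.rot i) (rs (ρ g) U1 (s1.act g) u))
        (v := rs (ρ g) U1 (s1.act g) (rs (c i) U1 (s1.rot i) u)) ?_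
      have h : c i (ρ g (u : U)) = ρ g (c i (u : U)) :=
        congrArg (fun T : Module.End κ U => T (u : U)) (hc.act i g)
      change c i (ρ g (u : U)) - ρ g (c i (u : U)) ∈ U0
      rw [h, sub_self]
      exact U0.zero_mem
    · intro i j
      apply LinearMap.ext
      refine ind_q fun u => ?_
      refine mk_eq (u := rs (c i) U1 (s1.rot i) (rs (c j) U1 (s1.rot j) u))
        (v := rs (c j) U1 (s1.rot j) (rs (c i) U1 (s1.rot i) u)) ?_
      have h : c i (c j (u : U)) = c j (c i (u : U)) :=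
        congrArg (fun T : Module.End κ U => T (u : U)) (hc.comm i j)
      change c i (c j (u : U)) - c j (c i (u : U)) ∈ U0
      rw [h, sub_self]
      exact U0.zero_mem
    · intro i
      apply LinearMap.ext
      refine ind_q fun u => ?_
      have h : (c i ^ p) (u : U) = ρ (z i : Γ) (u : U) :=
        congrArg (fun T : Module.End κ U => T (u : U)) (hc.pow i)
      have h2 : (c i ^ p) (u : U) ∈ U1 := by
        rw [h]
        exact s1.act _ _ u.2
      rw [hc']
      rw [qt_pow (c i) U1 U0 (s1.rot i) (s0.rot i) p u h2]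
      refine mk_eq (u := ⟨(c i ^ p) (u : U), h2⟩) (v := rs (ρ (z i : Γ)) U1 (s1.act _) u) ?_
      change (c i ^ p) (u : U) - ρ (z i : Γ) (u : U) ∈ U0
      rw [h, sub_self]
      exact U0.zero_mem
  have W : WeyR b ρ' c' ⊤ ⊥ δ' μ' := by
    have aux : ∀ v w : U1, (v : U) - w ∈ U0 → (U0.submoduleOf U1).mkQ v -
        (U0.submoduleOf U1).mkQ w ∈ (⊥ : Submodule κ (U1 ⧸ U0.submoduleOf U1)) := by
      intro v w h
      rw [Submodule.mem_bot, sub_eq_zero]
      exact mk_eq h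
    refine ⟨fun _ _ => Submodule.mem_top, ?_, fun _ _ _ => Submodule.mem_top, ?_, ?_, ?_, ?_, ?_,
      ?_, ?_, ?_⟩
    · intro u hu
      rw [Submodule.mem_bot] at hu ⊢
      rw [hu, map_zero]
    · intro i u hu
      rw [Submodule.mem_bot] at hu ⊢
      rw [hu, map_zero]
    · intro g u _
      revert u
      refine ind_q fun u _ => ?_
      exact aux (rs (ρ g) U1 (s1.act g) (rs δ U1 hW.δ1 u)) (rs δ U1 hW.δ1 (rs (ρ g) U1 (s1.act g) u))
        (hW.δ_act g u u.2)
    · intro i g u _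
      revert u
      refine ind_q fun u _ => ?_
      exact aux (rs (ρ g) U1 (s1.act g) (rs (μ i) U1 (hW.μ1 i) u))
        (rs (μ i) U1 (hW.μ1 i) (rs (ρ g) U1 (s1.act g) u)) (hW.μ_act i g u u.2)
    · intro i j u _
      revert u
      refine ind_q fun u _ => ?_
      exact aux (rs (μ i) U1 (hW.μ1 i) (rs (c j) U1 (s1.rot j) u))
        (rs (c j) U1 (s1.rot j) (rs (μ i) U1 (hW.μ1 i) u)) (hW.μ_c i j u u.2)
    · intro i u _
      revert u
      refine ind_q fun u _ => ?_
      exact aux (rs (μ i) U1 (hW.μ1 i) (rs δ U1 hW.δ1 u)) (rs δ U1 hW.δ1 (rs (μ i) U1 (hW.μ1 i) u))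
        (hW.μ_δ i u u.2)
    · intro i j u _
      revert u
      refine ind_q fun u _ => ?_
      exact aux (rs (μ i) U1 (hW.μ1 i) (rs (μ j) U1 (hW.μ1 j) u))
        (rs (μ j) U1 (hW.μ1 j) (rs (μ i) U1 (hW.μ1 i) u)) (hW.μ_μ i j u u.2)
    · intro j u _
      revert u
      refine ind_q fun u _ => ?_
      exact aux (rs δ U1 hW.δ1 (rs (c j) U1 (s1.rot j) u) -
        rs (c j) U1 (s1.rot j) (rs δ U1 hW.δ1 u)) (rs (μ j) U1 (hW.μ1 j) (rs (c j) U1 (s1.rot j) u))
        (hW.rel j u u.2)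
    · intro u _
      revert u
      refine ind_q fun u _ => ?_
      have e1 : (∑ j, b j • μ' j ((U0.submoduleOf U1).mkQ u)) =
          (U0.submoduleOf U1).mkQ (∑ j, b j • rs (μ j) U1 (hW.μ1 j) u) := by
        rw [map_sum]
        refine sum_congr rfl fun j _ => ?_
        rw [map_smul]
        rfl
      rw [e1]
      refine aux _ _ ?_
      rw [AddSubmonoidClass.coe_finsetSum]
      exact hW.sum u u.2
  have hAc := weyAc (S := S) hp hκ R W
  intro f g hf hg mf mg df dg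
  -- the restrictions and the classes
  let f1 : C →+ U1 := AddMonoidHom.mk' (fun x => ⟨f x, mf x⟩) (fun x y => Subtype.ext (map_add f x y))
  let g1 : C →+ U1 := AddMonoidHom.mk' (fun x => ⟨g x, mg x⟩) (fun x y => Subtype.ext (map_add g x y))
  have coeDU : ∀ (h : C →+ U1) (x : C), ((DU S (fun i => b i ^ p) h x : U1) : U) =
      DU S (fun i => b i ^ p) (U1.subtype.toAddMonoidHom.comp h) x := by
    intro h x
    rw [DU_comp]
    rfl
  have mkDU : ∀ (h : C →+ U1) (x : C), (U0.submoduleOf U1).mkQ (DU S (fun i => b i ^ p) h x) =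
      DU S (fun i => b i ^ p) ((U0.submoduleOf U1).mkQ.toAddMonoidHom.comp h) x := by
    intro h x
    rw [DU_comp]
  have mky : ∀ (m : ℕ) (u : U1), (yy b c' ^ m) ((U0.submoduleOf U1).mkQ u) =
      (U0.submoduleOf U1).mkQ ⟨(yy b c ^ m) (u : U), yy_mem s1 b m u.2⟩ := by
    intro m u
    rw [hyy]
    exact qt_pow (yy b c) U1 U0 yy1 yy0 m u _
  have mky1 : ∀ (u : U1), yy b c' ((U0.submoduleOf U1).mkQ u) =
      (U0.submoduleOf U1).mkQ ⟨yy b c (u : U), yy1 u u.2⟩ := by
    intro u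
    rw [hyy]
    rfl
  let f' : C →+ (U1 ⧸ U0.submoduleOf U1) := (U0.submoduleOf U1).mkQ.toAddMonoidHom.comp f1
  let g' : C →+ (U1 ⧸ U0.submoduleOf U1) := (U0.submoduleOf U1).mkQ.toAddMonoidHom.comp g1
  have hf' : EqvR ρ' f' := by
    intro a x
    refine mk_eq (u := f1 (act a x)) (v := rs (ρ a) U1 (s1.act a) (f1 x)) ?_
    change f (act a x) - ρ a (f x) ∈ U0
    rw [hf, sub_self]
    exact U0.zero_mem
  have hg' : EqvR ρ' g' := by
    intro a x
    refine mk_eq (u := g1 (act a x)) (v := rs (ρ a) U1 (s1.act a) (g1 x)) ?_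
    change g (act a x) - ρ a (g x) ∈ U0
    rw [hg, sub_self]
    exact U0.zero_mem
  obtain ⟨α', β', eα, eβ, -, -, r1, r2⟩ := hAc f' g' hf' hg' (fun _ => Submodule.mem_top)
    (fun _ => Submodule.mem_top)
    (fun x => by
      rw [Submodule.mem_bot, sub_eq_zero]
      change DU S (fun i => b i ^ p) ((U0.submoduleOf U1).mkQ.toAddMonoidHom.comp f1) x =
        (yy b c' ^ (p - 1)) ((U0.submoduleOf U1).mkQ (g1 x))
      rw [← mkDU, mky]
      refine mk_eq ?_
      rw [coeDU]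
      exact df x)
    (fun x => by
      rw [Submodule.mem_bot, sub_eq_zero]
      change yy b c' ((U0.submoduleOf U1).mkQ (f1 x)) =
        DU S (fun i => b i ^ p) ((U0.submoduleOf U1).mkQ.toAddMonoidHom.comp g1) x
      rw [← mkDU, mky1]
      refine mk_eq ?_
      rw [coeDU]
      exact dg x)
  obtain ⟨α1, hα1, hα2⟩ := lift_surjV (rsR ρ U1 s1.act) ρ' (U0.submoduleOf U1).mkQ
    (U0.submoduleOf U1).mkQ_surjective (fun a u => rfl) α' eα
  obtain ⟨β1, hβ1, hβ2⟩ := lift_surjV (rsR ρ U1 s1.act) ρ' (U0.submoduleOf U1).mkQ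
    (U0.submoduleOf U1).mkQ_surjective (fun a u => rfl) β' eβ
  have hα3 : α' = (U0.submoduleOf U1).mkQ.toAddMonoidHom.comp α1 := by
    ext x
    exact (hα2 x).symm
  have hβ3 : β' = (U0.submoduleOf U1).mkQ.toAddMonoidHom.comp β1 := by
    ext x
    exact (hβ2 x).symm
  refine ⟨U1.subtype.toAddMonoidHom.comp α1, U1.subtype.toAddMonoidHom.comp β1, ?_, ?_,
    fun x => (α1 x).2, fun x => (β1 x).2, ?_, ?_⟩
  · intro a x
    exact congrArg Subtype.val (hα1 a x)
  · intro a x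
    exact congrArg Subtype.val (hβ1 a x)
  · intro x
    have h := r1 x
    rw [Submodule.mem_bot, sub_eq_zero, hα3, ← mkDU, hβ3] at h
    change (U0.submoduleOf U1).mkQ (f1 x) = (U0.submoduleOf U1).mkQ (DU S (fun i => b i ^ p) α1 x) -
      (yy b c' ^ (p - 1)) ((U0.submoduleOf U1).mkQ (β1 x)) at h
    rw [mky, ← map_sub] at h
    have h2 := of_mk_eq h
    rw [Submodule.coe_sub, coeDU] at h2
    exact h2
  · intro x
    have h := r2 x
    rw [Submodule.mem_bot, sub_eq_zero, hβ3, ← mkDU, hα3] at h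
    change (U0.submoduleOf U1).mkQ (g1 x) = yy b c' ((U0.submoduleOf U1).mkQ (α1 x)) -
      (U0.submoduleOf U1).mkQ (DU S (fun i => b i ^ p) β1 x) at h
    rw [mky1, ← map_sub] at h
    have h2 := of_mk_eq h
    rw [Submodule.coe_sub, coeDU] at h2
    exact h2

end Pool.Agent.Helper39.DC
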