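import Pool.Agent.Helper39.DC.RelWey
import Pool.Agent.Helper39.DC.PieceV

/-!
# DC-11 (project DC): the step for a short exact sequence `0 → F' → F → F'' → 0`

Word for word as DB/Step.lean (`QQ_step`), with `V j = FilV d p κ A K j`, `V 0 = ⊥`, `V (p ^ d + 1) = ⊤`, all stable (`stbV_FilV`), `RotV` by `rotV_cV`, `K = ` the kernel of `q`,
`P v = v - s (q v)`.
1. `AcR V(j+1) V(j)` for `1 ≤ j < p ^ d`: `wey_piece`, `relWey`. By `AcR.trans` (induction on `j`): `AcR V(p^d) V(1)`.
2. `AcR ⊤ V(p^d)`: `ι* φ = φ ∘ ι : MV F A → MV F' A` is linear over `κ`, surjective (`r : F → F'` additive with `ι (r v) = P v`), commutes with the actions and the rotations,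
   and `ι* φ = 0` iff `φ ∈ V (p^d)` (`card_eq`). The pair `(ι* f, ι* g)` is a cycle (`DU_comp`), by `hQ` it is `𝔇(α', β')`, lift by `lift_surjV`.
3. `AcR ⊤ ⊥` is `hF`.
4. `AcR V(p^d) ⊥` by `AcR.inner` from 3 and 2; `AcR V(1) ⊥` by `AcR.inner` from `AcR V(p^d) ⊥` and `AcR V(p^d) V(1)`.
5. `QV` for `F''`: `q* φ = φ ∘ q` is injective, commutes with everything, has values in `V 1` (`card_pos`), and for `ψ ∈ V 1` we have `ψ = q* (ψ ∘ s)`. For a cycle `(f, g)` the pair
   `(q* f, q* g)` is a cycle with values in `V 1`, so `= 𝔇(α, β)` with `α`, `β` in `V 1`; take `s* ∘ α`, `s* ∘ β`.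
-/

set_option autoImplicit false

namespace Pool.Agent.Helper39.DC

open Finset Pool.Agent.Helper27.Mess Pool.Agent.Helper39.DB
open scoped IsMulCommutative

section pull

variable {Γ : Type*} [Group Γ] {d p : ℕ} {z : Fin d → Subgroup.center Γ} {κ : Type*} [CommRing κ]
  {A : Type*} [AddCommGroup A] [Module κ A]

/-- The pull-back of multiadditive maps along an additive map. -/
private noncomputable def pb {F' F : Type*} [AddCommGroup F'] [AddCommGroup F] (d p : ℕ)
    (κ : Type*) [CommRing κ] (A : Type*) [AddCommGroup A] [Module κ A] (f : F' →+ F) :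
    MV d p F A →ₗ[κ] MV d p F' A where
  toFun φ := φ.compLinearMap (fun _ => f.toIntLinearMap)
  map_add' _ _ := rfl
  map_smul' _ _ := rfl

private theorem pb_apply {F' F : Type*} [AddCommGroup F'] [AddCommGroup F] (f : F' →+ F)
    (φ : MV d p F A) (v : Ix d p → F') : pb d p κ A f φ v = φ (fun i => f (v i)) := rfl

private theorem sgV_map {F' F : Type*} [AddCommGroup F'] [AddCommGroup F] (f : F' →+ F)
    (τ' : Γ →* AddMonoid.End F') (τ : Γ →* AddMonoid.End F)
    (hf : ∀ (g : Γ) (m : F'), f (τ' g m) = τ g (f m)) (i : Fin d) (v : Ix d p → F') :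
    sgV z τ i (fun w => f (v w)) = fun w => f (sgV z τ' i v w) := by
  funext w
  unfold sgV
  by_cases h : (w i : ℕ) + 1 < p
  · rw [if_pos h, if_pos h]
  · rw [if_neg h, if_neg h, hf]

private theorem pb_act {F' F : Type*} [AddCommGroup F'] [AddCommGroup F] (f : F' →+ F)
    (τ' : Γ →* AddMonoid.End F') (τ : Γ →* AddMonoid.End F) (ρ : Representation κ Γ A)
    (hf : ∀ (g : Γ) (m : F'), f (τ' g m) = τ g (f m)) (g : Γ) (φ : MV d p F A) :
    pb d p κ A f (rV τ ρ g φ) = rV τ' ρ g (pb d p κ A f φ) := by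
  apply MultilinearMap.ext
  intro v
  rw [pb_apply, rV_apply, rV_apply, pb_apply]
  congr 2
  funext i
  rw [hf]

private theorem pb_rot {F' F : Type*} [AddCommGroup F'] [AddCommGroup F] (f : F' →+ F)
    (τ' : Γ →* AddMonoid.End F') (τ : Γ →* AddMonoid.End F)
    (hf : ∀ (g : Γ) (m : F'), f (τ' g m) = τ g (f m)) (i : Fin d) (φ : MV d p F A) :
    pb d p κ A f (cV κ z τ i φ) = cV κ z τ' i (pb d p κ A f φ) := by
  apply MultilinearMap.ext
  intro v
  rw [pb_apply, cV_apply, cV_apply, pb_apply, sgV_map f τ' τ hf]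

private theorem pb_yy {F' F : Type*} [AddCommGroup F'] [AddCommGroup F] (f : F' →+ F)
    (τ' : Γ →* AddMonoid.End F') (τ : Γ →* AddMonoid.End F)
    (hf : ∀ (g : Γ) (m : F'), f (τ' g m) = τ g (f m)) (b : Fin d → κ) (φ : MV d p F A) :
    pb d p κ A f (yy b (cV κ z τ) φ) = yy b (cV κ z τ') (pb d p κ A f φ) := by
  unfold yy
  rw [LinearMap.sum_apply, LinearMap.sum_apply, map_sum]
  refine sum_congr rfl fun i _ => ?_
  rw [LinearMap.smul_apply, LinearMap.smul_apply, LinearMap.sub_apply, LinearMap.sub_apply,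
    map_smul, map_sub, pb_rot f τ' τ hf]
  rfl

private theorem pb_yyp {F' F : Type*} [AddCommGroup F'] [AddCommGroup F] (f : F' →+ F)
    (τ' : Γ →* AddMonoid.End F') (τ : Γ →* AddMonoid.End F)
    (hf : ∀ (g : Γ) (m : F'), f (τ' g m) = τ g (f m)) (b : Fin d → κ) (n : ℕ)
    (φ : MV d p F A) :
    pb d p κ A f ((yy b (cV κ z τ) ^ n) φ) = (yy b (cV κ z τ') ^ n) (pb d p κ A f φ) := by
  induction n generalizing φ with
  | zero => rfl
  | succ n ih =>
    rw [pow_succ, pow_succ]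
    change pb d p κ A f ((yy b (cV κ z τ) ^ n) (yy b (cV κ z τ) φ)) =
      (yy b (cV κ z τ') ^ n) (yy b (cV κ z τ') (pb d p κ A f φ))
    rw [ih, pb_yy f τ' τ hf]

private theorem FilV_one_congr {F : Type*} [AddCommGroup F] {K : AddSubgroup F} {ψ : MV d p F A}
    (hψ : ψ ∈ FilV d p κ A K 1) (v w : Ix d p → F) (h : ∀ i, v i - w i ∈ K) : ψ v = ψ w := by
  classical
  have e1 : v = w + fun i => v i - w i := by
    funext i
    change v i = w i + (v i - w i)
    abel
  rw [e1, MultilinearMap.map_add_univ]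
  rw [Finset.sum_eq_single (Finset.univ : Finset (Ix d p))]
  · rw [Finset.piecewise_univ]
  · intro S _ hS
    apply hψ
    rw [card_pos]
    have h3 : ∃ i, i ∉ S := by
      by_contra hcon
      apply hS
      rw [Finset.eq_univ_iff_forall]
      intro i
      by_contra hi
      exact hcon ⟨i, hi⟩
    obtain ⟨i, hi⟩ := h3
    refine ⟨i, ?_⟩
    rw [Finset.piecewise_eq_of_notMem _ _ _ hi]
    exact h i
  · intro h3
    exact absurd (Finset.mem_univ _) h3

end pull

variable {Γ : Type*} [Group Γ] {C : Type*} [AddCommGroup C] [Module (MonoidAlgebra ℤ Γ) C]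
  {κ : Type*} [Field κ] {A : Type*} [AddCommGroup A] [Module κ A] {d p : ℕ}
  {z : Fin d → Subgroup.center Γ} {ρ : Representation κ Γ A} {b : Fin d → κ} {G : GrRes Γ C}

theorem QV_step [Module.Projective (MonoidAlgebra ℤ Γ) C] (hp : p.Prime) [CharP κ p]
    (S : DSys G z) (hb : Ind p b) (hρ : ∀ i, ρ (z i : Γ) = 1)
    {F' F F'' : Type*} [AddCommGroup F'] [AddCommGroup F] [AddCommGroup F'']
    (τ' : Γ →* AddMonoid.End F') (τ : Γ →* AddMonoid.End F) (τ'' : Γ →* AddMonoid.End F'')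
    (ι : F' →+ F) (q : F →+ F'') (s : F'' →+ F) (hι : Function.Injective ι)
    (hιe : ∀ (g : Γ) (m : F'), ι (τ' g m) = τ g (ι m))
    (hqe : ∀ (g : Γ) (v : F), q (τ g v) = τ'' g (q v)) (hs : ∀ m, q (s m) = m)
    (hex : ∀ v, q v = 0 ↔ ∃ m, ι m = v) (hF : QV p S b τ ρ) (hQ : QV p S b τ' ρ) :
    QV p S b τ'' ρ := by
  classical
  have hκ : (p : κ) = 0 := CharP.cast_eq_zero κ p
  let K : AddSubgroup F := q.ker
  have memK : ∀ v, v ∈ K ↔ q v = 0 := fun v => AddMonoidHom.mem_ker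
  have hK : ∀ (g : Γ), ∀ v ∈ K, τ g v ∈ K := by
    intro g v hv
    rw [memK] at hv ⊢
    rw [hqe, hv, map_zero]
  let P : F →+ F := AddMonoidHom.id F - s.comp q
  have hPa : ∀ v, P v = v - s (q v) := fun v => rfl
  have hP : ∀ v, P v ∈ K := by
    intro v
    rw [memK, hPa, map_sub, hs, sub_self]
  have hP' : ∀ v ∈ K, P v = v := by
    intro v hv
    rw [memK] at hv
    rw [hPa, hv, map_zero, sub_zero]
  have hrot : RotV p z (rV (d := d) (p := p) τ ρ) (cV κ z τ) := rotV_cV (F := F) (A := A) hρ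
  have st : ∀ j, StbV (rV (d := d) (p := p) τ ρ) (cV κ z τ) (FilV d p κ A K j) :=
    fun j => stbV_FilV hK j
  have h1 : ∀ j, 1 ≤ j → j ≤ p ^ d →
      AcR p S b (rV (d := d) (p := p) τ ρ) (cV κ z τ) (FilV d p κ A K j) (FilV d p κ A K 1) := by
    intro j hj
    induction j, hj using Nat.le_induction with
    | base => intro _; exact AcR.refl _
    | succ j hj ih =>
      intro hjp
      obtain ⟨δ, μ, hW⟩ := wey_piece (z := z) (τ := τ) (ρ := ρ) hp hb hK P hP hP' hj
        (by omega : j < p ^ d)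
      exact AcR.trans hp hκ hrot (FilV_mono K hj) (FilV_mono K (Nat.le_succ j)) (st _) (st _) (st _)
        (relWey hp hκ hrot (FilV_mono K (Nat.le_succ j)) (st _) (st _) hW) (ih (by omega))
  -- the retraction
  have hr0 : ∀ v, ∃ m, ι m = P v := fun v => (hex _).1 ((memK _).1 (hP v))
  choose r0 hr0 using hr0
  let r : F →+ F' := AddMonoidHom.mk' r0 (by
    intro v w
    apply hι
    rw [map_add, hr0, hr0, hr0, map_add])
  have hr : ∀ v, ι (r v) = P v := fun v => hr0 v
  have hιK : ∀ m, ι m ∈ K := fun m => (memK _).2 ((hex _).2 ⟨m, rfl⟩)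
  have hrι : ∀ m, r (ι m) = m := by
    intro m
    apply hι
    rw [hr, hP' _ (hιK m)]
  have hsurj : Function.Surjective (pb d p κ A ι) := by
    intro φ
    refine ⟨pb d p κ A r φ, ?_⟩
    apply MultilinearMap.ext
    intro v
    rw [pb_apply, pb_apply]
    congr 1
    funext i
    exact hrι _
  have hker : ∀ φ : MV d p F A, pb d p κ A ι φ = 0 ↔ φ ∈ FilV d p κ A K (p ^ d) := by
    intro φ
    rw [mem_FilV]
    constructor
    · intro h v hv
      rw [card_eq] at hv
      have h2 : ∀ i, ∃ m, ι m = v i := fun i => (hex _).1 ((memK _).1 (hv i))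
      choose m hm using h2
      have h3 : pb d p κ A ι φ m = 0 := by
        rw [h]
        rfl
      rw [pb_apply] at h3
      have h4 : (fun i => ι (m i)) = v := funext hm
      rwa [h4] at h3
    · intro h
      apply MultilinearMap.ext
      intro v
      rw [pb_apply]
      exact h _ ((card_eq K _).2 fun i => hιK _)
  -- step 2
  have h2 : AcR p S b (rV (d := d) (p := p) τ ρ) (cV κ z τ) ⊤ (FilV d p κ A K (p ^ d)) := by
    intro f g hf hg _ _ h3 h4
    obtain ⟨α', β', hα', hβ', -, -, h5, h6⟩ := hQ ((pb d p κ A ι).toAddMonoidHom.comp f)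
      ((pb d p κ A ι).toAddMonoidHom.comp g)
      (by
        intro k x
        change pb d p κ A ι (f (act k x)) = rV τ' ρ k (pb d p κ A ι (f x))
        rw [hf, pb_act ι τ' τ ρ hιe])
      (by
        intro k x
        change pb d p κ A ι (g (act k x)) = rV τ' ρ k (pb d p κ A ι (g x))
        rw [hg, pb_act ι τ' τ ρ hιe])
      (fun x => Submodule.mem_top) (fun x => Submodule.mem_top)
      (by
        intro x
        rw [Submodule.mem_bot, DU_comp]
        change pb d p κ A ι (DU S (fun i => b i ^ p) f x) -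
          (yy b (cV κ z τ') ^ (p - 1)) (pb d p κ A ι (g x)) = 0
        rw [← pb_yyp ι τ' τ hιe, ← map_sub, hker]
        exact h3 x)
      (by
        intro x
        rw [Submodule.mem_bot, DU_comp]
        change yy b (cV κ z τ') (pb d p κ A ι (f x)) -
          pb d p κ A ι (DU S (fun i => b i ^ p) g x) = 0
        rw [← pb_yy ι τ' τ hιe, ← map_sub, hker]
        exact h4 x)
    obtain ⟨α, hα, hα2⟩ := lift_surjV (rV τ ρ) (rV τ' ρ) (pb d p κ A ι) hsurj
      (pb_act ι τ' τ ρ hιe) α' hα'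
    obtain ⟨β, hβ, hβ2⟩ := lift_surjV (rV τ ρ) (rV τ' ρ) (pb d p κ A ι) hsurj
      (pb_act ι τ' τ ρ hιe) β' hβ'
    have hα3 : (pb d p κ A ι).toAddMonoidHom.comp α = α' := AddMonoidHom.ext hα2
    have hβ3 : (pb d p κ A ι).toAddMonoidHom.comp β = β' := AddMonoidHom.ext hβ2
    refine ⟨α, β, hα, hβ, fun x => Submodule.mem_top, fun x => Submodule.mem_top, ?_, ?_⟩
    · intro x
      rw [← hker]
      rw [map_sub, map_sub, pb_yyp ι τ' τ hιe, hβ2, ← DU_comp, hα3]
      exact (Submodule.mem_bot κ).1 (h5 x)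
    · intro x
      rw [← hker]
      rw [map_sub, map_sub, pb_yy ι τ' τ hιe, hα2, ← DU_comp, hβ3]
      exact (Submodule.mem_bot κ).1 (h6 x)
  -- step 3
  have h3 : AcR p S b (rV (d := d) (p := p) τ ρ) (cV κ z τ)
      (⊤ : Submodule κ (MV d p F A)) ⊥ := hF
  -- step 4
  have hpd : 1 ≤ p ^ d := Nat.one_le_pow _ _ hp.pos
  have h4 : AcR p S b (rV (d := d) (p := p) τ ρ) (cV κ z τ) (FilV d p κ A K (p ^ d)) ⊥ :=
    AcR.inner hp hκ hrot bot_le le_top StbV.top (st (p ^ d)) StbV.bot h3 h2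
  have h5 : AcR p S b (rV (d := d) (p := p) τ ρ) (cV κ z τ) (FilV d p κ A K 1) ⊥ :=
    AcR.inner hp hκ hrot bot_le (FilV_mono K hpd) (st (p ^ d)) (st 1) StbV.bot h4
      (h1 (p ^ d) hpd le_rfl)
  -- step 5
  have hqV : ∀ φ : MV d p F'' A, pb d p κ A q φ ∈ FilV d p κ A K 1 := by
    intro φ
    rw [mem_FilV]
    intro v hv
    rw [card_pos] at hv
    obtain ⟨i, hi⟩ := hv
    rw [pb_apply]
    exact φ.map_coord_zero i ((memK _).1 hi)
  have hqinj : Function.Injective (pb d p κ A q) := by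
    intro φ ψ h
    apply MultilinearMap.ext
    intro v
    have h6 : pb d p κ A q φ (fun i => s (v i)) = pb d p κ A q ψ (fun i => s (v i)) := by rw [h]
    rw [pb_apply, pb_apply] at h6
    have h7 : (fun i => q (s (v i))) = v := funext fun i => hs _
    rwa [h7] at h6
  have hqs : ∀ ψ ∈ FilV d p κ A K 1, pb d p κ A q (pb d p κ A s ψ) = ψ := by
    intro ψ hψ
    apply MultilinearMap.ext
    intro v
    rw [pb_apply, pb_apply]
    refine FilV_one_congr hψ _ _ fun i => ?_
    rw [memK, map_sub, hs, sub_self]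
  intro f g hf hg _ _ h6 h7
  obtain ⟨α, β, hα, hβ, hα1, hβ1, h8, h9⟩ := h5 ((pb d p κ A q).toAddMonoidHom.comp f)
    ((pb d p κ A q).toAddMonoidHom.comp g)
    (by
      intro k x
      change pb d p κ A q (f (act k x)) = rV τ ρ k (pb d p κ A q (f x))
      rw [hf, pb_act q τ τ'' ρ hqe])
    (by
      intro k x
      change pb d p κ A q (g (act k x)) = rV τ ρ k (pb d p κ A q (g x))
      rw [hg, pb_act q τ τ'' ρ hqe])
    (fun x => hqV _) (fun x => hqV _)
    (by
      intro x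
      rw [Submodule.mem_bot, DU_comp]
      change pb d p κ A q (DU S (fun i => b i ^ p) f x) -
        (yy b (cV κ z τ) ^ (p - 1)) (pb d p κ A q (g x)) = 0
      rw [← pb_yyp q τ τ'' hqe, ← map_sub, (Submodule.mem_bot κ).1 (h6 x), map_zero])
    (by
      intro x
      rw [Submodule.mem_bot, DU_comp]
      change yy b (cV κ z τ) (pb d p κ A q (f x)) -
        pb d p κ A q (DU S (fun i => b i ^ p) g x) = 0
      rw [← pb_yy q τ τ'' hqe, ← map_sub, (Submodule.mem_bot κ).1 (h7 x), map_zero])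
  have hEs : ∀ γ : C →+ MV d p F A, EqvR (rV τ ρ) γ → (∀ x, γ x ∈ FilV d p κ A K 1) →
      EqvR (rV τ'' ρ) ((pb d p κ A s).toAddMonoidHom.comp γ) := by
    intro γ hγ hγ1 k x
    apply hqinj
    change pb d p κ A q (pb d p κ A s (γ (act k x))) =
      pb d p κ A q (rV τ'' ρ k (pb d p κ A s (γ x)))
    rw [hqs _ (hγ1 _), pb_act q τ τ'' ρ hqe, hqs _ (hγ1 _), hγ]
  have hDq : ∀ γ : C →+ MV d p F A, (∀ x, γ x ∈ FilV d p κ A K 1) → ∀ x,
      pb d p κ A q (DU S (fun i => b i ^ p) ((pb d p κ A s).toAddMonoidHom.comp γ) x) =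
        DU S (fun i => b i ^ p) γ x := by
    intro γ hγ1 x
    rw [DU_comp, hqs _ (DU_mem S _ hγ1 x)]
  refine ⟨(pb d p κ A s).toAddMonoidHom.comp α, (pb d p κ A s).toAddMonoidHom.comp β,
    hEs α hα hα1, hEs β hβ hβ1, fun x => Submodule.mem_top, fun x => Submodule.mem_top, ?_, ?_⟩
  · intro x
    rw [Submodule.mem_bot]
    apply hqinj
    rw [map_zero, map_sub, map_sub, pb_yyp q τ τ'' hqe, hDq α hα1]
    change pb d p κ A q (f x) - (DU S (fun i => b i ^ p) α x -
      (yy b (cV κ z τ) ^ (p - 1)) (pb d p κ A q (pb d p κ A s (β x)))) = 0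
    rw [hqs _ (hβ1 _)]
    exact (Submodule.mem_bot κ).1 (h8 x)
  · intro x
    rw [Submodule.mem_bot]
    apply hqinj
    rw [map_zero, map_sub, map_sub, pb_yy q τ τ'' hqe, hDq β hβ1]
    change pb d p κ A q (g x) - (yy b (cV κ z τ) (pb d p κ A q (pb d p κ A s (α x))) -
      DU S (fun i => b i ^ p) β x) = 0
    rw [hqs _ (hα1 _)]
    exact (Submodule.mem_bot κ).1 (h9 x)

end Pool.Agent.Helper39.DC
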