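import Pool.Agent.Helper39.DC.Conv

/-!
# DC-28 (project DC): the version for a subgroup of the centre

`A` a subgroup of the centre of `Γ` such that every nontrivial `z ∈ A` fails to be a `p ^ k`-th power in `Γ`
for some prime power `p ^ k`: then `A` is finitely generated and `t ^ B ∈ A` for all `t` with a positive power in `A`.
-/

set_option autoImplicit false

namespace Pool.Agent.Helper39.DC

open Finset Pool.Agent.Helper27.Mess Pool.Agent.Helper39.DB
open scoped IsMulCommutative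

universe u v

section exact

variable {Γ : Type u} [Group Γ] {C : Type v} [AddCommGroup C] [Module (MonoidAlgebra ℤ Γ) C]

/-- Exactness at all nonzero points for all independent families of `m` elements of `A`. -/
def PA (G : GrRes Γ C) (A : Subgroup (Subgroup.center Γ)) (m : ℕ) : Prop :=
  ∀ (a : Fin m → Subgroup.center Γ), (∀ i, a i ∈ A) →
    (∀ n : Fin m → ℤ, pr a n = 1 → n = 0) →
    ∀ (S : DSys G a) (L : Type) [Field L] [NumberField L] (β : Fin m → L), β ≠ 0 →
      ExactAt S L β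

theorem pr_mem {A : Subgroup (Subgroup.center Γ)} {r : ℕ} {a : Fin r → Subgroup.center Γ}
    (haA : ∀ i, a i ∈ A) (n : Fin r → ℤ) : pr a n ∈ A := by
  unfold pr
  exact A.prod_mem fun j _ => A.zpow_mem (haA j) _

theorem step_depA (G : GrRes Γ C) (A : Subgroup (Subgroup.center Γ)) (m : ℕ) (hP : PA G A m)
    {a : Fin (m + 1) → Subgroup.center Γ} (haA : ∀ i, a i ∈ A)
    (ha : ∀ n : Fin (m + 1) → ℤ, pr a n = 1 → n = 0) (S : DSys G a) (L : Type) [Field L]
    [NumberField L] (β : Fin (m + 1) → L) (hβ : β ≠ 0) (c : Fin (m + 1) → ℤ) (hc : c ≠ 0)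
    (h : ∑ j, (c j : L) * β j = 0) : ExactAt S L β := by
  obtain ⟨v, t, hv, ht⟩ := linQ β c hc h
  have ht0 : t ≠ 0 := by
    rintro rfl
    apply hβ
    funext j
    rw [ht j]
    simp
  obtain ⟨S', hS'⟩ := subV S v
  have hz : ∀ n : Fin m → ℤ, pr (fun i => pr a (v i)) n = 1 → n = 0 := by
    intro n hn
    apply hv
    have h2 := ha _ ((pr_pr a v n).symm.trans hn)
    intro j
    exact congrFun h2 j
  have hβ' : (fun j => ∑ i, t i * ((v i j : ℤ) : L)) = β := funext fun j => (ht j).symm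
  have key : ∀ f ∈ Inv (⊤ : Subgroup Γ) C L, S'.D t f = S.D β f := by
    intro f hf
    rw [hS' L t f hf, hβ']
  intro f hf hDf
  obtain ⟨g, hg, hgf⟩ := hP _ (fun i => pr_mem haA (v i)) hz S' L t ht0 f hf (by rw [key f hf, hDf])
  exact ⟨g, hg, by rw [← key g hg, hgf]⟩

theorem step_indA [Module.Finite (MonoidAlgebra ℤ Γ) C] [Module.Projective (MonoidAlgebra ℤ Γ) C]
    (G : GrRes Γ C) (A : Subgroup (Subgroup.center Γ)) (m : ℕ) (hm : 1 ≤ m) (hP : PA G A m)
    {a : Fin (m + 1) → Subgroup.center Γ} (haA : ∀ i, a i ∈ A)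
    (ha : ∀ n : Fin (m + 1) → ℤ, pr a n = 1 → n = 0) (S : DSys G a) (L : Type) [Field L]
    [NumberField L] (β : Fin (m + 1) → L)
    (h : ∀ c : Fin (m + 1) → ℤ, ∑ j, (c j : L) * β j = 0 → c = 0) : ExactAt S L β := by
  classical
  have hβ0 : β 0 ≠ 0 := by
    intro h0
    have h1 := h (Pi.single 0 1) (by
      rw [Finset.sum_eq_single 0]
      · rw [h0, mul_zero]
      · intro j _ hj
        rw [Pi.single_eq_of_ne hj, Int.cast_zero, zero_mul]
      · intro h2
        exact absurd (Finset.mem_univ _) h2)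
    have h2 := congrFun h1 0
    rw [Pi.single_eq_same] at h2
    exact one_ne_zero h2
  -- the family without the first element
  let a' : Fin m → Subgroup.center Γ := fun j => a (Fin.succ j)
  have hpr : ∀ v : Fin (m + 1) → ℤ, v 0 = 0 → pr a v = pr a' (fun j => v (Fin.succ j)) := by
    intro v hv
    rw [pr, Fin.prod_univ_succ, hv, zpow_zero, one_mul]
    rfl
  have ha' : ∀ n : Fin m → ℤ, pr a' n = 1 → n = 0 := by
    intro n hn
    have h1 : pr a (Fin.cons 0 n : Fin (m + 1) → ℤ) = 1 := by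
      rw [hpr _ (Fin.cons_zero _ _)]
      simpa using hn
    have h2 := ha _ h1
    funext j
    have h3 := congrFun h2 (Fin.succ j)
    rw [Fin.cons_succ] at h3
    exact h3
  obtain ⟨S''⟩ := exists_dSys G a'
  choose B N hB hω using fun j => exists_coboundary S''
    (hP a' (fun j => haA (Fin.succ j)) ha' S'') j
  -- scale
  refine exact_scale S (⊤ : Subgroup Γ) β (β 0)⁻¹ (inv_ne_zero hβ0) ?_
  change ExactAt S L (fun j => (β 0)⁻¹ * β j)
  let j1 : Fin (m + 1) := Fin.succ ⟨0, hm⟩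
  have hj1 : j1 ≠ 0 := Fin.succ_ne_zero _
  refine exact_indep S L (fun j => (β 0)⁻¹ * β j) 0 j1 (inv_mul_cancel₀ hβ0) ?_
    (∑ j, (B j).natAbs) ?_
  · rintro ⟨q, hq⟩
    have hq' : (β 0)⁻¹ * β j1 = (q : L) := by
      rw [← hq]
      exact eq_ratCast (algebraMap ℚ L) q
    have hden : (q.den : L) ≠ 0 := by
      exact_mod_cast q.den_ne_zero
    have h1 : (q.den : L) * β j1 = (q.num : L) * β 0 := by
      have h2 : β j1 = (q : L) * β 0 := by
        rw [← hq']
        field_simp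
      have h3 : (q : L) = (q.num : L) / (q.den : L) := Rat.cast_def q
      rw [h2, h3]
      field_simp
    have h4 := h (Pi.single j1 (q.den : ℤ) + Pi.single 0 (-q.num)) (by
      have e1 : ∀ j, (((Pi.single j1 (q.den : ℤ) + Pi.single 0 (-q.num) :
          Fin (m + 1) → ℤ) j : ℤ) : L) * β j =
          ((Pi.single j1 (q.den : L) : Fin (m + 1) → L) j) * β j +
          ((Pi.single 0 (-(q.num : L)) : Fin (m + 1) → L) j) * β j := by
        intro j
        rw [← add_mul]
        congr 1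
        rw [Pi.add_apply, Int.cast_add]
        congr 1
        · by_cases hj : j = j1
          · subst hj
            rw [Pi.single_eq_same, Pi.single_eq_same]
            simp
          · rw [Pi.single_eq_of_ne hj, Pi.single_eq_of_ne hj, Int.cast_zero]
        · by_cases hj : j = 0
          · subst hj
            rw [Pi.single_eq_same, Pi.single_eq_same, Int.cast_neg]
          · rw [Pi.single_eq_of_ne hj, Pi.single_eq_of_ne hj, Int.cast_zero]
      rw [Finset.sum_congr rfl fun j _ => e1 j, Finset.sum_add_distrib]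
      have e2 : ∑ j, ((Pi.single j1 (q.den : L) : Fin (m + 1) → L) j) * β j =
          (q.den : L) * β j1 := by
        rw [Finset.sum_eq_single j1]
        · rw [Pi.single_eq_same]
        · intro j _ hj
          rw [Pi.single_eq_of_ne hj, zero_mul]
        · intro h2
          exact absurd (Finset.mem_univ _) h2
      have e3 : ∑ j, ((Pi.single 0 (-(q.num : L)) : Fin (m + 1) → L) j) * β j =
          -(q.num : L) * β 0 := by
        rw [Finset.sum_eq_single 0]
        · rw [Pi.single_eq_same]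
        · intro j _ hj
          rw [Pi.single_eq_of_ne hj, zero_mul]
        · intro h2
          exact absurd (Finset.mem_univ _) h2
      rw [e2, e3, h1]
      ring)
    have h5 := congrFun h4 j1
    rw [Pi.add_apply, Pi.single_eq_same, Pi.single_eq_of_ne hj1, add_zero, Pi.zero_apply] at h5
    exact q.den_ne_zero (by exact_mod_cast h5)
  · intro p hp hP0 v hv0 hv g hg
    obtain ⟨j, hj⟩ := hv
    have hj0 : j ≠ 0 := by
      rintro rfl
      rw [hv0] at hj
      exact hj (dvd_zero _)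
    obtain ⟨j', rfl⟩ := Fin.exists_succ_eq.2 hj0
    have hg1 : g ≠ 1 := by
      rintro rfl
      rw [one_pow] at hg
      have h1 : pr a v = 1 := Subtype.ext hg.symm
      have h2 := ha v h1
      rw [h2] at hj
      exact hj (dvd_zero _)
    rw [hpr v hv0] at hg
    obtain ⟨ω, hωinv, hDω⟩ := hω j' (fun j => v (Fin.succ j))
    have h3 := root_lemma S'' g (fun k hk h => hg1 (torsion_free G g k hk h)) p hp.pos
      (fun j => v (Fin.succ j)) hg _ ω hωinv hDω
    have hpZ : Prime (p : ℤ) := Nat.prime_iff_prime_int.1 hp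
    rcases hpZ.dvd_or_dvd h3 with h4 | h4
    · have h5 : p ∣ (B j').natAbs := by
        have := Int.natAbs_dvd_natAbs.2 h4
        simpa using this
      have h6 : p ≤ (B j').natAbs := Nat.le_of_dvd (Int.natAbs_pos.2 (hB j')) h5
      have h7 : (B j').natAbs ≤ ∑ j, (B j).natAbs :=
        Finset.single_le_sum (f := fun j => (B j).natAbs) (fun j _ => Nat.zero_le _)
          (Finset.mem_univ j')
      omega
    · exact hj (hpZ.dvd_of_dvd_pow h4)

theorem ppA [Module.Finite (MonoidAlgebra ℤ Γ) C] [Module.Projective (MonoidAlgebra ℤ Γ) C]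
    (G : GrRes Γ C) (A : Subgroup (Subgroup.center Γ)) (hroot : ∀ z ∈ A, z ≠ 1 →
      ∃ p k : ℕ, p.Prime ∧ ∀ t : Γ, t ^ p ^ k ≠ (z : Γ)) (m : ℕ) : PA G A m := by
  induction m with
  | zero =>
    intro a _ ha S L _ _ β hβ
    exact absurd (funext fun j => Fin.elim0 j) hβ
  | succ m ih =>
    intro a haA ha S L _ _ β hβ
    rcases Nat.eq_zero_or_pos m with hm | hm
    · subst hm
      have h1 : a 0 ≠ 1 := by
        intro h0
        have h2 := ha (fun _ => 1) (by
          rw [pr]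
          refine Finset.prod_eq_one fun j _ => ?_
          have : j = 0 := Fin.ext (by have := j.2; simp only [Fin.val_zero]; omega)
          rw [this, h0, one_zpow])
        have h3 := congrFun h2 0
        exact one_ne_zero h3
      obtain ⟨p, k, hp, hk⟩ := hroot (a 0) (haA 0) h1
      exact exact_one G a S hp k hk L β hβ
    · by_cases h : ∃ c : Fin (m + 1) → ℤ, c ≠ 0 ∧ ∑ j, (c j : L) * β j = 0
      · obtain ⟨c, hc, hs⟩ := h
        exact step_depA G A m ih haA ha S L β hβ c hc hs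
      · refine step_indA G A m hm ih haA ha S L β fun c hs => ?_
        by_contra hc
        exact h ⟨c, hc, hs⟩

end exact

variable {Γ : Type u} [Group Γ]

/-- Group theory: the conclusion from the bounded orders. -/
theorem fg_of_boundA {r : ℕ} (htf : ∀ (t : Γ) (q : ℕ), 0 < q → t ^ q = 1 → t = 1)
    (A : Subgroup (Subgroup.center Γ))
    (a : Fin r → Subgroup.center Γ) (haA : ∀ i, a i ∈ A)
    (ha : ∀ m : Fin r → ℤ, ∏ j, a j ^ m j = 1 → m = 0)
    (hmax : ∀ t ∈ A, ∃ q : ℕ, 0 < q ∧ ∃ m : Fin r → ℤ, t ^ q = pr a m)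
    (B : ℕ) (hB : 0 < B)
    (hbound : ∀ (t : Γ) (q : ℕ) (_ : 0 < q) (m : Fin r → ℤ), t ^ q = (pr a m : Γ) →
      (∀ q' : ℕ, 0 < q' → q' < q → ∀ m' : Fin r → ℤ, t ^ q' ≠ (pr a m' : Γ)) → q ∣ B) :
    A.FG ∧ ∃ B : ℕ, 0 < B ∧ ∀ t : Γ, (∃ q : ℕ, 0 < q ∧ ∃ w ∈ A, t ^ q = (w : Γ)) →
      ∃ w ∈ A, t ^ B = (w : Γ) := by
  classical
  have hinj : ∀ m m' : Fin r → ℤ, pr a m = pr a m' → m = m' := by
    intro m m' h
    have h1 : pr a (m + -m') = 1 := by
      rw [pr_add, pr_neg, h, mul_inv_cancel]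
    have h2 := ha _ h1
    rw [← sub_eq_add_neg] at h2
    exact sub_eq_zero.1 h2
  have hpow : ∀ t : Γ, (∃ q : ℕ, 0 < q ∧ ∃ m : Fin r → ℤ, t ^ q = (pr a m : Γ)) →
      ∃ m : Fin r → ℤ, t ^ B = (pr a m : Γ) := by
    intro t ht
    obtain ⟨hq, m, hm⟩ := Nat.find_spec ht
    have hdvd : Nat.find ht ∣ B := by
      refine hbound t _ hq m hm ?_
      intro q' hq' hlt m' hm'
      exact Nat.find_min ht hlt ⟨hq', m', hm'⟩
    obtain ⟨k, hk⟩ := hdvd
    refine ⟨k • m, ?_⟩
    rw [hk, pow_mul, hm, pr_nsmul]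
    simp
  have hpowc : ∀ t : A, ∃ m : Fin r → ℤ, (t : Subgroup.center Γ) ^ B = pr a m := by
    intro t
    obtain ⟨q, hq, m, hm⟩ := hmax t t.2
    obtain ⟨m', hm'⟩ := hpow (t : Subgroup.center Γ) ⟨q, hq, m, by rw [← hm]; simp⟩
    refine ⟨m', Subtype.ext ?_⟩
    rw [← hm']
    simp
  refine ⟨?_, B, hB, ?_⟩
  · choose φ hφ using hpowc
    let Φ : Additive A →+ (Fin r → ℤ) :=
      { toFun := fun t => φ (Additive.toMul t)
        map_zero' := by
          apply hinj
          rw [← hφ, pr_zero]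
          simp
        map_add' := by
          intro s t
          apply hinj
          rw [← hφ, pr_add, ← hφ, ← hφ, toMul_add, Subgroup.coe_mul, mul_pow] }
    have hΦ : Function.Injective Φ := by
      rw [injective_iff_map_eq_zero]
      intro t ht
      have h1 : φ (Additive.toMul t) = 0 := ht
      have h2 := hφ (Additive.toMul t)
      rw [h1, pr_zero] at h2
      have h3 : (((Additive.toMul t : A) : Subgroup.center Γ) : Γ) ^ B = 1 := by
        have := congrArg Subtype.val h2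
        simpa using this
      have h4 := htf _ B hB h3
      have h5 : Additive.toMul t = 1 := Subtype.ext (Subtype.ext h4)
      exact h5
    have hfin : Module.Finite ℤ (Additive A) :=
      Module.Finite.of_injective Φ.toIntLinearMap hΦ
    rw [← Group.fg_iff_subgroup_fg, GroupFG.iff_add_fg, ← Module.Finite.iff_addGroup_fg]
    exact hfin
  · rintro t ⟨q, hq, w, hw, htq⟩
    obtain ⟨q', hq', m, hm⟩ := hmax w hw
    obtain ⟨m', hm'⟩ := hpow t ⟨q * q', Nat.mul_pos hq hq', m, by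
      rw [pow_mul, ← hm, htq]
      simp⟩
    exact ⟨pr a m', pr_mem haA m', hm'⟩

/-- A maximal independent family of elements of `A`. -/
theorem exists_max_familyA {C : Type v} [AddCommGroup C] [Module (MonoidAlgebra ℤ Γ) C]
    [Module.Projective (MonoidAlgebra ℤ Γ) C] (G : GrRes Γ C) (A : Subgroup (Subgroup.center Γ)) :
    ∃ (r : ℕ) (a : Fin r → Subgroup.center Γ), (∀ i, a i ∈ A) ∧
      (∀ m : Fin r → ℤ, ∏ j, a j ^ m j = 1 → m = 0) ∧
      ∀ t ∈ A, ∃ q : ℕ, 0 < q ∧ ∃ m : Fin r → ℤ, t ^ q = pr a m := by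
  classical
  let P : ℕ → Prop := fun r => ∃ a : Fin r → Subgroup.center Γ, (∀ i, a i ∈ A) ∧
    ∀ m : Fin r → ℤ, ∏ j, a j ^ m j = 1 → m = 0
  have hP0 : P 0 := ⟨Fin.elim0, fun i => Fin.elim0 i, fun m _ => funext fun j => Fin.elim0 j⟩
  have hbd : ∀ r, P r → r ≤ G.n := fun r ⟨a, _, ha⟩ => rank_le G a ha
  let r := Nat.findGreatest P G.n
  have hPr : P r := Nat.findGreatest_spec (Nat.zero_le _) hP0
  obtain ⟨a, haA, ha⟩ := hPr
  refine ⟨r, a, haA, ha, fun t ht => ?_⟩
  have hnot : ¬ P (r + 1) := by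
    intro h
    have h1 := hbd _ h
    exact Nat.findGreatest_is_greatest (Nat.lt_succ_self r) h1 h
  have h2 : ∃ m : Fin (r + 1) → ℤ,
      ∏ j, (Fin.snoc a t : Fin (r + 1) → Subgroup.center Γ) j ^ m j = 1 ∧ m ≠ 0 := by
    by_contra hcon
    push Not at hcon
    refine hnot ⟨Fin.snoc a t, fun i => ?_, hcon⟩
    refine Fin.lastCases ?_ (fun i => ?_) i
    · rw [Fin.snoc_last]
      exact ht
    · rw [Fin.snoc_castSucc]
      exact haA i
  obtain ⟨m, hm1, hm0⟩ := h2
  rw [Fin.prod_univ_castSucc] at hm1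
  simp only [Fin.snoc_castSucc, Fin.snoc_last] at hm1
  have hlast : m (Fin.last r) ≠ 0 := by
    intro h
    rw [h, zpow_zero, mul_one] at hm1
    have h3 := ha (fun j => m (Fin.castSucc j)) hm1
    apply hm0
    funext j
    refine Fin.lastCases h (fun i => congrFun h3 i) j
  have h4 : t ^ m (Fin.last r) = pr a (-fun j => m (Fin.castSucc j)) := by
    rw [pr_neg]
    exact (inv_eq_of_mul_eq_one_right hm1).symm
  rcases lt_or_gt_of_ne hlast with h | h
  · refine ⟨(-m (Fin.last r)).toNat, by omega, fun j => m (Fin.castSucc j), ?_⟩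
    rw [← zpow_natCast, Int.toNat_of_nonneg (by omega), zpow_neg, h4, pr_neg, inv_inv]
  · refine ⟨(m (Fin.last r)).toNat, by omega, -fun j => m (Fin.castSucc j), ?_⟩
    rw [← zpow_natCast, Int.toNat_of_nonneg (by omega), h4]

/-- The theorem for a subgroup of the centre. -/
theorem sub_main (Γ : Type u) [Group Γ] (hΓ : IsTypeFP Γ) (A : Subgroup (Subgroup.center Γ))
    (hroot : ∀ z ∈ A, z ≠ 1 → ∃ p k : ℕ, p.Prime ∧ ∀ t : Γ, t ^ p ^ k ≠ (z : Γ)) :
    A.FG ∧ ∃ B : ℕ, 0 < B ∧ ∀ t : Γ, (∃ q : ℕ, 0 < q ∧ ∃ w ∈ A, t ^ q = (w : Γ)) →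
      ∃ w ∈ A, t ^ B = (w : Γ) := by
  classical
  obtain ⟨R⟩ := hΓ
  obtain ⟨C, _, _, hfin, hproj, ⟨G⟩⟩ := exists_grRes Γ R
  have htf : ∀ (t : Γ) (q : ℕ), 0 < q → t ^ q = 1 → t = 1 := fun t q hq ht =>
    torsion_free G t q hq ht
  obtain ⟨r, a, haA, ha, hmax⟩ := exists_max_familyA G A
  obtain ⟨S⟩ := exists_dSys G a
  have hex := fun (L : Type) (_ : Field L) (_ : NumberField L) (β : Fin r → L) (hβ : β ≠ 0) =>
    ppA G A hroot r a haA ha S L β hβ
  choose B N hB hω using fun j => exists_coboundary S hex j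
  refine fg_of_boundA htf A a haA ha hmax (∏ j, (B j).natAbs)
    (Finset.prod_pos fun j _ => Int.natAbs_pos.2 (hB j)) ?_
  intro t q hq m htq hmin
  refine root_order_dvd htf a B N ?_ t q hq m htq hmin
  intro t q m hq htq ht j
  obtain ⟨ω, hωinv, hDω⟩ := hω j m
  exact root_lemma S t (fun k hk h => ht (htf t k hk h)) q hq m htq _ ω hωinv hDω

/-- The theorem for a subgroup of the centre, with the converse. -/
theorem sub_iff (Γ : Type u) [Group Γ] (hΓ : IsTypeFP Γ) (A : Subgroup Γ)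
    (hA : A ≤ Subgroup.center Γ) :
    (A.FG ∧ ∃ B : ℕ, 0 < B ∧ ∀ t : Γ, (∃ q : ℕ, 0 < q ∧ t ^ q ∈ A) → t ^ B ∈ A) ↔
      ∀ z ∈ A, z ≠ 1 → ∃ p k : ℕ, p.Prime ∧ ∀ t : Γ, t ^ p ^ k ≠ z := by
  classical
  let A' : Subgroup (Subgroup.center Γ) := A.subgroupOf (Subgroup.center Γ)
  have hA' : ∀ w : Subgroup.center Γ, w ∈ A' ↔ (w : Γ) ∈ A := fun w => Subgroup.mem_subgroupOf
  constructor
  · rintro ⟨hfg, B, hB, hBt⟩ z hz hz1
    obtain ⟨R⟩ := hΓ
    obtain ⟨C, _, _, hfin, hproj, ⟨G⟩⟩ := exists_grRes Γ R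
    have htf : ∀ (t : Γ) (q : ℕ), 0 < q → t ^ q = 1 → t = 1 := fun t q hq ht =>
      torsion_free G t q hq ht
    by_contra hcon
    push Not at hcon
    have h3 : ∀ k : ℕ, ∃ t : Γ, t ^ 2 ^ k = z := fun k => hcon 2 k Nat.prime_two
    let e : A' ≃* A := Subgroup.subgroupOfEquivOfLe hA
    have hfg' : Group.FG A' := by
      have h0 : Group.FG A := (Group.fg_iff_subgroup_fg _).2 hfg
      exact Group.fg_of_surjective (f := e.symm.toMonoidHom) e.symm.surjective
    have h4 : (⟨⟨z ^ B, hA (A.pow_mem hz B)⟩, (hA' _).2 (A.pow_mem hz B)⟩ : A') = 1 := by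
      refine eq_one_of_pow hfg' ?_ _ ?_
      · intro t q hq ht
        apply Subtype.ext
        apply Subtype.ext
        refine htf _ q hq ?_
        have h5 := congrArg Subtype.val (congrArg Subtype.val ht)
        simpa using h5
      · intro k
        obtain ⟨t, ht⟩ := h3 k
        have h5 : t ^ B ∈ A := hBt t ⟨2 ^ k, by positivity, by rw [ht]; exact hz⟩
        refine ⟨⟨⟨t ^ B, hA h5⟩, (hA' _).2 h5⟩, Subtype.ext (Subtype.ext ?_)⟩
        change (t ^ B) ^ 2 ^ k = z ^ B
        rw [← pow_mul, mul_comm, pow_mul, ht]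
    have h5 : z ^ B = 1 := congrArg Subtype.val (congrArg Subtype.val h4)
    exact hz1 (htf z B hB h5)
  · intro h
    obtain ⟨h1, B, hB, hBt⟩ := sub_main Γ hΓ A' (by
      intro z hz hz1
      exact h z ((hA' z).1 hz) (fun h0 => hz1 (Subtype.ext h0)))
    refine ⟨?_, B, hB, ?_⟩
    · have h0 : Group.FG A' := (Group.fg_iff_subgroup_fg _).2 h1
      let e : A' ≃* A := Subgroup.subgroupOfEquivOfLe hA
      exact (Group.fg_iff_subgroup_fg _).1
        (Group.fg_of_surjective (f := e.toMonoidHom) e.surjective)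
    · rintro t ⟨q, hq, htq⟩
      obtain ⟨w, hw, hw2⟩ := hBt t ⟨q, hq, ⟨t ^ q, hA htq⟩, (hA' _).2 htq, rfl⟩
      rw [hw2]
      exact (hA' w).1 hw

end Pool.Agent.Helper39.DC
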